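import Mathlib

/-! Linear algebra: Burnside, Kolchin, common eigenvectors, Jacobson's version of Engel. -/

set_option linter.style.haveILetI false

namespace Pool.Agent.Lib.MP_c0708e_al.Tits

open Module

lemma burnside {Ω M : Type} [Field Ω] [IsAlgClosed Ω] [AddCommGroup M] [Module Ω M]
    [FiniteDimensional Ω M] [Nontrivial M] (𝒜 : Subalgebra Ω (Module.End Ω M))
    (h : ∀ W : Submodule Ω M, (∀ a ∈ 𝒜, ∀ x ∈ W, a x ∈ W) → W = ⊥ ∨ W = ⊤) : 𝒜 = ⊤ := by
  haveI : IsSimpleModule 𝒜 M := by
    refine { exists_pair_ne := ?_, eq_bot_or_eq_top := fun W => ?_ }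
    · exact exists_pair_ne _
    · rcases h (W.restrictScalars Ω) (fun a ha x hx => W.smul_mem ⟨a, ha⟩ hx) with h1 | h1
      · left; exact (Submodule.restrictScalars_eq_bot_iff _ _ _).1 h1
      · right; exact (Submodule.restrictScalars_eq_top_iff _ _ _).1 h1
  rw [eq_top_iff]
  intro T _
  have hs := (IsSimpleModule.algebraMap_end_bijective_of_isAlgClosed (A := 𝒜) (V := M) Ω).2
  let T' : Module.End (Module.End 𝒜 M) M :=
    { toFun := T
      map_add' := T.map_add
      map_smul' := fun c x => by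
        obtain ⟨t, rfl⟩ := hs c
        simp }
  classical
  obtain ⟨r, hr⟩ := jacobson_density T' (Finset.univ.image (Module.finBasis Ω M))
  have : T = r := by
    apply (Module.finBasis Ω M).ext
    intro i
    exact hr _ (Finset.mem_image_of_mem _ (Finset.mem_univ i))
  rw [this]; exact r.2

lemma burnside_rep {Ω M H : Type} [Field Ω] [IsAlgClosed Ω] [AddCommGroup M] [Module Ω M]
    [FiniteDimensional Ω M] [Nontrivial M] [Monoid H] (ρ : H →* Module.End Ω M)
    (h : ∀ W : Submodule Ω M, (∀ g, ∀ x ∈ W, ρ g x ∈ W) → W = ⊥ ∨ W = ⊤) :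
    Submodule.span Ω (Set.range ρ) = ⊤ := by
  have := burnside (Algebra.adjoin Ω (Set.range ρ))
    (fun W hW => h W fun g => hW _ (Algebra.subset_adjoin ⟨g, rfl⟩))
  have h2 := Algebra.adjoin_eq_span (R := Ω) (s := Set.range ρ)
  rw [this, ← MonoidHom.coe_mrange, Submonoid.closure_eq] at h2
  rw [← MonoidHom.coe_mrange, ← h2]
  rfl

lemma exists_min_inv {Ω M ι : Type} [Field Ω] [AddCommGroup M] [Module Ω M]
    [FiniteDimensional Ω M] [Nontrivial M] (f : ι → Module.End Ω M) :
    ∃ W : Submodule Ω M, W ≠ ⊥ ∧ (∀ i, ∀ x ∈ W, f i x ∈ W) ∧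
      ∀ U : Submodule Ω M, U ≤ W → U ≠ ⊥ → (∀ i, ∀ x ∈ U, f i x ∈ U) → U = W := by
  obtain ⟨W, ⟨h1, h2⟩, h3⟩ := (wellFounded_lt (α := Submodule Ω M)).has_min
    {W | W ≠ ⊥ ∧ ∀ i, ∀ x ∈ W, f i x ∈ W} ⟨⊤, top_ne_bot, fun _ _ _ => trivial⟩
  refine ⟨W, h1, h2, fun U hU hU0 hUi => ?_⟩
  by_contra hne
  exact h3 U ⟨hU0, hUi⟩ (lt_of_le_of_ne hU hne)

lemma kolchin {Ω M H : Type} [Field Ω] [IsAlgClosed Ω] [AddCommGroup M] [Module Ω M]
    [FiniteDimensional Ω M] [Nontrivial M] [Monoid H] (ρ : Representation Ω H M)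
    (h : ∀ g, IsNilpotent (ρ g - 1)) : ∃ x : M, x ≠ 0 ∧ ∀ g, ρ g x = x := by
  obtain ⟨W, h1, h2, h3⟩ := exists_min_inv (fun g => ρ g)
  haveI : Nontrivial W := Submodule.nontrivial_iff_ne_bot.2 h1
  let ρ' := ρ.subrepresentation W (fun g x hx => h2 g x hx)
  have hspan : Submodule.span Ω (Set.range ρ') = ⊤ := by
    apply burnside_rep
    intro U hU
    by_cases hU0 : U = ⊥
    · exact Or.inl hU0
    · right
      have := h3 (U.map W.subtype) (Submodule.map_subtype_le _ _)
        (fun h0 => hU0 (Submodule.map_injective_of_injective W.injective_subtype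
          (by simpa using h0))) (by
          rintro g _ ⟨x, hx, rfl⟩
          exact ⟨ρ' g x, hU g x hx, rfl⟩)
      exact Submodule.map_injective_of_injective W.injective_subtype (by simpa using this)
  have hnil : ∀ g, IsNilpotent (ρ' g - 1) := by
    intro g
    obtain ⟨k, hk⟩ := h g
    refine ⟨k, ?_⟩
    ext x
    have : ∀ k : ℕ, ((((ρ' g - 1) ^ k) x : W) : M) = ((ρ g - 1) ^ k) x := by
      intro k
      induction k with
      | zero => rfl
      | succ k ih =>
        rw [pow_succ', pow_succ', Module.End.mul_apply, Module.End.mul_apply, ← ih]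
        rfl
    rw [this, hk]; rfl
  have htr : ∀ g, LinearMap.trace Ω W (ρ' g) = LinearMap.trace Ω W 1 := by
    intro g
    have := (LinearMap.isNilpotent_trace_of_isNilpotent (hnil g)).eq_zero
    rwa [map_sub, sub_eq_zero] at this
  have hone : ∀ g, ρ' g = 1 := by
    intro g
    have h4 : ∀ T : Module.End Ω W, LinearMap.trace Ω W ((ρ' g - 1) * T) = 0 := by
      intro T
      have hT : T ∈ Submodule.span Ω (Set.range ρ') := hspan ▸ Submodule.mem_top
      induction hT using Submodule.span_induction with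
      | mem T hT =>
        obtain ⟨g', rfl⟩ := hT
        rw [sub_mul, ← map_mul, one_mul, map_sub, htr, htr, sub_self]
      | zero => simp
      | add x y _ _ hx hy => rw [mul_add, map_add, hx, hy, add_zero]
      | smul a x _ hx => rw [mul_smul_comm, map_smul, hx, smul_zero]
    rw [← sub_eq_zero]
    ext1 x
    rw [LinearMap.zero_apply, ← Module.forall_dual_apply_eq_zero_iff Ω]
    intro φ
    have := h4 (LinearMap.smulRight φ x)
    have e : (ρ' g - 1) * LinearMap.smulRight φ x = LinearMap.smulRight φ ((ρ' g - 1) x) := by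
      ext y; simp [smul_sub]
    rwa [e, LinearMap.trace_smulRight] at this
  obtain ⟨x, hx⟩ := exists_ne (0 : W)
  refine ⟨x, fun h0 => hx (Subtype.ext h0), fun g => ?_⟩
  have := congrArg Subtype.val (LinearMap.congr_fun (hone g) x)
  exact this

lemma exists_common_eigenvector {Ω M ι : Type} [Field Ω] [IsAlgClosed Ω] [AddCommGroup M]
    [Module Ω M] [FiniteDimensional Ω M] [Nontrivial M] (f : ι → Module.End Ω M)
    (hc : ∀ i j, Commute (f i) (f j)) :
    ∃ χ : ι → Ω, (⨅ i, (f i).eigenspace (χ i)) ≠ ⊥ := by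
  obtain ⟨W, h1, h2, h3⟩ := exists_min_inv f
  haveI : Nontrivial W := Submodule.nontrivial_iff_ne_bot.2 h1
  have : ∀ i, ∃ c, W ≤ (f i).eigenspace c := by
    intro i
    obtain ⟨c, hc'⟩ := Module.End.exists_eigenvalue ((f i).restrict (h2 i))
    obtain ⟨v, hv⟩ := hc'.exists_hasEigenvector
    refine ⟨c, ?_⟩
    have := h3 (W ⊓ (f i).eigenspace c) inf_le_left ?_ ?_
    · rw [← this]; exact inf_le_right
    · rw [Submodule.ne_bot_iff]
      refine ⟨v, ⟨v.2, ?_⟩, fun h0 => hv.2 (Subtype.ext h0)⟩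
      have := congrArg Subtype.val hv.apply_eq_smul
      exact Module.End.mem_eigenspace_iff.2 this
    · rintro j x ⟨hx1, hx2⟩
      refine ⟨h2 j x hx1, ?_⟩
      rw [SetLike.mem_coe, Module.End.mem_eigenspace_iff] at hx2 ⊢
      rw [← Module.End.mul_apply, (hc i j).eq, Module.End.mul_apply, hx2, map_smul]
  choose χ hχ using this
  exact ⟨χ, fun h0 => h1 (le_bot_iff.1 (h0 ▸ le_iInf hχ))⟩

/-- Jacobson's theorem on weakly closed sets of nilpotent operators. -/
lemma jacobson_nil {Ω : Type} [Field Ω] : ∀ (d : ℕ) (M : Type) [AddCommGroup M] [Module Ω M]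
    [FiniteDimensional Ω M] (S : Set (Module.End Ω M)), (∀ s ∈ S, IsNilpotent s) →
    (∀ s ∈ S, ∀ t ∈ S, s * t - t * s ∈ S) → finrank Ω (Submodule.span Ω S) ≤ d →
    ∃ N : ℕ, ∀ l : List (Module.End Ω M), (∀ s ∈ l, s ∈ S) → N ≤ l.length → l.prod = 0 := by
  -- from common kernel vectors in all quotients to products
  have prodv : ∀ (M : Type) [AddCommGroup M] [Module Ω M] [FiniteDimensional Ω M]
      (S : Set (Module.End Ω M)),
      (∀ U : Submodule Ω M, U ≠ ⊤ → (∀ s ∈ S, ∀ x ∈ U, s x ∈ U) →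
        ∃ x, x ∉ U ∧ ∀ s ∈ S, s x ∈ U) →
      ∃ N : ℕ, ∀ l : List (Module.End Ω M), (∀ s ∈ l, s ∈ S) → N ≤ l.length → l.prod = 0 := by
    intro M _ _ _ S h
    let Z : ℕ → Submodule Ω M := fun k =>
      ⨅ l ∈ {l : List (Module.End Ω M) | (∀ s ∈ l, s ∈ S) ∧ k ≤ l.length}, LinearMap.ker l.prod
    have memZ : ∀ k x, x ∈ Z k ↔
        ∀ l : List (Module.End Ω M), (∀ s ∈ l, s ∈ S) → k ≤ l.length → l.prod x = 0 := by
      intro k x
      simp [Z, Submodule.mem_iInf]
    have mono : Monotone Z := by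
      intro a b hab x hx
      rw [memZ] at hx ⊢
      exact fun l h1 h2 => hx l h1 (hab.trans h2)
    obtain ⟨N, hN⟩ := monotone_stabilizes_iff_noetherian.2 (inferInstance : IsNoetherian Ω M)
      ⟨Z, mono⟩
    have step : ∀ k x, (∀ s ∈ S, s x ∈ Z k) → x ∈ Z (k + 1) := by
      intro k x hx
      rw [memZ]
      intro l h1 h2
      rcases List.eq_nil_or_concat l with rfl | ⟨l', s, rfl⟩
      · simp at h2
      · rw [List.concat_eq_append, List.prod_append, List.prod_singleton, Module.End.mul_apply]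
        refine (memZ _ _).1 (hx s (h1 s (by simp))) l' (fun t ht => h1 t (by simp [ht])) ?_
        simpa using h2
    have htop : Z N = ⊤ := by
      by_contra hne
      obtain ⟨x, hx1, hx2⟩ := h (Z N) hne (by
        intro s hs x hx
        rw [memZ] at hx ⊢
        intro l h1 h2
        have := hx (l ++ [s]) (by
          intro t ht
          rcases List.mem_append.1 ht with ht | ht
          · exact h1 t ht
          · rw [List.mem_singleton.1 ht]; exact hs) (by simp; omega)
        simpa using this)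
      have := step N x hx2
      have e : Z N = Z (N + 1) := hN (N + 1) (Nat.le_succ N)
      exact hx1 (e ▸ this)
    refine ⟨N, fun l h1 h2 => ?_⟩
    ext x
    exact (memZ N x).1 (htop ▸ Submodule.mem_top) l h1 h2
  intro d
  induction d with
  | zero =>
    intro M _ _ _ S _ _ hd
    have : Submodule.span Ω S = ⊥ := Submodule.finrank_eq_zero.1 (Nat.le_zero.1 hd)
    refine ⟨1, fun l h1 h2 => ?_⟩
    obtain ⟨s, l', rfl⟩ := List.exists_cons_of_length_pos h2
    have hs : s = 0 := by
      have := Submodule.subset_span (R := Ω) (h1 s (by simp))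
      rwa [‹Submodule.span Ω S = ⊥›] at this
    simp [hs]
  | succ d ih =>
    intro M _ _ _ S hnil hlie hd
    by_cases hd' : finrank Ω (Submodule.span Ω S) ≤ d
    · exact ih M S hnil hlie hd'
    -- a maximal proper Lie subset
    obtain ⟨L, ⟨T, hTS, hT, rfl, hTd⟩, hmax⟩ := (wellFounded_gt (α := Submodule Ω (End Ω M))).has_min
      {L | ∃ T ⊆ S, (∀ s ∈ T, ∀ t ∈ T, s * t - t * s ∈ T) ∧ L = Submodule.span Ω T ∧
        finrank Ω L ≤ d}
      ⟨_, ∅, Set.empty_subset _, by simp, rfl, by rw [Submodule.span_empty]; simp⟩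
    -- the adjoint action of T
    let ad : Module.End Ω M →ₗ[Ω] Module.End Ω (Module.End Ω M) :=
      LinearMap.mul Ω _ - (LinearMap.mul Ω _).flip
    have ad_apply : ∀ s t, ad s t = s * t - t * s := fun s t => rfl
    obtain ⟨N, hN⟩ := ih (Module.End Ω M) (ad '' T) (by
        rintro _ ⟨s, hs, rfl⟩
        exact LieAlgebra.ad_nilpotent_of_nilpotent (R := Ω) (hnil s (hTS hs))) (by
        rintro _ ⟨s, hs, rfl⟩ _ ⟨t, ht, rfl⟩
        refine ⟨s * t - t * s, hT s hs t ht, ?_⟩
        ext1 x
        simp only [LinearMap.sub_apply, Module.End.mul_apply, ad_apply]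
        noncomm_ring) (by
        rw [← Submodule.map_span]
        exact (Submodule.finrank_map_le _ _).trans hTd)
    have hex : ∃ s ∈ S, s ∉ Submodule.span Ω T ∧ ∀ t ∈ T, t * s - s * t ∈ Submodule.span Ω T := by
      by_contra hcon
      push Not at hcon
      obtain ⟨s0, hs0, hs0'⟩ : ∃ s ∈ S, s ∉ Submodule.span Ω T := by
        by_contra h0
        push Not at h0
        exact hd' ((Submodule.finrank_mono (Submodule.span_le.2 h0)).trans hTd)
      have : ∀ k : ℕ, ∃ l : List (Module.End Ω (Module.End Ω M)), (∀ s ∈ l, s ∈ ad '' T) ∧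
          l.length = k ∧ l.prod s0 ∈ S ∧ l.prod s0 ∉ Submodule.span Ω T := by
        intro k
        induction k with
        | zero => exact ⟨[], by simp, rfl, hs0, hs0'⟩
        | succ k ihk =>
          obtain ⟨l, h1, h2, h3, h4⟩ := ihk
          obtain ⟨t, ht, ht'⟩ := hcon _ h3 h4
          refine ⟨ad t :: l, ?_, by simp [h2], hlie _ (hTS ht) _ h3, ht'⟩
          intro s hs
          rcases List.mem_cons.1 hs with rfl | hs
          · exact ⟨t, ht, rfl⟩
          · exact h1 s hs
      obtain ⟨l, h1, h2, -, h4⟩ := this N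
      rw [hN l h1 h2.ge] at h4
      exact h4 (zero_mem _)
    obtain ⟨s, hsS, hsT, hsn⟩ := hex
    have hbr : ∀ x ∈ Submodule.span Ω T, x * s - s * x ∈ Submodule.span Ω T := by
      intro x hx
      have : Submodule.span Ω T ≤ (Submodule.span Ω T).comap (ad.flip s) :=
        Submodule.span_le.2 fun t ht => hsn t ht
      exact this hx
    have hbr2 : ∀ x ∈ Submodule.span Ω T, ∀ y ∈ Submodule.span Ω T,
        x * y - y * x ∈ Submodule.span Ω T := by
      intro x hx y hy
      have h1 : ∀ t ∈ T, t * y - y * t ∈ Submodule.span Ω T := by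
        intro t ht
        have : Submodule.span Ω T ≤ (Submodule.span Ω T).comap (ad t) :=
          Submodule.span_le.2 fun u hu => Submodule.subset_span (hT t ht u hu)
        exact this hy
      have : Submodule.span Ω T ≤ (Submodule.span Ω T).comap (ad.flip y) :=
        Submodule.span_le.2 h1
      exact this hx
    have hall : ∀ u ∈ S, u ∈ Submodule.span Ω T ⊔ Submodule.span Ω {s} := by
      let T' := S ∩ ↑(Submodule.span Ω T ⊔ Submodule.span Ω {s})
      have hT' : ∀ a ∈ T', ∀ b ∈ T', a * b - b * a ∈ T' := by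
        rintro a ⟨ha, ha'⟩ b ⟨hb, hb'⟩
        refine ⟨hlie a ha b hb, ?_⟩
        obtain ⟨a1, ha1, a2, ha2, rfl⟩ := Submodule.mem_sup.1 ha'
        obtain ⟨b1, hb1, b2, hb2, rfl⟩ := Submodule.mem_sup.1 hb'
        obtain ⟨c, rfl⟩ := Submodule.mem_span_singleton.1 ha2
        obtain ⟨c', rfl⟩ := Submodule.mem_span_singleton.1 hb2
        apply Submodule.mem_sup_left
        have e : (a1 + c • s) * (b1 + c' • s) - (b1 + c' • s) * (a1 + c • s) =
            (a1 * b1 - b1 * a1) + c' • (a1 * s - s * a1) - c • (b1 * s - s * b1) := by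
          simp only [add_mul, mul_add, smul_mul_assoc, mul_smul_comm]
          module
        rw [e]
        exact sub_mem (add_mem (hbr2 _ ha1 _ hb1) (Submodule.smul_mem _ _ (hbr _ ha1)))
          (Submodule.smul_mem _ _ (hbr _ hb1))
      have hlt : Submodule.span Ω T < Submodule.span Ω T' := by
        refine lt_of_le_of_ne (Submodule.span_mono fun t ht =>
          ⟨hTS ht, Submodule.mem_sup_left (Submodule.subset_span ht)⟩) fun e => hsT ?_
        rw [e]
        exact Submodule.subset_span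
          ⟨hsS, Submodule.mem_sup_right (Submodule.mem_span_singleton_self s)⟩
      have hbig : ¬ finrank Ω (Submodule.span Ω T') ≤ d :=
        fun hle => hmax _ ⟨T', Set.inter_subset_left, hT', rfl, hle⟩ hlt
      have e : Submodule.span Ω T' = Submodule.span Ω S :=
        Submodule.eq_of_le_of_finrank_le (Submodule.span_mono Set.inter_subset_left) (by omega)
      intro u hu
      have : Submodule.span Ω T' ≤ Submodule.span Ω T ⊔ Submodule.span Ω {s} :=
        Submodule.span_le.2 Set.inter_subset_right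
      exact this (e ▸ Submodule.subset_span hu)
    obtain ⟨N', hN'⟩ := ih M T (fun t ht => hnil t (hTS ht)) hT hTd
    apply prodv
    intro U hU hUS
    -- vectors sent into U by T
    let U1 : Submodule Ω M := ⨅ t ∈ T, U.comap t
    have memU1 : ∀ x, x ∈ U1 ↔ ∀ t ∈ T, t x ∈ U := by intro x; simp [U1, Submodule.mem_iInf]
    have memU1' : ∀ x ∈ U1, ∀ t ∈ Submodule.span Ω T, t x ∈ U := by
      intro x hx t ht
      have : Submodule.span Ω T ≤ U.comap (LinearMap.applyₗ x) :=
        Submodule.span_le.2 fun t ht => (memU1 x).1 hx t ht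
      exact this ht
    obtain ⟨x0, hx0, hx0'⟩ : ∃ x, x ∉ U ∧ x ∈ U1 := by
      by_contra hcon
      push Not at hcon
      obtain ⟨y0, hy0⟩ : ∃ y, y ∉ U := by
        by_contra h0
        push Not at h0
        exact hU (eq_top_iff.2 fun y _ => h0 y)
      have : ∀ k : ℕ, ∃ l : List (Module.End Ω M), (∀ s ∈ l, s ∈ T) ∧
          l.length = k ∧ l.prod y0 ∉ U := by
        intro k
        induction k with
        | zero => exact ⟨[], by simp, rfl, hy0⟩
        | succ k ihk =>
          obtain ⟨l, h1, h2, h3⟩ := ihk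
          have := hcon _ h3
          rw [memU1] at this
          push Not at this
          obtain ⟨t, ht, ht'⟩ := this
          refine ⟨t :: l, ?_, by simp [h2], ht'⟩
          intro s hs
          rcases List.mem_cons.1 hs with rfl | hs
          · exact ht
          · exact h1 s hs
      obtain ⟨l, h1, h2, h3⟩ := this N'
      rw [hN' l h1 h2.ge] at h3
      exact h3 (zero_mem _)
    have hsU1 : ∀ x ∈ U1, s x ∈ U1 := by
      intro x hx
      rw [memU1]
      intro t ht
      have e : t (s x) = (t * s - s * t) x + s (t x) := by simp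
      rw [e]
      exact add_mem (memU1' x hx _ (hsn t ht)) (hUS s hsS _ ((memU1 x).1 hx t ht))
    obtain ⟨x, hx1, hx2, hx3⟩ : ∃ x, x ∉ U ∧ x ∈ U1 ∧ s x ∈ U := by
      by_contra hcon
      push Not at hcon
      have : ∀ k : ℕ, (s ^ k) x0 ∉ U ∧ (s ^ k) x0 ∈ U1 := by
        intro k
        induction k with
        | zero => exact ⟨hx0, hx0'⟩
        | succ k ihk =>
          rw [pow_succ', Module.End.mul_apply]
          exact ⟨hcon _ ihk.1 ihk.2, hsU1 _ ihk.2⟩
      obtain ⟨k, hk⟩ := hnil s hsS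
      have h5 := (this k).1
      rw [hk] at h5
      exact h5 (zero_mem _)
    refine ⟨x, hx1, fun u hu => ?_⟩
    obtain ⟨a1, ha1, a2, ha2, rfl⟩ := Submodule.mem_sup.1 (hall u hu)
    obtain ⟨c, rfl⟩ := Submodule.mem_span_singleton.1 ha2
    exact add_mem (memU1' x hx2 _ ha1) (Submodule.smul_mem _ c hx3)

end Pool.Agent.Lib.MP_c0708e_al.Tits
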