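import Mathlib

/-!
Algebraic lemmas: the Frobenius kernel of `SL(n, R)` has bounded exponent, and for `n ≥ 3` its
derived series contains the transvections with entries in powers of the Frobenius kernel of `R`.
-/

open Polynomial Matrix
open scoped commutatorElement

namespace Pool.Agent.Lib.MP_c0708e_al

/-- A matrix killed entrywise by Frobenius is nilpotent of uniformly bounded index. -/
theorem pow_eq_zero_of_map_frobenius {R : Type} [CommRing R] (p : ℕ) [Fact p.Prime] [CharP R p]
    {n : ℕ} (A : Matrix (Fin n) (Fin n) R) (hA : A.map (frobenius R p) = 0) :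
    A ^ (n * p) = 0 := by
  have h1 : (A.charpoly).map (frobenius R p) = X ^ n := by
    rw [← Matrix.charpoly_map, hA, Matrix.charpoly_zero, Fintype.card_fin]
  have h2 : A.charpoly ^ p = X ^ (n * p) := by
    rw [← Polynomial.map_frobenius_expand, Polynomial.map_expand, h1, map_pow, expand_X,
      ← pow_mul, mul_comm]
  have h3 : aeval A (A.charpoly ^ p) = 0 := by
    rw [map_pow, Matrix.aeval_self_charpoly, zero_pow (Fact.out : p.Prime).ne_zero]
  rw [h2, map_pow, aeval_X] at h3
  exact h3

/-- In characteristic `p`, `(1 + A) ^ p ^ e = 1 + A ^ p ^ e` for square matrices. -/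
theorem one_add_pow_pow {R : Type} [CommRing R] (p : ℕ) [Fact p.Prime] [CharP R p]
    {n : ℕ} [NeZero n] (A : Matrix (Fin n) (Fin n) R) (e : ℕ) :
    (1 + A) ^ p ^ e = 1 + A ^ p ^ e := by
  rw [add_pow_char_pow_of_commute _ _ (Commute.one_left A), one_pow]

/-- The Frobenius kernel of `SL(n, R)`. -/
def frobKer (R : Type) [CommRing R] (p : ℕ) [Fact p.Prime] [CharP R p] (n : ℕ) :
    Subgroup (Matrix.SpecialLinearGroup (Fin n) R) :=
  (SpecialLinearGroup.map (n := Fin n) (frobenius R p)).ker

theorem mem_frobKer {R : Type} [CommRing R] {p : ℕ} [Fact p.Prime] [CharP R p] {n : ℕ}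
    (g : Matrix.SpecialLinearGroup (Fin n) R) :
    g ∈ frobKer R p n ↔ (g : Matrix (Fin n) (Fin n) R).map (frobenius R p) = 1 := by
  rw [frobKer, MonoidHom.mem_ker]
  exact Subtype.ext_iff

theorem frobKer_pow {R : Type} [CommRing R] {p : ℕ} [Fact p.Prime] [CharP R p] {n : ℕ}
    [NeZero n] (g : Matrix.SpecialLinearGroup (Fin n) R) (hg : g ∈ frobKer R p n) :
    g ^ p ^ (n + 1) = 1 := by
  rw [mem_frobKer] at hg
  set A : Matrix (Fin n) (Fin n) R := (g : Matrix (Fin n) (Fin n) R) - 1 with hA
  have hA0 : A.map (frobenius R p) = 0 := by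
    have : (frobenius R p).mapMatrix A = 0 := by
      rw [hA, map_sub, map_one, RingHom.mapMatrix_apply, hg, sub_self]
    exact this
  have h1 := pow_eq_zero_of_map_frobenius p A hA0
  have hle : n * p ≤ p ^ (n + 1) := by
    rw [pow_succ]
    exact Nat.mul_le_mul_right _ (Nat.lt_pow_self (Fact.out : p.Prime).one_lt).le
  have h2 : A ^ p ^ (n + 1) = 0 := pow_eq_zero_of_le hle h1
  have hg' : (g : Matrix (Fin n) (Fin n) R) = 1 + A := by rw [hA]; abel
  have h3 : ((g ^ p ^ (n + 1) : Matrix.SpecialLinearGroup (Fin n) R) : Matrix (Fin n) (Fin n) R) = 1 := by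
    refine (Matrix.SpecialLinearGroup.coe_pow g _).trans ?_
    rw [hg', one_add_pow_pow p, h2, add_zero]
  exact Subtype.ext h3

theorem transvection_commutator {R : Type} [CommRing R] {n : ℕ} {i j k : Fin n}
    (hij : i ≠ j) (hjk : j ≠ k) (hik : i ≠ k) (a b : R) :
    ⁅SpecialLinearGroup.transvection hij a, SpecialLinearGroup.transvection hjk b⁆ =
      SpecialLinearGroup.transvection hik (a * b) := by
  rw [commutatorElement_def, SpecialLinearGroup.transvection_inv,
    SpecialLinearGroup.transvection_inv]
  apply Subtype.ext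
  change (1 + single i j a) * (1 + single j k b) * (1 + single i j (-a)) * (1 + single j k (-b))
    = (1 : Matrix (Fin n) (Fin n) R) + single i k (a * b)
  simp [mul_add, add_mul, single_mul_single_same, single_mul_single_of_ne _ _ _ _ hij.symm,
    single_mul_single_of_ne _ _ _ _ hjk.symm, single_mul_single_of_ne _ _ _ _ hik.symm,
    ← single_neg]
  abel

theorem exists_third {n : ℕ} (hn : 3 ≤ n) (i k : Fin n) : ∃ j : Fin n, i ≠ j ∧ j ≠ k := by
  by_contra h
  push Not at h
  have hsub : (Finset.univ : Finset (Fin n)) ⊆ {i, k} := by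
    intro j _
    by_cases hj : i = j
    · simp [hj]
    · simp [h j hj]
  have := Finset.card_le_card hsub
  have h2 : ({i, k} : Finset (Fin n)).card ≤ 2 := Finset.card_le_two
  simp at this
  omega

/-- Transvections with entries in `I ^ 2 ^ m` lie in the `m`-th derived subgroup. -/
theorem transvection_mem_derived {R : Type} [CommRing R] {p : ℕ} [Fact p.Prime] [CharP R p]
    {n : ℕ} (hn : 3 ≤ n) (m : ℕ) :
    ∀ a ∈ (RingHom.ker (frobenius R p)) ^ 2 ^ m, ∀ (i k : Fin n) (hik : i ≠ k),
      SpecialLinearGroup.transvection hik a ∈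
        (derivedSeries (frobKer R p n) m).map (frobKer R p n).subtype := by
  induction m with
  | zero =>
    intro a ha i k hik
    rw [pow_zero, pow_one, RingHom.mem_ker] at ha
    refine ⟨⟨SpecialLinearGroup.transvection hik a, ?_⟩, by simp, rfl⟩
    rw [mem_frobKer, SpecialLinearGroup.transvection_coe]
    have : (frobenius R p).mapMatrix (1 + single i k a : Matrix (Fin n) (Fin n) R) = 1 := by
      rw [map_add, map_one, RingHom.mapMatrix_apply, Matrix.map_single, ha]
      simp
    exact this
  | succ m ih =>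
    intro a ha i k hik
    rw [pow_succ, pow_mul, sq] at ha
    rw [derivedSeries_succ, Subgroup.map_commutator]
    obtain ⟨j, hij, hjk⟩ := exists_third hn i k
    refine Submodule.mul_induction_on ha ?_ ?_
    · intro b hb c hc
      rw [← transvection_commutator hij hjk hik]
      exact Subgroup.commutator_mem_commutator (ih b hb i j hij) (ih c hc j k hjk)
    · intro b c hb hc
      rw [SpecialLinearGroup.transvection_add]
      exact Subgroup.mul_mem _ hb hc

theorem not_isSolvable_frobKer {R : Type} [CommRing R] {p : ℕ} [Fact p.Prime] [CharP R p]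
    {n : ℕ} (hn : 3 ≤ n) (h : ∀ m : ℕ, (RingHom.ker (frobenius R p)) ^ m ≠ ⊥) :
    ¬ Group.IsSolvable (frobKer R p n) := by
  rintro ⟨m, hm⟩
  apply h (2 ^ m)
  rw [eq_bot_iff]
  intro a ha
  have h01 : (⟨0, by omega⟩ : Fin n) ≠ ⟨1, by omega⟩ := by simp
  have := transvection_mem_derived hn m a ha _ _ h01
  rw [hm, Subgroup.map_bot, Subgroup.mem_bot] at this
  have h2 := congrArg (fun g : Matrix.SpecialLinearGroup (Fin n) R =>
    (g : Matrix (Fin n) (Fin n) R) ⟨0, by omega⟩ ⟨1, by omega⟩) this
  simpa [SpecialLinearGroup.transvection_coe, h01] using h2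

/-- Finite rings of characteristic `p` with `k` square-zero elements of nonzero product. -/
theorem exists_finite_ring (p : ℕ) [Fact p.Prime] (k : ℕ) :
    ∃ (R : Type) (_ : CommRing R) (_ : Finite R), (p : R) = 0 ∧
      ∃ x : Fin k → R, (∀ i, x i ^ 2 = 0) ∧ ∏ i, x i ≠ 0 := by
  induction k with
  | zero =>
    exact ⟨ZMod p, inferInstance, inferInstance, by simp, Fin.elim0, fun i => i.elim0, by simp⟩
  | succ k ih =>
    obtain ⟨R, _, _, hp, x, hx, hprod⟩ := ih
    refine ⟨DualNumber R, inferInstance, inferInstanceAs (Finite (R × R)), ?_,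
      Fin.cons DualNumber.eps (fun i => algebraMap R (DualNumber R) (x i)), ?_, ?_⟩
    · rw [← map_natCast (algebraMap R (DualNumber R)), hp, map_zero]
    · intro i
      refine Fin.cases ?_ (fun i => ?_) i
      · simp [sq]
      · simp only [Fin.cons_succ]
        rw [← map_pow, hx, map_zero]
    · rw [Fin.prod_univ_succ]
      simp only [Fin.cons_zero, Fin.cons_succ]
      rw [← map_prod]
      intro h
      apply hprod
      generalize ∏ i, x i = y at h ⊢
      have := congrArg TrivSqZeroExt.snd h
      simpa [TrivSqZeroExt.algebraMap_eq_inl] using this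

end Pool.Agent.Lib.MP_c0708e_al
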