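import Pool.Agent.Lib.MP_c0708e_al.TValD

/-! Completion and a Chevalley type lemma. -/

set_option linter.style.haveILetI false

namespace Pool.Agent.Lib.MP_c0708e_al.Tits

open Filter

lemma exists_completion {S 𝒜 : Type} [CommRing S] [IsNoetherianRing S] (𝔶 : Ideal S)
    (c : 𝒜 → Ideal S) (hc : ∀ J, ∃ l : ℕ, 𝔶 ^ l ≤ c J) :
    ∃ (R : Type) (_ : CommRing R) (_ : IsNoetherianRing R) (ι : S →+* R) (𝔜 : Ideal R)
      (e : ∀ J, R →+* S ⧸ c J), 𝔶.map ι ≤ 𝔜 ∧ (∀ P : Ideal R, P ≠ ⊤ → 𝔜 ⊔ P ≠ ⊤) ∧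
      (∀ J x, e J (ι x) = Ideal.Quotient.mk _ x) ∧ (∀ x, (∀ J, e J x = 0) → x = 0) ∧
      (∀ J, 𝔜.map (e J) ≤ 𝔶.map (Ideal.Quotient.mk _)) ∧
      ∀ x : ℕ → R, (∀ l, x (l + 1) - x l ∈ 𝔜 ^ l) → ∃ L, ∀ l, L - x l ∈ 𝔜 ^ l := by
  obtain ⟨s, hs⟩ := IsNoetherian.noetherian 𝔶
  choose l hl using hc
  let ev : MvPolynomial s S →+* S := MvPolynomial.eval Subtype.val
  have hev : (MvPolynomial.idealOfVars s S).map ev ≤ 𝔶 := by
    rw [MvPolynomial.idealOfVars, Ideal.map_span, Ideal.span_le]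
    rintro _ ⟨_, ⟨i, rfl⟩, rfl⟩
    simpa [ev] using (hs ▸ Submodule.subset_span i.2 : (i : S) ∈ 𝔶)
  let e₀ : ∀ J, MvPowerSeries s S →+* S ⧸ c J := fun J =>
    (Ideal.Quotient.lift (MvPolynomial.idealOfVars s S ^ l J) ((Ideal.Quotient.mk _).comp ev)
      fun a ha => Ideal.Quotient.eq_zero_iff_mem.2 (hl J (Ideal.pow_right_mono hev _ (by
        rw [← Ideal.map_pow]; exact Ideal.mem_map_of_mem _ ha)))).comp
      (MvPowerSeries.truncTotalAlgHom s S (l J)).toRingHom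
  have he : ∀ J (P : MvPolynomial s S), e₀ J P = Ideal.Quotient.mk _ (ev P) := fun J P => by
    have := (MvPowerSeries.truncTotalAlgHom s S (l J)).commutes P
    rw [MvPowerSeries.algebraMap_apply', Algebra.algebraMap_self, MvPowerSeries.map_id] at this
    simp only [e₀, RingHom.comp_apply, AlgHom.toRingHom_eq_coe, RingHom.coe_coe]
    rw [show MvPowerSeries.truncTotalAlgHom s S (l J) P = Ideal.Quotient.mk _ P from this]
    rfl
  have heC : ∀ J x, e₀ J (MvPowerSeries.C x) = Ideal.Quotient.mk _ x := fun J x => by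
    simpa [ev] using he J (MvPolynomial.C x)
  have heX : ∀ J (i : s), e₀ J (MvPowerSeries.X i) = Ideal.Quotient.mk _ (i : S) := fun J i => by
    simpa [ev] using he J (MvPolynomial.X i)
  let 𝔨 : Ideal (MvPowerSeries s S) := ⨅ J, RingHom.ker (e₀ J)
  let 𝔛 : Ideal (MvPowerSeries s S) := .span (.range MvPowerSeries.X)
  have surj := Ideal.Quotient.mk_surjective (I := 𝔨)
  refine ⟨MvPowerSeries s S ⧸ 𝔨, inferInstance, inferInstance,
    (Ideal.Quotient.mk 𝔨).comp MvPowerSeries.C, 𝔛.map (Ideal.Quotient.mk 𝔨),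
    fun J => Ideal.Quotient.lift 𝔨 (e₀ J) fun a ha => Ideal.mem_iInf.1 ha J, ?_, ?_, heC, ?_, ?_, ?_⟩
  · rw [← hs, Ideal.map_le_iff_le_comap]
    refine Submodule.span_le.2 fun x hx => ?_
    have : Ideal.Quotient.mk 𝔨 (MvPowerSeries.C x) =
        Ideal.Quotient.mk 𝔨 (MvPowerSeries.X ⟨x, hx⟩) :=
      Ideal.Quotient.eq.2 (Ideal.mem_iInf.2 fun J => by
        rw [RingHom.mem_ker, map_sub, heC, heX, sub_self])
    rw [SetLike.mem_coe, Ideal.mem_comap, RingHom.comp_apply, this]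
    exact Ideal.mem_map_of_mem _ (Ideal.subset_span ⟨_, rfl⟩)
  · intro P hP h
    obtain ⟨a, ha, b, hb, hab⟩ := Submodule.mem_sup.1 ((Ideal.eq_top_iff_one _).1 h)
    obtain ⟨a, ha', rfl⟩ := (Ideal.mem_map_iff_of_surjective _ surj).1 ha
    have := (Ideal.mem_jacobson_bot.1 (IsAdicComplete.le_jacobson_bot 𝔛 ha') (-1)).map
      (Ideal.Quotient.mk 𝔨)
    rw [map_add, map_mul, map_neg, map_one, mul_neg_one, neg_add_eq_sub, ← eq_sub_of_add_eq' hab]
      at this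
    exact hP (P.eq_top_of_isUnit_mem hb this)
  · intro x hx
    obtain ⟨x, rfl⟩ := surj x
    exact Ideal.Quotient.eq_zero_iff_mem.2 (Ideal.mem_iInf.2 hx)
  · intro J
    rw [Ideal.map_map, Ideal.map_span, Ideal.span_le]
    rintro _ ⟨_, ⟨i, rfl⟩, rfl⟩
    change e₀ J _ ∈ _
    rw [heX]
    exact Ideal.mem_map_of_mem _ (hs ▸ Submodule.subset_span i.2 : (i : S) ∈ 𝔶)
  · intro x hx
    simp only [← Ideal.map_pow, Ideal.mem_map_iff_of_surjective _ surj] at hx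
    choose d hd hd' using hx
    obtain ⟨z, hz⟩ := surj (x 0)
    have h1 : ∀ l, Ideal.Quotient.mk 𝔨 (z + ∑ i ∈ Finset.range l, d i) = x l := by
      intro l
      induction l with
      | zero => simpa using hz
      | succ l ih => rw [Finset.sum_range_succ, ← add_assoc, map_add, ih, hd']; ring
    obtain ⟨L, hL⟩ := IsPrecomplete.prec (I := 𝔛) (M := MvPowerSeries s S) inferInstance
      (f := fun l => z + ∑ i ∈ Finset.range l, d i) (fun {a b} hab => by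
        rw [SModEq.comm, SModEq.sub_mem, add_sub_add_left_eq_sub, ← Finset.sum_Ico_eq_sub _ hab,
          smul_eq_mul, Ideal.mul_top]
        exact sum_mem fun i hi => Ideal.pow_le_pow_right (Finset.mem_Ico.1 hi).1 (hd i))
    refine ⟨Ideal.Quotient.mk 𝔨 L, fun l => ?_⟩
    have := hL l
    rw [SModEq.comm, SModEq.sub_mem, smul_eq_mul, Ideal.mul_top] at this
    rw [← h1, ← map_sub, ← Ideal.map_pow]
    exact Ideal.mem_map_of_mem _ this

lemma chevalley {S 𝒜 n F : Type} [CommRing S] [IsNoetherianRing S] [Fintype n] [DecidableEq n]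
    (𝔶 : Ideal S) (c : 𝒜 → Ideal S) (hc : ∀ J, ∃ l : ℕ, 𝔶 ^ l ≤ c J) (𝓕 : Filter 𝒜) [𝓕.NeBot]
    (h𝓕 : ∀ J₀, ∀ᶠ J in 𝓕, c J ≤ c J₀) (ρ : F → Matrix n n S)
    (hfin : ∀ m : ℕ, (Set.range fun γ => (Ideal.Quotient.mk (𝔶 ^ m)).mapMatrix (ρ γ)).Finite) :
    ∃ (R : Type) (_ : CommRing R) (_ : IsNoetherianRing R) (ι : S →+* R) (𝔜 : Ideal R),
      𝔶.map ι ≤ 𝔜 ∧ (∀ P : Ideal R, P ≠ ⊤ → 𝔜 ⊔ P ≠ ⊤) ∧ (∀ x, ι x = 0 → ∀ J, x ∈ c J) ∧
      ∀ m : ℕ, ∃ J, ∀ γ, ρ γ - 1 ∈ (c J).matrix n →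
        ι.mapMatrix (ρ γ) - 1 ∈ (𝔜 ^ m).matrix n := by
  obtain ⟨R, _, _, ι, 𝔜, e, h1, h2, h3, h4, h5, h6⟩ := exists_completion 𝔶 c hc
  refine ⟨R, inferInstance, inferInstance, ι, 𝔜, h1, h2, fun x hx J => ?_, fun m => ?_⟩
  · rw [← Ideal.Quotient.eq_zero_iff_mem, ← h3, hx, map_zero]
  have hι : ∀ l, ∀ x ∈ 𝔶 ^ l, ι x ∈ 𝔜 ^ l := fun l x hx => Ideal.pow_right_mono h1 l (by
    rw [← Ideal.map_pow]; exact Ideal.mem_map_of_mem _ hx)
  by_contra hcon
  push Not at hcon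
  choose γ hγ hγ' using hcon
  have hδ : ∀ l : ℕ, ∃ δ, ∀ᶠ J in Ultrafilter.of 𝓕, ρ (γ J) - ρ δ ∈ (𝔶 ^ l).matrix n := by
    intro l
    obtain ⟨_, ⟨δ, rfl⟩, h⟩ := (Ultrafilter.eventually_exists_mem_iff (f := Ultrafilter.of 𝓕)
      (P := fun a J => (Ideal.Quotient.mk (𝔶 ^ l)).mapMatrix (ρ (γ J)) = a) (hfin l)).1
      (Eventually.of_forall fun J => ⟨_, ⟨γ J, rfl⟩, rfl⟩)
    exact ⟨δ, h.mono fun J hJ i j => Ideal.Quotient.eq.1 (congrFun (congrFun hJ i) j)⟩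
  choose δ hδ using hδ
  obtain ⟨J₁, hJ₁⟩ := (hδ m).exists
  refine hγ' J₁ fun i j => ?_
  obtain ⟨L, hL⟩ := h6 (fun l => ι (ρ (δ l) i j)) (fun l => by
    obtain ⟨J, a1, a2⟩ := ((hδ l).and (hδ (l + 1))).exists
    rw [← map_sub]
    have := (𝔶 ^ l).sub_mem (a1 i j) (Ideal.pow_le_pow_right (Nat.le_succ l) (a2 i j))
    rw [Matrix.sub_apply, Matrix.sub_apply, sub_sub_sub_cancel_left] at this
    exact hι l _ this)
  have hL1 : L = ι ((1 : Matrix n n S) i j) := by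
    rw [← sub_eq_zero]
    refine h4 _ fun J₀ => ?_
    obtain ⟨l, hl⟩ := hc J₀
    obtain ⟨J, a1, a2⟩ := ((hδ l).and ((h𝓕 J₀).filter_mono (Ultrafilter.of_le 𝓕))).exists
    have b1 : e J₀ (L - ι (ρ (δ l) i j)) = 0 := by
      have := Ideal.mem_map_of_mem (e J₀) (hL l)
      rw [Ideal.map_pow] at this
      have := Ideal.pow_right_mono (h5 J₀) l this
      rw [← Ideal.map_pow, Ideal.map_mk_eq_bot_of_le hl] at this
      exact this
    rw [map_sub, sub_eq_zero] at b1 ⊢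
    rw [b1, h3, h3, Ideal.Quotient.eq]
    have := sub_mem (a2 (hγ J i j)) (hl (a1 i j))
    rwa [Matrix.sub_apply, Matrix.sub_apply, sub_sub_sub_cancel_left] at this
  have := sub_mem (hι m _ (hJ₁ i j)) (hL m)
  rw [hL1, Matrix.sub_apply, map_sub, sub_sub_sub_cancel_right] at this
  rw [← map_one ι.mapMatrix]
  exact this

lemma finite_image {α E : Type} [Finite α] [Ring E] (ρ : FreeGroup α →* E) (N : ℕ)
    (hN : ∀ l : List (FreeGroup α), N ≤ l.length → (l.map fun g => ρ g - 1).prod = 0)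
    {q : ℕ} (hq : q ≠ 0) (hE : (q : E) = 0) : (Set.range ρ).Finite := by
  let gen : α × Bool → FreeGroup α := fun a => cond a.2 (FreeGroup.of a.1) (FreeGroup.of a.1)⁻¹
  let mon : List (α × Bool) → E := fun l => (l.map fun a => ρ (gen a) - 1).prod
  let M := AddSubgroup.closure (mon '' {l | l.length ≤ N})
  haveI : Finite (mon '' {l | l.length ≤ N}) := ((List.finite_length_le _ N).image mon).to_subtype
  haveI : Finite M := AddCommGroup.finite_of_fg_isAddTorsion M fun x =>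
    isOfFinAddOrder_iff_nsmul_eq_zero.2 ⟨q, Nat.pos_of_ne_zero hq, Subtype.ext (by
      rw [AddSubgroupClass.coe_nsmul, nsmul_eq_mul, hE, zero_mul]; rfl)⟩
  have h1 : ∀ a, ∀ x ∈ M, ρ (gen a) * x ∈ M := by
    intro a x hx
    have : (ρ (gen a) - 1) * x ∈ M := by
      induction hx using AddSubgroup.closure_induction with
      | mem x hx =>
        obtain ⟨l, hl, rfl⟩ := hx
        by_cases h : l.length + 1 ≤ N
        · exact AddSubgroup.subset_closure ⟨a :: l, h, rfl⟩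
        · have := hN ((a :: l).map gen) (by simp; omega)
          rw [List.map_map] at this
          rw [show (ρ (gen a) - 1) * mon l = 0 from this]
          exact zero_mem _
      | zero => simp
      | add x y _ _ hx hy => rw [mul_add]; exact add_mem hx hy
      | neg x _ hx => rw [mul_neg]; exact neg_mem hx
    simpa [sub_mul] using add_mem this hx
  have h2 : ∀ g, ∀ x ∈ M, ρ g * x ∈ M := by
    intro g
    induction g using FreeGroup.induction_on with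
    | C1 => simp
    | of a => exact h1 (a, true)
    | inv_of a _ => exact h1 (a, false)
    | mul g h hg hh => intro x hx; rw [map_mul, mul_assoc]; exact hg _ (hh x hx)
  refine (Set.toFinite (M : Set E)).subset ?_
  rintro _ ⟨g, rfl⟩
  simpa using h2 g 1 (AddSubgroup.subset_closure ⟨[], by simp, rfl⟩)

end Pool.Agent.Lib.MP_c0708e_al.Tits
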