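import Mathlib

set_option linter.style.haveILetI false

open scoped PowerSeries.WithPiTopology MatrixGroups PowerSeries

namespace Pool.Agent.Lib.MP_c0708e_al.Tits

/-- A profinite group is pro-`p` if all its quotients by open normal subgroups are `p`-groups. -/
def IsProP (p : ℕ) (G : ProfiniteGrp.{0}) : Prop :=
  ∀ N : OpenNormalSubgroup G, IsPGroup p (G ⧸ N.toSubgroup)

/-- A variety of pro-`p` groups: a class of pro-`p` groups closed under closed subgroups,
quotients by closed normal subgroups (both up to topological isomorphism) and Cartesian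
products. -/
structure IsVariety (p : ℕ) (V : ProfiniteGrp.{0} → Prop) : Prop where
  proP : ∀ G, V G → IsProP p G
  sub : ∀ G H : ProfiniteGrp.{0}, V G → ∀ f : H →ₜ* G, Function.Injective f → V H
  quot : ∀ G H : ProfiniteGrp.{0}, V G → ∀ f : G →ₜ* H, Function.Surjective f → V H
  prod : ∀ (ι : Type) (G : ι → ProfiniteGrp.{0}), (∀ i, V (G i)) → V (ProfiniteGrp.pi G)

/-- `H ∈ var(G)`: `H` lies in every variety of pro-`p` groups containing `G`. -/
def InVar (p : ℕ) (G H : ProfiniteGrp.{0}) : Prop :=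
  ∀ V : ProfiniteGrp.{0} → Prop, IsVariety p V → V G → V H

/-- The matrix `(1 t; 0 1)` in `SL_2(F_p[[t]])`. -/
noncomputable def genU (p : ℕ) : SL(2, (ZMod p)⟦X⟧) :=
  ⟨!![1, PowerSeries.X; 0, 1], by simp [Matrix.det_fin_two]⟩

/-- The matrix `(1 0; t 1)` in `SL_2(F_p[[t]])`. -/
noncomputable def genL (p : ℕ) : SL(2, (ZMod p)⟦X⟧) :=
  ⟨!![1, 0; PowerSeries.X, 1], by simp [Matrix.det_fin_two]⟩

/-- The closure in `SL_2(F_p[[t]])` of the subgroup generated by the two matrices. The power
series ring carries the topology of coefficientwise convergence with `F_p` discrete, which is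
the `t`-adic topology. -/
noncomputable def gammaSub (p : ℕ) : Subgroup SL(2, (ZMod p)⟦X⟧) :=
  (Subgroup.closure {genU p, genL p}).topologicalClosure

theorem compactSpace_gammaSub (p : ℕ) [Fact p.Prime] : CompactSpace (gammaSub p) := by
  haveI : CompactSpace (ZMod p)⟦X⟧ := inferInstanceAs (CompactSpace ((Unit →₀ ℕ) → ZMod p))
  haveI : CompactSpace (Matrix (Fin 2) (Fin 2) (ZMod p)⟦X⟧) :=
    inferInstanceAs (CompactSpace (Fin 2 → Fin 2 → (ZMod p)⟦X⟧))
  haveI : CompactSpace SL(2, (ZMod p)⟦X⟧) :=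
    Matrix.SpecialLinearGroup.isClosedEmbedding_val.compactSpace
  exact isCompact_iff_compactSpace.mp (Subgroup.isClosed_topologicalClosure _).isCompact

theorem totallyDisconnectedSpace_gammaSub (p : ℕ) : TotallyDisconnectedSpace (gammaSub p) := by
  haveI : TotallyDisconnectedSpace (ZMod p)⟦X⟧ :=
    inferInstanceAs (TotallyDisconnectedSpace ((Unit →₀ ℕ) → ZMod p))
  haveI : TotallyDisconnectedSpace (Matrix (Fin 2) (Fin 2) (ZMod p)⟦X⟧) :=
    inferInstanceAs (TotallyDisconnectedSpace (Fin 2 → Fin 2 → (ZMod p)⟦X⟧))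
  haveI : TotallyDisconnectedSpace SL(2, (ZMod p)⟦X⟧) :=
    inferInstanceAs (TotallyDisconnectedSpace (Subtype _))
  exact inferInstanceAs (TotallyDisconnectedSpace (Subtype _))

/-- The group `Γ_p`, as a profinite group. -/
noncomputable def Gamma (p : ℕ) [Fact p.Prime] : ProfiniteGrp.{0} :=
  haveI := compactSpace_gammaSub p
  haveI := totallyDisconnectedSpace_gammaSub p
  ProfiniteGrp.of (gammaSub p)

end Pool.Agent.Lib.MP_c0708e_al.Tits
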