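import Pool.Agent.Lib.MP_c0708e_al.TInd

/-! Linear `p`-groups over fields and congruences modulo ideals. -/

set_option linter.style.haveILetI false

namespace Pool.Agent.Lib.MP_c0708e_al.Tits

open Module

lemma unip_prod {Ω H : Type} [Field Ω] [IsAlgClosed Ω] [Group H] (d : ℕ) :
    ∀ (V : Type) [AddCommGroup V] [Module Ω V] [FiniteDimensional Ω V], finrank Ω V ≤ d →
      ∀ ρ : Representation Ω H V, (∀ g, IsNilpotent (ρ g - 1)) →
      ∀ l : List H, d ≤ l.length → (l.map fun g => ρ g - 1).prod = 0 := by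
  induction d with
  | zero =>
    intro V _ _ _ hd ρ _ l _
    haveI : Subsingleton V := finrank_zero_iff.1 (Nat.le_zero.1 hd)
    exact Subsingleton.elim _ _
  | succ d ih =>
    intro V _ _ _ hd ρ h l hl
    rcases subsingleton_or_nontrivial V with hV | hV
    · exact Subsingleton.elim _ _
    obtain ⟨x, hx0, hx⟩ := kolchin ρ h
    have hW : ∀ g, Submodule.span Ω {x} ≤ (Submodule.span Ω {x}).comap (ρ g) := fun g =>
      (Submodule.span_singleton_le_iff_mem _ _).2 (by
        rw [Submodule.mem_comap, hx g]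
        exact Submodule.mem_span_singleton_self _)
    let ρ' := ρ.quotient _ hW
    have h1 : ∀ (l : List H) y, (l.map fun g => ρ' g - 1).prod ((Submodule.span Ω {x}).mkQ y) =
        (Submodule.span Ω {x}).mkQ ((l.map fun g => ρ g - 1).prod y) := by
      intro l y
      induction l with
      | nil => rfl
      | cons g l ih =>
        rw [List.map_cons, List.map_cons, List.prod_cons, List.prod_cons, Module.End.mul_apply,
          Module.End.mul_apply, ih]
        rfl
    obtain ⟨g, l, rfl⟩ := List.exists_cons_of_length_pos (l := l) (by omega)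
    have h2 := ih _ (by
      have := Submodule.finrank_quotient_add_finrank (Submodule.span Ω {x})
      rw [finrank_span_singleton hx0] at this
      omega) ρ' (fun g => by
      obtain ⟨k, hk⟩ := h g
      refine ⟨k, LinearMap.ext fun y => ?_⟩
      obtain ⟨y, rfl⟩ := (Submodule.span Ω {x}).mkQ_surjective y
      have := h1 (List.replicate k g) y
      rw [List.map_replicate, List.map_replicate, List.prod_replicate, List.prod_replicate,
        hk] at this
      simpa using this) l (by simpa using hl)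
    ext y
    have h3 := h1 l y
    rw [h2, LinearMap.zero_apply, eq_comm, Submodule.mkQ_apply, Submodule.Quotient.mk_eq_zero,
      Submodule.mem_span_singleton] at h3
    obtain ⟨c, hc⟩ := h3
    rw [List.map_cons, List.prod_cons, Module.End.mul_apply, ← hc, map_smul]
    simp [hx g]

lemma pprime {F : Type} [Field F] [IsAlgClosed F] {p : ℕ} [Fact p.Prime] (hp : (p : F) ≠ 0)
    (d : ℕ) : ∀ (V : Type) [AddCommGroup V] [Module F V] [FiniteDimensional F V],
      finrank F V ≤ d → ∀ (H : Type) [Group H] [Finite H], IsPGroup p H →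
      ∀ ρ : Representation F H V, ∀ g ∈ derivedSeries H d, ρ g = 1 := by
  induction d with
  | zero =>
    intro V _ _ _ hd H _ _ _ ρ g _
    haveI : Subsingleton V := finrank_zero_iff.1 (Nat.le_zero.1 hd)
    exact Subsingleton.elim _ _
  | succ d ih =>
    intro V _ _ _ hd H _ _ hH ρ
    rcases subsingleton_or_nontrivial V with hV | hV
    · exact fun _ _ => Subsingleton.elim _ _
    have hinv : ∀ g, ρ g * ρ g⁻¹ = 1 := fun g => by rw [← map_mul, mul_inv_cancel, map_one]
    have hc0 : ∀ g (c : F), ρ g = c • 1 → c ≠ 0 := by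
      rintro g c h rfl
      have := hinv g
      rw [h, zero_smul, zero_mul] at this
      exact zero_ne_one this
    let Z : Subgroup H :=
      { carrier := {h | ∃ c : F, ρ h = c • 1}
        mul_mem' := by
          rintro a b ⟨c, hc⟩ ⟨c', hc'⟩
          exact ⟨c * c', by rw [map_mul, hc, hc', smul_mul_smul_comm, mul_one]⟩
        one_mem' := ⟨1, by simp⟩
        inv_mem' := by
          rintro a ⟨c, hc⟩
          refine ⟨c⁻¹, ?_⟩
          rw [← hinv a, hc, smul_mul_assoc, one_mul, smul_smul, inv_mul_cancel₀ (hc0 a c hc),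
            one_smul] }
    haveI : Z.Normal := ⟨by
      rintro a ⟨c, hc⟩ g
      exact ⟨c, by rw [map_mul, map_mul, hc, mul_smul_comm, smul_mul_assoc, mul_one, hinv]⟩⟩
    by_cases hZ : ∀ g, g ∈ Z
    · refine deriv_succ_of_comm ρ fun g _ g' _ => ?_
      obtain ⟨c, hc⟩ := hZ g
      rw [hc, smul_mul_assoc, mul_smul_comm, one_mul, mul_one]
    push Not at hZ
    haveI : Nontrivial (H ⧸ Z) := by
      obtain ⟨g, hg⟩ := hZ
      exact ⟨⟨g, 1, fun h => hg ((QuotientGroup.eq_one_iff g).1 h)⟩⟩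
    haveI := (hH.to_quotient Z).center_nontrivial
    obtain ⟨⟨z, hz⟩, hz1⟩ := exists_ne (1 : Subgroup.center (H ⧸ Z))
    obtain ⟨z, rfl⟩ := QuotientGroup.mk_surjective z
    have hzZ : z ∉ Z := fun h => hz1 (Subtype.ext ((QuotientGroup.eq_one_iff z).2 h))
    have hcz : ∀ g, ∃ c : F, c ≠ 0 ∧ ρ g * ρ z = c • (ρ z * ρ g) := by
      intro g
      have : ((g * z : H) : H ⧸ Z) = (z * g : H) := Subgroup.mem_center_iff.1 hz g
      obtain ⟨c, hc⟩ := QuotientGroup.eq.1 this.symm
      refine ⟨c, hc0 _ c hc, ?_⟩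
      rw [← map_mul, ← map_mul, ← mul_inv_cancel_left (z * g) (g * z), map_mul, hc,
        mul_smul_comm, mul_one]
    let H₁ : Subgroup H := (Subgroup.centralizer {ρ.toHomUnits z}).comap ρ.toHomUnits
    have mem₁ : ∀ g, g ∈ H₁ ↔ ρ z * ρ g = ρ g * ρ z := fun g => by
      simp only [H₁, Subgroup.mem_comap, Subgroup.mem_centralizer_iff, Set.mem_singleton_iff,
        forall_eq]
      exact Units.ext_iff
    have h1 : derivedSeries H 1 ≤ H₁ := by
      rw [derivedSeries_one, commutator_def, Subgroup.commutator_le]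
      intro g _ g' _
      obtain ⟨c, hc0, hc⟩ := hcz g
      obtain ⟨c', hc0', hc'⟩ := hcz g'
      have e1 : ρ (g * g') * ρ z = (c * c') • (ρ z * ρ (g * g')) := by
        rw [map_mul, mul_assoc, hc', mul_smul_comm, ← mul_assoc, hc, smul_mul_assoc, smul_smul,
          mul_comm c', mul_assoc]
      have e2 : ρ (g' * g) * ρ z = (c * c') • (ρ z * ρ (g' * g)) := by
        rw [map_mul, mul_assoc, hc, mul_smul_comm, ← mul_assoc, hc', smul_mul_assoc, smul_smul,
          mul_assoc]
      rw [commutatorElement_def]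
      have e3 : g * g' = g * g' * g⁻¹ * g'⁻¹ * (g' * g) := by group
      rw [e3, map_mul, mul_assoc, e2, mul_smul_comm, ← mul_assoc, ← mul_assoc] at e1
      have := congrArg (· * ρ (g' * g)⁻¹) (smul_right_injective _ (mul_ne_zero hc0 hc0') e1)
      simp only [mul_assoc, hinv, mul_one] at this
      exact (mem₁ _).2 (by simpa only [mul_assoc] using this.symm)
    obtain ⟨a, ha⟩ := hH z
    have hss : Module.End.IsSemisimple (ρ z) := Module.End.isSemisimple_of_squarefree_aeval_eq_zero
      ((Polynomial.X_pow_sub_one_separable_iff (n := p ^ a)).2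
        (by rw [Nat.cast_pow]; exact pow_ne_zero _ hp)).squarefree (by
        rw [map_sub, map_pow, Polynomial.aeval_X, ← map_pow, ha, map_one, map_one, sub_self])
    intro g hg
    rw [add_comm] at hg
    obtain ⟨g, hg', rfl⟩ := deriv_le_map h1 d hg
    have hE : ∀ μ, ∀ g : H₁, Module.End.eigenspace (ρ z) μ ≤ (Module.End.eigenspace (ρ z) μ).comap
        ((ρ.comp H₁.subtype) g) := by
      intro μ g x hx
      rw [Submodule.mem_comap, Module.End.mem_eigenspace_iff] at *
      change ρ z (ρ g x) = μ • ρ g x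
      rw [← Module.End.mul_apply, (mem₁ _).1 g.2, Module.End.mul_apply, hx, map_smul]
    ext x
    have hx : x ∈ ⨆ μ, Module.End.eigenspace (ρ z) μ := hss.iSup_eigenspace_eq_top ▸ Submodule.mem_top
    refine Submodule.iSup_induction _ (motive := fun x => ρ g x = x) hx (fun μ x hx => ?_)
      (map_zero _) (fun x y hx hy => by rw [map_add, hx, hy])
    have := ih (Module.End.eigenspace (ρ z) μ) (by
      have := Submodule.finrank_lt (s := Module.End.eigenspace (ρ z) μ) (fun h => hzZ ⟨μ, LinearMap.ext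
        fun y => Module.End.mem_eigenspace_iff.1 (h ▸ Submodule.mem_top)⟩)
      omega) H₁ (hH.to_subgroup H₁)
      (Representation.subrepresentation (ρ.comp H₁.subtype) _ (hE μ)) g hg'
    exact congrArg Subtype.val (LinearMap.congr_fun this ⟨x, hx⟩)

section
variable {n H : Type} [Fintype n] [DecidableEq n] [Group H]

/-- the representation over the algebraic closure -/
noncomputable def toRep {k : Type} [Field k] : Matrix n n k →+*
    Module.End (AlgebraicClosure k) (n → AlgebraicClosure k) :=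
  (Matrix.toLinAlgEquiv' (R := AlgebraicClosure k)).toRingEquiv.toRingHom.comp
    (algebraMap k _).mapMatrix

lemma toRep_inj {k : Type} [Field k] : Function.Injective (toRep (n := n) (k := k)) :=
  (Matrix.toLinAlgEquiv' (R := AlgebraicClosure k)).injective.comp
    (Matrix.map_injective (algebraMap k _).injective)

lemma unip_mat {k : Type} [Field k] {p : ℕ} [Fact p.Prime] (hp : (p : k) = 0)
    (ρ : H →* Matrix n n k) (h : ∀ g, ∃ a : ℕ, ρ g ^ p ^ a = 1) (l : List H)
    (hl : Fintype.card n ≤ l.length) : (l.map fun g => ρ g - 1).prod = 0 := by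
  apply toRep_inj
  have := unip_prod (Fintype.card n) (n → AlgebraicClosure k) (by simp)
    (toRep.toMonoidHom.comp ρ) (fun g => by
      obtain ⟨a, ha⟩ := h g
      rcases isEmpty_or_nonempty n with hn | hn
      · exact ⟨0, Subsingleton.elim _ _⟩
      haveI : CharP k p := (CharP.charP_iff_prime_eq_zero Fact.out).2 hp
      have : IsNilpotent (ρ g - 1) := ⟨p ^ a, by
        rw [sub_pow_char_pow_of_commute _ _ (Commute.one_right _), ha, one_pow, sub_self]⟩
      simpa using this.map toRep) l hl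
  rw [map_zero, ← this, map_list_prod, List.map_map]
  congr 2
  funext g
  simp

lemma pprime_mat {k : Type} [Field k] {p : ℕ} [Fact p.Prime] (hp : (p : k) ≠ 0) [Finite H]
    (hH : IsPGroup p H) (ρ : H →* Matrix n n k) :
    ∀ g ∈ derivedSeries H (Fintype.card n), ρ g = 1 := by
  intro g hg
  apply toRep_inj
  rw [map_one]
  exact pprime (F := AlgebraicClosure k) (by
    rw [← map_natCast (algebraMap k _)]; exact (map_ne_zero _).2 hp) _ (n → AlgebraicClosure k)
    (by simp) H hH (toRep.toMonoidHom.comp ρ) g hg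

variable {A : Type} [CommRing A]

lemma idM_mul {I J : Ideal A} {x y : Matrix n n A} (hx : x ∈ I.matrix n) (hy : y ∈ J.matrix n) :
    x * y ∈ (I * J).matrix n := fun i j => by
  rw [Matrix.mul_apply]
  exact sum_mem fun k _ => Ideal.mul_mem_mul (hx i k) (hy k j)

lemma idM_mul_right {I : Ideal A} {x : Matrix n n A} (hx : x ∈ I.matrix n) (y : Matrix n n A) :
    x * y ∈ I.matrix n := by
  simpa using idM_mul hx (J := ⊤) (y := y) fun _ _ => trivial

lemma idM_pow {I : Ideal A} {x : Matrix n n A} (hx : x ∈ I.matrix n) (m : ℕ) :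
    x ^ m ∈ (I ^ m).matrix n := by
  induction m with
  | zero => intro i j; simp
  | succ m ih => rw [pow_succ, pow_succ]; exact idM_mul ih hx

lemma map_eq_one_iff' {B : Type} [CommRing B] (φ : A →+* B) (u : Matrix n n A) :
    φ.mapMatrix u = 1 ↔ u - 1 ∈ (RingHom.ker φ).matrix n := by
  rw [← map_one φ.mapMatrix, ← sub_eq_zero, ← map_sub]
  exact Matrix.ext_iff.symm

lemma mk_eq_one_iff (I : Ideal A) (u : Matrix n n A) :
    (Ideal.Quotient.mk I).mapMatrix u = 1 ↔ u - 1 ∈ I.matrix n := by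
  rw [map_eq_one_iff', Ideal.mk_ker]

lemma nil_smul {u : Matrix n n A} {q M : ℕ} (hu : u ^ q = 1) (hM : (u - 1) ^ (M + 1) = 0) :
    (q : A) ^ M • (u - 1) = 0 := by
  let z := ∑ k ∈ Finset.range q, ∑ i ∈ Finset.range k, u ^ i
  have cz : Commute (u - 1) z := Commute.sum_right _ _ _ fun k _ => Commute.sum_right _ _ _
    fun i _ => ((Commute.refl u).sub_left (Commute.one_left u)).pow_right i
  have e : (q : A) • (u - 1) = -((u - 1) * (u - 1) * z) := by
    have h1 := mul_geom_sum u q
    rw [hu, sub_self] at h1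
    have h2 : (u - 1) * z = ∑ k ∈ Finset.range q, u ^ k - (q : A) • 1 := by
      rw [Finset.mul_sum]
      simp only [mul_geom_sum, Finset.sum_sub_distrib]
      simp [Nat.cast_smul_eq_nsmul]
    rw [mul_assoc, h2, mul_sub, h1, mul_smul_comm, mul_one, zero_sub, neg_neg]
  have key : ∀ m : ℕ, (q : A) ^ m • (u - 1) = (u - 1) ^ (m + 1) * (-z) ^ m := by
    intro m
    induction m with
    | zero => simp
    | succ m ih =>
      rw [pow_succ', mul_smul, ih, pow_succ (u - 1) m, mul_assoc, ← mul_smul_comm,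
        ← smul_mul_assoc, e, pow_succ' (-z), pow_succ (u - 1) (m + 1), pow_succ (u - 1) m]
      simp only [mul_assoc, neg_mul, mul_neg]
  rw [key, hM, zero_mul]

lemma split_finite [Finite A] {p a : ℕ} {u : Matrix n n A} (hu : u ^ p ^ a = 1)
    (h1 : ∀ N : ℕ, u - 1 ∈ (Ideal.span {(p : A) ^ N}).matrix n)
    (h2 : ∀ 𝔪 : Ideal A, 𝔪.IsMaximal → (p : A) ∉ 𝔪 → u - 1 ∈ 𝔪.matrix n) : u = 1 := by
  obtain ⟨M, hM⟩ := IsArtinianRing.isNilpotent_jacobson_bot (R := A)
  have hy : u - 1 ∈ (⊥ : Ideal A).jacobson.matrix n := by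
    intro i j
    refine Ideal.mem_sInf.2 fun {𝔪} h => ?_
    by_cases hp : (p : A) ∈ 𝔪
    · exact (Ideal.span_singleton_le_iff_mem _).2 (by simpa using hp) (h1 1 i j)
    · exact h2 𝔪 h.2 hp i j
  have h3 : (u - 1) ^ (M + 1) = 0 := by
    have := idM_pow hy M
    rw [hM] at this
    rw [pow_succ, show (u - 1) ^ M = 0 from Matrix.ext this, zero_mul]
  have h4 := nil_smul hu h3
  obtain ⟨k, hk⟩ := (monotone_stabilizes_iff_artinian (R := A) (M := A)).2 inferInstance
    ⟨fun k => OrderDual.toDual (Ideal.span {(p : A) ^ k}), fun a b h =>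
      Ideal.span_singleton_le_span_singleton.2 (pow_dvd_pow _ h)⟩
  have h5 : Ideal.span {(p : A) ^ k} = Ideal.span {(p : A) ^ (k + a * M)} := hk _ (by omega)
  obtain ⟨c, hc⟩ := Ideal.mem_span_singleton'.1 (h5 ▸ Ideal.mem_span_singleton_self ((p : A) ^ k))
  rw [← sub_eq_zero]
  ext i j
  obtain ⟨w, hw⟩ := Ideal.mem_span_singleton'.1 (h1 k i j)
  have h6 := congrFun (congrFun h4 i) j
  rw [Matrix.smul_apply, smul_eq_mul, Nat.cast_pow, ← pow_mul] at h6
  have : (u - 1) i j = c * ((p : A) ^ (a * M) * (u - 1) i j) := by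
    rw [← hw]
    conv_lhs => rw [← hc]
    ring
  rw [this, h6, Matrix.zero_apply, mul_zero]

lemma exists_prime_NS [IsNoetherianRing A] {ρ : H →* Matrix n n A} (h : NS ρ) :
    ∃ P : Ideal A, P.IsPrime ∧ NS ((Ideal.Quotient.mk P).mapMatrix.toMonoidHom.comp ρ) := by
  have key : ∀ I : Ideal A, NS ((Ideal.Quotient.mk I).mapMatrix.toMonoidHom.comp ρ) ↔
      ∀ j, ∃ g ∈ derivedSeries H j, ρ g - 1 ∉ I.matrix n := fun I =>
    forall_congr' fun j => exists_congr fun g => and_congr_right fun _ =>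
      not_congr (mk_eq_one_iff I _)
  obtain ⟨P, hP, hmax⟩ := set_has_maximal_iff_noetherian.2 (inferInstance : IsNoetherian A A)
    {I | ∀ j, ∃ g ∈ derivedSeries H j, ρ g - 1 ∉ Ideal.matrix n I} ⟨⊥, fun j => by
      obtain ⟨g, hg, hg1⟩ := h j
      exact ⟨g, hg, fun h => hg1 (sub_eq_zero.1 (Matrix.ext h))⟩⟩
  change Ideal A at P
  refine ⟨P, ⟨?_, fun {a b} hab => ?_⟩, (key P).2 hP⟩
  · rintro rfl
    obtain ⟨g, -, hg⟩ := hP 0
    exact hg fun _ _ => trivial
  by_contra hcon
  push Not at hcon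
  have h1 : ∀ a ∉ P, ∃ j, ∀ g ∈ derivedSeries H j, ρ g - 1 ∈ (P ⊔ Ideal.span {a}).matrix n := by
    intro a ha
    by_contra h2
    push Not at h2
    exact hmax _ h2 (left_lt_sup.2 fun h => ha (h (Ideal.mem_span_singleton_self a)))
  obtain ⟨j₁, h₁⟩ := h1 a hcon.1
  obtain ⟨j₂, h₂⟩ := h1 b hcon.2
  obtain ⟨g, hg, hg1⟩ := (key P).2 hP (max j₁ j₂ + 1)
  refine hg1 (deriv_succ_of_comm _ (fun g hg g' hg' => ?_) g hg)
  have hle : (P ⊔ Ideal.span {a}) * (P ⊔ Ideal.span {b}) ≤ P := by
    rw [Ideal.sup_mul, Ideal.mul_sup, Ideal.mul_sup, Ideal.span_singleton_mul_span_singleton]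
    exact sup_le (sup_le Ideal.mul_le_left Ideal.mul_le_left)
      (sup_le Ideal.mul_le_right ((Ideal.span_singleton_le_iff_mem _).2 hab))
  have h3 : ∀ g ∈ derivedSeries H (max j₁ j₂), ∀ g' ∈ derivedSeries H (max j₁ j₂),
      (ρ g - 1) * (ρ g' - 1) ∈ P.matrix n := fun g hg g' hg' => Ideal.matrix_monotone n hle
    (idM_mul (h₁ g (derivedSeries_antitone H (le_max_left _ _) hg))
      (h₂ g' (derivedSeries_antitone H (le_max_right _ _) hg')))
  have h4 := sub_mem (h3 g hg g' hg') (h3 g' hg' g hg)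
  have e : (ρ g - 1) * (ρ g' - 1) - (ρ g' - 1) * (ρ g - 1) = ρ g * ρ g' - ρ g' * ρ g := by
    noncomm_ring
  rw [e] at h4
  change (Ideal.Quotient.mk P).mapMatrix _ * (Ideal.Quotient.mk P).mapMatrix _ =
    (Ideal.Quotient.mk P).mapMatrix _ * (Ideal.Quotient.mk P).mapMatrix _
  rw [← map_mul (Ideal.Quotient.mk P).mapMatrix, ← map_mul (Ideal.Quotient.mk P).mapMatrix,
    ← sub_eq_zero, ← map_sub]
  exact Matrix.ext fun i j => Ideal.Quotient.eq_zero_iff_mem.2 (h4 i j)

end

end Pool.Agent.Lib.MP_c0708e_al.Tits
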