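import Pool.Agent.Lib.MP_c0708e_al.TStage1

/-! Induction on the dimension over an algebraically closed valued field. -/

set_option linter.style.haveILetI false

namespace Pool.Agent.Lib.MP_c0708e_al.Tits

open Filter Module

/-- the image is not soluble -/
def NS {H E : Type} [Group H] [Monoid E] (ρ : H →* E) : Prop :=
  ∀ j, ∃ h ∈ derivedSeries H j, ρ h ≠ 1

section
variable {H E : Type} [Group H] [Monoid E] {p : ℕ}

lemma deriv_le_map {N : Subgroup H} {j₀ : ℕ} (h : derivedSeries H j₀ ≤ N) (j : ℕ) :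
    derivedSeries H (j₀ + j) ≤ (derivedSeries N j).map N.subtype := by
  induction j with
  | zero => simpa [← MonoidHom.range_eq_map] using h
  | succ j ih =>
    rw [← add_assoc, derivedSeries_succ, derivedSeries_succ, Subgroup.map_commutator]
    exact Subgroup.commutator_mono ih ih

lemma NS.of_le {ρ : H →* E} (h : NS ρ) {N : Subgroup H} {j₀ : ℕ} (hj : derivedSeries H j₀ ≤ N) :
    NS (ρ.comp N.subtype) := by
  intro j
  obtain ⟨g, hg, hg1⟩ := h (j₀ + j)
  obtain ⟨g, hg', rfl⟩ := deriv_le_map hj j hg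
  exact ⟨g, hg', hg1⟩

lemma exists_deriv_le (N : Subgroup H) [N.Normal] [Group.IsSolvable (H ⧸ N)] :
    ∃ j, derivedSeries H j ≤ N := by
  obtain ⟨j, hj⟩ := Group.IsSolvable.solvable (G := H ⧸ N)
  refine ⟨j, fun g hg => ?_⟩
  have := map_derivedSeries_le_derivedSeries (QuotientGroup.mk' N) j ⟨g, hg, rfl⟩
  rw [hj] at this
  exact (QuotientGroup.eq_one_iff g).1 this

lemma NS.sub [Fact p.Prime] {ρ : H →* E} (h : NS ρ) (N : Subgroup H) [N.Normal]
    [N.FiniteIndex] (hN : ∀ g : H, ∃ a : ℕ, g ^ p ^ a ∈ N) : NS (ρ.comp N.subtype) := by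
  have : IsPGroup p (H ⧸ N) := by
    intro g
    obtain ⟨g, rfl⟩ := QuotientGroup.mk_surjective g
    obtain ⟨a, ha⟩ := hN g
    exact ⟨a, (QuotientGroup.eq_one_iff _).2 ha⟩
  haveI := this.isNilpotent
  obtain ⟨j, hj⟩ := exists_deriv_le N
  exact h.of_le hj

lemma deriv_succ_of_comm (ρ : H →* E) {j : ℕ}
    (h : ∀ g ∈ derivedSeries H j, ∀ g' ∈ derivedSeries H j, ρ g * ρ g' = ρ g' * ρ g) :
    ∀ g ∈ derivedSeries H (j + 1), ρ g = 1 := by
  have : derivedSeries H (j + 1) ≤ ρ.ker := by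
    rw [derivedSeries_succ, Subgroup.commutator_le]
    intro g hg g' hg'
    rw [MonoidHom.mem_ker, commutatorElement_def, map_mul, map_mul, map_mul, h g hg g' hg',
      mul_assoc (ρ g'), ← map_mul, mul_inv_cancel, map_one, mul_one, ← map_mul, mul_inv_cancel,
      map_one]
  exact this

end

theorem stageC {K Γ : Type} [Field K] [IsAlgClosed K] [LinearOrderedCommGroupWithZero Γ]
    {v : Valuation K Γ} (p : ℕ) [Fact p.Prime] (hp : p ≠ 2)
    {t : Γ} (ht0 : t ≠ 0) (ht1 : t < 1) (hA : ∀ x : K, x ≠ 0 → ∃ m : ℕ, t ^ m ≤ v x)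
    (hvp : v p ≤ t) (ℱ : Filter (FreeGroup Bool)) (k : ℕ) (d : ℕ) :
    ∀ (V : Type) [AddCommGroup V] [Module K V] [FiniteDimensional K V], finrank K V = d →
      ∀ (H : Type) [Group H] (ρ : Representation K H V),
      (∀ (m : ℕ) (ℓ : Dual K V) (x : V), ∃ N : Subgroup H, N.FiniteIndex ∧
        (∀ g : H, ∃ a : ℕ, g ^ p ^ a ∈ N) ∧ ∀ h ∈ N, v (ℓ (ρ h x - x)) ≤ t ^ m) →
      (∀ (h : Bool → H) (m : ℕ) (ℓ : Dual K V) (x : V),
        ∀ᶠ w in ℱ, v (ℓ (ρ (FreeGroup.lift h w) x - x)) ≤ t ^ m) →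
      NS ρ → ∀ᶠ w in ℱ, Good p k w := by
  induction d using Nat.strong_induction_on with
  | _ d ih =>
  intro V _ _ _ hd H _ ρ hC hL hNS
  have lift_sub : ∀ (N : Subgroup H) (h : Bool → N) (w : FreeGroup Bool),
      ((FreeGroup.lift h w : N) : H) = FreeGroup.lift (fun β => (h β : H)) w := by
    intro N h w
    have : N.subtype.comp (FreeGroup.lift h) = FreeGroup.lift (fun β => (h β : H)) := by
      ext; simp
    exact DFunLike.congr_fun this w
  by_cases hred : ∃ N : Subgroup H, N.FiniteIndex ∧ ∃ W : Submodule K V, W ≠ ⊥ ∧ W ≠ ⊤ ∧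
      ∀ g ∈ N, ∀ x ∈ W, ρ g x ∈ W
  · obtain ⟨N₁, _, W, hW0, hW1, hW₁⟩ := hred
    let N₀ : Subgroup H :=
      { carrier := {g | (∀ x ∈ W, ρ g x ∈ W) ∧ ∀ x ∈ W, ρ g⁻¹ x ∈ W}
        mul_mem' := fun {a b} ha hb => ⟨fun x hx => by
          rw [map_mul]; exact ha.1 _ (hb.1 x hx), fun x hx => by
          rw [mul_inv_rev, map_mul]; exact hb.2 _ (ha.2 x hx)⟩
        one_mem' := by simp
        inv_mem' := fun {a} ha => ⟨ha.2, by simpa using ha.1⟩ }
    have hle : N₁ ≤ N₀ := fun g hg => ⟨hW₁ g hg, hW₁ _ (inv_mem hg)⟩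
    haveI : N₀.FiniteIndex := Subgroup.finiteIndex_of_le hle
    have hW : ∀ g ∈ N₀, ∀ x ∈ W, ρ g x ∈ W := fun g hg => hg.1
    obtain ⟨a, e, he, hae⟩ := Nat.exists_eq_pow_mul_and_not_dvd
      (Subgroup.FiniteIndex.index_ne_zero (H := N₀.normalCore)) p (Fact.out : p.Prime).ne_one
    have hst : ∀ g : H, ∀ x ∈ W, ρ (g ^ p ^ a) x ∈ W := by
      intro g x hx
      have h1 : (g ^ p ^ a) ^ e ∈ N₀ := by
        rw [← pow_mul, ← hae]; exact N₀.normalCore_le (Subgroup.pow_index_mem _ g)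
      generalize g ^ p ^ a = g at h1
      rw [← Subspace.forall_mem_dualAnnihilator_apply_eq_zero_iff]
      intro ℓ hℓ
      by_contra hne
      obtain ⟨m, hm⟩ := hA _ hne
      obtain ⟨M, -, hM1, hM2⟩ := hC (m + 1) (ℓ.comp (ρ g)) x
      obtain ⟨b, hb⟩ := hM1 g
      obtain ⟨r, s, hrs⟩ := Nat.isCoprime_iff_coprime.2
        (((Nat.Prime.coprime_iff_not_dvd Fact.out).2 he).pow_left b)
      have h2 : g * (g ^ p ^ b) ^ (-r) = (g ^ e) ^ s := by
        rw [← zpow_natCast, ← zpow_natCast, ← zpow_mul, ← zpow_mul, ← zpow_one_add]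
        congr 1
        linear_combination -hrs
      have h3 := hM2 _ (zpow_mem hb (-r))
      rw [map_sub, LinearMap.comp_apply, ← Module.End.mul_apply, ← map_mul, h2,
        (Submodule.mem_dualAnnihilator ℓ).1 hℓ _ (hW _ (zpow_mem h1 s) x hx), zero_sub,
        Valuation.map_neg] at h3
      exact absurd (hm.trans h3) (not_le.2 (pow_lt_pow_right_of_lt_one₀ (zero_lt_iff.2 ht0) ht1
        (Nat.lt_succ_self m)))
    let N := N₀.normalCore
    have hN : ∀ g : H, ∃ a : ℕ, g ^ p ^ a ∈ N := fun g => ⟨a, fun h => by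
      rw [← conj_pow]
      exact ⟨hst _, by rw [← inv_pow]; exact hst _⟩⟩
    let ρ' : Representation K N V := ρ.comp N.subtype
    have hW' : ∀ g, W ≤ W.comap (ρ' g) := fun g x hx => hW g (N₀.normalCore_le g.2) x hx
    by_cases h1 : NS (ρ'.subrepresentation W hW')
    · refine ih _ (hd ▸ Submodule.finrank_lt hW1) W rfl N _ ?_ ?_ h1
      · intro m ℓ x
        obtain ⟨ℓ, rfl⟩ := Subspace.dualRestrict_surjective ℓ
        obtain ⟨M, _, hM1, hM⟩ := hC m ℓ x
        exact ⟨M.subgroupOf N, inferInstance, fun g => hM1 g, fun h hh => hM h hh⟩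
      · intro h m ℓ x
        obtain ⟨ℓ, rfl⟩ := Subspace.dualRestrict_surjective ℓ
        refine (hL (fun β => h β) m ℓ x).mono fun w hw => ?_
        rw [← lift_sub] at hw
        exact hw
    by_cases h2 : NS (ρ'.quotient W hW')
    · refine ih _ ?_ (V ⧸ W) rfl N _ ?_ ?_ h2
      · have := Submodule.finrank_quotient_add_finrank W
        have h3 : finrank K W ≠ 0 := fun h => hW0 (Submodule.finrank_eq_zero.1 h)
        omega
      · intro m ℓ x
        obtain ⟨x, rfl⟩ := W.mkQ_surjective x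
        obtain ⟨M, _, hM1, hM⟩ := hC m (ℓ.comp W.mkQ) x
        exact ⟨M.subgroupOf N, inferInstance, fun g => hM1 g, fun h hh => hM h hh⟩
      · intro h m ℓ x
        obtain ⟨x, rfl⟩ := W.mkQ_surjective x
        refine (hL (fun β => h β) m (ℓ.comp W.mkQ) x).mono fun w hw => ?_
        rw [← lift_sub] at hw
        exact hw
    exfalso
    simp only [NS, not_forall, not_exists, not_and, not_not] at h1 h2
    obtain ⟨j₁, h1⟩ := h1
    obtain ⟨j₂, h2⟩ := h2
    obtain ⟨g, hg, hg1⟩ := hNS.sub N hN (max j₁ j₂ + 1)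
    refine hg1 (deriv_succ_of_comm ρ' (fun g hg g' hg' => ?_) g hg)
    have a1 : ∀ g ∈ derivedSeries N (max j₁ j₂), ∀ x ∈ W, ρ' g x = x := fun g hg x hx =>
      congrArg Subtype.val (LinearMap.congr_fun
        (h1 g (derivedSeries_antitone N (le_max_left _ _) hg)) ⟨x, hx⟩)
    have a2 : ∀ g ∈ derivedSeries N (max j₁ j₂), ∀ x, ρ' g x - x ∈ W := fun g hg x =>
      (Submodule.Quotient.eq W).1 (LinearMap.congr_fun
        (h2 g (derivedSeries_antitone N (le_max_right _ _) hg)) (W.mkQ x))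
    ext x
    have b1 := a1 g hg _ (a2 g' hg' x)
    have b2 := a1 g' hg' _ (a2 g hg x)
    rw [map_sub] at b1 b2
    change ρ' g (ρ' g' x) = ρ' g' (ρ' g x)
    rw [eq_add_of_sub_eq b1, eq_add_of_sub_eq b2]
    abel
  push Not at hred
  let b := Module.finBasis K V
  let ρM : H →* Matrix (Fin (finrank K V)) (Fin (finrank K V)) K :=
    (LinearMap.toMatrixAlgEquiv b).toAlgHom.toMonoidHom.comp ρ
  have ρM_apply : ∀ h, ρM h = LinearMap.toMatrixAlgEquiv b (ρ h) := fun _ => rfl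
  haveI : Nontrivial (Fin (finrank K V)) := by
    by_contra h
    haveI := not_nontrivial_iff_subsingleton.1 h
    obtain ⟨g, hg, hg1⟩ := hNS 1
    refine hg1 (deriv_succ_of_comm ρ (fun g _ g' _ => ?_) g hg)
    apply (LinearMap.toMatrixAlgEquiv b).injective
    rw [map_mul, map_mul]
    ext i j
    rw [Matrix.mul_apply, Matrix.mul_apply, Subsingleton.elim j i, Fintype.sum_subsingleton _ i,
      Fintype.sum_subsingleton _ i, mul_comm]
  haveI : Nontrivial V := Module.nontrivial_of_finrank_pos (R := K)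
    (Fin.pos (Classical.arbitrary (Fin (finrank K V))))
  have entry : ∀ h i j, (ρM h - 1) i j = b.coord i (ρ h (b j) - b j) := by
    intro h i j
    rw [← map_one (LinearMap.toMatrixAlgEquiv b), ρM_apply, ← map_sub,
      LinearMap.toMatrixAlgEquiv_apply]
    rfl
  obtain ⟨m₀, hm₀⟩ : ∃ m₀ : ℕ, (p : K) ≠ 0 → t ^ (m₀ + 1) < v p := by
    by_cases h : (p : K) = 0
    · exact ⟨0, fun h' => absurd h h'⟩
    obtain ⟨m, hm⟩ := hA _ h
    exact ⟨m, fun _ => (pow_lt_pow_right_of_lt_one₀ (zero_lt_iff.2 ht0) ht1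
      (Nat.lt_succ_self m)).trans_le hm⟩
  choose M hM _ hM' using fun q : Fin (finrank K V) × Fin (finrank K V) =>
    hC (m₀ + 1) (b.coord q.1) (b q.2)
  haveI := Subgroup.finiteIndex_iInf hM
  refine stage1 p hp ht0 ht1 hA hvp (ε := t ^ (m₀ + 1))
    (pow_le_of_le_one zero_le ht1.le (by omega)) hm₀ (ρ := ρM.comp (⨅ q, M q).subtype) ?_ ?_ ℱ ?_ k
  · intro N hN
    have hfi : (N.map (⨅ q, M q).subtype).FiniteIndex := ⟨by
      rw [Subgroup.index_map_subtype]
      exact mul_ne_zero hN.index_ne_zero Subgroup.FiniteIndex.index_ne_zero⟩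
    have := burnside_rep (ρ.comp (N.map (⨅ q, M q).subtype).subtype) (fun W hW => by
      by_contra h
      push Not at h
      obtain ⟨g, hg, x, hx, hgx⟩ := hred _ hfi W h.1 h.2
      exact hgx (hW ⟨g, hg⟩ x hx))
    have h2 := congrArg (Submodule.map (LinearMap.toMatrixAlgEquiv b).toLinearEquiv.toLinearMap) this
    rw [Submodule.map_span, Submodule.map_top, LinearEquiv.range] at h2
    rw [eq_top_iff, ← h2]
    refine Submodule.span_mono ?_
    rintro _ ⟨_, ⟨⟨_, g, hg, rfl⟩, rfl⟩, rfl⟩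
    exact ⟨g, hg, rfl⟩
  · intro h i j
    exact (entry h i j).symm ▸ hM' (i, j) h (Subgroup.mem_iInf.1 h.2 (i, j))
  · intro h m
    have : ∀ᶠ w in ℱ, ∀ i j, v (b.coord i (ρ (FreeGroup.lift (fun β => (h β : H)) w) (b j) - b j))
        ≤ t ^ m := eventually_all.2 fun i => eventually_all.2 fun j => hL _ m _ _
    refine this.mono fun w hw i j => ?_
    rw [← lift_sub] at hw
    exact (entry _ i j).symm ▸ hw i j

end Pool.Agent.Lib.MP_c0708e_al.Tits
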