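import Pool.Agent.Lib.MP_c0708e_al.TLin

/-! Invariant subspaces of matrices under a strongly irreducible group. -/

set_option linter.style.haveILetI false

namespace Pool.Agent.Lib.MP_c0708e_al.Tits

open Module

section
variable {Ω : Type} [Field Ω] {n : Type} [Fintype n] [DecidableEq n] {H : Type} [Group H]

/-- conjugation invariant subspaces -/
def Inv (ρ : H →* Matrix n n Ω) (W : Submodule Ω (Matrix n n Ω)) : Prop :=
  ∀ h, ∀ x ∈ W, ρ h * x * ρ h⁻¹ ∈ W

/-- every subgroup of finite index spans the matrix algebra -/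
def SB (ρ : H →* Matrix n n Ω) : Prop :=
  ∀ N : Subgroup H, N.FiniteIndex → Submodule.span Ω (ρ '' N) = ⊤

/-- scalar matrices -/
def Sc (n Ω : Type) [Field Ω] [DecidableEq n] : Submodule Ω (Matrix n n Ω) :=
  Submodule.span Ω {1}

omit [Fintype n] in
lemma mem_Sc {x : Matrix n n Ω} : x ∈ Sc n Ω ↔ ∃ c : Ω, c • (1 : Matrix n n Ω) = x :=
  Submodule.mem_span_singleton

omit [Fintype n] in
lemma one_mem_Sc : (1 : Matrix n n Ω) ∈ Sc n Ω := Submodule.mem_span_singleton_self _

lemma rho_mul_inv (ρ : H →* Matrix n n Ω) (h : H) : ρ h * ρ h⁻¹ = 1 := by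
  rw [← map_mul, mul_inv_cancel, map_one]

lemma rho_inv_mul (ρ : H →* Matrix n n Ω) (h : H) : ρ h⁻¹ * ρ h = 1 := by
  rw [← map_mul, inv_mul_cancel, map_one]

/-- conjugation as an algebra homomorphism -/
def cj (ρ : H →* Matrix n n Ω) (h : H) : Matrix n n Ω →ₐ[Ω] Matrix n n Ω where
  toFun x := ρ h * x * ρ h⁻¹
  map_one' := by rw [mul_one, rho_mul_inv]
  map_mul' x y := by
    simp only [mul_assoc]
    rw [← mul_assoc (ρ h⁻¹), rho_inv_mul, one_mul]
  map_zero' := by simp
  map_add' x y := by simp [mul_add, add_mul]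
  commutes' c := by
    simp only [Algebra.algebraMap_eq_smul_one, mul_smul_comm, smul_mul_assoc, mul_one,
      rho_mul_inv]

lemma cj_apply (ρ : H →* Matrix n n Ω) (h : H) (x : Matrix n n Ω) :
    cj ρ h x = ρ h * x * ρ h⁻¹ := rfl

lemma cj_mul (ρ : H →* Matrix n n Ω) (g h : H) (x : Matrix n n Ω) :
    cj ρ (g * h) x = cj ρ g (cj ρ h x) := by
  simp [cj_apply, mul_assoc]

lemma cj_one (ρ : H →* Matrix n n Ω) (x : Matrix n n Ω) : cj ρ 1 x = x := by
  simp [cj_apply]

lemma cj_cj_inv (ρ : H →* Matrix n n Ω) (h : H) (x : Matrix n n Ω) :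
    cj ρ h (cj ρ h⁻¹ x) = x := by
  rw [← cj_mul, mul_inv_cancel, cj_one]

/-- conjugation representation -/
def cjRep (ρ : H →* Matrix n n Ω) : Representation Ω H (Matrix n n Ω) where
  toFun h := (cj ρ h).toLinearMap
  map_one' := by ext1 x; exact cj_one ρ x
  map_mul' g h := by ext1 x; exact cj_mul ρ g h x

lemma Inv_Sc (ρ : H →* Matrix n n Ω) : Inv ρ (Sc n Ω) := by
  intro h x hx
  obtain ⟨c, rfl⟩ := mem_Sc.1 hx
  rw [← cj_apply, map_smul, map_one]
  exact Submodule.smul_mem _ _ one_mem_Sc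

lemma Inv.sup {ρ : H →* Matrix n n Ω} {W W' : Submodule Ω (Matrix n n Ω)} (h : Inv ρ W)
    (h' : Inv ρ W') : Inv ρ (W ⊔ W') := by
  intro g x hx
  obtain ⟨a, ha, b, hb, rfl⟩ := Submodule.mem_sup.1 hx
  rw [mul_add, add_mul]
  exact Submodule.add_mem_sup (h g a ha) (h' g b hb)

lemma Inv_span {ρ : H →* Matrix n n Ω} {S : Set (Matrix n n Ω)}
    (h : ∀ g, ∀ x ∈ S, cj ρ g x ∈ Submodule.span Ω S) : Inv ρ (Submodule.span Ω S) := by
  intro g x hx
  have : Submodule.span Ω S ≤ (Submodule.span Ω S).comap (cj ρ g).toLinearMap :=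
    Submodule.span_le.2 (h g)
  exact this hx

variable [IsAlgClosed Ω] [Nonempty n]

/-- A commutative invariant subspace consists of scalars. -/
lemma comm_scalar {ρ : H →* Matrix n n Ω} (hSB : SB ρ) {W : Submodule Ω (Matrix n n Ω)}
    (hW : Inv ρ W) (hc : ∀ x ∈ W, ∀ y ∈ W, x * y = y * x) : W ≤ Sc n Ω := by
  let f : W → Module.End Ω (n → Ω) := fun x => Matrix.toLin' (x : Matrix n n Ω)
  have hf : ∀ x y, Commute (f x) (f y) := by
    intro x y
    change Matrix.toLin' _ ∘ₗ Matrix.toLin' _ = Matrix.toLin' _ ∘ₗ Matrix.toLin' _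
    rw [← Matrix.toLin'_mul, ← Matrix.toLin'_mul, hc x x.2 y y.2]
  let V : (W → Ω) → Submodule Ω (n → Ω) := fun χ => ⨅ x, (f x).eigenspace (χ x)
  have memV : ∀ χ v, v ∈ V χ ↔ ∀ x : W, (x : Matrix n n Ω).mulVec v = χ x • v := by
    intro χ v
    simp [V, Submodule.mem_iInf, f]
  obtain ⟨χ0, h0⟩ := exists_common_eigenvector f hf
  have hind : iSupIndep V := by
    refine (Module.End.independent_iInf_maxGenEigenspace_of_forall_mapsTo f
      (fun i j φ => Module.End.mapsTo_maxGenEigenspace_of_comm (hf j i) φ)).mono fun χ => ?_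
    refine iInf_mono fun x v hv => ?_
    rw [Module.End.mem_maxGenEigenspace]
    rw [Module.End.mem_eigenspace_iff] at hv
    exact ⟨1, by simp [hv]⟩
  have hfin : {χ | V χ ≠ ⊥}.Finite := WellFoundedGT.finite_ne_bot_of_iSupIndep hind
  letI : MulAction H (Submodule Ω (n → Ω)) :=
    { smul := fun h U => U.map (Matrix.toLin' (ρ h))
      one_smul := fun U => by
        change U.map _ = U
        simp
      mul_smul := fun g h U => by
        change U.map _ = (U.map _).map _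
        rw [map_mul, Matrix.toLin'_mul, Submodule.map_comp] }
  have smul_def : ∀ (h : H) (U : Submodule Ω (n → Ω)), h • U = U.map (Matrix.toLin' (ρ h)) :=
    fun _ _ => rfl
  have hle : ∀ (h : H) χ, h • V χ ≤
      V (fun x => χ ⟨cj ρ h⁻¹ x, hW h⁻¹ x x.2⟩) := by
    rintro h χ _ ⟨v, hv, rfl⟩
    rw [SetLike.mem_coe, memV] at hv
    rw [memV]
    intro x
    have := hv ⟨cj ρ h⁻¹ x, hW h⁻¹ x x.2⟩
    rw [Matrix.toLin'_apply, ← Matrix.mulVec_smul, ← this, Matrix.mulVec_mulVec,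
      Matrix.mulVec_mulVec]
    congr 1
    simp only [cj_apply, inv_inv, ← mul_assoc, rho_mul_inv, one_mul]
  have heq : ∀ (h : H) χ, h • V χ = V (fun x => χ ⟨cj ρ h⁻¹ x, hW h⁻¹ x x.2⟩) := by
    intro h χ
    refine le_antisymm (hle h χ) ?_
    have h1 := hle h⁻¹ (fun x => χ ⟨cj ρ h⁻¹ x, hW h⁻¹ x x.2⟩)
    have e : (fun x : W => χ ⟨cj ρ h⁻¹ (cj ρ h⁻¹⁻¹ x),
        hW h⁻¹ _ (hW h⁻¹⁻¹ x x.2)⟩) = χ := by
      funext x
      congr 1
      exact Subtype.ext (cj_cj_inv ρ h⁻¹ x)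
    have h2 : h⁻¹ • V (fun x => χ ⟨cj ρ h⁻¹ x, hW h⁻¹ x x.2⟩) ≤ V χ :=
      h1.trans (congrArg V e).le
    have h3 := Submodule.map_mono (f := Matrix.toLin' (ρ h)) h2
    rw [← smul_def, ← smul_def, smul_inv_smul] at h3
    exact h3
  have horb : (MulAction.orbit H (V χ0)).Finite := by
    refine (hfin.image V).subset ?_
    rintro _ ⟨h, rfl⟩
    refine ⟨_, ?_, (heq h χ0).symm⟩
    intro hb
    rw [← heq] at hb
    apply h0
    have := congrArg (fun U => h⁻¹ • U) hb
    simp only [inv_smul_smul] at this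
    rw [smul_def, Submodule.map_bot] at this
    exact this
  have hfi : (MulAction.stabilizer H (V χ0)).FiniteIndex := by
    haveI := horb.to_subtype
    haveI : Finite (H ⧸ MulAction.stabilizer H (V χ0)) :=
      Finite.of_equiv _ (MulAction.orbitEquivQuotientStabilizer H (V χ0))
    exact Subgroup.finiteIndex_of_finite_quotient
  have hall : ∀ x : Matrix n n Ω, ∀ v ∈ V χ0, x.mulVec v ∈ V χ0 := by
    intro x v hv
    have hx : x ∈ Submodule.span Ω (ρ '' MulAction.stabilizer H (V χ0)) :=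
      (hSB _ hfi).symm ▸ Submodule.mem_top
    induction hx using Submodule.span_induction with
    | mem x hx =>
      obtain ⟨h, hh, rfl⟩ := hx
      have : h • V χ0 = V χ0 := hh
      rw [← this]
      exact ⟨v, hv, rfl⟩
    | zero => simp
    | add x y _ _ hx hy => rw [Matrix.add_mulVec]; exact add_mem hx hy
    | smul a x _ hx => rw [Matrix.smul_mulVec]; exact Submodule.smul_mem _ _ hx
  obtain ⟨v, hv, hv0⟩ := (Submodule.ne_bot_iff _).1 h0
  obtain ⟨i, hi⟩ := Function.ne_iff.1 hv0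
  have htop : ∀ u, u ∈ V χ0 := by
    intro u
    have := hall (Matrix.of fun k j => if j = i then u k / v i else 0) v hv
    have e : (Matrix.of fun k j => if j = i then u k / v i else 0).mulVec v = u := by
      funext k
      simp only [Matrix.mulVec, dotProduct, Matrix.of_apply, ite_mul, zero_mul,
        Finset.sum_ite_eq', Finset.mem_univ, if_true]
      exact div_mul_cancel₀ _ hi
    rwa [e] at this
  intro x hx
  refine mem_Sc.2 ⟨χ0 ⟨x, hx⟩, ?_⟩
  apply Matrix.toLin'.injective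
  refine LinearMap.ext fun u => ?_
  have := (memV χ0 _).1 (htop u) ⟨x, hx⟩
  simp only [Matrix.toLin'_apply]
  rw [this, Matrix.smul_mulVec, Matrix.one_mulVec]

/-- An invariant subspace on which the group is unipotent modulo scalars consists of scalars. -/
lemma unip_scalar {ρ : H →* Matrix n n Ω} (hSB : SB ρ) {W : Submodule Ω (Matrix n n Ω)}
    (hW : Inv ρ W) (hu : ∀ g, ∀ x ∈ W, ∃ k : ℕ, ((cjRep ρ g - 1) ^ k) x = 0) : W ≤ Sc n Ω := by
  by_contra hne
  let ρ1 := (cjRep ρ).subrepresentation W (fun g x hx => hW g x hx)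
  let U : Submodule Ω W := (Sc n Ω).comap W.subtype
  let ρ2 := ρ1.quotient U (fun g x hx => Inv_Sc ρ g x hx)
  haveI : Nontrivial (W ⧸ U) := by
    rw [Submodule.Quotient.nontrivial_iff]
    intro h
    apply hne
    intro x hx
    have : (⟨x, hx⟩ : W) ∈ U := h ▸ Submodule.mem_top
    exact this
  obtain ⟨x, hx0, hx⟩ := kolchin ρ2 (by
    intro g
    rw [Module.End.isNilpotent_iff_of_finite]
    intro y
    obtain ⟨y, rfl⟩ := U.mkQ_surjective y
    obtain ⟨k, hk⟩ := hu g y y.2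
    refine ⟨k, ?_⟩
    have h1 : ∀ k : ℕ, ((ρ2 g - 1) ^ k) (U.mkQ y) = U.mkQ (((ρ1 g - 1) ^ k) y) := by
      intro k
      induction k with
      | zero => rfl
      | succ k ih =>
        rw [pow_succ', pow_succ', Module.End.mul_apply, Module.End.mul_apply, ih]
        rfl
    have h2 : ∀ k : ℕ, ((((ρ1 g - 1) ^ k) y : W) : Matrix n n Ω) = ((cjRep ρ g - 1) ^ k) y := by
      intro k
      induction k with
      | zero => rfl
      | succ k ih =>
        rw [pow_succ', pow_succ', Module.End.mul_apply, Module.End.mul_apply, ← ih]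
        rfl
    rw [h1, show ((ρ1 g - 1) ^ k) y = 0 from Subtype.ext ((h2 k).trans hk), map_zero])
  obtain ⟨x, rfl⟩ := U.mkQ_surjective x
  have hx' : ∀ g, cj ρ g x - x ∈ Sc n Ω := by
    intro g
    have : U.mkQ (ρ1 g x) = U.mkQ x := hx g
    exact (Submodule.Quotient.eq U).1 this
  have hinv : Inv ρ (Submodule.span Ω {(x : Matrix n n Ω), 1}) := by
    apply Inv_span
    intro g y hy
    rcases hy with rfl | rfl
    · obtain ⟨c, hc⟩ := mem_Sc.1 (hx' g)
      rw [← sub_add_cancel (cj ρ g x) x, ← hc]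
      exact add_mem (Submodule.smul_mem _ _ (Submodule.subset_span (by simp)))
        (Submodule.subset_span (by simp))
    · rw [map_one]; exact Submodule.subset_span (by simp)
  have := comm_scalar hSB hinv (by
    intro a ha b hb
    obtain ⟨a1, a2, rfl⟩ := Submodule.mem_span_pair.1 ha
    obtain ⟨b1, b2, rfl⟩ := Submodule.mem_span_pair.1 hb
    simp only [add_mul, mul_add, smul_mul_assoc, mul_smul_comm, mul_one, one_mul]
    module) (Submodule.subset_span (by simp : (x : Matrix n n Ω) ∈ _))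
  exact hx0 ((Submodule.Quotient.mk_eq_zero U).2 this)

end

lemma pow_comm_heis {Ω E : Type} [CommRing Ω] [Ring E] [Algebra Ω E] {x y : E} {c : Ω}
    (h : x * y - y * x = c • (1 : E)) (m : ℕ) :
    x ^ (m + 1) * y - y * x ^ (m + 1) = (((m + 1 : ℕ) : Ω) * c) • x ^ m := by
  induction m with
  | zero => simpa using h
  | succ m ih =>
    have e : x ^ (m + 1 + 1) * y - y * x ^ (m + 1 + 1) =
        x * (x ^ (m + 1) * y - y * x ^ (m + 1)) + (x * y - y * x) * x ^ (m + 1) := by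
      rw [pow_succ' x (m + 1)]; noncomm_ring
    rw [e, ih, h, mul_smul_comm, ← pow_succ', smul_mul_assoc, one_mul, ← add_smul]
    congr 1
    push_cast; ring

open Polynomial in
lemma add_pow_heis {Ω E : Type} [Field Ω] [Ring E] [Algebra Ω E] {x y : E} {c : Ω}
    (h : x * y - y * x = c • (1 : E)) (l : ℕ) [CharP Ω l] (hl : l.Prime) (h2 : l ≠ 2) :
    (x + y) ^ l = x ^ l + y ^ l := by
  let z : E[X] := C x + X * C y
  have hz : z * C y - C y * z = c • (1 : E[X]) := by
    have : C y * X = X * C y := (X_mul_C y).symm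
    have e : z * C y - C y * z = C (x * y - y * x) := by
      simp only [z, add_mul, mul_add, ← mul_assoc, this, map_sub, map_mul]
      abel
    rw [e, h, ← smul_C, C_1]
  have hd : derivative z = C y := by simp [z]
  have hder : ∀ m : ℕ, derivative (z ^ (m + 2)) = ((m + 2 : ℕ) : Ω) • (z ^ (m + 1) * C y) -
      ((((m + 2).choose 2 : ℕ) : Ω) * c) • z ^ m := by
    have hy : C y * z = z * C y - c • (1 : E[X]) := by rw [← hz]; abel
    intro m
    induction m with
    | zero =>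
      simp only [zero_add, pow_two, derivative_mul, hd, hy]
      simp
      module
    | succ m ih =>
      rw [show m + 1 + 2 = (m + 2) + 1 from rfl, pow_succ, derivative_mul, ih, hd, sub_mul,
        smul_mul_assoc, smul_mul_assoc, mul_assoc, hy, mul_sub, ← mul_assoc, ← pow_succ,
        ← pow_succ, mul_smul_comm, mul_one, Nat.choose_succ_succ' (m + 2) 1, Nat.choose_one_right]
      push_cast
      module
  obtain ⟨m, rfl⟩ : ∃ m, l = m + 2 := ⟨l - 2, by have := hl.two_le; omega⟩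
  have hd0 : derivative (z ^ (m + 2)) = 0 := by
    rw [hder, CharP.cast_eq_zero, (CharP.cast_eq_zero_iff Ω (m + 2) _).2
      (hl.dvd_choose_self two_ne_zero (by omega))]
    simp
  have hdeg1 : z.natDegree ≤ 1 := by
    refine (natDegree_add_le _ _).trans (max_le (by simp) ?_)
    rw [X_mul_C]
    exact (natDegree_C_mul_le _ _).trans natDegree_X_le
  have hdeg : (z ^ (m + 2)).natDegree ≤ m + 2 := by
    simpa using natDegree_pow_le_of_le (m + 2) hdeg1
  have hpoly : z ^ (m + 2) = C (x ^ (m + 2)) + X ^ (m + 2) * C (y ^ (m + 2)) := by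
    ext i
    rw [coeff_add, coeff_C, coeff_mul_C, coeff_X_pow]
    rcases Nat.eq_zero_or_pos i with rfl | hi
    · have : (z ^ (m + 2)).coeff 0 = x ^ (m + 2) := by
        rw [← constantCoeff_apply, map_pow]
        simp [z]
      simp [this]
    rcases lt_trichotomy i (m + 2) with h1 | rfl | h1
    · obtain ⟨j, rfl⟩ : ∃ j, i = j + 1 := ⟨i - 1, by omega⟩
      have := congrArg (fun P => coeff P j) hd0
      simp only [coeff_derivative, coeff_zero] at this
      have hu : ((j + 1 : ℕ) : Ω) ≠ 0 := by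
        rw [Ne, CharP.cast_eq_zero_iff Ω (m + 2)]
        exact Nat.not_dvd_of_pos_of_lt (by omega) h1
      have e : ((j : E) + 1) = algebraMap Ω E ((j + 1 : ℕ) : Ω) := by simp
      rw [e, ← Algebra.commutes, ← Algebra.smul_def] at this
      rw [(smul_eq_zero.1 this).resolve_left hu, if_neg hi.ne', if_neg h1.ne]
      simp
    · have := coeff_pow_of_natDegree_le (m := m + 2) hdeg1
      rw [mul_one] at this
      rw [this]
      simp [z, coeff_C]
    · rw [coeff_eq_zero_of_natDegree_lt (by omega)]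
      simp [h1.ne', hi.ne']
  have := congrArg (eval₂RingHom' (RingHom.id E) 1 (fun a => Commute.one_right a)) hpoly
  simp only [map_pow, map_add, map_mul, z] at this
  simpa [eval₂RingHom'] using this

section
variable {Ω : Type} [Field Ω] {n : Type} [Fintype n] [DecidableEq n] {H : Type} [Group H]
  [IsAlgClosed Ω] [Nonempty n]

/-- elements normalizing every invariant subspace -/
def Star (ρ : H →* Matrix n n Ω) (x : Matrix n n Ω) : Prop :=
  ∀ W, Inv ρ W → ∀ y ∈ W, x * y - y * x ∈ W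

lemma heis_scalar {ρ : H →* Matrix n n Ω} (hSB : SB ρ) (h2 : (2 : Ω) ≠ 0)
    {W : Submodule Ω (Matrix n n Ω)} (hW : Inv ρ W) (h1 : (1 : Matrix n n Ω) ∈ W)
    (hs : ∀ x ∈ W, Star ρ x) (hc : ∀ x ∈ W, ∀ y ∈ W, x * y - y * x ∈ Sc n Ω) : W ≤ Sc n Ω := by
  by_cases hn : (Fintype.card n : Ω) = 0
  swap
  · apply comm_scalar hSB hW
    intro x hx y hy
    obtain ⟨c, hc⟩ := mem_Sc.1 (hc x hx y hy)
    have := congrArg Matrix.trace hc
    rw [Matrix.trace_sub, Matrix.trace_mul_comm, sub_self, Matrix.trace_smul, Matrix.trace_one,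
      smul_eq_mul, mul_eq_zero] at this
    rw [this.resolve_right hn, zero_smul] at hc
    exact (sub_eq_zero.1 hc.symm)
  obtain ⟨l, hl⟩ := CharP.exists Ω
  have hl0 : l ≠ 0 := by
    rintro rfl
    rw [CharP.cast_eq_zero_iff Ω 0, zero_dvd_iff] at hn
    exact Fintype.card_ne_zero hn
  have hlp : l.Prime := (CharP.char_is_prime_or_zero Ω l).resolve_right hl0
  have hl2 : l ≠ 2 := by
    rintro rfl
    exact h2 (by exact_mod_cast CharP.cast_eq_zero Ω 2)
  have hcomm : ∀ x ∈ W, ∀ y ∈ W, Commute (x ^ l) y := by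
    intro x hx y hy
    obtain ⟨c, hc⟩ := mem_Sc.1 (hc x hx y hy)
    have := pow_comm_heis hc.symm (l - 1)
    rw [Nat.sub_add_cancel hlp.one_le, CharP.cast_eq_zero, zero_mul, zero_smul] at this
    exact sub_eq_zero.1 this
  have hpow : ∀ x ∈ W, x ^ l ∈ Sc n Ω := by
    have hinv : Inv ρ (Submodule.span Ω ((fun x => x ^ l) '' W)) := by
      apply Inv_span
      rintro g _ ⟨x, hx, rfl⟩
      rw [map_pow]
      exact Submodule.subset_span ⟨_, hW g x hx, rfl⟩
    have := comm_scalar hSB hinv (by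
      intro a ha b hb
      refine Submodule.span_induction₂ (p := fun a b _ _ => a * b = b * a) ?_ (by simp) (by simp)
        ?_ ?_ ?_ ?_ ha hb
      · rintro _ _ ⟨x, hx, rfl⟩ ⟨y, hy, rfl⟩
        exact ((hcomm x hx y hy).pow_right l).eq
      · intro x y z _ _ _ h1 h2; rw [add_mul, mul_add, h1, h2]
      · intro x y z _ _ _ h1 h2; rw [add_mul, mul_add, h1, h2]
      · intro r x y _ _ h1; rw [smul_mul_assoc, mul_smul_comm, h1]
      · intro r x y _ _ h1; rw [smul_mul_assoc, mul_smul_comm, h1])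
    exact fun x hx => this (Submodule.subset_span ⟨x, hx, rfl⟩)
  have hadd : ∀ x ∈ W, ∀ y ∈ W, (x + y) ^ l = x ^ l + y ^ l := by
    intro x hx y hy
    obtain ⟨c, hc⟩ := mem_Sc.1 (hc x hx y hy)
    exact add_pow_heis hc.symm l hlp hl2
  let W0 : Submodule Ω (Matrix n n Ω) :=
    { carrier := {x | x ∈ W ∧ x ^ l = 0}
      add_mem' := fun {x y} hx hy => ⟨add_mem hx.1 hy.1, by
        rw [hadd x hx.1 y hy.1, hx.2, hy.2, add_zero]⟩
      zero_mem' := ⟨zero_mem _, zero_pow hl0⟩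
      smul_mem' := fun c x hx => ⟨W.smul_mem c hx.1, by rw [smul_pow, hx.2, smul_zero]⟩ }
  have hW0 : Inv ρ W0 := by
    intro g x hx
    refine ⟨hW g x hx.1, ?_⟩
    rw [← cj_apply, ← map_pow, hx.2, map_zero]
  have hW0s := comm_scalar hSB hW0 (by
    intro x hx y hy
    obtain ⟨c, hc⟩ := mem_Sc.1 (hc x hx.1 y hy.1)
    have := (hs x hx.1 W0 hW0 y hy).2
    rw [← hc, smul_pow, one_pow, smul_eq_zero] at this
    rw [pow_eq_zero_iff hl0] at this
    rw [this.resolve_right one_ne_zero, zero_smul] at hc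
    exact sub_eq_zero.1 hc.symm)
  intro x hx
  obtain ⟨a, ha⟩ := mem_Sc.1 (hpow x hx)
  obtain ⟨b, hb⟩ := IsAlgClosed.exists_pow_nat_eq (-a) hlp.pos
  have : x + b • (1 : Matrix n n Ω) ∈ W0 := by
    refine ⟨add_mem hx (W.smul_mem b h1), ?_⟩
    rw [hadd x hx _ (W.smul_mem b h1), smul_pow, one_pow, hb, ← ha, neg_smul, add_neg_cancel]
  have h3 := sub_mem (hW0s this) (Submodule.smul_mem _ b one_mem_Sc)
  rwa [add_sub_cancel_right] at h3

/-- There are no sandwich elements besides the scalars. -/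
lemma sandwich_scalar {ρ : H →* Matrix n n Ω} (hSB : SB ρ) (h2 : (2 : Ω) ≠ 0)
    {I : Submodule Ω (Matrix n n Ω)} (hI : Inv ρ I) (h1 : (1 : Matrix n n Ω) ∈ I)
    (hs : ∀ x ∈ I, Star ρ x) {x : Matrix n n Ω} (hx : x ∈ I)
    (hxx : ∀ y ∈ I, x * (x * y - y * x) - (x * y - y * x) * x = 0) : x ∈ Sc n Ω := by
  let ad : Matrix n n Ω →ₗ[Ω] Module.End Ω (Matrix n n Ω) :=
    LinearMap.mul Ω _ - (LinearMap.mul Ω _).flip
  have ad_apply : ∀ s t, ad s t = s * t - t * s := fun s t => rfl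
  let S : Set (Matrix n n Ω) := {x | x ∈ I ∧ ∀ y ∈ I, ad x (ad x y) = 0}
  have hbr : ∀ x ∈ I, ∀ y ∈ I, ad x y ∈ I := fun x hx y hy => hs x hx I hI y hy
  have hxzx : ∀ x ∈ S, ∀ z ∈ I, ∀ y ∈ I, ad x (ad z (ad x y)) = 0 := by
    intro x hx z hz y hy
    have e : (2 : Ω) • ad x (ad z (ad x y)) =
        ad x (ad x (ad z y)) + ad z (ad x (ad x y)) - ad (ad x (ad x z)) y := by
      simp only [ad_apply, two_smul]; noncomm_ring
    rw [hx.2 _ (hbr z hz y hy), hx.2 y hy, hx.2 z hz] at e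
    simp only [map_zero, add_zero, LinearMap.zero_apply, sub_zero] at e
    exact (smul_eq_zero.1 e).resolve_left h2
  have hSlie : ∀ x ∈ S, ∀ z ∈ S, ad x z ∈ S := by
    intro x hx z hz
    refine ⟨hbr x hx.1 z hz.1, fun y hy => ?_⟩
    have e : ad (ad x z) (ad (ad x z) y) = ad x (ad z (ad x (ad z y))) -
        ad x (ad z (ad z (ad x y))) - ad z (ad x (ad x (ad z y))) +
        ad z (ad x (ad z (ad x y))) := by
      simp only [ad_apply]; noncomm_ring
    rw [e, hxzx x hx z hz.1 _ (hbr z hz.1 y hy), hz.2 _ (hbr x hx.1 y hy),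
      hx.2 _ (hbr z hz.1 y hy), hxzx x hx z hz.1 y hy]
    simp
  have hSinv : ∀ g, ∀ x ∈ S, cj ρ g x ∈ S := by
    intro g x hx
    refine ⟨hI g x hx.1, fun y hy => ?_⟩
    have := congrArg (cj ρ g) (hx.2 (cj ρ g⁻¹ y) (hI g⁻¹ y hy))
    simpa only [ad_apply, map_sub, map_mul, cj_cj_inv, map_zero] using this
  let res : I → Module.End Ω I := fun x => (ad x).restrict (hbr x x.2)
  obtain ⟨N, hN⟩ := jacobson_nil _ I (res '' {x | (x : Matrix n n Ω) ∈ S}) (by
      rintro _ ⟨x, hx, rfl⟩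
      refine ⟨2, ?_⟩
      ext1 y
      exact Subtype.ext (hx.2 y y.2)) (by
      rintro _ ⟨x, hx, rfl⟩ _ ⟨z, hz, rfl⟩
      refine ⟨⟨ad x z, hbr x x.2 z z.2⟩, hSlie x hx z hz, ?_⟩
      ext1 y
      apply Subtype.ext
      change ad (ad x z) y = ad x (ad z y) - ad z (ad x y)
      simp only [ad_apply]; noncomm_ring) le_rfl
  let Sg := Submodule.span Ω S
  have hSgI : Sg ≤ I := Submodule.span_le.2 fun x hx => hx.1
  have hSg : Inv ρ Sg := Inv_span fun g x hx => Submodule.subset_span (hSinv g x hx)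
  let W : Submodule Ω (Matrix n n Ω) := Sg ⊓ ⨅ s ∈ S, (Sc n Ω).comap (ad s)
  have memW : ∀ z, z ∈ W ↔ z ∈ Sg ∧ ∀ s ∈ S, ad s z ∈ Sc n Ω := by
    intro z; simp [W, Submodule.mem_iInf]
  have hW : W ≤ Sc n Ω := by
    apply heis_scalar hSB h2
    · intro g z hz
      rw [memW] at hz ⊢
      refine ⟨hSg g z hz.1, fun s hs => ?_⟩
      have := Inv_Sc ρ g _ (hz.2 _ (hSinv g⁻¹ s hs))
      rw [← cj_apply] at this
      simpa only [ad_apply, map_sub, map_mul, cj_cj_inv, ← cj_apply] using this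
    · rw [memW]
      refine ⟨Submodule.subset_span ⟨h1, fun y _ => by simp [ad_apply]⟩, fun s _ => ?_⟩
      simp [ad_apply]
    · exact fun z hz => hs z (hSgI ((memW z).1 hz).1)
    · intro a ha b hb
      have : Sg ≤ (Sc n Ω).comap (ad.flip b) :=
        Submodule.span_le.2 fun s hs => ((memW b).1 hb).2 s hs
      exact this ((memW a).1 ha).1
  by_contra hne
  have : ∀ k : ℕ, ∃ l : List (Module.End Ω I), (∀ s ∈ l, s ∈ res '' {x | (x : Matrix n n Ω) ∈ S}) ∧
      l.length = k ∧ ((l.prod ⟨x, hx⟩ : I) : Matrix n n Ω) ∈ Sg ∧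
      ((l.prod ⟨x, hx⟩ : I) : Matrix n n Ω) ∉ Sc n Ω := by
    intro k
    induction k with
    | zero => exact ⟨[], by simp, rfl, Submodule.subset_span ⟨hx, hxx⟩, hne⟩
    | succ k ih =>
      obtain ⟨l, h3, h4, h5, h6⟩ := ih
      have : ¬ ∀ s ∈ S, ad s (l.prod ⟨x, hx⟩ : I) ∈ Sc n Ω :=
        fun h7 => h6 (hW ((memW _).2 ⟨h5, h7⟩))
      push Not at this
      obtain ⟨s, hs1, hs2⟩ := this
      refine ⟨res ⟨s, hs1.1⟩ :: l, ?_, by simp [h4], hs s hs1.1 Sg hSg _ h5, hs2⟩
      intro t ht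
      rcases List.mem_cons.1 ht with rfl | ht
      · exact ⟨⟨s, hs1.1⟩, hs1, rfl⟩
      · exact h3 t ht
  obtain ⟨l, h3, h4, -, h6⟩ := this N
  rw [hN l h3 h4.ge] at h6
  exact h6 (zero_mem _)

end

end Pool.Agent.Lib.MP_c0708e_al.Tits
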