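import Pool.Agent.Lib.MP_c0708e_al.TMagnus

namespace Pool.Agent.Lib.MP_c0708e_al.Tits

open scoped MatrixGroups PowerSeries

/-- Matrices all of whose entries are divisible by `t ^ m`. -/
def dvdM (n : Type) {A : Type} [CommRing A] (t : A) (m : ℕ) : AddSubgroup (Matrix n n A) where
  carrier := {x | ∀ i j, t ^ m ∣ x i j}
  add_mem' := fun hx hy i j => dvd_add (hx i j) (hy i j)
  zero_mem' := fun _ _ => dvd_zero _
  neg_mem' := fun hx i j => (dvd_neg).2 (hx i j)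

section
variable {n : Type} [Fintype n] [DecidableEq n] {A : Type} [CommRing A] {t : A}

omit [Fintype n] [DecidableEq n] in
lemma dvdM_zero (x : Matrix n n A) : x ∈ dvdM n t 0 := fun _ _ => by simp

omit [Fintype n] [DecidableEq n] in
lemma dvdM_anti {a b : ℕ} (h : a ≤ b) : dvdM n t b ≤ dvdM n t a :=
  fun _ hx i j => (pow_dvd_pow t h).trans (hx i j)

omit [DecidableEq n] in
lemma dvdM_mul {a b : ℕ} {x y : Matrix n n A} (hx : x ∈ dvdM n t a) (hy : y ∈ dvdM n t b) :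
    x * y ∈ dvdM n t (a + b) := by
  intro i j
  rw [Matrix.mul_apply, pow_add]
  exact Finset.dvd_sum fun k _ => mul_dvd_mul (hx i k) (hy k j)

omit [DecidableEq n] in
lemma dvdM_mul_left {a : ℕ} (x : Matrix n n A) {y : Matrix n n A} (hy : y ∈ dvdM n t a) :
    x * y ∈ dvdM n t a := by
  simpa using dvdM_mul (dvdM_zero x) hy

omit [DecidableEq n] in
lemma dvdM_mul_right {a : ℕ} {x : Matrix n n A} (hx : x ∈ dvdM n t a) (y : Matrix n n A) :
    x * y ∈ dvdM n t a := by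
  simpa using dvdM_mul hx (dvdM_zero y)

omit [Fintype n] [DecidableEq n] in
lemma dvdM_smul {a : ℕ} {c : A} (hc : t ^ a ∣ c) (x : Matrix n n A) : c • x ∈ dvdM n t a :=
  fun i j => by simpa using hc.mul_right (x i j)

lemma dvdM_conj {m : ℕ} {a a' x : Matrix n n A} (ha : a - 1 ∈ dvdM n t 1)
    (ha' : a' - 1 ∈ dvdM n t 1) (hx : x ∈ dvdM n t m) : a * x * a' - x ∈ dvdM n t (m + 1) := by
  have e : a * x * a' - x = (a - 1) * x * a' + x * (a' - 1) := by noncomm_ring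
  rw [e]
  refine add_mem (dvdM_mul_right ?_ _) (dvdM_mul hx ha')
  rw [add_comm]; exact dvdM_mul ha hx

end

/-- the two generators -/
noncomputable def genUL (p : ℕ) (β : Bool) : SL(2, (ZMod p)⟦X⟧) := if β then genU p else genL p

/-- The word `w` is trivial modulo `t ^ k` at the two generators. -/
def Good (p k : ℕ) (w : FreeGroup Bool) : Prop :=
  ((FreeGroup.lift (genUL p) w : SL(2, (ZMod p)⟦X⟧)) : Matrix (Fin 2) (Fin 2) (ZMod p)⟦X⟧) - 1 ∈
    dvdM (Fin 2) (PowerSeries.X : (ZMod p)⟦X⟧) k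

lemma sl2_final (p : ℕ) [Fact p.Prime] (hp : p ≠ 2) (K k : ℕ) (hk : k ≤ K + 1)
    (w : FreeGroup Bool)
    (h : ∀ β γ : Fin 3, ∀ d < k, (p : ℤ) ∣ ∑ I ∈ lists K, mag K w I * (mz I β γ).coeff d -
      ((Pi.single β 1 : Fin 3 → Polynomial ℤ) γ).coeff d) : Good p k w := by
  rcases Nat.eq_zero_or_pos k with rfl | hk0
  · exact dvdM_zero _
  let t : (ZMod p)⟦X⟧ := PowerSeries.X
  let ab : Bool → (Matrix (Fin 2) (Fin 2) (ZMod p)⟦X⟧)ˣ := fun β => Matrix.SpecialLinearGroup.toGL (genUL p β)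
  have ev : ∀ β, ((ab β : (Matrix (Fin 2) (Fin 2) (ZMod p)⟦X⟧)ˣ) : Matrix (Fin 2) (Fin 2) (ZMod p)⟦X⟧) =
      if β then !![1, t; 0, 1] else !![1, 0; t, 1] := by
    intro β; cases β <;> rfl
  have ev' : ∀ β, (((ab β)⁻¹ : (Matrix (Fin 2) (Fin 2) (ZMod p)⟦X⟧)ˣ) : Matrix (Fin 2) (Fin 2) (ZMod p)⟦X⟧) =
      if β then !![1, -t; 0, 1] else !![1, 0; -t, 1] := by
    intro β
    apply Units.inv_eq_of_mul_eq_one_right
    rw [ev]
    cases β <;> ext1 i j <;> fin_cases i <;> fin_cases j <;> simp [Matrix.mul_apply, Fin.sum_univ_two]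
  have g1 : ∀ β, ((ab β : (Matrix (Fin 2) (Fin 2) (ZMod p)⟦X⟧)ˣ) : Matrix (Fin 2) (Fin 2) (ZMod p)⟦X⟧) - 1 ∈
      dvdM (Fin 2) t 1 := by
    intro β i j
    rw [ev]
    cases β <;> fin_cases i <;> fin_cases j <;> simp
  have g2 : ∀ β, (((ab β)⁻¹ : (Matrix (Fin 2) (Fin 2) (ZMod p)⟦X⟧)ˣ) : Matrix (Fin 2) (Fin 2) (ZMod p)⟦X⟧) - 1 ∈
      dvdM (Fin 2) t 1 := by
    intro β i j
    rw [ev']
    cases β <;> fin_cases i <;> fin_cases j <;> simp
  let e : Matrix (Fin 2) (Fin 2) (ZMod p)⟦X⟧ := !![0, 1; 0, 0]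
  let hh : Matrix (Fin 2) (Fin 2) (ZMod p)⟦X⟧ := !![1, 0; 0, -1]
  let f : Matrix (Fin 2) (Fin 2) (ZMod p)⟦X⟧ := !![0, 0; 1, 0]
  have act : Sl2Act t (fun β => ((ab β : (Matrix (Fin 2) (Fin 2) (ZMod p)⟦X⟧)ˣ) : Matrix (Fin 2) (Fin 2) (ZMod p)⟦X⟧))
      (fun β => (((ab β)⁻¹ : (Matrix (Fin 2) (Fin 2) (ZMod p)⟦X⟧)ˣ) : Matrix (Fin 2) (Fin 2) (ZMod p)⟦X⟧)) e hh f := by
    constructor <;> simp only [ev, ev'] <;> ext1 i j <;> fin_cases i <;> fin_cases j <;>
      simp [e, hh, f, Matrix.mul_apply, Fin.sum_univ_two] <;> ring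
  let φ : Polynomial ℤ →+* (ZMod p)⟦X⟧ :=
    Polynomial.coeToPowerSeries.ringHom.comp (Polynomial.mapRingHom (Int.castRingHom (ZMod p)))
  have hφ : ∀ P d, PowerSeries.coeff d (φ P) = ((P.coeff d : ℤ) : ZMod p) := by
    intro P d
    simp [φ]
  have hφX : φ Polynomial.X = t := by simp [φ, t]
  set W : (Matrix (Fin 2) (Fin 2) (ZMod p)⟦X⟧)ˣ := FreeGroup.lift ab w with hW
  have key : ∀ β : Fin 3, ∀ x : Matrix (Fin 2) (Fin 2) (ZMod p)⟦X⟧,
      x = (φ ((Pi.single β 1 : Fin 3 → Polynomial ℤ) 0)) • e +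
        (φ ((Pi.single β 1 : Fin 3 → Polynomial ℤ) 1)) • hh +
        (φ ((Pi.single β 1 : Fin 3 → Polynomial ℤ) 2)) • f →
      (W : Matrix (Fin 2) (Fin 2) (ZMod p)⟦X⟧) * x - x * W ∈ dvdM (Fin 2) t k := by
    intro β x hx
    have m1 := magnus_conj K w (dvdM (Fin 2) t) (fun a => dvdM_anti (Nat.le_succ a)) ab
      (fun β m x hx => dvdM_conj (g1 β) (g2 β) hx)
      (fun β m x hx => dvdM_mul_right (dvdM_mul_left _ hx) _) (dvdM_zero x)
    have m2 : ∀ γ, t ^ k ∣ ∑ I ∈ lists K, mag K w I • φ (mz I β γ) -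
        φ ((Pi.single β 1 : Fin 3 → Polynomial ℤ) γ) := by
      intro γ
      rw [PowerSeries.X_pow_dvd_iff]
      intro d hd
      have := (ZMod.intCast_zmod_eq_zero_iff_dvd _ p).2 (h β γ d hd)
      simp only [map_sub, map_sum, map_zsmul, hφ]
      simpa using this
    have m3 : ∑ I ∈ lists K, mag K w I • iterD
        (fun β => ((ab β : (Matrix (Fin 2) (Fin 2) (ZMod p)⟦X⟧)ˣ) : Matrix (Fin 2) (Fin 2) (ZMod p)⟦X⟧))
        (fun β => (((ab β)⁻¹ : (Matrix (Fin 2) (Fin 2) (ZMod p)⟦X⟧)ˣ) : Matrix (Fin 2) (Fin 2) (ZMod p)⟦X⟧)) I x - x ∈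
        dvdM (Fin 2) t k := by
      have e1 : ∀ I, iterD
          (fun β => ((ab β : (Matrix (Fin 2) (Fin 2) (ZMod p)⟦X⟧)ˣ) : Matrix (Fin 2) (Fin 2) (ZMod p)⟦X⟧))
          (fun β => (((ab β)⁻¹ : (Matrix (Fin 2) (Fin 2) (ZMod p)⟦X⟧)ˣ) : Matrix (Fin 2) (Fin 2) (ZMod p)⟦X⟧)) I x =
          φ (mz I β 0) • e + φ (mz I β 1) • hh + φ (mz I β 2) • f := by
        intro I
        have := iterD_theta act I (fun i => φ ((Pi.single β 1 : Fin 3 → Polynomial ℤ) i))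
        rw [← hx, ← hφX, ← iterM_map] at this
        exact this
      simp only [e1]
      have := add_mem (add_mem (dvdM_smul (m2 0) e) (dvdM_smul (m2 1) hh)) (dvdM_smul (m2 2) f)
      have e2 : ∑ I ∈ lists K, mag K w I •
          (φ (mz I β 0) • e + φ (mz I β 1) • hh + φ (mz I β 2) • f) - x =
          (∑ I ∈ lists K, mag K w I • φ (mz I β 0) -
            φ ((Pi.single β 1 : Fin 3 → Polynomial ℤ) 0)) • e +
          (∑ I ∈ lists K, mag K w I • φ (mz I β 1) -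
            φ ((Pi.single β 1 : Fin 3 → Polynomial ℤ) 1)) • hh +
          (∑ I ∈ lists K, mag K w I • φ (mz I β 2) -
            φ ((Pi.single β 1 : Fin 3 → Polynomial ℤ) 2)) • f := by
        rw [hx]
        simp only [smul_add, Finset.sum_add_distrib, sub_smul, Finset.sum_smul, smul_assoc]
        abel
      rw [e2]; exact this
    have m4 := dvdM_mul_right (add_mem (dvdM_anti hk m1) m3) (W : Matrix (Fin 2) (Fin 2) (ZMod p)⟦X⟧)
    rw [sub_add_sub_cancel, sub_mul, mul_assoc, Units.inv_mul, mul_one] at m4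
    exact m4
  have k1 := key 0 e (by simp)
  have k2 := key 2 f (by simp)
  have hWm : ((FreeGroup.lift (genUL p) w : SL(2, (ZMod p)⟦X⟧)) : Matrix (Fin 2) (Fin 2) (ZMod p)⟦X⟧) = W := by
    have : FreeGroup.lift ab = (Matrix.SpecialLinearGroup.toGL).comp (FreeGroup.lift (genUL p)) := by
      ext β : 2; simp [ab]
    rw [hW, this]; rfl
  have hdet : (W : Matrix (Fin 2) (Fin 2) (ZMod p)⟦X⟧).det = 1 := by
    rw [← hWm]; exact Matrix.SpecialLinearGroup.det_coe _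
  have hW1 : (W : Matrix (Fin 2) (Fin 2) (ZMod p)⟦X⟧) - 1 ∈ dvdM (Fin 2) t 1 := by
    rw [hW]
    have : ∀ w : FreeGroup Bool,
        ((FreeGroup.lift ab w : (Matrix (Fin 2) (Fin 2) (ZMod p)⟦X⟧)ˣ) : Matrix (Fin 2) (Fin 2) (ZMod p)⟦X⟧) - 1 ∈
          dvdM (Fin 2) t 1 := by
      intro w
      induction w using FreeGroup.induction_on with
      | C1 => simp
      | of β => simpa using g1 β
      | inv_of β _ => simpa using g2 β
      | mul x y hx hy =>
        simp only [map_mul, Units.val_mul]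
        have e : ∀ a b : Matrix (Fin 2) (Fin 2) (ZMod p)⟦X⟧, a * b - 1 = (a - 1) * b + (b - 1) := by
          intros; noncomm_ring
        rw [e]
        exact add_mem (dvdM_mul_right hx _) hy
    exact this w
  unfold Good
  rw [hWm]
  generalize (W : Matrix (Fin 2) (Fin 2) (ZMod p)⟦X⟧) = M at *
  have a1 := k1 0 0
  have a2 := k1 0 1
  have a3 := k2 0 0
  simp [e, f, Matrix.mul_apply, Fin.sum_univ_two, Matrix.vecMul, dotProduct] at a1 a2 a3
  rw [Matrix.det_fin_two] at hdet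
  have b1 := hW1 0 0
  simp only [pow_one, Matrix.sub_apply, Matrix.one_apply_eq] at b1
  have hu : IsUnit (M 0 0 + 1) := by
    rw [PowerSeries.isUnit_iff_constantCoeff]
    have := PowerSeries.X_dvd_iff.1 b1
    rw [map_sub, map_one, sub_eq_zero] at this
    rw [map_add, this, map_one, one_add_one_eq_two]
    have h2 : (2 : ZMod p) ≠ 0 := by
      intro h2
      have := (ZMod.natCast_eq_zero_iff 2 p).1 (by exact_mod_cast h2)
      exact hp ((Nat.prime_dvd_prime_iff_eq Fact.out Nat.prime_two).1 this)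
    exact h2.isUnit
  have c1 : t ^ k ∣ M 0 0 - 1 := by
    have : t ^ k ∣ (M 0 0 - 1) * (M 0 0 + 1) := by
      have e : (M 0 0 - 1) * (M 0 0 + 1) = M 0 0 * (M 0 0 - M 1 1) + M 0 1 * M 1 0 := by
        linear_combination hdet
      rw [e]
      exact dvd_add (a2.mul_left _) (a1.mul_left _)
    exact hu.dvd_mul_right.1 this
  intro i j
  fin_cases i <;> fin_cases j
  · simpa using c1
  · simpa using a3
  · simpa using a1
  · simpa using dvd_sub c1 a2

end Pool.Agent.Lib.MP_c0708e_al.Tits
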