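import Pool.Agent.Lib.MP_c0708e_al.TWeight
import Pool.Agent.Lib.MP_c0708e_al.TSl2
import Pool.Agent.Lib.MP_c0708e_al.TInv

/-! Groups of jets of matrices. -/

namespace Pool.Agent.Lib.MP_c0708e_al.Tits

open PowerSeries

section
variable {n Ω : Type} [Field Ω]

/-- coefficient of a matrix of power series -/
noncomputable def co (r : ℕ) : Matrix n n Ω⟦X⟧ →ₗ[Ω] Matrix n n Ω :=
  (PowerSeries.coeff r).mapMatrix

lemma co_apply (r : ℕ) (γ : Matrix n n Ω⟦X⟧) (i j : n) : co r γ i j = coeff r (γ i j) := rfl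

lemma co_ext {γ γ' : Matrix n n Ω⟦X⟧} (h : ∀ r, co r γ = co r γ') : γ = γ' := by
  ext i j r
  exact congrFun (congrFun (h r) i) j

/-- matrix of power series with given coefficients -/
noncomputable def mkM (f : ℕ → Matrix n n Ω) : Matrix n n Ω⟦X⟧ :=
  Matrix.of fun i j => PowerSeries.mk fun r => f r i j

lemma co_mkM (f : ℕ → Matrix n n Ω) (r : ℕ) : co r (mkM f) = f r := by
  ext i j; simp [co_apply, mkM]

lemma mem_dvdM_X {γ : Matrix n n Ω⟦X⟧} {m : ℕ} :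
    γ ∈ dvdM n (X : Ω⟦X⟧) m ↔ ∀ r < m, co r γ = 0 := by
  constructor
  · intro h r hr
    ext i j
    exact X_pow_dvd_iff.1 (h i j) r hr
  · intro h i j
    exact X_pow_dvd_iff.2 fun r hr => congrFun (congrFun (h r hr) i) j

lemma co_X_pow_smul (m r : ℕ) (γ : Matrix n n Ω⟦X⟧) :
    co r ((X ^ m : Ω⟦X⟧) • γ) = if m ≤ r then co (r - m) γ else 0 := by
  ext i j
  rw [co_apply, Matrix.smul_apply, smul_eq_mul, coeff_X_pow_mul']
  split_ifs <;> rfl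

variable [Fintype n] [DecidableEq n]

/-- constant matrices -/
noncomputable def Cm : Matrix n n Ω →ₐ[Ω] Matrix n n Ω⟦X⟧ := (Algebra.ofId Ω Ω⟦X⟧).mapMatrix

lemma Cm_apply (x : Matrix n n Ω) (i j : n) : Cm x i j = C (x i j) := rfl

lemma co_Cm (r : ℕ) (x : Matrix n n Ω) : co r (Cm x) = if r = 0 then x else 0 := by
  ext i j
  rw [co_apply, Cm_apply, coeff_C]
  split_ifs <;> rfl

lemma co_one (r : ℕ) : co r (1 : Matrix n n Ω⟦X⟧) = if r = 0 then 1 else 0 := by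
  rw [← map_one Cm, co_Cm]

omit [DecidableEq n] in
lemma co_mul (r : ℕ) (γ γ' : Matrix n n Ω⟦X⟧) :
    co r (γ * γ') = ∑ p ∈ Finset.HasAntidiagonal.antidiagonal r, co p.1 γ * co p.2 γ' := by
  ext i j
  simp only [co_apply, Matrix.mul_apply, map_sum, coeff_mul, Matrix.sum_apply]
  exact Finset.sum_comm

lemma co_Cm_mul (r : ℕ) (x : Matrix n n Ω) (γ : Matrix n n Ω⟦X⟧) :
    co r (Cm x * γ) = x * co r γ := by
  ext i j
  simp [co_apply, Matrix.mul_apply, Cm_apply]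

lemma co_mul_Cm (r : ℕ) (x : Matrix n n Ω) (γ : Matrix n n Ω⟦X⟧) :
    co r (γ * Cm x) = co r γ * x := by
  ext i j
  simp [co_apply, Matrix.mul_apply, Cm_apply]

lemma co_smul_Cm (m r : ℕ) (x : Matrix n n Ω) :
    co r ((X ^ m : Ω⟦X⟧) • Cm x) = if r = m then x else 0 := by
  rw [co_X_pow_smul, co_Cm]
  by_cases h : r = m
  · simp [h]
  · rw [if_neg h]
    split_ifs with h1 h2
    · omega
    · rfl
    · rfl

omit [DecidableEq n] in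
lemma co_mul_lead {a b : ℕ} {x y : Matrix n n Ω⟦X⟧} (hx : x ∈ dvdM n (X : Ω⟦X⟧) a)
    (hy : y ∈ dvdM n (X : Ω⟦X⟧) b) : co (a + b) (x * y) = co a x * co b y := by
  rw [co_mul, Finset.sum_eq_single (a, b) _ (by simp)]
  intro p hp hne
  rw [Finset.HasAntidiagonal.mem_antidiagonal] at hp
  by_cases h : p.1 < a
  · rw [mem_dvdM_X.1 hx _ h, zero_mul]
  · have : p.2 < b := by
      by_contra h2
      exact hne (Prod.ext (by omega) (by omega))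
    rw [mem_dvdM_X.1 hy _ this, mul_zero]

/-- rescaling the variable -/
noncomputable def resc (c : Ω) : Matrix n n Ω⟦X⟧ →+* Matrix n n Ω⟦X⟧ :=
  (PowerSeries.rescale c).mapMatrix

lemma co_resc (c : Ω) (r : ℕ) (γ : Matrix n n Ω⟦X⟧) : co r (resc c γ) = c ^ r • co r γ := by
  ext i j
  exact coeff_rescale _ _ _

lemma co_sub_one {r : ℕ} (hr : r ≠ 0) (γ : Matrix n n Ω⟦X⟧) : co r (γ - 1) = co r γ := by
  rw [map_sub, co_one, if_neg hr, sub_zero]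

lemma lead_mul {q : ℕ} {γ γ' : Matrix n n Ω⟦X⟧} (h : γ - 1 ∈ dvdM n (X : Ω⟦X⟧) q)
    (h' : γ' - 1 ∈ dvdM n (X : Ω⟦X⟧) q) : γ * γ' - 1 ∈ dvdM n (X : Ω⟦X⟧) q := by
  have e : γ * γ' - 1 = (γ - 1) * γ' + (γ' - 1) := by noncomm_ring
  rw [e]
  exact add_mem (dvdM_mul_right h _) h'

lemma co_mul_of_lead {q r : ℕ} {γ γ' : Matrix n n Ω⟦X⟧} (h : γ - 1 ∈ dvdM n (X : Ω⟦X⟧) q)
    (h' : γ' - 1 ∈ dvdM n (X : Ω⟦X⟧) q) (hr : r ≠ 0) (hr' : r < q + q) :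
    co r (γ * γ') = co r γ + co r γ' := by
  have e : γ * γ' - 1 = (γ - 1) * (γ' - 1) + (γ - 1) + (γ' - 1) := by noncomm_ring
  rw [← co_sub_one hr, e, map_add, map_add, co_sub_one hr, co_sub_one hr,
    mem_dvdM_X.1 (dvdM_mul h h') r hr', zero_add]

lemma co_mul_two {q : ℕ} {γ γ' : Matrix n n Ω⟦X⟧} (h : γ - 1 ∈ dvdM n (X : Ω⟦X⟧) q)
    (h' : γ' - 1 ∈ dvdM n (X : Ω⟦X⟧) q) (hq : q ≠ 0) :
    co (q + q) (γ * γ') = co q γ * co q γ' + co (q + q) γ + co (q + q) γ' := by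
  have hr : q + q ≠ 0 := by omega
  have e : γ * γ' - 1 = (γ - 1) * (γ' - 1) + (γ - 1) + (γ' - 1) := by noncomm_ring
  rw [← co_sub_one hr, e, map_add, map_add, co_sub_one hr, co_sub_one hr,
    co_mul_lead h h', co_sub_one hq, co_sub_one hq]

lemma lead_resc {q : ℕ} {γ : Matrix n n Ω⟦X⟧} (h : γ - 1 ∈ dvdM n (X : Ω⟦X⟧) q) (c : Ω) :
    resc c γ - 1 ∈ dvdM n (X : Ω⟦X⟧) q := by
  rw [← map_one (resc c), ← map_sub, mem_dvdM_X]
  intro r hr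
  rw [co_resc, mem_dvdM_X.1 h r hr, smul_zero]

lemma lead_inv {q : ℕ} {γ γ' : Matrix n n Ω⟦X⟧} (h : γ - 1 ∈ dvdM n (X : Ω⟦X⟧) q)
    (hγ : γ * γ' = 1) : γ' - 1 ∈ dvdM n (X : Ω⟦X⟧) q := by
  have e : γ' - 1 = -((γ - 1) * γ') := by rw [sub_mul, hγ, one_mul, neg_sub]
  rw [e]
  exact neg_mem (dvdM_mul_right h _)

/-- the first nonzero coefficient -/
lemma exists_lead {γ : Matrix n n Ω⟦X⟧} (h0 : co 0 γ = 1) (h1 : γ ≠ 1) :
    ∃ q, q ≠ 0 ∧ γ - 1 ∈ dvdM n (X : Ω⟦X⟧) q ∧ co q γ ≠ 0 := by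
  classical
  have hex : ∃ r, co r (γ - 1) ≠ 0 := by
    by_contra h
    push Not at h
    exact h1 (sub_eq_zero.1 (co_ext fun r => by rw [h r, map_zero]))
  have hq : Nat.find hex ≠ 0 := by
    intro h
    have := Nat.find_spec hex
    rw [h, map_sub, h0, co_one, if_pos rfl, sub_self] at this
    exact this rfl
  refine ⟨Nat.find hex, hq, mem_dvdM_X.2 fun r hr => not_not.1 (Nat.find_min hex hr), ?_⟩
  rw [← co_sub_one hq]
  exact Nat.find_spec hex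

end

namespace WS
variable {Λ n A : Type} [Fintype Λ] [Fintype n] [DecidableEq n] [CommRing A] (S : WS Λ n A)

/-- scaled weights -/
def scale (q : ℤ) : WS Λ n A where
  π := S.π
  w μ := S.w μ * q
  sum := S.sum
  orth := S.orth

lemma P_of_scale {q a b : ℤ} {x : Matrix n n A} (hx : x ∈ (S.scale q).Wt b) (h : a * q ≠ b) :
    S.P a x = 0 := by
  rw [P_apply]
  refine Finset.sum_eq_zero fun μ _ => Finset.sum_eq_zero fun ν _ => ?_
  split_ifs with h'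
  · refine hx μ ν ?_
    change S.w μ * q - S.w ν * q ≠ b
    rwa [← sub_mul, h']
  · rfl

lemma mem_scale (q : ℤ) {a : ℤ} {x : Matrix n n A} (hx : x ∈ S.Wt a) :
    x ∈ (S.scale q).Wt (a * q) := by
  intro μ ν h
  refine hx μ ν fun h' => h ?_
  change S.w μ * q - S.w ν * q = a * q
  rw [← sub_mul, h']

lemma mem_neg {a : ℤ} {x : Matrix n n A} : x ∈ S.neg.Wt a ↔ x ∈ S.Wt (-a) := by
  refine forall_congr' fun μ => forall_congr' fun ν => imp_congr ?_ Iff.rfl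
  change -S.w μ - -S.w ν ≠ a ↔ _
  omega

end WS

section
variable {Ω : Type} [Field Ω] {n : Type} [Fintype n] [DecidableEq n] {H : Type} [Group H]
  {Λ : Type} [Fintype Λ]

/-- A closed group of jets normalized by `H` and by the torus. -/
structure Jet (ρ : H →* Matrix n n Ω) (S : WS Λ n Ω) (J : Set (Matrix n n Ω⟦X⟧)) : Prop where
  co0 : ∀ γ ∈ J, co 0 γ = 1
  one : 1 ∈ J
  mul : ∀ γ ∈ J, ∀ γ' ∈ J, γ * γ' ∈ J
  conj : ∀ h, ∀ γ ∈ J, Cm (ρ h) * γ * Cm (ρ h⁻¹) ∈ J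
  lam : ∀ s, ∀ γ ∈ J, Cm (S.lam s) * γ * Cm (S.lam s⁻¹) ∈ J
  resc : ∀ c, ∀ γ ∈ J, resc c γ ∈ J
  lim : ∀ Γ : Ω → Matrix n n Ω⟦X⟧,
    (∀ r i j, ∃ P : Polynomial Ω, ∀ u, co r (Γ u) i j = P.eval u) → (∀ u ≠ 0, Γ u ∈ J) → Γ 0 ∈ J
  pres : ∀ W, Inv ρ W → ∀ γ ∈ J, ∀ γ', γ * γ' = 1 → ∀ x ∈ W, ∀ r, co r (γ * Cm x * γ') ∈ W
  unit : ∀ γ ∈ J, ∃ γ', γ * γ' = 1
  Pinv : ∀ W, Inv ρ W → ∀ a, ∀ x ∈ W, S.P a x ∈ W

variable {ρ : H →* Matrix n n Ω} {S : WS Λ n Ω} {J : Set (Matrix n n Ω⟦X⟧)}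

lemma Jet.neg (hJ : Jet ρ S J) : Jet ρ S.neg J where
  co0 := hJ.co0
  one := hJ.one
  mul := hJ.mul
  conj := hJ.conj
  lam s γ hγ := by rw [WS.lam_neg, WS.lam_neg]; exact hJ.lam _ γ hγ
  resc := hJ.resc
  lim := hJ.lim
  pres := hJ.pres
  unit := hJ.unit
  Pinv W hW a x hx := by rw [WS.P_neg]; exact hJ.Pinv W hW _ x hx

/-- leading terms -/
def Ld (J : Set (Matrix n n Ω⟦X⟧)) (q : ℕ) : Set (Matrix n n Ω) :=
  {x | ∃ γ ∈ J, γ - 1 ∈ dvdM n (X : Ω⟦X⟧) q ∧ co q γ = x}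

/-- leading terms form a subspace -/
def Jet.ld [IsAlgClosed Ω] (hJ : Jet ρ S J) {q : ℕ} (hq : q ≠ 0) :
    Submodule Ω (Matrix n n Ω) where
  carrier := Ld J q
  add_mem' := by
    rintro _ _ ⟨γ, h1, h2, rfl⟩ ⟨γ', h1', h2', rfl⟩
    exact ⟨γ * γ', hJ.mul _ h1 _ h1', lead_mul h2 h2', co_mul_of_lead h2 h2' hq (by omega)⟩
  zero_mem' := ⟨1, hJ.one, by simp, by rw [co_one, if_neg hq]⟩
  smul_mem' := by
    rintro c _ ⟨γ, h1, h2, rfl⟩
    obtain ⟨d, rfl⟩ := IsAlgClosed.exists_pow_nat_eq c (Nat.pos_of_ne_zero hq)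
    exact ⟨Tits.resc d γ, hJ.resc d γ h1, lead_resc h2 d, co_resc _ _ _⟩

lemma Jet.ld_inv [IsAlgClosed Ω] (hJ : Jet ρ S J) {q : ℕ} (hq : q ≠ 0) : Inv ρ (hJ.ld hq) := by
  rintro h _ ⟨γ, h1, h2, rfl⟩
  refine ⟨_, hJ.conj h γ h1, ?_, by rw [co_mul_Cm, co_Cm_mul]⟩
  have e : Cm (ρ h) * γ * Cm (ρ h⁻¹) - 1 = Cm (ρ h) * (γ - 1) * Cm (ρ h⁻¹) := by
    rw [mul_sub, sub_mul, mul_one, ← map_mul, rho_mul_inv, map_one]
  rw [e]
  exact dvdM_mul_right (dvdM_mul_left _ h2) _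

lemma co_conj_lead {q : ℕ} (hq : q ≠ 0) {γ γ' : Matrix n n Ω⟦X⟧}
    (h : γ - 1 ∈ dvdM n (X : Ω⟦X⟧) q) (hγ : γ * γ' = 1) (y : Matrix n n Ω) :
    co q (γ * Cm y * γ') = co q γ * y - y * co q γ := by
  have h' := lead_inv h hγ
  have e : γ * Cm y * γ' = (γ - 1) * Cm y * (γ' - 1) + (γ - 1) * Cm y + Cm y * γ' := by
    noncomm_ring
  have e2 := co_mul_of_lead h h' hq (by omega)
  rw [hγ, co_one, if_neg hq] at e2
  rw [e, map_add, map_add, mem_dvdM_X.1 (dvdM_mul (dvdM_mul_right h _) h') q (by omega),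
    co_mul_Cm, co_Cm_mul, co_sub_one hq, eq_neg_of_add_eq_zero_right e2.symm]
  noncomm_ring

lemma Jet.ld_star (hJ : Jet ρ S J) {q : ℕ} (hq : q ≠ 0) {x : Matrix n n Ω} (hx : x ∈ Ld J q) :
    Star ρ x := by
  obtain ⟨γ, h1, h2, rfl⟩ := hx
  obtain ⟨γ', hγ⟩ := hJ.unit γ h1
  intro W hW y hy
  rw [← co_conj_lead hq h2 hγ]
  exact hJ.pres W hW γ h1 γ' hγ y hy q

/-- passing to the part of maximal slope -/
lemma Jet.slope (hJ : Jet ρ S J) {γ : Matrix n n Ω⟦X⟧} (hγ : γ ∈ J) (a₀ r₀ : ℕ)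
    (h : ∀ (r : ℕ) (a : ℤ), S.P a (co r γ) ≠ 0 → a * r₀ ≤ (r : ℤ) * a₀) :
    mkM (fun r => ∑ a ∈ S.wts, if a * r₀ = (r : ℤ) * a₀ then S.P a (co r γ) else 0) ∈ J := by
  have := hJ.lim (fun u => mkM fun r => ∑ a ∈ S.wts,
    u ^ ((r : ℤ) * a₀ - a * r₀).toNat • S.P a (co r γ)) ?_ ?_
  · have e : (fun r : ℕ => ∑ a ∈ S.wts, if a * r₀ = (r : ℤ) * a₀ then S.P a (co r γ) else 0) =
        fun r : ℕ => ∑ a ∈ S.wts, (0 : Ω) ^ ((r : ℤ) * a₀ - a * r₀).toNat • S.P a (co r γ) := by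
      funext r
      refine Finset.sum_congr rfl fun a _ => ?_
      split_ifs with h1
      · rw [h1, sub_self]; simp
      · by_cases h2 : S.P a (co r γ) = 0
        · rw [h2, smul_zero]
        · have := h r a h2
          rw [zero_pow (by omega), zero_smul]
    rw [e]; exact this
  · intro r i j
    refine ⟨∑ a ∈ S.wts, Polynomial.X ^ ((r : ℤ) * a₀ - a * r₀).toNat *
      Polynomial.C (S.P a (co r γ) i j), fun u => ?_⟩
    simp only [co_mkM, Polynomial.eval_finsetSum, Matrix.sum_apply, Polynomial.eval_mul,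
      Polynomial.eval_pow, Polynomial.eval_X, Polynomial.eval_C, Matrix.smul_apply, smul_eq_mul]
  · intro u hu
    have := hJ.lam ((Units.mk0 u hu)⁻¹ ^ r₀) _ (hJ.resc (u ^ a₀) γ hγ)
    have e : Cm (S.lam ((Units.mk0 u hu)⁻¹ ^ r₀)) * Tits.resc (u ^ a₀) γ *
        Cm (S.lam ((Units.mk0 u hu)⁻¹ ^ r₀)⁻¹) = mkM fun r => ∑ a ∈ S.wts,
          u ^ ((r : ℤ) * a₀ - a * r₀).toNat • S.P a (co r γ) := by
      refine co_ext fun r => ?_
      rw [co_mul_Cm, co_Cm_mul, co_mkM, co_resc, S.lam_conj_eq_sum]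
      refine Finset.sum_congr rfl fun a _ => ?_
      by_cases h2 : S.P a (co r γ) = 0
      · rw [map_smul, h2]; simp
      · have := h r a h2
        rw [map_smul, smul_smul]
        congr 1
        rw [← zpow_natCast u (Int.toNat _), Int.toNat_of_nonneg (by omega), zpow_sub₀ hu]
        simp only [Units.val_zpow_eq_zpow_val, Units.val_pow_eq_pow_val, Units.val_inv_eq_inv_val,
          Units.val_mk0]
        rw [← zpow_natCast u⁻¹, ← zpow_mul, inv_zpow, ← pow_mul, ← zpow_natCast u,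
          div_eq_inv_mul, mul_comm a, mul_comm (r : ℤ)]
        push_cast; rfl
    rwa [e] at this

end

end Pool.Agent.Lib.MP_c0708e_al.Tits
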