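import Pool.Agent.Lib.MP_c0708e_al.TRoot

/-! The Jordan pair of top weight and an `sl_2`-triple. -/

namespace Pool.Agent.Lib.MP_c0708e_al.Tits

open PowerSeries

lemma ff_ring {R : Type} [Ring R] (X Y : R) (hN : X * X * X = 0)
    (hA : X * X * Y * X = X * Y * X * X) :
    (X * X * Y - 2 * (X * Y * X) + Y * X * X) * (X * X * Y - 2 * (X * Y * X) + Y * X * X) =
      X * X * (Y * Y) * (X * X) := by
  have h1 : X * X * Y * X * X = 0 := by
    have : X * X * Y * X * X = X * (X * Y * X * X) := by noncomm_ring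
    rw [this, ← hA]
    have : X * (X * X * Y * X) = (X * X * X) * Y * X := by noncomm_ring
    rw [this, hN]; simp
  have e : (X * X * Y - 2 * (X * Y * X) + Y * X * X) * (X * X * Y - 2 * (X * Y * X) + Y * X * X) =
      X * X * (Y * Y) * (X * X) + (X * X * Y * X * X) * Y + Y * (X * X * Y * X * X)
      - 2 * (X * X * Y * X - X * Y * X * X) * Y * X + 2 * X * Y * (X * X * Y * X - X * Y * X * X)
      - 2 * X * Y * (X * X * X) * Y + Y * (X * X * X) * X * Y - 2 * Y * (X * X * X) * Y * X := by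
    noncomm_ring
  rw [e, h1, hA, hN]; simp

section
variable {Ω : Type} [Field Ω] {n : Type} [Fintype n] [DecidableEq n]

lemma DD_smul (c : Ω) (x y : Matrix n n Ω) : DD x (c • y) = c • DD x y := by
  simp only [DD, mul_smul_comm, smul_mul_assoc, ← smul_sub, smul_comm c]

lemma DD_neg (x y : Matrix n n Ω) : DD x (-y) = -DD x y := by
  rw [← neg_one_smul Ω y, DD_smul, neg_one_smul]

lemma DD_neg_left (x y : Matrix n n Ω) : DD (-x) y = DD x y := by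
  simp only [DD]; congr 1; noncomm_ring

/-- `DD x` as a linear map -/
noncomputable def DL (x : Matrix n n Ω) : Module.End Ω (Matrix n n Ω) where
  toFun := DD x
  map_add' y z := by simp only [DD, ← smul_add]; congr 1; noncomm_ring
  map_smul' c y := DD_smul c x y

lemma ff_of_act (h2 : (2 : Ω) ≠ 0) {I : Submodule Ω (Matrix n n Ω)}
    (hbr : ∀ x ∈ I, ∀ y ∈ I, x * y - y * x ∈ I) {x : Matrix n n Ω} (hx : x ∈ I) {q : ℕ}
    (hq : q ≠ 0) {γ γ' : Matrix n n Ω⟦X⟧} (hγ : γ * γ' = 1)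
    (act : ∀ y ∈ I, γ * Cm y * γ' =
      Cm y + (X ^ q : Ω⟦X⟧) • Cm (x * y - y * x) + (X ^ (q + q) : Ω⟦X⟧) • Cm (DD x y))
    (hN : ∀ y ∈ I, x * DD x y - DD x y * x = 0) {y z : Matrix n n Ω} (hy : y ∈ I) (hz : z ∈ I) :
    DD (DD x y) z = DD x (DD y (DD x z)) := by
  let ad : Matrix n n Ω →ₗ[Ω] Module.End Ω (Matrix n n Ω) :=
    LinearMap.mul Ω _ - (LinearMap.mul Ω _).flip
  have ad_apply : ∀ s t, ad s t = s * t - t * s := fun s t => rfl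
  have hD : ∀ s t, DD s t = (2 : Ω)⁻¹ • ad s (ad s t) := fun s t => rfl
  have h2' : IsUnit (2 : Ω)⁻¹ := (inv_ne_zero h2).isUnit
  have a3 : ∀ z ∈ I, ad x (ad x (ad y (ad x z))) = ad x (ad y (ad x (ad x z))) := by
    intro z hz
    have hγ' : γ' * γ = 1 := mul_eq_one_comm.1 hγ
    have e : γ * Cm (y * z - z * y) * γ' = (γ * Cm y * γ') * (γ * Cm z * γ') -
        (γ * Cm z * γ') * (γ * Cm y * γ') := by
      simp only [map_sub, map_mul, mul_sub, sub_mul, mul_assoc]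
      rw [← mul_assoc γ' γ, ← mul_assoc γ' γ, hγ', one_mul, one_mul]
    rw [act _ (hbr y hy z hz), act y hy, act z hz] at e
    have e2 := congrArg (co (q + q + q)) e
    simp only [add_mul, mul_add, smul_mul_assoc, mul_smul_comm, smul_smul, ← pow_add,
      ← map_mul, map_add, map_sub (co _), smul_add, co_smul_Cm, co_Cm,
      show ¬ q + q + q = 0 by omega, show ¬ q + q + q = q by omega,
      show ¬ q + q + q = q + q by omega, show ¬ q + q + q = q + q + (q + q) by omega,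
      show q + (q + q) = q + q + q by omega, if_true, if_false, add_zero, zero_add] at e2
    have e3 : ad (ad x y) (DD x z) + ad (DD x y) (ad x z) = 0 := by
      simp only [ad_apply]
      rw [e2]; abel
    rw [hD, hD, map_smul, map_smul, LinearMap.smul_apply, ← smul_add, h2'.smul_eq_zero] at e3
    rw [← sub_eq_zero, ← e3]
    simp only [ad_apply]; noncomm_ring
  let res : I → Module.End Ω I := fun x => (ad x).restrict (hbr x x.2)
  have key := ff_ring (res ⟨x, hx⟩) (res ⟨y, hy⟩) (by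
    ext1 z
    have := hN z z.2
    rw [← ad_apply, hD, map_smul, h2'.smul_eq_zero] at this
    exact Subtype.ext this) (by
    ext1 z
    exact Subtype.ext (a3 z z.2))
  have e : res ⟨x, hx⟩ * res ⟨x, hx⟩ * res ⟨y, hy⟩ - 2 * (res ⟨x, hx⟩ * res ⟨y, hy⟩ * res ⟨x, hx⟩) +
      res ⟨y, hy⟩ * res ⟨x, hx⟩ * res ⟨x, hx⟩ =
      res ⟨ad x (ad x y), hbr _ hx _ (hbr _ hx _ hy)⟩ := by
    ext1 z
    apply Subtype.ext
    rw [two_mul]
    change ad x (ad x (ad y z)) - (ad x (ad y (ad x z)) + ad x (ad y (ad x z))) +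
      ad y (ad x (ad x z)) = ad (ad x (ad x y)) z
    simp only [ad_apply]; noncomm_ring
  rw [e] at key
  have key2 : ad (ad x (ad x y)) (ad (ad x (ad x y)) z) =
      ad x (ad x (ad y (ad y (ad x (ad x z))))) :=
    congrArg Subtype.val (LinearMap.congr_fun key ⟨z, hz⟩)
  simp only [hD, map_smul, LinearMap.smul_apply, key2]

variable {H : Type} [Group H] {Λ : Type} [Fintype Λ]
  {ρ : H →* Matrix n n Ω} {S : WS Λ n Ω} {J : Set (Matrix n n Ω⟦X⟧)} [IsAlgClosed Ω]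

lemma Jet.I_br (hJ : Jet ρ S J) {q : ℕ} (hq : q ≠ 0) :
    ∀ x ∈ hJ.I hq, ∀ y ∈ hJ.I hq, x * y - y * x ∈ hJ.I hq :=
  fun _ hx y hy => hJ.I_star hq hx _ (hJ.I_inv hq) y hy

lemma Jet.DD_mem (hJ : Jet ρ S J) {q : ℕ} (hq : q ≠ 0) {x y : Matrix n n Ω} (hx : x ∈ hJ.I hq)
    (hy : y ∈ hJ.I hq) : DD x y ∈ hJ.I hq :=
  Submodule.smul_mem _ _ (hJ.I_br hq _ hx _ (hJ.I_br hq _ hx _ hy))

omit [IsAlgClosed Ω] in
lemma br_wt {a b : ℤ} {x y : Matrix n n Ω} (hx : x ∈ S.Wt a) (hy : y ∈ S.Wt b) :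
    x * y - y * x ∈ S.Wt (a + b) :=
  sub_mem (S.Wt_mul hx hy) (add_comm a b ▸ S.Wt_mul hy hx)

omit [IsAlgClosed Ω] in
lemma DD_wt {a b : ℤ} {x y : Matrix n n Ω} (hx : x ∈ S.Wt a) (hy : y ∈ S.Wt b) :
    DD x y ∈ S.Wt (a + (a + b)) :=
  Submodule.smul_mem _ _ (br_wt hx (br_wt hx hy))

lemma Jet.wt_zero (hJ : Jet ρ S J) {δ q : ℕ} (hq : q ≠ 0) (hb : Bd S J δ) {x : Matrix n n Ω}
    (hx : x ∈ hJ.I hq) {a : ℤ} (hw : x ∈ S.Wt a) (ha : δ < a) : x = 0 := by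
  rw [← S.P_of_mem hw]; exact hJ.I_bd hq hb hx ha

lemma Jet.DD_proj (hJ : Jet ρ S J) {δ q : ℕ} (hq : q ≠ 0) (hb : Bd S J δ)
    (hb' : Bd S.neg J δ) {x y : Matrix n n Ω} (hx : x ∈ hJ.I hq) (hw : x ∈ S.Wt δ)
    (hy : y ∈ hJ.I hq) : DD x y = DD x (S.P (-δ) y) := by
  change DL x y = DL x _
  conv_lhs => rw [← S.sum_P y, map_sum]
  rw [Finset.sum_eq_single (-δ : ℤ)]
  · intro b _ hb1
    by_cases hbδ : b < -δ
    · have := hJ.neg.I_bd hq hb' hy (a := -b) (by omega)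
      rw [WS.P_neg, neg_neg] at this
      rw [this, map_zero]
    · exact hJ.wt_zero hq hb (hJ.DD_mem hq hx (hJ.Pinv _ (hJ.I_inv hq) b y hy))
        (DD_wt hw (S.P_mem b y)) (by omega)
  · intro h
    rw [S.P_eq_zero h, map_zero]

lemma Jet.DD_top (hJ : Jet ρ S J) {δ q : ℕ} (hq : q ≠ 0) (hb : Bd S J δ)
    (hb' : Bd S.neg J δ) {x y : Matrix n n Ω} (hx : x ∈ hJ.I hq) (hw : x ∈ S.Wt δ)
    (hy : y ∈ hJ.I hq) : DD x y ∈ S.Wt δ := by
  have := DD_wt hw (S.P_mem (-δ) y)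
  rwa [← hJ.DD_proj hq hb hb' hx hw hy, add_neg_cancel, add_zero] at this

lemma Jet.ff (hJ : Jet ρ S J) (h2 : (2 : Ω) ≠ 0) {δ q : ℕ} (hδ : δ ≠ 0) (hq : q ≠ 0)
    (hb : Bd S J δ) (hb' : Bd S.neg J δ) {x y z : Matrix n n Ω} (hx : x ∈ hJ.I hq)
    (hw : x ∈ S.Wt δ) (hy : y ∈ hJ.I hq) (hz : z ∈ hJ.I hq) :
    DD (DD x y) z = DD x (DD y (DD x z)) := by
  have hx' := hJ.I_P hq hx (a := δ) (by omega)
  rw [S.P_of_mem hw] at hx'
  obtain ⟨γ, -, γ', h1, h3⟩ := hJ.root h2 hδ hq hb hb' hx' hw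
  refine ff_of_act h2 (hJ.I_br hq) hx hq h1 h3 (fun y hy => ?_) hy hz
  exact hJ.wt_zero hq hb (hJ.I_br hq _ hx _ (hJ.DD_mem hq hx hy))
    (br_wt hw (hJ.DD_top hq hb hb' hx hw hy)) (by omega)

omit [IsAlgClosed Ω] in
lemma WS.neg_neg' (S : WS Λ n Ω) : S.neg.neg = S := by
  cases S; simp [WS.neg]

variable [Nonempty n]

lemma Jet.triple (hJ : Jet ρ S J) (hSB : SB ρ) (h2 : (2 : Ω) ≠ 0) {δ q : ℕ} (hδ : δ ≠ 0)
    (hq : q ≠ 0) (hb : Bd S J δ) (hb' : Bd S.neg J δ) {x₀ : Matrix n n Ω} (hx₀ : x₀ ∈ hJ.I hq)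
    (hw₀ : x₀ ∈ S.Wt δ) (h0 : x₀ ≠ 0) : ∃ e ∈ hJ.I hq, ∃ f ∈ hJ.I hq, e ∈ S.Wt δ ∧
      f ∈ S.Wt (-δ) ∧ e ≠ 0 ∧ DD e f = -e ∧ DD f e = -f := by
  obtain ⟨x, ⟨hx, hw, hx0⟩, hmin⟩ := (measure fun x : Matrix n n Ω =>
    Module.finrank Ω ((hJ.I hq).map (DL x))).wf.has_min
    {x | x ∈ hJ.I hq ∧ x ∈ S.Wt δ ∧ x ≠ 0} ⟨x₀, hx₀, hw₀, h0⟩
  obtain ⟨y, hy, hxy⟩ : ∃ y ∈ hJ.I hq, DD x y ≠ 0 := by
    by_contra h
    push Not at h
    have := sandwich_scalar hSB h2 (hJ.I_inv hq) (Submodule.mem_sup_right one_mem_Sc)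
      (fun x hx => hJ.I_star hq hx) hx (fun y hy =>
        (smul_eq_zero.1 (h y hy)).resolve_left (inv_ne_zero h2))
    obtain ⟨c, rfl⟩ := mem_Sc.1 this
    exact hx0 (S.eq_zero_of_Wt hw (Submodule.smul_mem _ c S.one_mem_Wt) (by omega))
  have hb1 := hJ.DD_mem hq hx hy
  have hb2 := hJ.DD_top hq hb hb' hx hw hy
  have hle : (hJ.I hq).map (DL (DD x y)) ≤ (hJ.I hq).map (DL x) := by
    rintro _ ⟨z, hz, rfl⟩
    exact ⟨_, hJ.DD_mem hq hy (hJ.DD_mem hq hx hz), (hJ.ff h2 hδ hq hb hb' hx hw hy hz).symm⟩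
  have heq := Submodule.eq_of_le_of_finrank_le hle (not_lt.1 (hmin _ ⟨hb1, hb2, hxy⟩))
  obtain ⟨z, hz, hz'⟩ : DD x y ∈ (hJ.I hq).map (DL (DD x y)) := heq ▸ ⟨y, hy, rfl⟩
  generalize DD x y = b at *
  change DD b z = b at hz'
  rw [hJ.DD_proj hq hb hb' hb1 hb2 hz] at hz'
  have hz1 := hJ.Pinv _ (hJ.I_inv hq) (-δ) z hz
  have hz2 := S.P_mem (-δ) z
  generalize S.P (-δ) z = z at *
  have e1 : DD b (DD z b) = b := by
    have := hJ.ff h2 hδ hq hb hb' hb1 hb2 hz1 hz1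
    rw [hz'] at this
    rw [← this, hz']
  refine ⟨b, hb1, -DD z b, neg_mem (hJ.DD_mem hq hz1 hb1), hb2, neg_mem ?_, hxy, ?_, ?_⟩
  · have := DD_wt hz2 hb2
    rwa [neg_add_cancel, add_zero] at this
  · rw [DD_neg, e1]
  · rw [DD_neg_left, neg_neg, hJ.neg.ff h2 hδ hq hb' (by rwa [WS.neg_neg']) hz1
      (S.mem_neg.2 hz2) hb1 hb1, e1]

/-- the output of the analysis of the jet group -/
def Out (J : Set (Matrix n n Ω⟦X⟧)) : Prop :=
  ∃ q ≠ 0, ∃ (a a' : Bool → Matrix n n Ω⟦X⟧) (e h f : Matrix n n Ω),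
    (∀ β, a β ∈ J ∧ a β * a' β = 1) ∧ Sl2Act (X ^ q : Ω⟦X⟧) a a' (Cm e) (Cm h) (Cm f) ∧
    ∀ c0 c1 c2 : Ω, c0 • e + c1 • h + c2 • f = 0 → c0 = 0 ∧ c1 = 0 ∧ c2 = 0

lemma Jet.core_aux (hJ : Jet ρ S J) (hSB : SB ρ) (h2 : (2 : Ω) ≠ 0) {δ q : ℕ} (hδ : δ ≠ 0)
    (hq : q ≠ 0) (hb : Bd S J δ) (hb' : Bd S.neg J δ) {x₀ : Matrix n n Ω} (hx₀ : x₀ ∈ Ld J q)
    (h0 : S.P δ x₀ ≠ 0) : Out J := by
  obtain ⟨e, he, f, hf, we, wf, he0, h1, h3⟩ := hJ.triple hSB h2 hδ hq hb hb'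
    (hJ.Pinv _ (hJ.I_inv hq) δ x₀ (Submodule.mem_sup_left hx₀)) (S.P_mem _ _) h0
  have he' := hJ.I_P hq he (a := δ) (by omega)
  rw [S.P_of_mem we] at he'
  have hf' := hJ.I_P hq hf (a := -δ) (by omega)
  rw [S.P_of_mem wf] at hf'
  obtain ⟨γ, g1, γ', g2, g3⟩ := hJ.root h2 hδ hq hb hb' he' we
  obtain ⟨ε, e1, ε', e2, e3⟩ := hJ.neg.root h2 hδ hq hb' (by rwa [WS.neg_neg']) hf'
    (S.mem_neg.2 wf)
  have hh := hJ.I_br hq e he f hf
  have wh := br_wt we wf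
  have k1 : e * (e * f - f * e) - (e * f - f * e) * e = (-2 : Ω) • e := by
    have := congrArg (fun x => (2 : Ω) • x) h1
    simp only [DD, smul_smul, mul_inv_cancel₀ h2, one_smul] at this
    rw [this]; module
  have k2 : f * (e * f - f * e) - (e * f - f * e) * f = (2 : Ω) • f := by
    have := congrArg (fun x => (-2 : Ω) • x) h3
    simp only [DD, smul_smul, neg_mul, mul_inv_cancel₀ h2, neg_smul, one_smul, smul_neg,
      neg_neg] at this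
    rw [← this]; noncomm_ring
  have dd : ∀ x : Matrix n n Ω, DD x x = 0 := fun x => by simp [DD]
  have d1 : DD e (e * f - f * e) = 0 := by rw [DD, k1]; simp
  have d2 : DD f (e * f - f * e) = 0 := by rw [DD, k2]; simp
  have c2 : ∀ (c : Ω) x, Cm (c • x : Matrix n n Ω) = (C c : Ω⟦X⟧) • Cm x := by
    intro c x
    rw [map_smul, ← algebraMap_smul Ω⟦X⟧ c]; rfl
  refine ⟨q, hq, fun β => if β then γ else ε, fun β => if β then γ' else ε', e, e * f - f * e, f,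
    ?_, ?_, ?_⟩
  · intro β; cases β
    · exact ⟨e1, e2⟩
    · exact ⟨g1, g2⟩
  · constructor <;> simp only [if_true, Bool.false_eq_true, if_false]
    · rw [g3 e he, dd]; simp
    · rw [g3 _ hh, d1, k1, c2, map_zero, map_neg, map_ofNat, smul_zero, add_zero, smul_smul,
        mul_neg, neg_smul, ← sub_eq_add_neg, mul_comm]
    · rw [g3 f hf, h1, map_neg, ← pow_mul, mul_two, smul_neg, ← sub_eq_add_neg]
    · rw [e3 e he, h3, map_neg, ← pow_mul, mul_two, ← neg_sub (e * f), map_neg, smul_neg,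
        smul_neg, ← sub_eq_add_neg, ← sub_eq_add_neg]
    · rw [e3 _ hh, d2, k2, c2, map_zero, map_ofNat, smul_zero, add_zero, smul_smul, mul_comm]
    · rw [e3 f hf, dd]; simp
  · intro c0 c1 c2 h
    rw [add_neg_cancel] at wh
    have hf0 : f ≠ 0 := by
      rintro rfl
      apply he0
      rw [← neg_eq_zero, ← h1]; simp [DD]
    have hh0 : e * f - f * e ≠ 0 := by
      intro h
      rw [h, mul_zero, zero_mul, sub_zero, eq_comm, smul_eq_zero] at k1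
      exact k1.elim (neg_ne_zero.2 h2) he0
    have t0 := congrArg (S.P δ) h
    have t1 := congrArg (S.P 0) h
    have t2 := congrArg (S.P (-δ)) h
    simp only [map_add, map_smul, map_zero] at t0 t1 t2
    rw [S.P_of_mem we, S.P_of_ne wh (by omega), S.P_of_ne wf (by omega)] at t0
    rw [S.P_of_mem wh, S.P_of_ne we (by omega), S.P_of_ne wf (by omega)] at t1
    rw [S.P_of_mem wf, S.P_of_ne wh (by omega), S.P_of_ne we (by omega)] at t2
    simp only [smul_zero, add_zero, zero_add, smul_eq_zero] at t0 t1 t2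
    exact ⟨t0.resolve_right he0, t1.resolve_right hh0, t2.resolve_right hf0⟩

theorem Jet.core (hJ : Jet ρ S J) (hSB : SB ρ) (h2 : (2 : Ω) ≠ 0)
    (hne : ∃ a ≠ 0, ∃ r ≠ 0, ∃ x ∈ Ld J r, S.P a x ≠ 0) : Out J := by
  classical
  have hw : ∀ a x, S.P a x ≠ 0 → a ∈ S.wts := fun a x ha => by
    by_contra h; exact ha (S.P_eq_zero h _)
  obtain ⟨a₀, ha₀, r₀, hr₀, x₀, hx₀, h₀⟩ := hne
  obtain ⟨a, h1, h3⟩ := (S.wts.filter fun a => ∃ r ≠ 0, ∃ x ∈ Ld J r, S.P a x ≠ 0).exists_max_image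
    Int.natAbs ⟨a₀, Finset.mem_filter.2 ⟨hw _ _ h₀, r₀, hr₀, x₀, hx₀, h₀⟩⟩
  obtain ⟨-, q, hq, x, hx, hx0⟩ := Finset.mem_filter.1 h1
  have h4 : ∀ r ≠ 0, ∀ x ∈ Ld J r, ∀ b : ℤ, a.natAbs < b.natAbs → S.P b x = 0 := by
    intro r hr x hx b hb
    by_contra h
    have := h3 b (Finset.mem_filter.2 ⟨hw _ _ h, r, hr, x, hx, h⟩)
    omega
  have hb : Bd S J a.natAbs := fun r hr x hx b hb => h4 r hr x hx b (by omega)
  have hb' : Bd S.neg J a.natAbs := fun r hr x hx b hb => by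
    rw [WS.P_neg]; exact h4 r hr x hx _ (by omega)
  have hδ : a.natAbs ≠ 0 := by
    have := h3 a₀ (Finset.mem_filter.2 ⟨hw _ _ h₀, r₀, hr₀, x₀, hx₀, h₀⟩)
    omega
  rcases Int.natAbs_eq a with h | h
  · exact hJ.core_aux hSB h2 hδ hq hb hb' hx (by rwa [← h])
  · exact hJ.neg.core_aux hSB h2 hδ hq hb' (by rwa [WS.neg_neg']) hx (by rwa [WS.P_neg, ← h])

end

end Pool.Agent.Lib.MP_c0708e_al.Tits
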