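import Pool.Agent.Lib.MP_c0708e_al.TVal

/-! Lifting jets to graded Laurent polynomials over a valuation ring. -/

set_option linter.style.haveILetI false

namespace Pool.Agent.Lib.MP_c0708e_al.Tits

open LaurentPolynomial
open scoped PowerSeries

section
variable {K L Γ : Type} [Field K] [Field L] [Algebra K L] [LinearOrderedCommGroupWithZero Γ]
  {V : Valuation L Γ} (hK : ∀ x : K, V (algebraMap K L x) ≤ 1)

/-- closed ball -/
def ball (t : Γ) : Submodule K L where
  carrier := {x | V x ≤ t}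
  add_mem' hx hy := V.map_add_le hx hy
  zero_mem' := by simp
  smul_mem' c x hx := by
    change V _ ≤ t
    rw [Algebra.smul_def, map_mul]
    exact (mul_le_mul' (hK c) hx).trans (one_mul _).le

/-- the valuation ring -/
def BB : Subalgebra K L where
  carrier := {x | V x ≤ 1}
  mul_mem' hx hy := by
    change V _ ≤ 1
    rw [map_mul]; exact mul_le_one' hx hy
  add_mem' hx hy := V.map_add_le hx hy
  algebraMap_mem' := hK

lemma exists_red : ∃ (Ω : Type) (_ : Field Ω) (_ : IsAlgClosed Ω) (_ : Algebra K Ω)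
    (red : BB hK →ₐ[K] Ω), ∀ x, red x = 0 ↔ V x < 1 := by
  let 𝔪 : Ideal (BB hK) :=
    { carrier := {x | V x < 1}
      add_mem' := fun hx hy => V.map_add_lt hx hy
      zero_mem' := by simp
      smul_mem' := fun c x hx => by
        change V (c * x) < 1
        rw [map_mul]
        exact mul_lt_one_of_nonneg_of_lt_one_right c.2 zero_le hx }
  haveI : 𝔪.IsMaximal := by
    refine Ideal.isMaximal_iff.2 ⟨?_, fun J x _ hx hxJ => ?_⟩
    · change ¬ V 1 < 1
      simp
    · have h1 : V x = 1 := le_antisymm x.2 (not_lt.1 hx)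
      have h0 : (x : L) ≠ 0 := by intro h; simp [h] at h1
      have := J.mul_mem_left ⟨(x : L)⁻¹, show V _ ≤ 1 by simp [h1]⟩ hxJ
      have e : (⟨(x : L)⁻¹, show V _ ≤ 1 by simp [h1]⟩ : BB hK) * x = 1 :=
        Subtype.ext (inv_mul_cancel₀ h0)
      rwa [e] at this
  letI := Ideal.Quotient.field 𝔪
  refine ⟨AlgebraicClosure (BB hK ⧸ 𝔪), inferInstance, inferInstance, inferInstance,
    (IsScalarTower.toAlgHom K (BB hK ⧸ 𝔪) _).comp (Ideal.Quotient.mkₐ K 𝔪), fun x => ?_⟩
  change algebraMap (BB hK ⧸ 𝔪) _ (Ideal.Quotient.mk 𝔪 x) = 0 ↔ _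
  rw [map_eq_zero, Ideal.Quotient.eq_zero_iff_mem]
  rfl

end

section
variable {K B L Ω : Type} [Field K] [CommRing B] [Algebra K B] [Field L] [Algebra K L] [Field Ω]
  [Algebra K Ω] {χ : Kˣ → ℚ} (hχ : ∀ u v, χ (u * v) = χ u + χ v) (red : B →ₐ[K] Ω)

/-- graded Laurent polynomials together with their polynomial reduction -/
noncomputable def TT : Subring ((ℕ → B)[T;T⁻¹] × Polynomial Ω) :=
  (GrL hχ B).comap (RingHom.fst _ _) ⊓ RingHom.eqLocus
    ((AddMonoidAlgebra.mapRingHom ℤ (red.toRingHom.comp (Pi.evalRingHom (fun _ : ℕ => B) 0))).comp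
      (RingHom.fst _ _)) (Polynomial.toLaurent.comp (RingHom.snd _ _))

variable {hχ red}

/-- evaluation -/
noncomputable def pm (j : B →ₐ[K] L) (θ : Lˣ) (m : ℕ) : TT hχ red →+* L :=
  (eval₂ (j.toRingHom.comp (Pi.evalRingHom (fun _ : ℕ => B) m)) θ).comp
    ((RingHom.fst _ _).comp (TT hχ red).subtype)

/-- reduction -/
noncomputable def psi : TT hχ red →+* Ω⟦X⟧ :=
  Polynomial.coeToPowerSeries.ringHom.comp ((RingHom.snd _ _).comp (TT hχ red).subtype)

lemma coeff_psi (F : TT hχ red) (r : ℕ) :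
    PowerSeries.coeff r (psi F) = red (F.1.1.coeff r 0) := by
  have h : AddMonoidAlgebra.mapRingHom ℤ
    (red.toRingHom.comp (Pi.evalRingHom (fun _ : ℕ => B) 0)) F.1.1 = F.1.2.toLaurent := F.2.2
  have h2 := congrArg (fun G => G.coeff (r : ℤ)) h
  simp only [AddMonoidAlgebra.coeff_mapRingHom, coeff_toLaurent] at h2
  have h3 := Finsupp.mapDomain_apply (Nat.castEmbedding (R := ℤ)).injective
    F.1.2.toFinsupp.coeff r
  exact (Polynomial.coeff_coe _ _).trans (h3.symm.trans h2.symm)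

lemma exists_mon {a : ℤ} {f : ℕ → B} (hf : f ∈ Gr χ B a) (h : a < 0 → red (f 0) = 0) :
    ∃ F : TT hχ red, F.1.1 = C f * T a := by
  refine ⟨⟨(C f * T a, Polynomial.monomial a.toNat (red (f 0))), ?_, ?_⟩, rfl⟩
  · change C f * T a ∈ GrL hχ B
    exact C_mul_T_mem_GrL hχ hf
  change AddMonoidAlgebra.mapRingHom ℤ _ (C f * T a) =
    Polynomial.toLaurent (Polynomial.monomial a.toNat (red (f 0)))
  rw [← single_eq_C_mul_T, AddMonoidAlgebra.mapRingHom_single, Polynomial.toLaurent_C_mul_T,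
    ← single_eq_C_mul_T]
  by_cases ha : a < 0
  · have : (red.toRingHom.comp (Pi.evalRingHom (fun _ : ℕ => B) 0)) f = 0 := h ha
    rw [this, h ha]; simp
  · rw [Int.toNat_of_nonneg (not_lt.1 ha)]; rfl

/-- constants -/
noncomputable def cst (hχ : ∀ u v, χ (u * v) = χ u + χ v) (red : B →ₐ[K] Ω) : B →+* TT hχ red :=
  RingHom.codRestrict ((C.comp (Pi.constRingHom ℕ B)).prod (Polynomial.C.comp red.toRingHom)) _
    fun b => ⟨C_const_mem_GrL hχ b, by
      change AddMonoidAlgebra.mapRingHom ℤ _ (C _) = Polynomial.toLaurent (Polynomial.C _)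
      rw [← single_eq_C, AddMonoidAlgebra.mapRingHom_single, Polynomial.toLaurent_C]; rfl⟩

lemma pm_cst (j : B →ₐ[K] L) (θ : Lˣ) (m : ℕ) (b : B) : pm j θ m (cst hχ red b) = j b :=
  eval₂_C _ _ _

lemma psi_cst (b : B) : psi (cst hχ red b) = PowerSeries.C (red b) := Polynomial.coe_C _

variable {n Λ : Type} [Fintype n] [DecidableEq n] [Fintype Λ]

lemma exists_lift (j : B →ₐ[K] L) (θ : Lˣ) {g g' : Matrix n n K}
    {S : WS Λ n K} (hG : GData g g' χ S) (y : ℤ → Matrix n n B)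
    (hy : ∀ a, y a ∈ (S.map (algebraMap K B)).Wt a) (hneg : ∀ a < 0, ∀ i k, red (y a i k) = 0) :
    ∃ F : Matrix n n (TT hχ red), (∀ m, (pm j θ m).mapMatrix F =
      (algebraMap K L).mapMatrix g ^ m *
        (∑ a ∈ S.wts, ((θ ^ a : Lˣ) : L) • j.toRingHom.mapMatrix (y a)) *
        (algebraMap K L).mapMatrix g' ^ m) ∧
      ∀ r : ℕ, co r (psi.mapMatrix F) = red.toRingHom.mapMatrix (y r) := by
  have h1 : ∀ a i k, ∃ F : TT hχ red, F.1.1 = C (fun m => ((algebraMap K B).mapMatrix g ^ m * y a *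
      (algebraMap K B).mapMatrix g' ^ m) i k) * T a := by
    intro a i k
    have := Gr_map χ (Matrix.entryLinearMap K B i k) (hG.gr hχ B (y a) a)
    rw [WS.P_of_mem _ (hy a)] at this
    exact exists_mon this fun ha => by simpa using hneg a ha i k
  choose F hF using h1
  have ej : ∀ x : Matrix n n K, j.toRingHom.mapMatrix ((algebraMap K B).mapMatrix x) =
      (algebraMap K L).mapMatrix x := fun x => by ext; simp
  refine ⟨∑ a ∈ S.wts, Matrix.of (F a), fun m => ?_, fun r => ?_⟩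
  · rw [map_sum, Finset.mul_sum, Finset.sum_mul]
    refine Finset.sum_congr rfl fun a _ => ?_
    rw [mul_smul_comm, smul_mul_assoc, ← ej, ← ej, ← map_pow j.toRingHom.mapMatrix,
      ← map_pow j.toRingHom.mapMatrix, ← map_mul, ← map_mul]
    ext i k
    change eval₂ _ θ (F a i k).1.1 = _
    rw [hF, eval₂_C_mul_T, mul_comm]
    rfl
  · ext i k
    rw [co_apply, RingHom.mapMatrix_apply, Matrix.map_apply, coeff_psi, Matrix.sum_apply]
    have e : ((∑ a ∈ S.wts, Matrix.of (F a) i k : TT hχ red) :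
        (ℕ → B)[T;T⁻¹] × Polynomial Ω).1 = ∑ a ∈ S.wts, (F a i k).1.1 :=
      map_sum ((RingHom.fst _ _).comp (TT hχ red).subtype) _ _
    rw [e]
    simp only [hF, ← single_eq_C_mul_T, AddMonoidAlgebra.coeff_sum, AddMonoidAlgebra.coeff_single,
      Finsupp.finsetSum_apply, Finsupp.single_apply, Finset.sum_ite_eq']
    split_ifs with h
    · simp
    · have := (S.map (algebraMap K B)).P_eq_zero (a := r) h (y r)
      rw [WS.P_of_mem _ (hy r)] at this
      simp [this]

end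

section
variable {K L Γ Ω : Type} [Field K] [Field L] [Algebra K L] [LinearOrderedCommGroupWithZero Γ]
  {V : Valuation L Γ} {hK : ∀ x : K, V (algebraMap K L x) ≤ 1} [Field Ω] [Algebra K Ω]
  {χ : Kˣ → ℚ} {hχ : ∀ u v, χ (u * v) = χ u + χ v} {red : BB hK →ₐ[K] Ω}

lemma transfer (hred : ∀ x, red x = 0 ↔ V x < 1) {θ : Lˣ} {t : Γ} (ht : t < 1) (hθ : t ≤ V θ)
    (N : ℕ) (F : TT hχ red) (h : ∀ m, V (pm (BB hK).val θ m F) ≤ t ^ N) :
    (PowerSeries.X : Ω⟦X⟧) ^ N ∣ psi F := by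
  rw [PowerSeries.X_pow_dvd_iff]
  intro r hr
  rw [coeff_psi, hred]
  have h1 : V (_ * _) ≤ t ^ N := GrL_extract hχ (BB hK).val θ (ball hK (t ^ N)) F.2.1 h r
  have h0 : 0 < V θ ^ r := pow_pos ((Valuation.pos_iff V).2 θ.ne_zero) r
  rw [map_mul, zpow_natCast, Units.val_pow_eq_pow_val, map_pow] at h1
  refine lt_of_le_of_lt (le_of_mul_le_mul_right (h1.trans ?_) h0) ht
  calc t ^ N ≤ t ^ (r + 1) := pow_le_pow_of_le_one zero_le ht.le hr
    _ ≤ t * V θ ^ r := by
      rw [pow_succ']; exact mul_le_mul_right (pow_le_pow_left₀ zero_le hθ r) _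

lemma transfer_zero (hred : ∀ x, red x = 0 ↔ V x < 1) {θ : Lˣ}
    (F : TT hχ red) (h : ∀ m, pm (BB hK).val θ m F = 0) : psi F = 0 := by
  ext r
  rw [map_zero]
  exact PowerSeries.X_pow_dvd_iff.1 (transfer hred (θ := θ) (t := 0) zero_lt_one zero_le (r + 1) F
    fun m => by simp [h m]) r (Nat.lt_succ_self r)

end

end Pool.Agent.Lib.MP_c0708e_al.Tits
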