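import Pool.Agent.Lib.MP_c0708e_al.TDefs

/-! Truncated Magnus expansion and the adjoint action on an `sl_2`-triple. -/

namespace Pool.Agent.Lib.MP_c0708e_al.Tits

open Polynomial
open scoped MatrixGroups PowerSeries

/-- Words of length at most `K`. -/
noncomputable def lists (K : ℕ) : Finset (List Bool) := (List.finite_length_le Bool K).toFinset

lemma mem_lists {K : ℕ} {I : List Bool} : I ∈ lists K ↔ I.length ≤ K := by simp [lists]

/-- A multiplicative filtration with two units congruent to one. -/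
structure Filt (R : Type) [Ring R] (F : ℕ → AddSubgroup R) (ab : Bool → Rˣ) : Prop where
  one : 1 ∈ F 0
  mul : ∀ a b x y, x ∈ F a → y ∈ F b → x * y ∈ F (a + b)
  anti : ∀ a, F (a + 1) ≤ F a
  gen : ∀ β, (ab β : R) - 1 ∈ F 1
  inv : ∀ β, (((ab β)⁻¹ : Rˣ) : R) ∈ F 0

lemma Filt.antitone {R : Type} [Ring R] {F : ℕ → AddSubgroup R} {ab : Bool → Rˣ}
    (h : Filt R F ab) : Antitone F := antitone_nat_of_succ_le h.anti

lemma Filt.pow_mem {R : Type} [Ring R] {F : ℕ → AddSubgroup R} {ab : Bool → Rˣ}
    (h : Filt R F ab) {x : R} (hx : x ∈ F 1) (m : ℕ) : x ^ m ∈ F m := by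
  induction m with
  | zero => simpa using h.one
  | succ m ih => rw [pow_succ]; exact h.mul _ _ _ _ ih hx

lemma Filt.mono_mem {R : Type} [Ring R] {F : ℕ → AddSubgroup R} {ab : Bool → Rˣ}
    (h : Filt R F ab) (I : List Bool) : (I.map fun β => (ab β : R) - 1).prod ∈ F I.length := by
  induction I with
  | nil => simpa using h.one
  | cons β I ih =>
    rw [List.map_cons, List.prod_cons, List.length_cons, add_comm]
    exact h.mul _ _ _ _ (h.gen β) ih

noncomputable def evalP {R : Type} [Ring R] (ab : Bool → Rˣ) :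
    MonoidAlgebra ℤ (FreeMonoid Bool) →ₐ[ℤ] R :=
  MonoidAlgebra.lift ℤ R (FreeMonoid Bool) (FreeMonoid.lift fun β => (ab β : R) - 1)

lemma magnus_aux (K : ℕ) (w : FreeGroup Bool) :
    ∃ P : MonoidAlgebra ℤ (FreeMonoid Bool), ∀ (R : Type) [Ring R] (F : ℕ → AddSubgroup R)
      (ab : Bool → Rˣ), Filt R F ab →
      ((FreeGroup.lift ab w : Rˣ) : R) ∈ F 0 ∧
        ((FreeGroup.lift ab w : Rˣ) : R) - evalP ab P ∈ F (K + 1) := by
  induction w using FreeGroup.induction_on with
  | C1 => exact ⟨1, fun R _ F ab h => by simpa using h.one⟩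
  | of β =>
    refine ⟨1 + MonoidAlgebra.single (FreeMonoid.of β) 1, fun R _ F ab h => ⟨?_, ?_⟩⟩
    · have := add_mem (h.anti 0 (h.gen β)) h.one
      simpa using this
    · simp [evalP]
  | inv_of β _ =>
    refine ⟨∑ i ∈ Finset.range (K + 1), (-MonoidAlgebra.single (FreeMonoid.of β) 1) ^ i,
      fun R _ F ab h => ⟨by simpa using h.inv β, ?_⟩⟩
    have e : evalP ab (∑ i ∈ Finset.range (K + 1),
        (-MonoidAlgebra.single (FreeMonoid.of β) 1) ^ i) =
        ∑ i ∈ Finset.range (K + 1), (1 - (ab β : R)) ^ i := by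
      simp [evalP]
    rw [e]
    have e2 := mul_neg_geom_sum (1 - (ab β : R)) (K + 1)
    rw [sub_sub_cancel] at e2
    have e3 : (((ab β)⁻¹ : Rˣ) : R) - ∑ i ∈ Finset.range (K + 1), (1 - (ab β : R)) ^ i =
        (((ab β)⁻¹ : Rˣ) : R) * (1 - (ab β : R)) ^ (K + 1) := by
      have : ∑ i ∈ Finset.range (K + 1), (1 - (ab β : R)) ^ i =
          (((ab β)⁻¹ : Rˣ) : R) * (1 - (1 - (ab β : R)) ^ (K + 1)) := by
        rw [← e2, ← mul_assoc, Units.inv_mul, one_mul]
      rw [this, mul_sub, mul_one, sub_sub_cancel]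
    simp only [map_inv, FreeGroup.lift_apply_of]
    rw [e3]
    have := h.mul _ _ _ _ (h.inv β) (h.pow_mem (x := 1 - (ab β : R))
      (by simpa using neg_mem (h.gen β)) (K + 1))
    simpa using this
  | mul x y hx hy =>
    obtain ⟨P, hP⟩ := hx
    obtain ⟨Q, hQ⟩ := hy
    refine ⟨P * Q, fun R _ F ab h => ?_⟩
    obtain ⟨a1, a2⟩ := hP R F ab h
    obtain ⟨b1, b2⟩ := hQ R F ab h
    simp only [map_mul, Units.val_mul]
    refine ⟨h.mul _ _ _ _ a1 b1, ?_⟩
    have hP0 : evalP ab P ∈ F 0 := by
      have := sub_mem a1 (h.antitone (Nat.zero_le _) a2)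
      simpa using this
    have := add_mem (h.mul _ _ _ _ a2 b1) (by simpa using h.mul _ _ _ _ hP0 b2)
    have e : ∀ x y P Q : R, (x - P) * y + P * (y - Q) = x * y - P * Q := by
      intros; noncomm_ring
    rwa [e] at this

lemma magnus (K : ℕ) (w : FreeGroup Bool) :
    ∃ c : List Bool → ℤ, ∀ (R : Type) [Ring R] (F : ℕ → AddSubgroup R)
      (ab : Bool → Rˣ), Filt R F ab →
      ((FreeGroup.lift ab w : Rˣ) : R) -
        ∑ I ∈ lists K, c I • (I.map fun β => (ab β : R) - 1).prod ∈ F (K + 1) := by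
  classical
  obtain ⟨P, hP⟩ := magnus_aux K w
  refine ⟨fun I => P.coeff (FreeMonoid.ofList I), fun R _ F ab h => ?_⟩
  have h1 := (hP R F ab h).2
  have e : evalP ab P = ∑ I ∈ P.coeff.support.image FreeMonoid.toList ∪ lists K,
      P.coeff (FreeMonoid.ofList I) • (I.map fun β => (ab β : R) - 1).prod := by
    rw [evalP, MonoidAlgebra.lift_apply, Finsupp.sum]
    rw [← Finset.sum_subset (s₁ := P.coeff.support.image FreeMonoid.toList)
      Finset.subset_union_left]
    · rw [Finset.sum_image (fun x _ y _ h => FreeMonoid.toList.injective h)]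
      refine Finset.sum_congr rfl fun I _ => ?_
      simp [FreeMonoid.lift_apply]
    · intro I _ hI
      have : P.coeff (FreeMonoid.ofList I) = 0 := by
        by_contra hne
        exact hI (Finset.mem_image.2 ⟨FreeMonoid.ofList I, Finsupp.mem_support_iff.2 hne, rfl⟩)
      rw [this, zero_smul]
  have h2 : evalP ab P - ∑ I ∈ lists K,
      P.coeff (FreeMonoid.ofList I) • (I.map fun β => (ab β : R) - 1).prod ∈ F (K + 1) := by
    rw [e, ← Finset.sum_sdiff (Finset.subset_union_right (s₂ := lists K)), add_sub_cancel_right]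
    refine sum_mem fun I hI => zsmul_mem ?_ _
    have : K + 1 ≤ I.length := by
      have := (Finset.mem_sdiff.1 hI).2
      rw [mem_lists] at this
      omega
    exact h.antitone this (h.mono_mem I)
  simpa using add_mem h1 h2

/-- Integer coefficients of the truncated Magnus expansion. -/
noncomputable def mag (K : ℕ) (w : FreeGroup Bool) : List Bool → ℤ := (magnus K w).choose

/-- Iterated differences of a two-sided action. -/
def iterD {E : Type} [Ring E] (a a' : Bool → E) : List Bool → E → E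
  | [], x => x
  | β :: I, x => a β * iterD a a' I x * a' β - iterD a a' I x

lemma iterD_map {E E' : Type} [Ring E] [Ring E'] (φ : E →+* E') (a a' : Bool → E)
    (I : List Bool) (x : E) :
    φ (iterD a a' I x) = iterD (fun β => φ (a β)) (fun β => φ (a' β)) I (φ x) := by
  induction I with
  | nil => rfl
  | cons β I ih => simp [iterD, ih]

/-- conjugation as a homomorphism to additive endomorphisms -/
def conjHom (E : Type) [Ring E] : Eˣ →* AddMonoid.End E where
  toFun u := (AddMonoidHom.mulLeft (u : E)).comp (AddMonoidHom.mulRight ((u⁻¹ : Eˣ) : E))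
  map_one' := by
    ext x
    change ((1 : Eˣ) : E) * (x * (((1 : Eˣ)⁻¹ : Eˣ) : E)) = x
    simp
  map_mul' u v := by
    ext x
    change ((u * v : Eˣ) : E) * (x * (((u * v : Eˣ)⁻¹ : Eˣ) : E)) =
      (u : E) * (((v : E) * (x * ((v⁻¹ : Eˣ) : E))) * ((u⁻¹ : Eˣ) : E))
    simp [mul_assoc]

lemma conjHom_apply {E : Type} [Ring E] (u : Eˣ) (x : E) :
    conjHom E u x = u * x * ((u⁻¹ : Eˣ) : E) := by
  rw [mul_assoc]; rfl

lemma magnus_conj (K : ℕ) (w : FreeGroup Bool) {E : Type} [Ring E] (G : ℕ → AddSubgroup E)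
    (hG : ∀ a, G (a + 1) ≤ G a) (ab : Bool → Eˣ)
    (h1 : ∀ β m, ∀ x ∈ G m, ab β * x * (((ab β)⁻¹ : Eˣ) : E) - x ∈ G (m + 1))
    (h2 : ∀ β m, ∀ x ∈ G m, (((ab β)⁻¹ : Eˣ) : E) * x * ab β ∈ G m) {x : E} (hx : x ∈ G 0) :
    (FreeGroup.lift ab w : Eˣ) * x * (((FreeGroup.lift ab w)⁻¹ : Eˣ) : E) -
      ∑ I ∈ lists K, mag K w I •
        iterD (fun β => (ab β : E)) (fun β => (((ab β)⁻¹ : Eˣ) : E)) I x ∈ G (K + 1) := by
  let F : ℕ → AddSubgroup (AddMonoid.End E) := fun m =>
    { carrier := {T | ∀ r, ∀ x ∈ G r, T x ∈ G (r + m)}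
      add_mem' := fun hS hT r x hx => add_mem (hS r x hx) (hT r x hx)
      zero_mem' := fun r x _ => zero_mem _
      neg_mem' := fun hS r x hx => neg_mem (hS r x hx) }
  have hF : Filt (AddMonoid.End E) F (fun β => (conjHom E).toHomUnits (ab β)) := by
    refine ⟨fun r x hx => hx, ?_, fun a T hT r x hx => hG _ (hT r x hx), ?_, ?_⟩
    · intro a b S T hS hT r x hx
      have := hS _ _ (hT r x hx)
      rw [add_assoc, add_comm b a] at this
      exact this
    · intro β r x hx
      have := h1 β r x hx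
      rw [← conjHom_apply] at this
      exact this
    · intro β r x hx
      have := h2 β r x hx
      rw [← map_inv]
      change conjHom E (ab β)⁻¹ x ∈ _
      rw [conjHom_apply, inv_inv]
      exact this
  have key := (magnus K w).choose_spec (AddMonoid.End E) F _ hF 0 x hx
  have e1 : FreeGroup.lift (fun β => (conjHom E).toHomUnits (ab β)) w =
      (conjHom E).toHomUnits (FreeGroup.lift ab w) := by
    have : FreeGroup.lift (fun β => (conjHom E).toHomUnits (ab β)) =
        (conjHom E).toHomUnits.comp (FreeGroup.lift ab) := by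
      ext β; simp
    rw [this]; rfl
  have e2 : ∀ I : List Bool,
      (I.map fun β => (((conjHom E).toHomUnits (ab β) : (AddMonoid.End E)ˣ) :
        AddMonoid.End E) - 1).prod x =
      iterD (fun β => (ab β : E)) (fun β => (((ab β)⁻¹ : Eˣ) : E)) I x := by
    intro I
    induction I with
    | nil => rfl
    | cons β I ih =>
      rw [List.map_cons, List.prod_cons, AddMonoid.End.coe_mul, Function.comp_apply, ih, iterD,
        ← conjHom_apply]
      rfl
  rw [e1, zero_add] at key
  have e3 : ∀ (S : AddMonoid.End E) (T : List Bool → AddMonoid.End E) (c : List Bool → ℤ),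
      (S - ∑ I ∈ lists K, c I • T I) x = S x - ∑ I ∈ lists K, c I • T I x := by
    intro S T c
    have := map_sub (AddMonoidHom.eval x) S (∑ I ∈ lists K, c I • T I)
    rw [map_sum] at this
    simp only [map_zsmul] at this
    exact this
  rw [e3] at key
  simp only [e2] at key
  rw [← conjHom_apply]
  exact key

/-- The action of the two root elements on coordinates with respect to `e, h, f`. -/
def actM {A : Type} [CommRing A] (t : A) : Bool → (Fin 3 → A) → (Fin 3 → A)
  | true, p => ![p 0 - 2 * t * p 1 - t ^ 2 * p 2, p 1 + t * p 2, p 2]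
  | false, p => ![p 0, p 1 - t * p 0, p 2 + 2 * t * p 1 - t ^ 2 * p 0]

def iterM {A : Type} [CommRing A] (t : A) : List Bool → (Fin 3 → A) → (Fin 3 → A)
  | [], p => p
  | β :: I, p => actM t β (iterM t I p) - iterM t I p

lemma iterM_map {A A' : Type} [CommRing A] [CommRing A'] (φ : A →+* A') (t : A)
    (I : List Bool) (p : Fin 3 → A) :
    (fun i => φ (iterM t I p i)) = iterM (φ t) I (fun i => φ (p i)) := by
  induction I with
  | nil => rfl
  | cons β I ih =>
    rw [iterM, iterM, ← ih]
    funext i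
    cases β <;> fin_cases i <;> simp [actM, map_ofNat]

/-- the six relations -/
structure Sl2Act {A E : Type} [CommRing A] [Ring E] [Algebra A E] (t : A) (a a' : Bool → E)
    (e h f : E) : Prop where
  ue : a true * e * a' true = e
  uh : a true * h * a' true = h - (2 * t) • e
  uf : a true * f * a' true = f + t • h - (t ^ 2) • e
  le : a false * e * a' false = e - t • h - (t ^ 2) • f
  lh : a false * h * a' false = h + (2 * t) • f
  lf : a false * f * a' false = f

lemma iterD_theta {A E : Type} [CommRing A] [Ring E] [Algebra A E] {t : A} {a a' : Bool → E}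
    {e h f : E} (H : Sl2Act t a a' e h f) (I : List Bool) (p : Fin 3 → A) :
    iterD a a' I (p 0 • e + p 1 • h + p 2 • f) =
      iterM t I p 0 • e + iterM t I p 1 • h + iterM t I p 2 • f := by
  induction I with
  | nil => rfl
  | cons β I ih =>
    rw [iterD, iterM, ih]
    cases β
    · simp only [mul_add, add_mul, mul_smul_comm, smul_mul_assoc, H.le, H.lh, H.lf, actM,
        Pi.sub_apply, Matrix.cons_val_zero, Matrix.cons_val_one, Matrix.cons_val]
      module
    · simp only [mul_add, add_mul, mul_smul_comm, smul_mul_assoc, H.ue, H.uh, H.uf, actM,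
        Pi.sub_apply, Matrix.cons_val_zero, Matrix.cons_val_one, Matrix.cons_val]
      module

/-- The universal integer polynomials. -/
noncomputable def mz (I : List Bool) (β γ : Fin 3) : ℤ[X] :=
  iterM (X : ℤ[X]) I (Pi.single β 1) γ

end Pool.Agent.Lib.MP_c0708e_al.Tits
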