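import Pool.Agent.Lib.MP_c0708e_al.TChev

/-! The main reduction over profinite rings. -/

set_option linter.style.haveILetI false

namespace Pool.Agent.Lib.MP_c0708e_al.Tits

open Filter Topology

section
variable {R : Type} [CommRing R] [TopologicalSpace R] [IsTopologicalRing R] [CompactSpace R]

lemma eq_zero_of_open [T2Space R] [TotallyDisconnectedSpace R] (x : R)
    (h : ∀ J : Ideal R, IsOpen (J : Set R) → x ∈ J) : x = 0 := by
  by_contra hx
  obtain ⟨W, ⟨hW0, hW⟩, hWx⟩ := (nhds_basis_clopen (0 : R)).mem_iff.1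
    (isOpen_compl_singleton.mem_nhds (show (0 : R) ∈ ({x}ᶜ : Set R) from Ne.symm hx))
  obtain ⟨U, hU⟩ := IsTopologicalAddGroup.exist_openAddSubgroup_sub_clopen_nhds_of_zero hW hW0
  let J : Ideal R :=
    { carrier := {y | ∀ r, r * y ∈ U}
      add_mem' := fun ha hb r => by rw [mul_add]; exact add_mem (ha r) (hb r)
      zero_mem' := fun r => by rw [mul_zero]; exact zero_mem _
      smul_mem' := fun c y hy r => by rw [smul_eq_mul, ← mul_assoc]; exact hy _ }
  obtain ⟨u, v, -, hv, hu, hv0, huv⟩ := generalized_tube_lemma (isCompact_univ (X := R))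
    (isCompact_singleton (x := (0 : R))) (U.isOpen.preimage continuous_mul) (by
      rintro ⟨a, b⟩ ⟨-, rfl : b = 0⟩
      simp)
  have hJ : IsOpen (J : Set R) := J.toAddSubgroup.isOpen_of_mem_nhds (g := 0)
    (mem_of_superset (hv.mem_nhds (hv0 rfl)) fun y hy r => huv (Set.mk_mem_prod (hu trivial) hy))
  exact hWx (hU (by simpa using h J hJ 1)) rfl

lemma finite_quot {J : Ideal R} (hJ : IsOpen (J : Set R)) : Finite (R ⧸ J) :=
  AddSubgroup.quotient_finite_of_isOpen J.toAddSubgroup hJ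

variable {n : Type} [Fintype n] [DecidableEq n] {G : ProfiniteGrp.{0}} {ρ : G →* Matrix n n R}
  {p : ℕ}

omit [CompactSpace R] in
lemma exists_U (hρ : Continuous ρ) {J : Ideal R} (hJ : IsOpen (J : Set R)) :
    ∃ U : OpenNormalSubgroup G, ∀ g, g ∈ U.toSubgroup ↔ ρ g - 1 ∈ J.matrix n := by
  have e : ∀ g, g ∈ ((Ideal.Quotient.mk J).mapMatrix.toMonoidHom.comp ρ).ker ↔
      ρ g - 1 ∈ J.matrix n := fun g => mk_eq_one_iff J _
  refine ⟨⟨⟨_, ?_⟩, MonoidHom.normal_ker _⟩, e⟩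
  have : ((((Ideal.Quotient.mk J).mapMatrix.toMonoidHom.comp ρ).ker : Subgroup G) : Set G) =
      ⋂ i, ⋂ j, (fun g => (ρ g - 1) i j) ⁻¹' J := by
    ext g
    simp only [SetLike.mem_coe, e, Set.mem_iInter, Set.mem_preimage]
    rfl
  change IsOpen ((((Ideal.Quotient.mk J).mapMatrix.toMonoidHom.comp ρ).ker : Subgroup G) : Set G)
  rw [this]
  exact isOpen_iInter_of_finite fun i => isOpen_iInter_of_finite fun j =>
    hJ.preimage ((hρ.sub continuous_const).matrix_elem i j)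

omit [CompactSpace R] in
lemma pow_eq_one_mod (hG : IsProP p G) (hρ : Continuous ρ) {J : Ideal R} (hJ : IsOpen (J : Set R))
    (g : G) : ∃ a : ℕ, (Ideal.Quotient.mk J).mapMatrix (ρ g) ^ p ^ a = 1 := by
  obtain ⟨U, hU⟩ := exists_U hρ hJ
  obtain ⟨a, ha⟩ := hG.pow_mem U g
  exact ⟨a, by rw [← map_pow, ← map_pow, mk_eq_one_iff, ← hU]; exact ha⟩

omit [CompactSpace R] in
lemma deriv_mem [Fact p.Prime] (hG : IsProP p G) (hρ : Continuous ρ) {𝔪 : Ideal R}
    (h𝔪 : 𝔪.IsMaximal) (ho : IsOpen (𝔪 : Set R)) (hp : (p : R) ∉ 𝔪) {g : G}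
    (hg : g ∈ derivedSeries G (Fintype.card n)) : ρ g - 1 ∈ 𝔪.matrix n := by
  obtain ⟨U, hU⟩ := exists_U hρ ho
  letI := Ideal.Quotient.field 𝔪
  haveI := Subgroup.quotient_finite_of_isOpen U.toSubgroup U.isOpen'
  rw [← mk_eq_one_iff]
  exact pprime_mat (k := R ⧸ 𝔪) (fun h => hp (Ideal.Quotient.eq_zero_iff_mem.1 (by simpa using h)))
    (hG U) (QuotientGroup.lift U.toSubgroup ((Ideal.Quotient.mk 𝔪).mapMatrix.toMonoidHom.comp ρ)
      fun g hg => (mk_eq_one_iff 𝔪 _).2 ((hU g).1 hg)) g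
    (map_derivedSeries_le_derivedSeries (QuotientGroup.mk' U.toSubgroup) _ ⟨g, hg, rfl⟩)

lemma map_prod_sub {A B H : Type} [Ring A] [Ring B] (φ : A →+* B) (σ : H → A) (l : List H) :
    φ (l.map fun g => σ g - 1).prod = (l.map fun g => φ (σ g) - 1).prod := by
  rw [map_list_prod, List.map_map]
  congr 2
  funext g
  simp

omit [CompactSpace R] in
lemma prod_mem [Fact p.Prime] (hG : IsProP p G) (hρ : Continuous ρ) {𝔪 : Ideal R}
    (h𝔪 : 𝔪.IsMaximal) (ho : IsOpen (𝔪 : Set R)) (hp : (p : R) ∈ 𝔪) (l : List G)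
    (hl : Fintype.card n ≤ l.length) : (l.map fun g => ρ g - 1).prod ∈ 𝔪.matrix n := by
  letI := Ideal.Quotient.field 𝔪
  have := unip_mat (k := R ⧸ 𝔪) (by simpa using Ideal.Quotient.eq_zero_iff_mem.2 hp)
    ((Ideal.Quotient.mk 𝔪).mapMatrix.toMonoidHom.comp ρ) (pow_eq_one_mod hG hρ ho) l hl
  have h2 := (map_prod_sub (Ideal.Quotient.mk 𝔪).mapMatrix ρ l).trans this
  exact fun i j => Ideal.Quotient.eq_zero_iff_mem.1 (congrFun (congrFun h2 i) j)

lemma split_open [Fact p.Prime] (hG : IsProP p G) (hρ : Continuous ρ) {J : Ideal R}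
    (ho : IsOpen (J : Set R)) {g : G} (hg : g ∈ derivedSeries G (Fintype.card n))
    (h : ∀ N : ℕ, ρ g - 1 ∈ (J ⊔ Ideal.span {(p : R) ^ N}).matrix n) : ρ g - 1 ∈ J.matrix n := by
  haveI := finite_quot ho
  obtain ⟨a, ha⟩ := pow_eq_one_mod hG hρ ho g
  have e : ∀ i j, ((Ideal.Quotient.mk J).mapMatrix (ρ g) - 1) i j =
      Ideal.Quotient.mk J ((ρ g - 1) i j) := fun i j => by
    rw [← map_one (Ideal.Quotient.mk J).mapMatrix, ← map_sub]; rfl
  rw [← mk_eq_one_iff]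
  refine split_finite ha (fun N i j => ?_) (fun 𝔪 h𝔪 hp i j => ?_)
  · have := Ideal.mem_map_of_mem (Ideal.Quotient.mk J) (h N i j)
    rw [Ideal.map_sup, Ideal.map_quotient_self, bot_sup_eq, Ideal.map_span] at this
    rw [e]
    simpa using this
  · rw [e]
    exact deriv_mem hG hρ (Ideal.comap_isMaximal_of_surjective _ Ideal.Quotient.mk_surjective)
      (Submodule.isOpen_mono (fun x hx => by
        rw [Ideal.mem_comap, Ideal.Quotient.eq_zero_iff_mem.2 hx]; exact zero_mem _) ho)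
      (by simpa using hp) hg i j

theorem main_noeth [Fact p.Prime] (hp : p ≠ 2) [T2Space R] [IsNoetherianRing R] (hG : IsProP p G)
    (hρ : Continuous ρ) (hNS : NS ρ) (k : ℕ) : ∀ᶠ w in lawF G, Good p k w := by
  obtain ⟨P, hP, hNS⟩ := exists_prime_NS hNS
  obtain ⟨𝔪, h𝔪, hle⟩ := P.exists_le_maximal hP.ne_top
  by_cases h : (p : R) ∈ 𝔪
  · refine final_noeth hp hG 𝔪 P (by rw [sup_eq_left.2 hle]; exact h𝔪.ne_top) h
      (MonoidHom.id G) ρ hNS (fun m => ?_) k
    obtain ⟨U, hU⟩ := exists_U hρ (𝔪.isOpen_pow_of_isMaximal m)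
    exact ⟨U, fun γ => (hU γ).1⟩
  obtain ⟨g, hg, hg1⟩ := hNS (Fintype.card n)
  refine (hg1 ((mk_eq_one_iff P _).2 fun i j => Ideal.Quotient.eq_zero_iff_mem.1 ?_)).elim
  rw [← Ideal.mem_bot,
    ← (𝔪.map (Ideal.Quotient.mk P)).iInf_pow_eq_bot_of_isDomain (fun h => h𝔪.ne_top (by
      have := congrArg (Ideal.comap (Ideal.Quotient.mk P)) h
      rwa [Ideal.comap_map_of_surjective' _ Ideal.Quotient.mk_surjective, Ideal.mk_ker,
        Ideal.comap_top, sup_eq_left.2 hle] at this)), Ideal.mem_iInf]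
  intro m
  rw [← Ideal.map_pow]
  refine Ideal.mem_map_of_mem _ (split_open hG hρ (𝔪.isOpen_pow_of_isMaximal m) hg
    (fun N i j => ?_) i j)
  rw [← Ideal.span_singleton_pow, Ideal.pow_sup_pow_eq_top (h𝔪.1.2 _ (left_lt_sup.2 fun h' =>
    h (h' (Ideal.mem_span_singleton_self _))))]
  trivial

theorem main_fg [Fact p.Prime] (hp : p ≠ 2) [T2Space R] [TotallyDisconnectedSpace R]
    (hG : IsProP p G) (hρ : Continuous ρ) {α : Type} [Finite α] (π : FreeGroup α →* G)
    (hNS : NS (ρ.comp π)) (k : ℕ) : ∀ᶠ w in lawF G, Good p k w := by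
  let S := Algebra.adjoin ℤ (Set.range fun q : (α × Bool) × n × n =>
    ρ (π (cond q.1.2 (FreeGroup.of q.1.1) (FreeGroup.of q.1.1)⁻¹)) q.2.1 q.2.2)
  haveI : IsNoetherianRing S := isNoetherianRing_of_fg
    (Subalgebra.fg_def.2 ⟨_, Set.finite_range _, rfl⟩)
  have hS : ∀ γ i j, ρ (π γ) i j ∈ S := by
    intro γ
    induction γ using FreeGroup.induction_on with
    | C1 =>
      intro i j
      rw [map_one, map_one, Matrix.one_apply]
      split_ifs
      exacts [one_mem _, zero_mem _]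
    | of a => exact fun i j => Algebra.subset_adjoin ⟨((a, true), i, j), rfl⟩
    | inv_of a _ => exact fun i j => Algebra.subset_adjoin ⟨((a, false), i, j), rfl⟩
    | mul g h hg hh =>
      intro i j
      rw [map_mul, map_mul, Matrix.mul_apply]
      exact sum_mem fun k _ => mul_mem (hg _ _) (hh _ _)
  let val : S →+* R := S.val.toRingHom
  have hinj : Function.Injective (val.mapMatrix (m := n)) :=
    Matrix.map_injective Subtype.val_injective
  let ρ₁ : FreeGroup α → Matrix n n S := fun γ => Matrix.of fun i j => ⟨ρ (π γ) i j, hS γ i j⟩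
  have e₁ : ∀ γ, val.mapMatrix (ρ₁ γ) = ρ (π γ) := fun γ => rfl
  let ρ₀ : FreeGroup α →* Matrix n n S :=
    { toFun := ρ₁
      map_one' := hinj (by rw [e₁, map_one, map_one, map_one])
      map_mul' := fun a b => hinj (by rw [map_mul val.mapMatrix, e₁, e₁, e₁, map_mul, map_mul]) }
  have e₀ : ∀ γ, val.mapMatrix (ρ₀ γ) = ρ (π γ) := fun γ => rfl
  have hmem : ∀ (J : Ideal R) (x : Matrix n n S), x ∈ (J.comap val).matrix n ↔
      val.mapMatrix x ∈ J.matrix n := fun J x => Iff.rfl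
  have hmem1 : ∀ (J : Ideal R) γ, ρ₀ γ - 1 ∈ (J.comap val).matrix n ↔
      ρ (π γ) - 1 ∈ J.matrix n := fun J γ => by rw [hmem, map_sub, map_one, e₀]
  let 𝔶 : Ideal S := ⨅ 𝔪 : {𝔪 : Ideal R // 𝔪.IsMaximal ∧ IsOpen (𝔪 : Set R) ∧ (p : R) ∈ 𝔪},
    𝔪.1.comap val
  have hp𝔶 : (p : S) ∈ 𝔶 := Ideal.mem_iInf.2 fun 𝔪 => by simpa using 𝔪.2.2.2
  let 𝒜 := {J : Ideal R // IsOpen (J : Set R) ∧ ∃ N : ℕ, (p : R) ^ N ∈ J}
  haveI : Nonempty 𝒜 := ⟨⟨⊤, isOpen_univ, 0, trivial⟩⟩
  letI : SemilatticeInf 𝒜 := Subtype.semilatticeInf (by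
    rintro I J ⟨hI, N, hN⟩ ⟨hJ, M, hM⟩
    refine ⟨hI.inter hJ, N + M, ?_⟩
    rw [pow_add]
    exact ⟨Ideal.mul_mem_right _ _ hN, Ideal.mul_mem_left _ _ hM⟩)
  obtain ⟨R', _, _, ι, 𝔜, h1, h2, h3, h4⟩ := chevalley 𝔶 (fun J : 𝒜 => J.1.comap val) (by
      rintro ⟨J, hJ, N, hN⟩
      haveI := finite_quot hJ
      obtain ⟨l, hl⟩ := IsArtinianRing.isNilpotent_jacobson_bot (R := R ⧸ J)
      have : 𝔶.map ((Ideal.Quotient.mk J).comp val) ≤ (⊥ : Ideal (R ⧸ J)).jacobson := by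
        rw [Ideal.map_le_iff_le_comap]
        refine fun x hx => Ideal.mem_sInf.2 fun {𝔪} h𝔪 => ?_
        haveI := h𝔪.2
        have hle : J ≤ 𝔪.comap (Ideal.Quotient.mk J) := fun x hx => by
          rw [Ideal.mem_comap, Ideal.Quotient.eq_zero_iff_mem.2 hx]; exact zero_mem _
        have hm := Ideal.comap_isMaximal_of_surjective _ Ideal.Quotient.mk_surjective (K := 𝔪)
        exact Ideal.mem_iInf.1 hx ⟨_, hm, Submodule.isOpen_mono hle hJ,
          hm.isPrime.mem_of_pow_mem _ (hle hN)⟩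
      refine ⟨l, fun x hx => ?_⟩
      have h5 := Ideal.mem_map_of_mem ((Ideal.Quotient.mk J).comp val) hx
      rw [Ideal.map_pow] at h5
      have h6 := Ideal.pow_right_mono this l h5
      rw [hl] at h6
      exact (Ideal.Quotient.eq_zero_iff_mem (I := J)).1 h6) atBot
    (fun J₀ => (eventually_le_atBot J₀).mono fun J hJ => Ideal.comap_mono hJ) ρ₀ (fun m => by
      refine finite_image ((Ideal.Quotient.mk (𝔶 ^ m)).mapMatrix.toMonoidHom.comp ρ₀)
        (m * Fintype.card n) (fun l hl => ?_) (pow_ne_zero m (Fact.out : p.Prime).ne_zero) ?_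
      · refine (map_prod_sub (Ideal.Quotient.mk (𝔶 ^ m)).mapMatrix ρ₀ l).symm.trans
          (Matrix.ext fun i j => Ideal.Quotient.eq_zero_iff_mem.2 ?_)
        revert i j
        change _ ∈ (𝔶 ^ m).matrix n
        induction m generalizing l with
        | zero => intro i j; simp
        | succ m ih =>
          rw [← List.take_append_drop (Fintype.card n) l, List.map_append, List.prod_append,
            pow_succ']
          rw [add_mul, one_mul] at hl
          refine idM_mul (fun i j => Ideal.mem_iInf.2 fun 𝔪 => ?_) (ih _ (by simp; omega))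
          revert i j
          change _ ∈ (𝔪.1.comap val).matrix n
          rw [hmem, map_prod_sub]
          have := prod_mem hG hρ 𝔪.2.1 𝔪.2.2.1 𝔪.2.2.2 ((l.take (Fintype.card n)).map π)
            (by simp; omega)
          rwa [List.map_map] at this
      · rw [← map_natCast (Ideal.Quotient.mk (𝔶 ^ m)).mapMatrix]
        refine Matrix.ext fun i j => Ideal.Quotient.eq_zero_iff_mem.2 ?_
        rw [Matrix.natCast_apply, apply_ite Nat.cast]
        split_ifs
        · rw [Nat.cast_pow]; exact Ideal.pow_mem_pow hp𝔶 m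
        · simp)
  obtain ⟨P, hP, hNS'⟩ := exists_prime_NS (ρ := ι.mapMatrix.toMonoidHom.comp ρ₀) (fun j => by
    obtain ⟨γ, hγ, hγ1⟩ := hNS (max j (Fintype.card n))
    refine ⟨γ, derivedSeries_antitone _ (le_max_left _ _) hγ, fun h => hγ1 ?_⟩
    have h5 := (map_eq_one_iff' ι _).1 h
    refine sub_eq_zero.1 (Matrix.ext fun a b => eq_zero_of_open _ fun J hJ => ?_)
    refine split_open hG hρ hJ (map_derivedSeries_le_derivedSeries π _
      ⟨γ, derivedSeries_antitone _ (le_max_right _ _) hγ, rfl⟩) (fun N => ?_) a b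
    exact (hmem1 _ _).1 fun i j => h3 _ (h5 i j) ⟨_, Submodule.isOpen_mono le_sup_left hJ, N,
      Ideal.mem_sup_right (Ideal.mem_span_singleton_self _)⟩)
  refine final_noeth hp hG 𝔜 P (h2 P hP.ne_top)
    (by simpa using h1 (Ideal.mem_map_of_mem ι hp𝔶)) π _ hNS' (fun m => ?_) k
  obtain ⟨J, hJ⟩ := h4 m
  obtain ⟨U, hU⟩ := exists_U hρ J.2.1
  exact ⟨U, fun γ hγ => hJ γ ((hmem1 _ _).2 ((hU _).1 hγ))⟩

end

end Pool.Agent.Lib.MP_c0708e_al.Tits
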