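import Pool.Agent.Lib.MP_c0708e_al.TJet

/-! Root elements of top weight in a group of jets. -/

namespace Pool.Agent.Lib.MP_c0708e_al.Tits

open Polynomial in
lemma pow_slope {Ω : Type} [Field Ω] [Infinite Ω] {q r : ℕ} (h1 : q < r) (h2 : r < q + q)
    (h : ∀ c : Ω, (1 + c ^ r) ^ q = (1 + c ^ q) ^ r) : False := by
  obtain ⟨l, hl⟩ := ExpChar.exists Ω
  have hp : ((1 + X ^ r) ^ q : Polynomial Ω) = (1 + X ^ q) ^ r := by
    apply Polynomial.funext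
    intro c
    simpa using h c
  have key : ∀ a : ℕ, a ≠ 0 → ∃ e a' : ℕ, a = l ^ e * a' ∧ (a' : Ω) ≠ 0 := by
    intro a ha
    cases hl with
    | zero => exact ⟨0, a, by simp, by exact_mod_cast ha⟩
    | prime hp =>
      obtain ⟨e, a', h1, h2⟩ := Nat.exists_eq_pow_mul_and_not_dvd ha l hp.ne_one
      exact ⟨e, a', h2, fun h => h1 ((CharP.cast_eq_zero_iff Ω l a').1 h)⟩
  have form : ∀ m e a : ℕ, ∃ P : Polynomial Ω, ((1 + X ^ m) ^ (l ^ e * a) : Polynomial Ω) =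
      1 + X ^ (m * l ^ e) * (C (a : Ω) + P * X ^ (m * l ^ e)) := by
    intro m e a
    rw [pow_mul, add_pow_expChar_pow, one_pow, ← pow_mul]
    rcases Nat.eq_zero_or_pos a with rfl | ha
    · exact ⟨0, by simp⟩
    obtain ⟨P, hP⟩ := Polynomial.powAddExpansion (1 : Polynomial Ω) (X ^ (m * l ^ e)) a
    refine ⟨P, ?_⟩
    rw [hP]; simp; ring
  obtain ⟨e, q', hq, hq'⟩ := key q (by omega)
  obtain ⟨e', r', hr, hr'⟩ := key r (by omega)
  obtain ⟨P, hP⟩ := form r e q'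
  obtain ⟨Q, hQ⟩ := form q e' r'
  rw [← hq] at hP
  rw [← hr] at hQ
  rw [hP, hQ, add_right_inj] at hp
  have hl0 : 0 < l := expChar_pos Ω l
  have low : ∀ (m m' : ℕ) (a b : Ω) (P Q : Polynomial Ω), 0 < m → a ≠ 0 →
      X ^ m * (C a + P * X ^ m) = X ^ m' * (C b + Q * X ^ m') → m' ≤ m := by
    intro m m' a b P Q hm ha h
    by_contra hlt
    have := congrArg (fun P => coeff P m) h
    simp only [coeff_X_pow_mul', le_refl, if_true, Nat.sub_self, if_neg hlt, coeff_add,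
      coeff_C_zero, coeff_mul_X_pow', if_neg (by omega : ¬ m ≤ 0), add_zero] at this
    exact ha this
  have e1 := low _ _ _ _ _ _ (Nat.mul_pos (by omega) (by positivity)) hr' hp.symm
  have e2 := low _ _ _ _ _ _ (Nat.mul_pos (by omega) (by positivity)) hq' hp
  have e3 : r * l ^ e = q * l ^ e' := le_antisymm e1 e2
  have hle : l ^ e < l ^ e' := by
    by_contra h
    have : q * l ^ e' ≤ q * l ^ e := Nat.mul_le_mul_left _ (by omega)
    have h3 : q * l ^ e < r * l ^ e := Nat.mul_lt_mul_of_pos_right h1 (by positivity)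
    omega
  have hl1 : 2 ≤ l := by
    by_contra h
    have : l = 1 := by omega
    subst this
    simp at hle
  have hee : e + 1 ≤ e' := (Nat.pow_lt_pow_iff_right (by omega)).1 hle
  have : 2 * l ^ e ≤ l ^ e' := by
    calc 2 * l ^ e ≤ l ^ (e + 1) := by rw [pow_succ, mul_comm]; exact Nat.mul_le_mul_left _ hl1
      _ ≤ l ^ e' := Nat.pow_le_pow_right hl0 hee
  have h3 : r * l ^ e < (q + q) * l ^ e := Nat.mul_lt_mul_of_pos_right h2 (by positivity)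
  have h4 : q * (2 * l ^ e) ≤ q * l ^ e' := Nat.mul_le_mul_left _ this
  nlinarith

open PowerSeries

section
variable {Ω : Type} [Field Ω] {n : Type} [Fintype n] [DecidableEq n] {H : Type} [Group H]
  {Λ : Type} [Fintype Λ]

/-- the part of slope `a₀ / r₀` -/
noncomputable def slp (S : WS Λ n Ω) (a₀ r₀ : ℕ) (γ : Matrix n n Ω⟦X⟧) : Matrix n n Ω⟦X⟧ :=
  mkM (fun r => ∑ a ∈ S.wts, if a * r₀ = (r : ℤ) * a₀ then S.P a (co r γ) else 0)

lemma P_slp (S : WS Λ n Ω) (a₀ r₀ : ℕ) (γ : Matrix n n Ω⟦X⟧) (r : ℕ) (b : ℤ) :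
    S.P b (co r (slp S a₀ r₀ γ)) = if b * r₀ = (r : ℤ) * a₀ then S.P b (co r γ) else 0 := by
  rw [slp, co_mkM, map_sum, Finset.sum_eq_single b]
  · split_ifs
    · exact S.P_of_mem (S.P_mem _ _)
    · exact map_zero _
  · intro a _ ha
    split_ifs
    · exact S.P_of_ne (S.P_mem _ _) ha.symm
    · exact map_zero _
  · intro hb
    exact S.P_eq_zero hb _

lemma slp_hom (S : WS Λ n Ω) (a₀ r₀ : ℕ) (γ : Matrix n n Ω⟦X⟧) (r : ℕ) :
    co r (slp S a₀ r₀ γ) ∈ (S.scale r₀).Wt ((r : ℤ) * a₀) := by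
  rw [slp, co_mkM]
  refine Submodule.sum_mem _ fun a _ => ?_
  split_ifs with h
  · rw [← h]; exact S.mem_scale _ (S.P_mem _ _)
  · exact zero_mem _

variable {ρ : H →* Matrix n n Ω} {S : WS Λ n Ω} {J : Set (Matrix n n Ω⟦X⟧)}

/-- `δ` bounds the weights of all leading terms -/
def Bd (S : WS Λ n Ω) (J : Set (Matrix n n Ω⟦X⟧)) (δ : ℕ) : Prop :=
  ∀ r ≠ 0, ∀ x ∈ Ld J r, ∀ a : ℤ, δ < a → S.P a x = 0

lemma Jet.bound (hJ : Jet ρ S J) {δ q : ℕ} (hδ : δ ≠ 0) (hb : Bd S J δ)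
    {γ : Matrix n n Ω⟦X⟧} (hγ : γ ∈ J) (hl : γ - 1 ∈ dvdM n (X : Ω⟦X⟧) q) (r : ℕ) (a : ℤ)
    (h : S.P a (co r γ) ≠ 0) : a * q ≤ (r : ℤ) * δ := by
  classical
  have h0 : ∀ a, S.P a (co 0 γ) ≠ 0 → a = 0 := by
    intro a ha
    by_contra h
    rw [hJ.co0 γ hγ] at ha
    exact ha (S.P_of_ne S.one_mem_Wt h)
  have hw : ∀ r a, S.P a (co r γ) ≠ 0 → a ∈ S.wts := fun r a ha => by
    by_contra h; exact ha (S.P_eq_zero h _)
  obtain ⟨N, hN⟩ := (S.wts.image fun a : ℤ => (a * q).toNat).bddAbove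
  let B := (Finset.range N ×ˢ S.wts).filter fun p => S.P p.2 (co p.1 γ) ≠ 0 ∧
    (p.1 : ℤ) * δ < p.2 * q
  have hB : ∀ r a, (r, a) ∈ B ↔ S.P a (co r γ) ≠ 0 ∧ (r : ℤ) * δ < a * q := by
    intro r a
    simp only [B, Finset.mem_filter, Finset.mem_product, Finset.mem_range]
    refine ⟨fun h => h.2, fun h => ⟨⟨?_, hw r a h.1⟩, h⟩⟩
    have h1 : (a * q).toNat ≤ N := hN (Finset.mem_coe.2 (Finset.mem_image_of_mem _ (hw r a h.1)))
    have h2 : (r : ℤ) * 1 ≤ r * δ := mul_le_mul_of_nonneg_left (by omega) (by omega)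
    omega
  by_contra hlt
  obtain ⟨⟨r₀, a₀⟩, h1, h2⟩ := B.exists_max_image (fun p => (p.2 : ℚ) / p.1)
    ⟨(r, a), (hB r a).2 ⟨h, by omega⟩⟩
  obtain ⟨h3, h4⟩ := (hB _ _).1 h1
  have hr₀ : r₀ ≠ 0 := by
    rintro rfl
    rw [h0 _ h3] at h4
    simp at h4
  have ha₀ : 0 < a₀ := by
    have : 0 < a₀ * q := lt_of_le_of_lt (by positivity) h4
    exact pos_of_mul_pos_left this (by omega)
  lift a₀ to ℕ using ha₀.le
  have hq : 0 < (q : ℤ) := by
    have : 0 < (a₀ : ℤ) * q := lt_of_le_of_lt (by positivity) h4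
    exact pos_of_mul_pos_right this (by omega)
  have hs : slp S a₀ r₀ γ ∈ J := hJ.slope hγ a₀ r₀ (by
    intro r a h
    rcases Nat.eq_zero_or_pos r with rfl | hr
    · rw [h0 a h]; simp
    by_cases hbad : (r : ℤ) * δ < a * q
    · have := h2 _ ((hB r a).2 ⟨h, hbad⟩)
      rw [div_le_div_iff₀ (by exact_mod_cast hr) (by positivity), mul_comm _ (r : ℚ)] at this
      exact_mod_cast this
    · push Not at hbad
      refine le_of_mul_le_mul_right ?_ hq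
      have h5 : (0 : ℤ) ≤ r₀ := by omega
      have h6 : (0 : ℤ) ≤ r := by omega
      nlinarith [mul_le_mul_of_nonneg_right hbad h5, mul_le_mul_of_nonneg_left h4.le h6])
  obtain ⟨r₁, hr₁, h5, h6⟩ := exists_lead (hJ.co0 _ hs) (by
    intro h
    have := P_slp S a₀ r₀ γ r₀ a₀
    rw [h, co_one, if_neg hr₀, if_pos (mul_comm _ _), map_zero] at this
    exact h3 this.symm)
  obtain ⟨a₁, ha₁⟩ : ∃ a₁, S.P a₁ (co r₁ (slp S a₀ r₀ γ)) ≠ 0 := by
    by_contra h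
    push Not at h
    exact h6 (S.eq_zero_of_P h)
  have h7 : a₁ ≤ δ := by
    by_contra h
    exact ha₁ (hb r₁ hr₁ _ ⟨_, hs, h5, rfl⟩ a₁ (by omega))
  rw [P_slp] at ha₁
  have h8 : a₁ * r₀ = r₁ * a₀ := by
    by_contra h; exact ha₁ (if_neg h)
  rw [if_pos h8] at ha₁
  have h9 : q ≤ r₁ := by
    by_contra h
    apply ha₁
    rw [← co_sub_one hr₁, mem_dvdM_X.1 hl r₁ (by omega), map_zero]
  have h10 : (q : ℤ) ≤ r₁ := by exact_mod_cast h9
  have h11 : (0 : ℤ) ≤ r₀ := by omega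
  nlinarith [mul_le_mul_of_nonneg_right h7 h11, mul_le_mul_of_nonneg_left h10 ha₀.le]

/-- homogeneous elements with leading term `x` -/
structure Rt (S : WS Λ n Ω) (J : Set (Matrix n n Ω⟦X⟧)) (δ q : ℕ) (x : Matrix n n Ω)
    (γ : Matrix n n Ω⟦X⟧) : Prop where
  mem : γ ∈ J
  lead : γ - 1 ∈ dvdM n (X : Ω⟦X⟧) q
  eq : co q γ = x
  hom : ∀ r : ℕ, co r γ ∈ (S.scale q).Wt ((r : ℤ) * δ)

lemma Jet.exists_rt (hJ : Jet ρ S J) {δ q : ℕ} (hδ : δ ≠ 0) (hb : Bd S J δ)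
    {x : Matrix n n Ω} (hx : x ∈ Ld J q) (hw : x ∈ S.Wt δ) : ∃ γ, Rt S J δ q x γ := by
  obtain ⟨γ, h1, h2, rfl⟩ := hx
  have hs : slp S δ q γ ∈ J := hJ.slope h1 δ q (hJ.bound hδ hb h1 h2)
  refine ⟨slp S δ q γ, hs, mem_dvdM_X.2 fun r hr => ?_, ?_, slp_hom S δ q γ⟩
  · rcases Nat.eq_zero_or_pos r with rfl | h
    · rw [map_sub, hJ.co0 _ hs, co_one, if_pos rfl, sub_self]
    · rw [co_sub_one h.ne']
      refine S.eq_zero_of_P fun a => ?_
      rw [P_slp, ← co_sub_one h.ne' γ, mem_dvdM_X.1 h2 r hr, map_zero, ite_self]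
  · rw [← sub_eq_zero]
    refine S.eq_zero_of_P fun a => ?_
    rw [map_sub, P_slp]
    split_ifs with h
    · exact sub_self _
    · rw [S.P_of_ne hw, sub_zero]
      rintro rfl
      exact h (mul_comm _ _)

lemma Rt.mul (hJ : Jet ρ S J) {δ q : ℕ} (hq : q ≠ 0) {x y : Matrix n n Ω}
    {γ γ' : Matrix n n Ω⟦X⟧} (h : Rt S J δ q x γ) (h' : Rt S J δ q y γ') :
    Rt S J δ q (x + y) (γ * γ') := by
  refine ⟨hJ.mul _ h.mem _ h'.mem, lead_mul h.lead h'.lead, ?_, fun r => ?_⟩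
  · rw [co_mul_of_lead h.lead h'.lead hq (by omega), h.eq, h'.eq]
  · rw [co_mul]
    refine Submodule.sum_mem _ fun p hp => ?_
    rw [Finset.HasAntidiagonal.mem_antidiagonal] at hp
    have := (S.scale q).Wt_mul (h.hom p.1) (h'.hom p.2)
    rwa [← add_mul, ← Nat.cast_add, hp] at this

lemma Rt.resc (hJ : Jet ρ S J) {δ q : ℕ} {x : Matrix n n Ω}
    {γ : Matrix n n Ω⟦X⟧} (h : Rt S J δ q x γ) (c : Ω) :
    Rt S J δ q (c ^ q • x) (resc c γ) :=
  ⟨hJ.resc c _ h.mem, lead_resc h.lead c, by rw [co_resc, h.eq], fun r => by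
    rw [co_resc]; exact Submodule.smul_mem _ _ (h.hom r)⟩

lemma Rt.eq_one (hJ : Jet ρ S J) {δ q : ℕ} (hδ : δ ≠ 0) (hq : q ≠ 0) (hb : Bd S J δ)
    {γ : Matrix n n Ω⟦X⟧} (h : Rt S J δ q 0 γ) : γ = 1 := by
  by_contra hne
  obtain ⟨r, hr, h1, h2⟩ := exists_lead (hJ.co0 _ h.mem) hne
  have h3 : q < r := by
    rcases lt_trichotomy q r with h3 | rfl | h3
    · exact h3
    · exact absurd h.eq h2
    · exact absurd (by rw [← co_sub_one hr, mem_dvdM_X.1 h.lead r h3]) h2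
  refine h2 (S.eq_zero_of_P fun a => ?_)
  by_cases ha : a * q = r * δ
  · refine hb r hr _ ⟨γ, h.mem, h1, rfl⟩ a ?_
    by_contra hle
    have h4 : (q : ℤ) < r := by exact_mod_cast h3
    have h5 : (0 : ℤ) < δ := by omega
    have h6 : (0 : ℤ) < q := by omega
    nlinarith
  · exact S.P_of_scale (h.hom r) ha

variable [IsAlgClosed Ω]

lemma Rt.exists_smul (hJ : Jet ρ S J) {δ q : ℕ} (hq : q ≠ 0) {x : Matrix n n Ω}
    {γ : Matrix n n Ω⟦X⟧} (h : Rt S J δ q x γ) (c : Ω) :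
    ∃ d : Ω, d ^ q = c ∧ Rt S J δ q (c • x) (Tits.resc d γ) := by
  obtain ⟨d, rfl⟩ := IsAlgClosed.exists_pow_nat_eq c (Nat.pos_of_ne_zero hq)
  exact ⟨d, rfl, h.resc hJ d⟩

lemma Rt.unique (hJ : Jet ρ S J) {δ q : ℕ} (hδ : δ ≠ 0) (hq : q ≠ 0) (hb : Bd S J δ)
    {x : Matrix n n Ω} {γ γ' : Matrix n n Ω⟦X⟧} (h : Rt S J δ q x γ) (h' : Rt S J δ q x γ') :
    γ = γ' := by
  obtain ⟨d, -, hd⟩ := h.exists_smul hJ hq (-1)
  have e1 := h.mul hJ hq hd
  have e2 := hd.mul hJ hq h'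
  rw [neg_one_smul] at e1 e2
  rw [add_neg_cancel] at e1
  rw [neg_add_cancel] at e2
  rw [← mul_one γ, ← e2.eq_one hJ hδ hq hb, ← mul_assoc, e1.eq_one hJ hδ hq hb, one_mul]

lemma Rt.mid (hJ : Jet ρ S J) {δ q : ℕ} (hδ : δ ≠ 0) (hq : q ≠ 0) (hb : Bd S J δ)
    {x : Matrix n n Ω} {γ : Matrix n n Ω⟦X⟧} (h : Rt S J δ q x γ) {r : ℕ} (h1 : q < r)
    (h2 : r < q + q) : co r γ = 0 := by
  by_contra hne
  refine pow_slope (Ω := Ω) h1 h2 fun c => ?_
  obtain ⟨d, hd, hd'⟩ := h.exists_smul hJ hq (1 + c ^ q)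
  have e1 := h.mul hJ hq (h.resc hJ c)
  rw [add_smul, one_smul] at hd'
  have e2 := congrArg (co r) (e1.unique hJ hδ hq hb hd')
  rw [co_mul_of_lead h.lead (h.resc hJ c).lead (by omega) h2, co_resc, co_resc] at e2
  have e3 : (1 + c ^ r - d ^ r) • co r γ = 0 := by
    rw [sub_smul, add_smul, one_smul, e2, sub_self]
  rw [sub_eq_zero.1 ((smul_eq_zero.1 e3).resolve_right hne), ← hd, ← pow_mul, ← pow_mul, mul_comm]

lemma Rt.two (hJ : Jet ρ S J) {δ q : ℕ} (hδ : δ ≠ 0) (hq : q ≠ 0) (hb : Bd S J δ)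
    {x : Matrix n n Ω} {γ : Matrix n n Ω⟦X⟧} (h : Rt S J δ q x γ) :
    (2 : Ω) • co (q + q) γ = x * x := by
  obtain ⟨d, hd, hd'⟩ := h.exists_smul hJ hq 2
  have e1 := h.mul hJ hq h
  rw [two_smul] at hd'
  have e2 := congrArg (co (q + q)) (e1.unique hJ hδ hq hb hd')
  rw [co_mul_two h.lead h.lead hq, co_resc, pow_add, hd, h.eq] at e2
  have : x * x = (2 * 2 : Ω) • co (q + q) γ - co (q + q) γ - co (q + q) γ := by
    rw [← e2]; abel
  rw [this]; module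

/-- the Lie algebra of leading terms with the scalars -/
noncomputable def Jet.I (hJ : Jet ρ S J) {q : ℕ} (hq : q ≠ 0) : Submodule Ω (Matrix n n Ω) :=
  hJ.ld hq ⊔ Sc n Ω

lemma Jet.I_inv (hJ : Jet ρ S J) {q : ℕ} (hq : q ≠ 0) : Inv ρ (hJ.I hq) :=
  (hJ.ld_inv hq).sup (Inv_Sc ρ)

lemma Jet.I_star (hJ : Jet ρ S J) {q : ℕ} (hq : q ≠ 0) {x : Matrix n n Ω} (hx : x ∈ hJ.I hq) :
    Star ρ x := by
  obtain ⟨a, ha, b, hb, rfl⟩ := Submodule.mem_sup.1 hx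
  obtain ⟨c, rfl⟩ := mem_Sc.1 hb
  intro W hW y hy
  have := hJ.ld_star hq ha W hW y hy
  have e : (a + c • 1) * y - y * (a + c • 1) = a * y - y * a := by
    simp only [add_mul, mul_add, smul_mul_assoc, mul_smul_comm, one_mul, mul_one]; abel
  rwa [e]

lemma Jet.I_P (hJ : Jet ρ S J) {q : ℕ} (hq : q ≠ 0) {x : Matrix n n Ω} (hx : x ∈ hJ.I hq)
    {a : ℤ} (ha : a ≠ 0) : S.P a x ∈ Ld J q := by
  obtain ⟨y, hy, b, hb, rfl⟩ := Submodule.mem_sup.1 hx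
  obtain ⟨c, rfl⟩ := mem_Sc.1 hb
  rw [map_add, map_smul, S.P_of_ne S.one_mem_Wt ha, smul_zero, add_zero]
  exact hJ.Pinv _ (hJ.ld_inv hq) a y hy

lemma Jet.I_bd (hJ : Jet ρ S J) {δ q : ℕ} (hq : q ≠ 0) (hb : Bd S J δ) {x : Matrix n n Ω}
    (hx : x ∈ hJ.I hq) {a : ℤ} (ha : δ < a) : S.P a x = 0 := by
  rw [← S.P_of_mem (S.P_mem a x)]
  exact hb q hq _ (hJ.I_P hq hx (by omega)) a ha

/-- half the square of the adjoint action -/
def DD (x y : Matrix n n Ω) : Matrix n n Ω :=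
  (2 : Ω)⁻¹ • (x * (x * y - y * x) - (x * y - y * x) * x)

lemma Jet.root (hJ : Jet ρ S J) (h2 : (2 : Ω) ≠ 0) {δ q : ℕ} (hδ : δ ≠ 0) (hq : q ≠ 0)
    (hb : Bd S J δ) (hb' : Bd S.neg J δ) {x : Matrix n n Ω} (hx : x ∈ Ld J q)
    (hw : x ∈ S.Wt δ) : ∃ γ ∈ J, ∃ γ', γ * γ' = 1 ∧ ∀ y ∈ hJ.I hq, γ * Cm y * γ' =
      Cm y + (X ^ q : Ω⟦X⟧) • Cm (x * y - y * x) + (X ^ (q + q) : Ω⟦X⟧) • Cm (DD x y) := by
  obtain ⟨γ, h⟩ := hJ.exists_rt hδ hb hx hw
  obtain ⟨d, -, h'⟩ := h.exists_smul hJ hq (-1)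
  generalize Tits.resc d γ = γ' at h'
  have e1 := h.mul hJ hq h'
  rw [neg_one_smul] at e1 h'
  rw [add_neg_cancel] at e1
  have e2 := e1.eq_one hJ hδ hq hb
  refine ⟨γ, h.mem, γ', e2, fun y hy => co_ext fun r => ?_⟩
  have tr : ∀ {x γ}, Rt S J δ q x γ → γ - (1 + (X ^ q : Ω⟦X⟧) • Cm x +
      (X ^ (q + q) : Ω⟦X⟧) • Cm ((2 : Ω)⁻¹ • (x * x))) ∈ dvdM n (X : Ω⟦X⟧) (q + q + 1) := by
    intro x γ h
    refine mem_dvdM_X.2 fun r hr => ?_
    rw [map_sub, map_add, map_add, co_one, co_smul_Cm, co_smul_Cm]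
    by_cases h0 : r = 0
    · rw [if_pos h0, if_neg (by omega), if_neg (by omega), h0, hJ.co0 _ h.mem]; simp
    rw [if_neg h0]
    rcases lt_trichotomy r q with h1 | h1 | h1
    · rw [if_neg (by omega), if_neg (by omega), ← co_sub_one h0, mem_dvdM_X.1 h.lead r h1]; simp
    · rw [if_pos h1, if_neg (by omega), h1, h.eq]; simp
    rw [if_neg (by omega)]
    by_cases h3 : r = q + q
    · rw [if_pos h3, h3, ← h.two hJ hδ hq hb, smul_smul, inv_mul_cancel₀ h2]; simp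
    · rw [if_neg h3, h.mid hJ hδ hq hb h1 (by omega)]; simp
  by_cases hr : r < q + q + 1
  · have t1 := tr h
    have t2 := tr h'
    set A := 1 + (X ^ q : Ω⟦X⟧) • Cm x + (X ^ (q + q) : Ω⟦X⟧) • Cm ((2 : Ω)⁻¹ • (x * x)) with hA
    set A' := 1 + (X ^ q : Ω⟦X⟧) • Cm (-x) +
      (X ^ (q + q) : Ω⟦X⟧) • Cm ((2 : Ω)⁻¹ • (-x * -x)) with hA'
    have e3 : γ * Cm y * γ' = (γ - A) * (Cm y * γ') + A * Cm y * (γ' - A') + A * Cm y * A' := by
      noncomm_ring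
    rw [e3, map_add, map_add, mem_dvdM_X.1 (dvdM_mul_right t1 _) r hr,
      mem_dvdM_X.1 (dvdM_mul_left _ t2) r hr, zero_add, zero_add, hA, hA']
    simp only [add_mul, mul_add, smul_mul_assoc, mul_smul_comm, smul_smul, ← pow_add, one_mul,
      mul_one, ← map_mul, map_add, smul_add, co_smul_Cm, co_Cm]
    rw [if_neg (by omega : ¬ r = q + (q + q)), if_neg (by omega : ¬ r = q + q + q),
      if_neg (by omega : ¬ r = q + q + (q + q))]
    have hh : (2 : Ω)⁻¹ + 2⁻¹ = 1 := by field_simp; norm_num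
    split_ifs
    all_goals first
      | omega
      | simp only [add_zero, zero_add, mul_neg, neg_mul, neg_neg, sub_eq_add_neg]
    · rw [DD]
      simp only [mul_add, add_mul, mul_neg, neg_mul, smul_add, smul_neg, sub_eq_add_neg,
        mul_assoc, neg_add, neg_neg]
      linear_combination (norm := skip) hh • (x * (y * x))
      module
  · rw [map_add, map_add, co_Cm, co_smul_Cm, co_smul_Cm, if_neg (by omega), if_neg (by omega),
      if_neg (by omega), add_zero, add_zero, ← S.sum_P y, map_sum, Finset.mul_sum,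
      Finset.sum_mul, map_sum]
    refine Finset.sum_eq_zero fun b _ => ?_
    by_cases hbδ : b < -δ
    · have := hJ.neg.I_bd hq hb' hy (a := -b) (by omega)
      rw [WS.P_neg, neg_neg] at this
      simp [this]
    have hI := hJ.pres _ (hJ.I_inv hq) γ h.mem γ' e2 _ (hJ.Pinv _ (hJ.I_inv hq) b y hy) r
    have hW : co r (γ * Cm (S.P b y) * γ') ∈ (S.scale q).Wt (r * δ + b * q) := by
      rw [co_mul]
      refine Submodule.sum_mem _ fun p hp => ?_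
      rw [Finset.HasAntidiagonal.mem_antidiagonal] at hp
      have := (S.scale q).Wt_mul ((S.scale q).Wt_mul (h.hom p.1) (S.mem_scale q (S.P_mem b y)))
        (h'.hom p.2)
      rw [co_mul_Cm]
      rwa [← hp, Nat.cast_add, add_mul, add_right_comm]
    refine S.eq_zero_of_P fun a => ?_
    by_cases ha : a * q = r * δ + b * q
    · refine hJ.I_bd hq hb hI ?_
      by_contra hle
      have h4 : (q : ℤ) + q + 1 ≤ r := by exact_mod_cast not_lt.1 hr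
      have h5 : (0 : ℤ) < δ := by omega
      have h6 : (0 : ℤ) < q := by omega
      nlinarith
    · exact S.P_of_scale hW ha

end

end Pool.Agent.Lib.MP_c0708e_al.Tits
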