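import Mathlib

/-! Generalized eigenspaces of the shift on sequences, graded by a character. -/

namespace Pool.Agent.Lib.MP_c0708e_al.Tits

open Module LaurentPolynomial

section
variable (K : Type) [Field K]

/-- The shift on sequences. -/
def shift (M : Type) [AddCommGroup M] [Module K M] : Module.End K (ℕ → M) :=
  LinearMap.funLeft K M Nat.succ

lemma shift_apply {M : Type} [AddCommGroup M] [Module K M] (f : ℕ → M) (n : ℕ) :
    shift K M f n = f (n + 1) := rfl

variable {K}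

lemma genEig_mul_aux {A : Type} [Ring A] [Algebra K A] (S : Module.End K A)
    (hS : ∀ x y, S (x * y) = S x * S y) (μ ν : K) :
    ∀ (N a b : ℕ) (f g : A), a + b = N → ((S - μ • 1) ^ a) f = 0 → ((S - ν • 1) ^ b) g = 0 →
      ((S - (μ * ν) • 1) ^ N) (f * g) = 0 := by
  intro N
  induction N with
  | zero =>
    intro a b f g h hf hg
    have : a = 0 := by omega
    subst this
    simp only [pow_zero, Module.End.one_apply] at hf ⊢
    simp [hf]
  | succ N ih =>
    intro a b f g h hf hg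
    rcases Nat.eq_zero_or_pos a with rfl | ha
    · simp only [pow_zero, Module.End.one_apply] at hf
      simp [hf]
    rcases Nat.eq_zero_or_pos b with rfl | hb
    · simp only [pow_zero, Module.End.one_apply] at hg
      simp [hg]
    obtain ⟨a, rfl⟩ : ∃ a', a = a' + 1 := ⟨a - 1, by omega⟩
    obtain ⟨b, rfl⟩ : ∃ b', b = b' + 1 := ⟨b - 1, by omega⟩
    have e : (S - (μ * ν) • 1) (f * g) =
        ((S - μ • 1) f) * S g + (μ • f) * ((S - ν • 1) g) := by
      simp only [LinearMap.sub_apply, LinearMap.smul_apply, Module.End.one_apply, hS, sub_mul,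
        mul_sub, smul_mul_assoc, mul_smul_comm, smul_smul, mul_comm ν μ]
      abel
    rw [pow_succ, Module.End.mul_apply, e, map_add]
    have c : Commute ((S - ν • 1) ^ (b + 1)) S := by
      apply Commute.pow_left
      exact (Commute.refl S).sub_left ((Commute.one_left S).smul_left ν)
    rw [ih a (b + 1) _ _ (by omega) (by rwa [pow_succ, Module.End.mul_apply] at hf)
      (by rw [← Module.End.mul_apply, c.eq, Module.End.mul_apply, hg, map_zero]),
      ih (a + 1) b _ _ (by omega) (by rw [map_smul, hf, smul_zero])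
      (by rwa [pow_succ, Module.End.mul_apply] at hg), add_zero]

lemma genEig_mul {A : Type} [Ring A] [Algebra K A] {μ ν : K} {f g : ℕ → A}
    (hf : f ∈ (shift K A).maxGenEigenspace μ) (hg : g ∈ (shift K A).maxGenEigenspace ν) :
    f * g ∈ (shift K A).maxGenEigenspace (μ * ν) := by
  rw [Module.End.mem_maxGenEigenspace] at hf hg ⊢
  obtain ⟨a, ha⟩ := hf
  obtain ⟨b, hb⟩ := hg
  exact ⟨a + b, genEig_mul_aux (shift K A) (fun _ _ => rfl) μ ν _ a b f g rfl ha hb⟩

lemma genEig_const {M : Type} [AddCommGroup M] [Module K M] (m : M) :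
    (fun _ : ℕ => m) ∈ (shift K M).maxGenEigenspace 1 := by
  rw [Module.End.mem_maxGenEigenspace]
  refine ⟨1, ?_⟩
  ext n
  simp [shift_apply]

lemma shift_pow_comp {M M' : Type} [AddCommGroup M] [Module K M] [AddCommGroup M'] [Module K M']
    (φ : M →ₗ[K] M') (μ : K) (a : ℕ) (f : ℕ → M) :
    ((shift K M' - μ • 1) ^ a) (φ ∘ f) = φ ∘ ((shift K M - μ • 1) ^ a) f := by
  induction a with
  | zero => simp
  | succ a ih =>
    rw [pow_succ', pow_succ', Module.End.mul_apply, Module.End.mul_apply, ih]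
    ext n
    simp [shift_apply]

lemma genEig_map {M M' : Type} [AddCommGroup M] [Module K M] [AddCommGroup M'] [Module K M']
    (φ : M →ₗ[K] M') {μ : K} {f : ℕ → M} (hf : f ∈ (shift K M).maxGenEigenspace μ) :
    φ ∘ f ∈ (shift K M').maxGenEigenspace μ := by
  rw [Module.End.mem_maxGenEigenspace] at hf ⊢
  obtain ⟨a, ha⟩ := hf
  refine ⟨a, ?_⟩
  rw [shift_pow_comp, ha]
  ext n; simp

variable (χ : Kˣ → ℚ)

/-- The weight `a` part of the space of sequences. -/
def Gr (M : Type) [AddCommGroup M] [Module K M] (a : ℤ) : Submodule K (ℕ → M) :=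
  ⨆ μ ∈ {μ : K | ∃ u : Kˣ, (u : K) = μ ∧ χ u = a}, (shift K M).maxGenEigenspace μ

lemma mem_Gr {M : Type} [AddCommGroup M] [Module K M] {a : ℤ} (u : Kˣ) (hu : χ u = a)
    {f : ℕ → M} (hf : f ∈ (shift K M).maxGenEigenspace (u : K)) : f ∈ Gr χ M a :=
  (le_iSup₂ (f := fun μ (_ : μ ∈ {μ : K | ∃ u : Kˣ, (u : K) = μ ∧ χ u = a}) =>
    (shift K M).maxGenEigenspace μ) (u : K) ⟨u, rfl, hu⟩) hf

lemma Gr_induction {M : Type} [AddCommGroup M] [Module K M] {a : ℤ} {P : (ℕ → M) → Prop}
    {f : ℕ → M} (hf : f ∈ Gr χ M a)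
    (h1 : ∀ u : Kˣ, χ u = a → ∀ g ∈ (shift K M).maxGenEigenspace (u : K), P g)
    (h0 : P 0) (hadd : ∀ x y, P x → P y → P (x + y)) : P f := by
  unfold Gr at hf
  rw [iSup_subtype'] at hf
  refine Submodule.iSup_induction _ (motive := P) hf ?_ h0 hadd
  rintro ⟨μ, u, rfl, hu⟩ g hg
  exact h1 u hu g hg

lemma Gr_map {M M' : Type} [AddCommGroup M] [Module K M] [AddCommGroup M'] [Module K M']
    (φ : M →ₗ[K] M') {a : ℤ} {f : ℕ → M} (hf : f ∈ Gr χ M a) : φ ∘ f ∈ Gr χ M' a := by
  refine Gr_induction χ (P := fun f => φ ∘ f ∈ Gr χ M' a) hf ?_ ?_ ?_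
  · intro u hu g hg
    exact mem_Gr χ u hu (genEig_map φ hg)
  · have : φ ∘ (0 : ℕ → M) = 0 := by ext n; simp
    simp only [this]; exact zero_mem _
  · intro x y hx hy
    have : φ ∘ (x + y) = φ ∘ x + φ ∘ y := by ext n; simp
    simp only [this]; exact add_mem hx hy

lemma Gr_indep (M : Type) [AddCommGroup M] [Module K M] : iSupIndep (Gr χ M) := by
  intro a
  have h := (Module.End.independent_maxGenEigenspace (shift K M)).disjoint_biSup_biSup
    (s := {μ : K | ∃ u : Kˣ, (u : K) = μ ∧ χ u = a})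
    (t := {μ : K | ∃ u : Kˣ, (u : K) = μ ∧ χ u = a}ᶜ) disjoint_compl_right
  refine h.mono_right ?_
  refine iSup₂_le fun b hb => ?_
  refine iSup₂_le fun μ hμ => ?_
  refine le_iSup₂_of_le μ ?_ le_rfl
  rintro ⟨u, rfl, hu⟩
  obtain ⟨u', h1, h2⟩ := hμ
  rw [Units.ext h1, hu] at h2
  exact hb (by exact_mod_cast h2.symm)

lemma Gr_extract {M : Type} [AddCommGroup M] [Module K M] (𝔟 : Submodule K M) (s : Finset ℤ)
    (f : ℤ → ℕ → M) (hf : ∀ a ∈ s, f a ∈ Gr χ M a) (h : ∀ n, ∑ a ∈ s, f a n ∈ 𝔟) :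
    ∀ a ∈ s, ∀ n, f a n ∈ 𝔟 := by
  have := (iSupIndep_iff_finsetSum_eq_zero_imp_eq_zero (Gr χ (M ⧸ 𝔟))).1 (Gr_indep χ _) s
    (fun a => 𝔟.mkQ ∘ f a) (fun a ha => Gr_map χ _ (hf a ha)) (by
      ext n
      have := (Submodule.Quotient.mk_eq_zero 𝔟).2 (h n)
      simpa [Finset.sum_apply, ← Submodule.mkQ_apply, map_sum] using this)
  intro a ha n
  have h2 := congrFun (this a ha) n
  simpa using h2

variable {χ} (hχ : ∀ u v, χ (u * v) = χ u + χ v)
include hχ

lemma chi_one : χ 1 = 0 := by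
  have := hχ 1 1
  rw [mul_one] at this
  linarith

lemma chi_inv (u : Kˣ) : χ u⁻¹ = - χ u := by
  have := hχ u u⁻¹
  rw [mul_inv_cancel, chi_one hχ] at this
  linarith

lemma Gr_mul {A : Type} [Ring A] [Algebra K A] {a b : ℤ} {f g : ℕ → A}
    (hf : f ∈ Gr χ A a) (hg : g ∈ Gr χ A b) : f * g ∈ Gr χ A (a + b) := by
  refine Gr_induction χ (P := fun f => f * g ∈ Gr χ A (a + b)) hf ?_ (by simp) ?_
  · intro u hu f hf
    refine Gr_induction χ (P := fun g => f * g ∈ Gr χ A (a + b)) hg ?_ (by simp) ?_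
    · intro u' hu' g hg
      refine mem_Gr χ (u * u') (by rw [hχ, hu, hu']; push_cast; rfl) ?_
      exact genEig_mul hf hg
    · intro x y hx hy
      simp only [mul_add]; exact add_mem hx hy
  · intro x y hx hy
    simp only [add_mul]; exact add_mem hx hy

lemma Gr_const {M : Type} [AddCommGroup M] [Module K M] (m : M) :
    (fun _ : ℕ => m) ∈ Gr χ M 0 :=
  mem_Gr χ 1 (by simpa using chi_one hχ) (genEig_const m)

/-- Laurent polynomials whose coefficient of degree `a` is a sequence of weight `a`. -/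
def GrL (A : Type) [CommRing A] [Algebra K A] : Subring (ℕ → A)[T;T⁻¹] where
  carrier := {F | ∀ a, F.coeff a ∈ Gr χ A a}
  mul_mem' := by
    classical
    intro F G hF hG a
    rw [AddMonoidAlgebra.coeff_mul]
    refine Submodule.sum_mem _ fun b _ => Submodule.sum_mem _ fun c _ => ?_
    dsimp only
    split_ifs with h
    · rw [← h]; exact Gr_mul hχ (hF b) (hG c)
    · exact zero_mem _
  one_mem' := by
    intro a
    rw [← map_one C, C_apply]
    split_ifs with h
    · subst h; exact Gr_const hχ (1 : A)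
    · exact zero_mem _
  add_mem' := by
    intro F G hF hG a
    simpa using add_mem (hF a) (hG a)
  zero_mem' := by intro a; simp
  neg_mem' := by
    intro F hF a
    simpa using neg_mem (hF a)

lemma C_mul_T_mem_GrL {A : Type} [CommRing A] [Algebra K A] {a : ℤ} {f : ℕ → A}
    (hf : f ∈ Gr χ A a) : C f * T a ∈ GrL hχ A := by
  intro b
  rw [← single_eq_C_mul_T, AddMonoidAlgebra.coeff_single, Finsupp.single_apply]
  split_ifs with h
  · exact h ▸ hf
  · exact zero_mem _

lemma C_const_mem_GrL {A : Type} [CommRing A] [Algebra K A] (x : A) :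
    C (fun _ : ℕ => x) ∈ GrL hχ A := by
  simpa using C_mul_T_mem_GrL hχ (Gr_const hχ x)

omit hχ in
lemma eval₂_eq_sum {R S : Type} [CommRing R] [CommRing S] (f : R →+* S) (x : Sˣ)
    (F : R[T;T⁻¹]) : eval₂ f x F = ∑ a ∈ F.coeff.support, f (F.coeff a) * ((x ^ a : Sˣ) : S) := by
  conv_lhs => rw [← AddMonoidAlgebra.sum_coeff_single F]
  rw [Finsupp.sum, map_sum]
  refine Finset.sum_congr rfl fun a _ => ?_
  rw [single_eq_C_mul_T, eval₂_C_mul_T]

/-- Extraction of homogeneous components. -/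
lemma GrL_extract {A A' : Type} [CommRing A] [Algebra K A] [CommRing A'] [Algebra K A']
    (j : A →ₐ[K] A') (θ : A'ˣ) (𝔟 : Submodule K A') {F : (ℕ → A)[T;T⁻¹]} (hF : F ∈ GrL hχ A)
    (h : ∀ n, eval₂ (j.toRingHom.comp (Pi.evalRingHom (fun _ : ℕ => A) n)) θ F ∈ 𝔟) (a : ℤ) :
    j (F.coeff a 0) * ((θ ^ a : A'ˣ) : A') ∈ 𝔟 := by
  by_cases ha : a ∈ F.coeff.support
  · refine Gr_extract χ 𝔟 F.coeff.support
      (fun a n => j (F.coeff a n) * ((θ ^ a : A'ˣ) : A')) ?_ ?_ a ha 0
    · intro b _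
      exact Gr_map χ ((LinearMap.mulRight K ((θ ^ b : A'ˣ) : A')).comp j.toLinearMap) (hF b)
    · intro n
      have := h n
      rw [eval₂_eq_sum] at this
      exact this
  · rw [Finsupp.notMem_support_iff.1 ha]
    simp

end

end Pool.Agent.Lib.MP_c0708e_al.Tits
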