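import Pool.Agent.Lib.MP_c0708e_al.TStage15

/-! The strongly irreducible case over an algebraically closed valued field. -/

set_option linter.style.haveILetI false

namespace Pool.Agent.Lib.MP_c0708e_al.Tits

open Filter

lemma conj_single {n K : Type} [Fintype n] [DecidableEq n] [CommRing K] (u u' : Matrix n n K)
    (i j k l : n) : (u * Matrix.single k l (1 : K) * u') i j = u i k * u' l j := by
  simp [Matrix.mul_apply, Matrix.single_apply, ite_and]

lemma eig_pow {n K : Type} [Fintype n] [DecidableEq n] [CommRing K] {g : Matrix n n K} {μ : K}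
    {x : n → K} (h : g.mulVec x = μ • x) (N : ℕ) : (g ^ N).mulVec x = μ ^ N • x := by
  induction N with
  | zero => simp
  | succ N ih =>
    rw [pow_succ, ← Matrix.mulVec_mulVec, h, Matrix.mulVec_smul, ih, smul_smul, pow_succ']

section
variable {K Γ n H : Type} [Field K] [LinearOrderedCommGroupWithZero Γ]
  [Fintype n] [DecidableEq n] [Group H] {v : Valuation K Γ}

lemma law_index (ρ : H →* Matrix n n K) (N : ℕ) (w : FreeGroup Bool) (u : Bool → (Matrix n n K)ˣ)
    (h : Bool → H) (hu : ∀ β, conjHom _ (u β) = conjHom _ (ρ.toHomUnits (h β))) {s : Γ}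
    (hs : s < 1) (hus : ∀ β, (u β : Matrix n n K) - 1 ∈ vM v n s)
    (hw : ρ (FreeGroup.lift h w) - 1 ∈ vM v n (s ^ (N + 1))) {x : Matrix n n K}
    (hx : x ∈ vM v n 1) : ∑ I ∈ lists N, mag N w I • iterD (fun β => (u β : Matrix n n K))
      (fun β => (((u β)⁻¹ : (Matrix n n K)ˣ) : Matrix n n K)) I x - x ∈ vM v n (s ^ (N + 1)) := by
  have hus' : ∀ β, (((u β)⁻¹ : (Matrix n n K)ˣ) : Matrix n n K) - 1 ∈ vM v n s :=
    fun β => vM_inv (hus β) hs (u β).mul_inv
  have m1 := magnus_conj N w (fun r => vM v n (s ^ r))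
    (fun a => vM_mono (pow_le_pow_of_le_one zero_le hs.le (Nat.le_succ a))) u
    (fun β m x hx => by rw [pow_succ]; exact vM_conj (hus β) (hus' β) hs.le hx)
    (fun β m x hx => vM_mul_right (vM_mul_left (vM_of_sub_one (hus' β) hs.le) hx)
      (vM_of_sub_one (hus β) hs.le)) (x := x) (by simpa using hx)
  have e : conjHom _ (FreeGroup.lift u w) = conjHom _ (ρ.toHomUnits (FreeGroup.lift h w)) := by
    have : (conjHom _).comp (FreeGroup.lift u) =
        ((conjHom _).comp ρ.toHomUnits).comp (FreeGroup.lift h) := by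
      ext1 β; simpa using hu β
    exact DFunLike.congr_fun this w
  rw [← conjHom_apply, e, conjHom_apply] at m1
  have hs' : s ^ (N + 1) < 1 := pow_lt_one₀ zero_le hs (by omega)
  have m2 := vM_conj hw (vM_inv hw hs' (rho_mul_inv ρ _)) hs'.le hx
  rw [one_mul] at m2
  rw [← map_inv ρ.toHomUnits, MonoidHom.coe_toHomUnits, MonoidHom.coe_toHomUnits] at m1
  have := sub_mem m2 m1
  rwa [sub_sub_sub_cancel_left] at this

lemma exists_nonscalar [IsAlgClosed K] [Nontrivial n] {ρ : H →* Matrix n n K} (hSB : SB ρ)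
    (hsep : ∀ g, ∀ μ ν : K, (ρ g).charpoly.IsRoot μ → (ρ g).charpoly.IsRoot ν →
      ∀ N ≠ 0, μ ^ N = ν ^ N → μ = ν) : ∃ g, ∀ N ≠ 0, ρ g ^ N ∉ Sc n K := by
  by_contra hcon
  push Not at hcon
  have e : ext ρ K = ρ := by ext; simp [ext_apply]
  have := unip_scalar hSB (W := ⊤) (fun _ _ _ => trivial) (fun g x _ => by
    obtain ⟨Λ, π, hπ1, -, hπ3, hπ4⟩ := exists_proj (ρ g) (ρ g⁻¹) (rho_mul_inv ρ g)
    obtain ⟨N, hN, hS⟩ := hcon g
    obtain ⟨c, hc⟩ := mem_Sc.1 hS
    have h1 : ∀ μ, (ρ g).charpoly.IsRoot μ → μ ^ N = c := by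
      intro μ hμ
      obtain ⟨x, hx, h⟩ := exists_eigvec hμ
      have := eig_pow h N
      rw [← hc, Matrix.smul_mulVec, Matrix.one_mulVec] at this
      exact (smul_left_injective K hx this).symm
    rw [← e]
    exact unip_of_blocks ρ g Subtype.val π hπ1 hπ4 K x fun μ ν hne => absurd (Subtype.ext
      (Units.ext (hsep g _ _ (hπ3 μ) (hπ3 ν) N hN (by rw [h1 _ (hπ3 μ), h1 _ (hπ3 ν)])))) hne)
  obtain ⟨i, j, hij⟩ := exists_pair_ne n
  obtain ⟨c, hc⟩ := mem_Sc.1 (this (Submodule.mem_top (x := Matrix.single i j (1 : K))))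
  have := congrFun (congrFun hc i) j
  simp [hij] at this

theorem stage1 [IsAlgClosed K] [Nontrivial n] (p : ℕ) [Fact p.Prime] (hp : p ≠ 2)
    {t : Γ} (ht0 : t ≠ 0) (ht1 : t < 1) (hA : ∀ x : K, x ≠ 0 → ∃ m : ℕ, t ^ m ≤ v x)
    (hvp : v p ≤ t) {ε : Γ} (hε : ε ≤ t) (hεp : (p : K) ≠ 0 → ε < v p)
    {ρ : H →* Matrix n n K} (hSB : SB ρ) (hρ : ∀ h, ρ h - 1 ∈ vM v n ε)
    (ℱ : Filter (FreeGroup Bool))
    (hℱ : ∀ h : Bool → H, ∀ m : ℕ, ∀ᶠ w in ℱ, ρ (FreeGroup.lift h w) - 1 ∈ vM v n (t ^ m))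
    (k : ℕ) : ∀ᶠ w in ℱ, Good p k w := by
  classical
  by_contra hcon
  have hp' : p.Prime := Fact.out
  have hvp' : v p < 1 := hvp.trans_lt ht1
  have anti : ∀ {a b : ℕ}, a ≤ b → t ^ b ≤ t ^ a := fun h => pow_le_pow_of_le_one zero_le ht1.le h
  haveI : (ℱ ⊓ 𝓟 {w | ¬ Good p k w}).NeBot := frequently_iff_neBot.1 (not_eventually.1 hcon)
  haveI : ((atTop : Filter ℕ).curry (ℱ ⊓ 𝓟 {w | ¬ Good p k w})).NeBot :=
    ⟨fun h => by
      obtain ⟨_, h2⟩ := ((eventually_curry_iff (p := fun _ => False)).1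
        (h ▸ eventually_bot)).exists
      exact h2.exists.elim fun _ h => h⟩
  let 𝒰 := Ultrafilter.of ((atTop : Filter ℕ).curry (ℱ ⊓ 𝓟 {w | ¬ Good p k w}))
  have hU : ∀ P : ℕ × FreeGroup Bool → Prop,
      (∀ᶠ j in atTop, ∀ᶠ w in ℱ ⊓ 𝓟 {w | ¬ Good p k w}, P (j, w)) → ∀ᶠ i in 𝒰, P i :=
    fun P h => (eventually_curry_iff.2 h).filter_mono (Ultrafilter.of_le _)
  obtain ⟨L, _, _, Γ', _, V, gm, hgm, hV⟩ := exists_ultra v ht0 ht1.le 𝒰
  have hlt : ∀ x y, V (gm x) < V (gm y) ↔ ∀ m : ℕ, ∀ᶠ i in 𝒰, v (x i) < v (y i) * t ^ m := by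
    intro x y
    rw [← not_le, hV, not_exists]
    refine forall_congr' fun m => ?_
    rw [← Ultrafilter.eventually_not]
    simp only [not_le]
  have hzero : ∀ x, gm x = 0 → ∀ᶠ i in 𝒰, x i = 0 := by
    intro x hx
    obtain ⟨m, hm⟩ := (hV x 0).1 (by simp [hx])
    filter_upwards [hm] with i hi
    simpa [ht0] using hi
  have hle1 : ∀ x, (∃ m : ℕ, ∀ᶠ i in 𝒰, v (x i) * t ^ m ≤ 1) → V (gm x) ≤ 1 := by
    intro x hx
    simpa using (hV x 1).2 (by simpa using hx)
  have hK : ∀ x : K, V (algebraMap K L x) ≤ 1 := by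
    intro x
    rw [← gm.commutes]
    refine hle1 _ ?_
    by_cases hx : x = 0
    · exact ⟨0, by simp [hx]⟩
    obtain ⟨m, hm⟩ := hA x⁻¹ (inv_ne_zero hx)
    refine ⟨m, Eventually.of_forall fun i => ?_⟩
    refine (mul_le_mul_right hm _).trans (le_of_eq ?_)
    change v x * _ = 1
    rw [← map_mul, mul_inv_cancel₀ hx, map_one]
  have h2 : (2 : K) ≠ 0 := by
    have := v_int_eq_one v hp' hvp' (N := 2) (fun h => hp
      ((Nat.prime_dvd_prime_iff_eq hp' Nat.prime_two).1 (by exact_mod_cast h)))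
    intro h
    rw [Int.cast_ofNat, h, map_zero] at this
    exact zero_ne_one this
  have hε1 : ε < 1 := hε.trans_lt ht1
  have hsep : ∀ g, ∀ μ ν : K, (ρ g).charpoly.IsRoot μ → (ρ g).charpoly.IsRoot ν →
      ∀ N ≠ 0, μ ^ N = ν ^ N → μ = ν := by
    intro g μ ν hμ hν N hN h
    have h1 := eig_close hμ (hρ g)
    have h3 := eig_close hν (hρ g)
    have h4 : v ν = 1 := by simpa using v.map_one_add_of_lt (h3.trans_lt hε1)
    have h5 : ν ≠ 0 := by rintro rfl; simp at h4
    have := root_one v hp' hvp' hε1 hεp hN (μ / ν) (by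
      rw [div_sub_one h5, map_div₀, h4, div_one, ← sub_sub_sub_cancel_right _ _ 1]
      exact v.map_sub_le h1 h3) (by rw [div_pow, h, div_self (pow_ne_zero _ h5)])
    exact (div_eq_one_iff_eq h5).1 this
  let gM : (ℕ × FreeGroup Bool → Matrix n n K) →+* Matrix n n L :=
    gm.toRingHom.mapMatrix.comp (Matrix.piRingEquiv (β := fun _ => K)).symm.toRingHom
  have gM_apply : ∀ x k l, gM x k l = gm fun i => x i k l := fun _ _ _ => rfl
  let 𝒢₀ : Subgroup (Matrix n n K)ˣ :=
    { carrier := {u | ∃ h, conjHom _ u = conjHom _ (ρ.toHomUnits h)}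
      mul_mem' := by
        rintro a b ⟨g, hg⟩ ⟨h, hh⟩
        exact ⟨g * h, by rw [map_mul, map_mul, map_mul, hg, hh]⟩
      one_mem' := ⟨1, by simp⟩
      inv_mem' := by
        rintro a ⟨g, hg⟩
        refine ⟨g⁻¹, ?_⟩
        have : (conjHom _).toHomUnits a = (conjHom _).toHomUnits (ρ.toHomUnits g) := Units.ext hg
        rw [map_inv ρ.toHomUnits]
        exact congrArg (fun u => Units.val u⁻¹) this }
  let φ : (ℕ → (Matrix n n K)ˣ) →* (Matrix n n L)ˣ := MonoidHom.toHomUnits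
    (gM.toMonoidHom.comp (MonoidHom.pi fun i => (Units.coeHom _).comp (Pi.evalMonoidHom _ i.1)))
  have φ1 : ∀ u, (φ u : Matrix n n L) = gM fun i => u i.1 := fun _ => rfl
  have φ2 : ∀ u, (((φ u)⁻¹ : (Matrix n n L)ˣ) : Matrix n n L) =
      gM fun i => ((u i.1)⁻¹ : (Matrix n n K)ˣ) := fun _ => rfl
  have φ3 : ∀ u k l, ((φ u : Matrix n n L) - 1) k l =
      gm fun i => ((u i.1 : Matrix n n K) - 1) k l := by
    intro u k l
    rw [φ1, ← map_one gM, ← map_sub]; rfl
  obtain ⟨g₀, hg₀⟩ := exists_nonscalar hSB hsep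
  obtain ⟨i₀⟩ : Nonempty n := inferInstance
  have ha : ∀ j : ℕ, ρ (g₀ ^ p ^ j) - 1 ∈ vM v n (t ^ (j + 1)) := by
    intro j
    induction j with
    | zero => simpa using vM_mono hε (hρ g₀)
    | succ j ih =>
      rw [pow_succ p, pow_mul, map_pow, pow_succ t]
      exact vM_pow_p ih ht1.le (by simpa using anti (Nat.le_add_left 1 j)) hvp
  have hu : ∀ j : ℕ, ∃ u ∈ 𝒢₀, u ≠ 1 ∧ ((u : Matrix n n K) - 1) i₀ i₀ = 0 ∧
      (u : Matrix n n K) - 1 ∈ vM v n (t ^ (j + 1)) := by
    intro j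
    have h1 := ha j i₀ i₀
    rw [Matrix.sub_apply, Matrix.one_apply_eq] at h1
    have h4 : v (ρ (g₀ ^ p ^ j) i₀ i₀) = 1 := by
      simpa using v.map_one_add_of_lt (h1.trans_lt (pow_lt_one₀ zero_le ht1 (by omega)))
    have h5 : ρ (g₀ ^ p ^ j) i₀ i₀ ≠ 0 := by intro h; simp [h] at h4
    have h6 := hg₀ (p ^ j) (pow_ne_zero _ hp'.ne_zero)
    have h7 := ha j
    rw [← map_pow] at h6
    generalize g₀ ^ p ^ j = g at *
    refine ⟨⟨(ρ g i₀ i₀)⁻¹ • ρ g, ρ g i₀ i₀ • ρ g⁻¹, ?_, ?_⟩, ⟨g, ?_⟩, fun h => h6 ?_, ?_, ?_⟩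
    · rw [smul_mul_smul_comm, inv_mul_cancel₀ h5, one_smul, rho_mul_inv]
    · rw [smul_mul_smul_comm, mul_inv_cancel₀ h5, one_smul, rho_inv_mul]
    · ext1 x
      rw [conjHom_apply, conjHom_apply]
      change (_ • ρ g) * x * (_ • ρ g⁻¹) = ρ g * x * ρ g⁻¹
      rw [smul_mul_assoc, smul_mul_smul_comm, inv_mul_cancel₀ h5, one_smul]
    · have : (ρ g i₀ i₀)⁻¹ • ρ g = 1 := congrArg Units.val h
      exact mem_Sc.2 ⟨ρ g i₀ i₀, by rw [← this, smul_smul, mul_inv_cancel₀ h5, one_smul]⟩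
    · simp [h5]
    · have e : (ρ g i₀ i₀)⁻¹ • ρ g - 1 =
          (ρ g i₀ i₀)⁻¹ • (ρ g - 1 - (ρ g i₀ i₀ - 1) • 1) := by
        simp [smul_sub, sub_smul, smul_smul, h5]
      change (ρ g i₀ i₀)⁻¹ • ρ g - 1 ∈ _
      rw [e]
      simpa [h4] using vM_smul (c := (ρ g i₀ i₀)⁻¹) le_rfl
        (sub_mem h7 (by simpa using vM_smul h1 (one_mem_vM (n := n))))
  choose u hu0 hu1 hu2 hu3 using hu
  obtain ⟨k₁, l₁, hkl⟩ := exists_max_entry (v := V) ((φ u : Matrix n n L) - 1)
  have hτ1 : ∀ m : ℕ, ∀ᶠ i : ℕ × FreeGroup Bool in 𝒰, v (((u i.1 : Matrix n n K) - 1) k₁ l₁) < t ^ m := fun m =>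
    hU _ ((eventually_ge_atTop m).mono fun j hj => Eventually.of_forall fun w =>
      (hu3 j k₁ l₁).trans_lt (pow_lt_pow_right_of_lt_one₀ (zero_lt_iff.2 ht0) ht1 (by omega)))
  obtain ⟨N, hN, key⟩ := stage15 hK h2 (fun a ha x => by
      obtain ⟨x, rfl⟩ := hgm x
      choose y hy using fun i => IsAlgClosed.exists_pow_nat_eq (x i) (Nat.pos_of_ne_zero ha)
      exact ⟨gm y, by rw [← map_pow]; exact congrArg gm (funext hy)⟩) hSB hsep
    ((Subgroup.pi Set.univ fun _ => 𝒢₀).map φ) (fun h => ⟨fun _ => ρ.toHomUnits h,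
      fun _ _ => ⟨h, rfl⟩, Units.ext (Matrix.ext fun i j => gm.commutes _)⟩) (by
      rintro _ ⟨a, ha, rfl⟩ ℓ hℓ
      simp only [φ1, φ2, gM_apply, ← gm.commutes, ← map_mul, ← map_sum]
      refine (congrArg gm (funext fun i => ?_)).trans (map_zero gm)
      obtain ⟨h, hh⟩ := ha i.1 trivial
      rw [Finset.sum_apply, Pi.zero_apply, ← hℓ h]
      refine Finset.sum_congr rfl fun q _ => ?_
      have := DFunLike.congr_fun hh (Matrix.single q.2.1 q.2.2.1 1)
      rw [conjHom_apply, conjHom_apply] at this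
      have := congrFun (congrFun this q.1) q.2.2.2
      rw [conj_single, conj_single] at this
      exact congrArg (ℓ q * ·) this)
    (c₀ := φ u) ⟨u, fun j _ => hu0 j, rfl⟩ (i₀ := i₀) (by
      rw [φ3]; simp only [hu2]; exact map_zero gm) (k := k₁) (l := l₁) rfl (by
      intro h
      rw [h, map_zero] at hkl
      have : ∀ᶠ i : ℕ × FreeGroup Bool in 𝒰, ∀ k l, ((u i.1 : Matrix n n K) - 1) k l = 0 :=
        eventually_all.2 fun k => eventually_all.2 fun l => hzero _ (by
          rw [← φ3]; simpa using hkl k l)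
      obtain ⟨i, hi⟩ := this.exists
      exact hu1 i.1 (Units.ext (sub_eq_zero.1 (Matrix.ext hi)))) (by
      rw [φ3, ← map_one V, ← map_one gm, hlt]
      simpa using hτ1) hkl (fun N I => gm fun i => (mag N i.2 I : K))
    (fun N I => hle1 _ ⟨0, Eventually.of_forall fun i => by simpa using v_int v _⟩) (by
      intro N a ha i j
      choose b hb hb' using fun β => (ha β).1
      obtain rfl : a = fun β => φ (b β) := funext fun β => (hb' β).symm
      choose h hh using fun β j => hb β j trivial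
      let τ : ℕ → K := fun j => ((u j : Matrix n n K) - 1) k₁ l₁
      obtain ⟨m, hm⟩ : ∃ m : ℕ, ∀ᶠ i : ℕ × FreeGroup Bool in 𝒰, ∀ q : Bool × n × n,
          v (((b q.1 i.1 : Matrix n n K) - 1) q.2.1 q.2.2) * t ^ m ≤ v (τ i.1) := by
        have : ∀ q : Bool × n × n, ∃ m : ℕ, ∀ᶠ i : ℕ × FreeGroup Bool in 𝒰,
            v (((b q.1 i.1 : Matrix n n K) - 1) q.2.1 q.2.2) * t ^ m ≤ v (τ i.1) := by
          intro q
          have := (ha q.1).2 q.2.1 q.2.2
          rwa [φ3, φ3, hV] at this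
        choose m hm using this
        refine ⟨Finset.univ.sup m, eventually_all.2 fun q => (hm q).mono fun i hi => ?_⟩
        exact (mul_le_mul_right (anti (Finset.le_sup (Finset.mem_univ q))) _).trans hi
      have htm : 0 < t ^ m := pow_pos (zero_lt_iff.2 ht0) m
      have h1 : ∀ᶠ i : ℕ × FreeGroup Bool in 𝒰, ρ (FreeGroup.lift (fun β => h β i.1) i.2) - 1 ∈
          vM v n ((v (τ i.1) / t ^ m) ^ (N + 1)) ∨ τ i.1 = 0 := by
        refine hU _ (Eventually.of_forall fun j => ?_)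
        by_cases h0 : τ j = 0
        · exact Eventually.of_forall fun w => Or.inr h0
        obtain ⟨m', hm'⟩ := hA _ h0
        refine ((hℱ (fun β => h β j) (m' * (N + 1))).filter_mono inf_le_left).mono
          fun w hw => Or.inl (vM_mono ?_ hw)
        rw [pow_mul]
        refine pow_le_pow_left₀ zero_le (hm'.trans ?_) _
        rw [le_div_iff₀ htm]
        exact mul_le_of_le_one_right zero_le (pow_le_one₀ zero_le ht1.le)
      have e : ∑ I ∈ lists N, (gm fun i => (mag N i.2 I : K)) •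
          iterD (fun β => (φ (b β) : Matrix n n L))
          (fun β => (((φ (b β))⁻¹ : (Matrix n n L)ˣ) : Matrix n n L)) I (Matrix.single i j 1) -
          Matrix.single i j 1 = gM fun z => ∑ I ∈ lists N, mag N z.2 I •
            iterD (fun β => (b β z.1 : Matrix n n K))
            (fun β => (((b β z.1)⁻¹ : (Matrix n n K)ˣ) : Matrix n n K)) I (Matrix.single i j 1) -
            Matrix.single i j 1 := by
        have e1 : (Matrix.single i j 1 : Matrix n n L) = gM fun _ => Matrix.single i j 1 := by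
          ext k l
          rw [gM_apply, Matrix.single_apply, Matrix.single_apply]
          split_ifs
          · exact (map_one gm).symm
          · exact (map_zero gm).symm
        simp only [φ1, φ2]
        rw [e1]
        simp only [← iterD_map]
        ext k l
        simp only [Matrix.sub_apply, Matrix.sum_apply, Matrix.smul_apply, gM_apply, smul_eq_mul,
          ← map_mul, ← map_sum, ← map_sub]
        refine congrArg gm (funext fun z => ?_)
        simp only [Pi.sub_apply, Finset.sum_apply, Pi.mul_apply, zsmul_eq_mul]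
        congr 1
        refine Finset.sum_congr rfl fun I _ => ?_
        congr 1
        exact congrFun (congrFun (iterD_map (Pi.evalRingHom (fun _ => Matrix n n K) z)
          _ _ _ _) k) l
      rw [e]
      intro k l
      rw [φ3, ← map_pow, ← map_pow, gM_apply, hV]
      refine ⟨m * (N + 1), ?_⟩
      filter_upwards [hm, h1, hτ1 m] with z hz hz1 hz2
      have hs : v (τ z.1) / t ^ m < 1 := by rwa [div_lt_one₀ htm]
      have hb1 : ∀ β, (b β z.1 : Matrix n n K) - 1 ∈ vM v n (v (τ z.1) / t ^ m) :=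
        fun β k l => by rw [le_div_iff₀ htm]; exact hz (β, k, l)
      have hw : ρ (FreeGroup.lift (fun β => h β z.1) z.2) - 1 ∈
          vM v n ((v (τ z.1) / t ^ m) ^ (N + 1)) ∨ ∀ β, b β z.1 = 1 := by
        refine hz1.imp_right fun h0 β => Units.ext (sub_eq_zero.1 (Matrix.ext fun k l => ?_))
        simpa [h0] using hb1 β k l
      have hx : (Matrix.single i j 1 : Matrix n n K) ∈ vM v n 1 := fun k l => by
        rw [Matrix.single_apply]; split_ifs <;> simp
      have : ∑ I ∈ lists N, mag N z.2 I • iterD (fun β => (b β z.1 : Matrix n n K))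
          (fun β => (((b β z.1)⁻¹ : (Matrix n n K)ˣ) : Matrix n n K)) I (Matrix.single i j 1) -
          Matrix.single i j 1 ∈ vM v n ((v (τ z.1) / t ^ m) ^ (N + 1)) := by
        rcases hw with hw | hw
        · exact law_index ρ N z.2 (fun β => b β z.1) _ (fun β => hh β z.1) hs hb1 hw hx
        · refine law_index ρ N z.2 (fun β => b β z.1) (fun _ => 1) (fun β => by simp [hw]) hs hb1
            ?_ hx
          have : FreeGroup.lift (fun _ : Bool => (1 : H)) = 1 := by ext; simp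
          simp [this]
      have := this k l
      rw [div_pow, le_div_iff₀ (pow_pos htm _), ← pow_mul, ← map_pow] at this
      exact this) k
  have h1 : ∀ᶠ i : ℕ × FreeGroup Bool in 𝒰, ∀ β γ : Fin 3, ∀ d ∈ Finset.range k,
      (p : ℤ) ∣ ∑ I ∈ lists N, mag N i.2 I * (mz I β γ).coeff d -
        ((Pi.single β 1 : Fin 3 → Polynomial ℤ) γ).coeff d := by
    refine eventually_all.2 fun β => eventually_all.2 fun γ =>
      (eventually_all_finset _).2 fun d hd => ?_
    have := key β γ d (Finset.mem_range.1 hd)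
    simp only [← map_intCast gm, ← map_mul, ← map_sum, ← map_sub] at this
    rw [← map_one V, ← map_one gm, hlt] at this
    filter_upwards [this 0] with i hi
    by_contra hnd
    have h3 := v_int_eq_one v hp' hvp' hnd
    push_cast at h3
    simp [h3] at hi
  obtain ⟨i, hi, hbad⟩ := (h1.and (hU (fun i => ¬ Good p k i.2) (Eventually.of_forall fun j =>
    (eventually_principal.2 fun _ h => h).filter_mono inf_le_right))).exists
  exact hbad (sl2_final p hp N k hN i.2 fun β γ d hd => hi β γ d (Finset.mem_range.2 hd))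

end

end Pool.Agent.Lib.MP_c0708e_al.Tits
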