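import Pool.Agent.Lib.MP_c0708e_al.TLift

/-! From a nonstandard group of matrices to a monoid of jets. -/

set_option linter.style.haveILetI false

namespace Pool.Agent.Lib.MP_c0708e_al.Tits

open scoped PowerSeries

lemma mapMatrix_smul {n A A' : Type} [Fintype n] [DecidableEq n] [CommRing A] [CommRing A']
    (φ : A →+* A') (c : A) (x : Matrix n n A) : φ.mapMatrix (c • x) = φ c • φ.mapMatrix x := by
  ext; simp

lemma iterD_add {E : Type} [Ring E] (a a' : Bool → E) (I : List Bool) (x y : E) :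
    iterD a a' I (x + y) = iterD a a' I x + iterD a a' I y := by
  induction I with
  | nil => rfl
  | cons β I ih => simp only [iterD, ih]; noncomm_ring

lemma iterD_smul {A E : Type} [CommRing A] [Ring E] [Algebra A E] (a a' : Bool → E)
    (I : List Bool) (c : A) (x : E) : iterD a a' I (c • x) = c • iterD a a' I x := by
  induction I with
  | nil => rfl
  | cons β I ih => simp only [iterD, ih, mul_smul_comm, smul_mul_assoc, smul_sub]

lemma law_of_single {n Ω : Type} [Field Ω] [Fintype n] [DecidableEq n] (ν : List Bool → Ω) (N : ℕ)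
    (a a' : Bool → Matrix n n Ω⟦X⟧) (h : ∀ i j, ∑ I ∈ lists N, ν I • iterD a a' I
      (Cm (Matrix.single i j 1)) - Cm (Matrix.single i j 1) ∈
        dvdM n (PowerSeries.X : Ω⟦X⟧) (N + 1)) (x : Matrix n n Ω) :
    ∑ I ∈ lists N, ν I • iterD a a' I (Cm x) - Cm x ∈ dvdM n (PowerSeries.X : Ω⟦X⟧) (N + 1) := by
  induction x using Matrix.induction_on' with
  | h_zero =>
    have : ∀ I, iterD a a' I 0 = 0 := fun I => by
      have := iterD_smul a a' I (0 : Ω) 0
      rwa [zero_smul, zero_smul] at this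
    simp [this]
  | h_add x y hx hy =>
    have := add_mem hx hy
    simp only [map_add, iterD_add, smul_add, Finset.sum_add_distrib]
    rwa [sub_add_sub_comm] at this
  | h_std_basis i j c =>
    have e : Matrix.single i j c = c • Matrix.single i j (1 : Ω) := by simp
    rw [e, map_smul]
    simp only [iterD_smul, smul_comm _ c, ← Finset.smul_sum, ← smul_sub]
    rw [mem_dvdM_X]
    intro r hr
    rw [map_smul, mem_dvdM_X.1 (h i j) r hr, smul_zero]

section
variable {K L Γ : Type} [Field K] [Field L] [Algebra K L] [LinearOrderedCommGroupWithZero Γ]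
  {V : Valuation L Γ} {n Λ : Type} [Fintype n] [DecidableEq n] [Fintype Λ]

lemma P_vM (hK : ∀ x : K, V (algebraMap K L x) ≤ 1) (S : WS Λ n K) {t : Γ} {x : Matrix n n L}
    (hx : x ∈ vM V n t) (a : ℤ) : (S.map (algebraMap K L)).P a x ∈ vM V n t := by
  rw [WS.P_apply]
  refine sum_mem fun μ _ => sum_mem fun ν _ => ?_
  split_ifs
  · exact vM_mul_right (vM_mul_left (fun i j => hK _) hx) fun i j => hK _
  · exact zero_mem _

lemma exists_theta (hK : ∀ x : K, V (algebraMap K L x) ≤ 1)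
    (hroot : ∀ a : ℕ, a ≠ 0 → ∀ x : L, ∃ y, y ^ a = x) (S : WS Λ n K) {t : Γ} (ht0 : t ≠ 0)
    (ht : t < 1) (c : Bool → Matrix n n L) (hc : ∀ b, c b - 1 ∈ vM V n t) {a₁ : ℤ} (ha₁ : 0 < a₁)
    {i₁ j₁ : n} (h₁ : t ≤ V ((S.map (algebraMap K L)).P a₁ (c true) i₁ j₁)) :
    ∃ θ : Lˣ, t ≤ V θ ∧ (∀ b a, (((θ ^ a)⁻¹ : Lˣ) : L) • (S.map (algebraMap K L)).P a (c b) ∈
      vM V n 1) ∧ (∀ b, ∀ a < 0, (((θ ^ a)⁻¹ : Lˣ) : L) • (S.map (algebraMap K L)).P a (c b) ∈
      vM V n t) ∧ ∃ b i j, ∃ a : ℕ, a ≠ 0 ∧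
        ((((θ ^ (a : ℤ))⁻¹ : Lˣ) : L) • (S.map (algebraMap K L)).P a (c b)) i j = 1 := by
  classical
  set S' := S.map (algebraMap K L) with hS'
  have hP : ∀ b a, a ≠ 0 → S'.P a (c b) ∈ vM V n t := by
    intro b a ha
    have := P_vM hK S (hc b) a
    rwa [map_sub, WS.P_of_ne _ (WS.one_mem_Wt _) ha, sub_zero] at this
  have hw : ∀ a x i j, S'.P a x i j ≠ 0 → a ∈ S'.wts := fun a x i j ha => by
    by_contra h; exact ha (by rw [S'.P_eq_zero h]; rfl)
  have hr : ∀ p : ℤ × n × n × Bool, ∃ y : L, 0 < p.1 →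
      y ^ p.1.toNat = S'.P p.1 (c p.2.2.2) p.2.1 p.2.2.1 := by
    intro p
    by_cases h : 0 < p.1
    · obtain ⟨y, hy⟩ := hroot p.1.toNat (by omega) (S'.P p.1 (c p.2.2.2) p.2.1 p.2.2.1)
      exact ⟨y, fun _ => hy⟩
    · exact ⟨0, fun h' => absurd h' h⟩
  choose rt hrt using hr
  have hne : S'.P a₁ (c true) i₁ j₁ ≠ 0 := by
    intro h; rw [h, map_zero, le_zero_iff] at h₁; exact ht0 h₁
  obtain ⟨p, hp, hmax⟩ := ((S'.wts.filter (0 < ·)) ×ˢ (Finset.univ : Finset (n × n × Bool))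
    ).exists_max_image (fun p => V (rt p)) ⟨(a₁, i₁, j₁, true), by simp [ha₁, hw _ _ _ _ hne]⟩
  have hp0 : 0 < p.1 := by simp at hp; exact hp.2
  have hle : ∀ b a i j, 0 < a → V (S'.P a (c b) i j) ≤ V (rt p) ^ a.toNat := by
    intro b a i j ha
    by_cases h : S'.P a (c b) i j = 0
    · simp [h]
    have := hmax (a, i, j, b) (by simp [ha, hw _ _ _ _ h])
    rw [← hrt (a, i, j, b) ha, map_pow]
    exact pow_le_pow_left₀ zero_le this _
  have h1 : V (rt p) ≤ 1 := by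
    have : V (rt p) ^ p.1.toNat ≤ 1 := by
      rw [← map_pow, hrt p hp0]; exact (hP _ _ hp0.ne' _ _).trans ht.le
    exact (pow_le_one_iff_of_nonneg zero_le (by omega)).1 this
  have h2 : t ≤ V (rt p) :=
    h₁.trans ((hle _ _ _ _ ha₁).trans (pow_le_of_le_one zero_le h1 (by omega)))
  have h0 : rt p ≠ 0 := by
    intro h; rw [h, map_zero, le_zero_iff] at h2; exact ht0 h2
  have hneg : ∀ b, ∀ a < 0, (((Units.mk0 _ h0 ^ a)⁻¹ : Lˣ) : L) • S'.P a (c b) ∈ vM V n t := by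
    intro b a ha
    have := vM_smul (c := (((Units.mk0 _ h0 ^ a)⁻¹ : Lˣ) : L)) (s := 1) ?_ (hP b a ha.ne)
    · rwa [one_mul] at this
    · obtain ⟨m, rfl⟩ := Int.exists_eq_neg_ofNat ha.le
      simpa using pow_le_one₀ zero_le h1
  refine ⟨Units.mk0 _ h0, h2, fun b a => ?_, hneg, p.2.2.2, p.2.1, p.2.2.1, p.1.toNat, by omega, ?_⟩
  · rcases lt_trichotomy a 0 with ha | rfl | ha
    · exact vM_mono ht.le (hneg b a ha)
    · simpa using P_vM hK S (vM_of_sub_one (hc b) ht.le) 0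
    · intro i j
      have := hle b a i j ha
      lift a to ℕ using ha.le
      have h3 : V (rt p) ^ a ≠ 0 := pow_ne_zero _ ((Valuation.ne_zero_iff V).2 h0)
      simp only [Int.toNat_natCast] at this
      simpa using inv_mul_le_one_of_le₀ this zero_le
  · have := hrt p hp0
    rw [Matrix.smul_apply, Int.toNat_of_nonneg hp0.le, ← this]
    simp [← zpow_natCast, Int.toNat_of_nonneg hp0.le, zpow_ne_zero _ h0]

end

theorem stage15 {K L Γ n H : Type} [Field K] [IsAlgClosed K] [Field L] [Algebra K L]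
    [LinearOrderedCommGroupWithZero Γ] [Fintype n] [DecidableEq n] [Group H]
    {V : Valuation L Γ} (hK : ∀ x : K, V (algebraMap K L x) ≤ 1) (h2 : (2 : K) ≠ 0)
    (hroot : ∀ a : ℕ, a ≠ 0 → ∀ x : L, ∃ y, y ^ a = x) {ρ : H →* Matrix n n K} (hSB : SB ρ)
    (hsep : ∀ g, ∀ μ ν : K, (ρ g).charpoly.IsRoot μ → (ρ g).charpoly.IsRoot ν →
      ∀ N ≠ 0, μ ^ N = ν ^ N → μ = ν)
    (𝒢 : Subgroup (Matrix n n L)ˣ) (hρ : ∀ h, (ext ρ L).toHomUnits h ∈ 𝒢)
    (hspan : ∀ u ∈ 𝒢, ∀ ℓ : n × n × n × n → K,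
      (∀ h, ∑ p, ℓ p * (ρ h p.1 p.2.1 * ρ h⁻¹ p.2.2.1 p.2.2.2) = 0) →
      ∑ p, algebraMap K L (ℓ p) * ((u : Matrix n n L) p.1 p.2.1 *
        ((u⁻¹ : (Matrix n n L)ˣ) : Matrix n n L) p.2.2.1 p.2.2.2) = 0)
    {c₀ : (Matrix n n L)ˣ} (hc₀ : c₀ ∈ 𝒢) {i₀ k l : n} (h00 : ((c₀ : Matrix n n L) - 1) i₀ i₀ = 0)
    {τ : L} (hτ : ((c₀ : Matrix n n L) - 1) k l = τ) (hτ0 : τ ≠ 0) (hτ1 : V τ < 1)
    (hc : (c₀ : Matrix n n L) - 1 ∈ vM V n (V τ)) (ν : ℕ → List Bool → L)
    (hν : ∀ N I, V (ν N I) ≤ 1)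
    (hlaw : ∀ N (a : Bool → (Matrix n n L)ˣ),
      (∀ β, a β ∈ 𝒢 ∧ (a β : Matrix n n L) - 1 ∈ vM V n (V τ)) → ∀ i j,
      ∑ I ∈ lists N, ν N I • iterD (fun β => (a β : Matrix n n L))
        (fun β => (((a β)⁻¹ : (Matrix n n L)ˣ) : Matrix n n L)) I (Matrix.single i j 1) -
        Matrix.single i j 1 ∈ vM V n (V τ ^ (N + 1))) (k₀ : ℕ) :
    ∃ N, k₀ ≤ N + 1 ∧ ∀ β γ : Fin 3, ∀ d < k₀, V (∑ I ∈ lists N, ν N I * ((mz I β γ).coeff d : L) -
      (((Pi.single β 1 : Fin 3 → Polynomial ℤ) γ).coeff d : L)) < 1 := by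
  classical
  haveI : Nonempty n := ⟨i₀⟩
  obtain ⟨Ω, _, _, _, red, hred⟩ := exists_red hK
  have hV0 : V τ ≠ 0 := (Valuation.ne_zero_iff V).2 hτ0
  let jM : Matrix n n (BB hK) →+* Matrix n n L := (BB hK).val.toRingHom.mapMatrix
  let rM : Matrix n n (BB hK) →+* Matrix n n Ω := red.toRingHom.mapMatrix
  have jM_inj : Function.Injective jM := Matrix.map_injective Subtype.val_injective
  have jM_alg : ∀ x : Matrix n n K, jM ((algebraMap K _).mapMatrix x) =
      (algebraMap K L).mapMatrix x := fun x => rfl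
  have rM_alg : ∀ x : Matrix n n K, rM ((algebraMap K _).mapMatrix x) =
      (algebraMap K Ω).mapMatrix x := fun x => by
    ext i j; exact red.commutes _
  have lift : ∀ x ∈ vM V n 1, ∃ y, jM y = x := fun x hx => ⟨Matrix.of fun i j => ⟨x i j, hx i j⟩, rfl⟩
  obtain ⟨X₀, hX₀⟩ := lift (τ⁻¹ • ((c₀ : Matrix n n L) - 1)) (by
    simpa [hV0] using vM_smul (c := τ⁻¹) le_rfl hc)
  have hXns : rM X₀ ∉ Sc n Ω := by
    intro h
    obtain ⟨c, hc⟩ := mem_Sc.1 h
    have e1 : X₀ i₀ i₀ = 0 := Subtype.ext (by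
      have := congrFun (congrFun hX₀ i₀) i₀
      rw [Matrix.smul_apply, h00, smul_zero] at this; exact this)
    have e2 : X₀ k l = 1 := Subtype.ext (by
      have := congrFun (congrFun hX₀ k) l
      rw [Matrix.smul_apply, hτ, smul_eq_mul, inv_mul_cancel₀ hτ0] at this; exact this)
    have e3 := congrFun (congrFun hc i₀) i₀
    have e4 := congrFun (congrFun hc k) l
    simp only [rM, RingHom.mapMatrix_apply, Matrix.map_apply, e1, e2, map_zero, map_one,
      Matrix.smul_apply, Matrix.one_apply_eq, smul_eq_mul, mul_one] at e3 e4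
    simp [e3] at e4
  obtain ⟨g, h, hgh⟩ : ∃ g h, ¬ ∃ m : ℕ,
      ((cjRep (ext ρ Ω) g - 1) ^ m) (cj (ext ρ Ω) h (rM X₀)) = 0 := by
    by_contra hcon
    push Not at hcon
    have := unip_scalar (hSB.ext Ω)
      (W := Submodule.span Ω (Set.range fun h => cj (ext ρ Ω) h (rM X₀))) (Inv_span (by
        rintro g _ ⟨h, rfl⟩
        exact Submodule.subset_span ⟨g * h, cj_mul _ _ _ _⟩)) (fun g x hx => by
        have : Submodule.span Ω (Set.range fun h => cj (ext ρ Ω) h (rM X₀)) ≤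
            Module.End.maxGenEigenspace (cjRep (ext ρ Ω) g) 1 := by
          rw [Submodule.span_le]
          rintro _ ⟨h, rfl⟩
          simpa [Module.End.mem_maxGenEigenspace] using hcon g h
        simpa [Module.End.mem_maxGenEigenspace] using this hx)
    exact hXns (this (Submodule.subset_span ⟨1, cj_one _ _⟩))
  obtain ⟨Λ, π, hπ1, hπ2, hπ3, hπ4⟩ := exists_proj (ρ g) (ρ g⁻¹) (rho_mul_inv ρ g)
  obtain ⟨μ, μ', hμ, hblock⟩ : ∃ μ μ', μ ≠ μ' ∧ (algebraMap K Ω).mapMatrix (π μ) *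
      cj (ext ρ Ω) h (rM X₀) * (algebraMap K Ω).mapMatrix (π μ') ≠ 0 := by
    by_contra hcon
    push Not at hcon
    exact hgh (unip_of_blocks ρ g Subtype.val π hπ1 hπ4 Ω _ hcon)
  obtain ⟨χ, w, hχ, hw, hpos⟩ := exists_chi (Subtype.val : Λ → Kˣ) ((μ : Kˣ) * (μ' : Kˣ)⁻¹) (by
    intro N hN h
    rw [mul_pow, inv_pow, mul_inv_eq_one] at h
    exact hμ (Subtype.ext (Units.ext (hsep g _ _ (hπ3 μ) (hπ3 μ') N hN
      (by exact_mod_cast congrArg Units.val h)))))
  rw [hχ, chi_inv hχ, hw, hw] at hpos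
  have hpos' : 0 < w μ - w μ' := by
    have : (0 : ℚ) < ((w μ - w μ' : ℤ) : ℚ) := by push_cast; linarith
    exact_mod_cast this
  let S : WS Λ n K := ⟨π, w, hπ1, hπ2⟩
  have hG : GData (ρ g) (ρ g⁻¹) χ S := fun μ => ⟨μ, hw μ, hπ4 μ⟩
  have hcj : ∀ h, ∀ u : (Matrix n n L)ˣ, (u : Matrix n n L) - 1 ∈ vM V n (V τ) →
      ((ext ρ L).toHomUnits h * u * ((ext ρ L).toHomUnits h)⁻¹ : (Matrix n n L)ˣ).val - 1 ∈
        vM V n (V τ) := by
    intro h u hu
    have e : ((ext ρ L).toHomUnits h * u * ((ext ρ L).toHomUnits h)⁻¹ : (Matrix n n L)ˣ).val - 1 =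
        ext ρ L h * ((u : Matrix n n L) - 1) * ext ρ L h⁻¹ := by
      rw [mul_sub, sub_mul, mul_one, rho_mul_inv]; rfl
    rw [e]
    exact vM_mul_right (vM_mul_left (fun i j => hK _) hu) fun i j => hK _
  let c : (Matrix n n L)ˣ := (ext ρ L).toHomUnits h * c₀ * ((ext ρ L).toHomUnits h)⁻¹
  have hc𝒢 : c ∈ 𝒢 := mul_mem (mul_mem (hρ h) hc₀) (inv_mem (hρ h))
  have hc1 : (c : Matrix n n L) - 1 ∈ vM V n (V τ) := hcj h c₀ hc
  let cc : Bool → Matrix n n L := fun b => cond b c (c⁻¹ : (Matrix n n L)ˣ)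
  have hcc : ∀ b, cc b - 1 ∈ vM V n (V τ) := by
    intro b; cases b
    · exact vM_inv hc1 hτ1 c.mul_inv
    · exact hc1
  obtain ⟨i₁, j₁, hij⟩ : ∃ i₁ j₁, V τ ≤ V ((S.map (algebraMap K L)).P (w μ - w μ')
      (cc true) i₁ j₁) := by
    let Y₀ := ext ρ (BB hK) h * X₀ * ext ρ (BB hK) h⁻¹
    let Y := (S.map (algebraMap K (BB hK))).P (w μ - w μ') Y₀
    have e0 : rM Y₀ = cj (ext ρ Ω) h (rM X₀) := by
      simp only [Y₀, map_mul, ext_apply, rM_alg, cj_apply]
    have e1 : rM Y ≠ 0 := by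
      intro h0
      have := congrArg rM ((S.map (algebraMap K (BB hK))).block_P (w μ - w μ') Y₀ μ μ')
      rw [if_pos (by rfl)] at this
      simp only [map_mul] at this
      rw [h0, mul_zero, zero_mul, e0] at this
      exact hblock (by rw [← rM_alg, ← rM_alg]; exact this.symm)
    obtain ⟨i, j, hij⟩ : ∃ i j, rM Y i j ≠ 0 := by
      by_contra h0
      push Not at h0
      exact e1 (Matrix.ext h0)
    have e2 : 1 ≤ V (jM Y i j) := not_lt.1 fun h => hij ((hred _).2 h)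
    have e3 : (cc true) - 1 = τ • jM Y₀ := by
      simp only [Y₀, map_mul, hX₀, mul_smul_comm, smul_mul_assoc, smul_smul,
        mul_inv_cancel₀ hτ0, one_smul, ext_apply, jM_alg]
      rw [mul_sub, sub_mul, mul_one, ← ext_apply, ← ext_apply, rho_mul_inv]; rfl
    have e4 : (S.map (algebraMap K L)).P (w μ - w μ') (cc true) = τ • jM Y := by
      have := congrArg ((S.map (algebraMap K L)).P (w μ - w μ')) e3
      rw [map_sub, WS.P_of_ne _ (WS.one_mem_Wt _) hpos'.ne', sub_zero, map_smul] at this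
      rw [this]
      have e5 := WS.P_map (S.map (algebraMap K (BB hK))) (BB hK).val.toRingHom (w μ - w μ') Y₀
      change jM Y = (S.map (algebraMap K L)).P (w μ - w μ') (jM Y₀) at e5
      rw [e5]
    refine ⟨i, j, ?_⟩
    rw [e4, Matrix.smul_apply, smul_eq_mul, map_mul]
    exact le_mul_of_one_le_right zero_le e2
  obtain ⟨θ, hθ, hθ1, hθ2, b₀, i₂, j₂, a₀, ha₀, hθ3⟩ :=
    exists_theta hK hroot S hV0 hτ1 cc hcc hpos' hij
  choose y hy using fun b a => lift _ (hθ1 b a)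
  have hyw : ∀ b a, y b a ∈ (S.map (algebraMap K (BB hK))).Wt a := by
    intro b a μ ν hne
    apply jM_inj
    rw [map_mul, map_mul, hy, map_zero, mul_smul_comm, smul_mul_assoc]
    exact smul_eq_zero_of_right _ ((S.map (algebraMap K L)).P_mem a (cc b) μ ν hne)
  choose F hF hF' using fun b => exists_lift (hχ := hχ) (red := red) (BB hK).val θ hG (y b)
    (hyw b) (fun a ha i k => (hred _).2 (by
      have := hθ2 b a ha i k
      rw [← hy] at this
      exact lt_of_le_of_lt this hτ1))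
  have hF2 : ∀ b m, (pm (BB hK).val θ m).mapMatrix (F b) =
      ext ρ L (g ^ m) * cc b * ext ρ L (g ^ m)⁻¹ := by
    intro b m
    rw [hF, ← inv_pow, map_pow, map_pow]
    congr 2
    conv_rhs => rw [← (S.map (algebraMap K L)).sum_P (cc b)]
    refine Finset.sum_congr rfl fun a _ => ?_
    change _ • jM _ = _
    rw [hy, smul_smul, Units.mul_inv, one_smul]
  let Rel : Matrix n n (TT hχ red) → Matrix n n (TT hχ red) → Prop := fun F F' =>
    ∀ m, ∃ u ∈ 𝒢, (pm (BB hK).val θ m).mapMatrix F = (u : Matrix n n L) ∧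
      (pm (BB hK).val θ m).mapMatrix F' = ((u⁻¹ : (Matrix n n L)ˣ) : Matrix n n L) ∧
      (u : Matrix n n L) - 1 ∈ vM V n (V τ)
  have trM : ∀ N (G : Matrix n n (TT hχ red)),
      (∀ m, (pm (BB hK).val θ m).mapMatrix G ∈ vM V n (V τ ^ N)) →
      psi.mapMatrix G ∈ dvdM n (PowerSeries.X : Ω⟦X⟧) N :=
    fun N G hG i j => transfer hred hτ1 hθ N _ fun m => hG m i j
  have Rel_inv : ∀ F F', Rel F F' → psi.mapMatrix F * psi.mapMatrix F' = 1 := by
    intro F F' hR
    rw [← sub_eq_zero, ← map_mul, ← map_one (psi (hχ := hχ) (red := red)).mapMatrix, ← map_sub]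
    ext1 i j
    refine transfer_zero hred (θ := θ) ((F * F' - 1) i j) fun m => ?_
    obtain ⟨u, -, h1, h2, -⟩ := hR m
    have : (pm (BB hK).val θ m).mapMatrix (F * F' - 1) = 0 := by
      rw [map_sub, map_mul, h1, h2, map_one, Units.mul_inv, sub_self]
    exact congrFun (congrFun this i) j
  have Rel_eq : ∀ F F', Rel F F' → ∀ γ', psi.mapMatrix F * γ' = 1 → γ' = psi.mapMatrix F' := by
    intro F F' hR γ' h
    rw [← mul_one γ', ← Rel_inv F F' hR, ← mul_assoc, mul_eq_one_comm.1 h, one_mul]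
  let cM : Matrix n n K →+* Matrix n n (TT hχ red) :=
    ((cst hχ red).comp (algebraMap K _)).mapMatrix
  have cM1 : ∀ m x, (pm (BB hK).val θ m).mapMatrix (cM x) = (algebraMap K L).mapMatrix x :=
    fun m x => Matrix.ext fun i j => pm_cst _ _ _ _
  have cM2 : ∀ x, psi.mapMatrix (cM x) = Cm ((algebraMap K Ω).mapMatrix x) :=
    fun x => Matrix.ext fun i j => (psi_cst (hχ := hχ) _).trans (congrArg _ (red.commutes _))
  have RelU : Rel (F true) (F false) := fun m =>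
    ⟨(ext ρ L).toHomUnits (g ^ m) * c * ((ext ρ L).toHomUnits (g ^ m))⁻¹,
      mul_mem (mul_mem (hρ _) hc𝒢) (inv_mem (hρ _)), hF2 true m, by
        rw [hF2, mul_inv_rev, mul_inv_rev, inv_inv, ← mul_assoc]; rfl, hcj _ c hc1⟩
  refine Exists.imp (fun N key => ⟨key.1, fun β γ d hd => ?_⟩) (stage2 (Ω := Ω) (by
      rw [← map_ofNat (algebraMap K Ω) 2]; exact (map_ne_zero _).2 h2) (hSB.ext Ω) hχ
    (S := S.map (algebraMap K Ω)) g (hG.gr hχ Ω)
    (A := {γ | ∃ F F', Rel F F' ∧ psi.mapMatrix F = γ}) (ν := fun N I => red ⟨ν N I, hν N I⟩)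
    (U := psi.mapMatrix (F true)) ?_ ?_ ?_ ?_ ?_ ?_ ⟨_, _, RelU, rfl⟩ ?_ ?_ k₀)
  · have := (hred (∑ I ∈ lists N, ⟨ν N I, hν N I⟩ * ((mz I β γ).coeff d : BB hK) -
      (((Pi.single β 1 : Fin 3 → Polynomial ℤ) γ).coeff d : BB hK))).1 (by
        simp only [map_sub, map_sum, map_mul, map_intCast, key.2 β γ d hd, sub_self])
    simpa using this
  · rintro _ ⟨F, F', hR, rfl⟩
    have := mem_dvdM_X.1 (trM 1 (F - 1) fun m => by
      obtain ⟨u, -, h1, -, h3⟩ := hR m
      rwa [map_sub, map_one, h1, pow_one]) 0 one_pos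
    rwa [map_sub, map_one, map_sub, co_one, if_pos rfl, sub_eq_zero] at this
  · exact ⟨1, 1, fun m => ⟨1, one_mem _, map_one _, map_one _, by simp⟩, map_one _⟩
  · rintro _ ⟨F, F', hR, rfl⟩ _ ⟨G, G', hR', rfl⟩
    refine ⟨F * G, G' * F', fun m => ?_, map_mul _ _ _⟩
    obtain ⟨u, h0, h1, h2, h3⟩ := hR m
    obtain ⟨u', h0', h1', h2', h3'⟩ := hR' m
    exact ⟨u * u', mul_mem h0 h0', by rw [map_mul, h1, h1', Units.val_mul],
      by rw [map_mul, h2, h2', mul_inv_rev, Units.val_mul], vM_mul_sub_one h3 h3' hτ1.le⟩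
  · rintro h _ ⟨F, F', hR, rfl⟩
    refine ⟨cM (ρ h) * F * cM (ρ h⁻¹), cM (ρ h) * F' * cM (ρ h⁻¹), fun m => ?_, by
      rw [map_mul, map_mul, cM2, cM2]; rfl⟩
    obtain ⟨u, h0, h1, h2, h3⟩ := hR m
    refine ⟨(ext ρ L).toHomUnits h * u * ((ext ρ L).toHomUnits h)⁻¹,
      mul_mem (mul_mem (hρ _) h0) (inv_mem (hρ _)), ?_, ?_, hcj h u h3⟩
    · rw [map_mul, map_mul, cM1, cM1, h1]; rfl
    · rw [map_mul, map_mul, cM1, cM1, h2, mul_inv_rev, mul_inv_rev, inv_inv, ← mul_assoc]; rfl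
  · rintro W hW _ ⟨F, F', hR, rfl⟩ γ' hγ' x hx r
    rw [Rel_eq F F' hR γ' hγ']
    have := descent
      (Set.range fun h (p : n × n × n × n) => ρ h p.1 p.2.1 * ρ h⁻¹ p.2.2.1 p.2.2.2)
      (fun p => PowerSeries.coeff r (psi (F p.1 p.2.1 * F' p.2.2.1 p.2.2.2))) (fun ℓ hℓ => by
        have := transfer_zero hred (θ := θ) (∑ p : n × n × n × n,
          cst hχ red (algebraMap K _ (ℓ p)) * (F p.1 p.2.1 * F' p.2.2.1 p.2.2.2)) (fun m => by
            obtain ⟨u, h0, h1, h2, -⟩ := hR m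
            rw [← hspan u h0 ℓ (fun h => hℓ _ ⟨h, rfl⟩), ← h1, ← h2]
            simp only [map_sum, map_mul, pm_cst]
            rfl)
        have := congrArg (PowerSeries.coeff r) this
        rw [map_sum, map_sum, map_zero] at this
        rw [← this]
        refine Finset.sum_congr rfl fun p _ => ?_
        rw [map_mul psi (cst hχ red _), psi_cst, PowerSeries.coeff_C_mul, red.commutes])
    let Φ : (n × n × n × n → Ω) →ₗ[Ω] Matrix n n Ω :=
      { toFun := fun t => Matrix.of fun i j => ∑ l, ∑ k, t (i, k, l, j) * x k l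
        map_add' := fun s t => by ext; simp [add_mul, Finset.sum_add_distrib]
        map_smul' := fun c t => by ext; simp [Finset.mul_sum, mul_assoc] }
    have h1 : Submodule.span Ω ((fun y i => algebraMap K Ω (y i)) ''
        Set.range fun h (p : n × n × n × n) => ρ h p.1 p.2.1 * ρ h⁻¹ p.2.2.1 p.2.2.2) ≤
        W.comap Φ := by
      rw [Submodule.span_le]
      rintro _ ⟨_, ⟨h, rfl⟩, rfl⟩
      have e : Φ (fun p => algebraMap K Ω (ρ h p.1 p.2.1 * ρ h⁻¹ p.2.2.1 p.2.2.2)) =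
          ext ρ Ω h * x * ext ρ Ω h⁻¹ := by
        ext i j
        simp only [Φ, LinearMap.coe_mk, AddHom.coe_mk, Matrix.of_apply, Matrix.mul_apply,
          Finset.sum_mul, map_mul, ext_apply, RingHom.mapMatrix_apply, Matrix.map_apply,
          mul_right_comm]
      have := hW h x hx
      rw [← e] at this
      exact this
    have e : co r (psi.mapMatrix F * Cm x * psi.mapMatrix F') = Φ fun p =>
        PowerSeries.coeff r (psi (F p.1 p.2.1 * F' p.2.2.1 p.2.2.2)) := by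
      ext i j
      simp only [Φ, LinearMap.coe_mk, AddHom.coe_mk, Matrix.of_apply, Matrix.mul_apply,
        Finset.sum_mul, map_mul, RingHom.mapMatrix_apply, Matrix.map_apply, co_apply, map_sum,
        Cm_apply, mul_right_comm _ (PowerSeries.C _), PowerSeries.coeff_mul_C]
    rw [e]
    exact h1 this
  · intro N a a' ha
    choose G G' hR hG using fun β => (ha β).1
    obtain rfl : a = fun β => psi.mapMatrix (G β) := funext fun β => (hG β).symm
    obtain rfl : a' = fun β => psi.mapMatrix (G' β) :=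
      funext fun β => Rel_eq _ _ (hR β) _ (ha β).2
    refine law_of_single _ _ _ _ fun i j => ?_
    have := trM (N + 1) (∑ I ∈ lists N, cst hχ red ⟨ν N I, hν N I⟩ •
      iterD G G' I (cM (Matrix.single i j 1)) - cM (Matrix.single i j 1)) (fun m => by
        choose u h0 h1 h2 h3 using fun β => hR β m
        have := hlaw N u (fun β => ⟨h0 β, h3 β⟩) i j
        simp only [map_sub, map_sum, mapMatrix_smul, iterD_map, h1, h2, cM1, pm_cst]
        rw [RingHom.mapMatrix_apply, Matrix.map_single, map_one]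
        exact this)
    simp only [map_sub, map_sum, mapMatrix_smul, iterD_map, cM2, psi_cst] at this
    rw [RingHom.mapMatrix_apply (algebraMap K Ω), Matrix.map_single, map_one] at this
    have e : ∀ (c : Ω) (z : Matrix n n Ω⟦X⟧), (PowerSeries.C c : Ω⟦X⟧) • z = c • z :=
      fun c z => algebraMap_smul Ω⟦X⟧ c z
    simp only [e] at this
    exact this
  · intro hU
    have h1 : psi.mapMatrix (F b₀) = 1 := by
      cases b₀
      · have := Rel_inv _ _ RelU
        rwa [hU, one_mul] at this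
      · exact hU
    have h3 := hF' b₀ a₀
    rw [h1, co_one, if_neg ha₀] at h3
    rw [← hy] at hθ3
    have h4 : y b₀ a₀ i₂ j₂ = 1 := Subtype.ext hθ3
    have := congrFun (congrFun h3 i₂) j₂
    simp [h4] at this
  · intro r μ ν hne
    rw [hF']
    have := congrArg rM (hyw true r μ ν hne)
    rw [map_mul, map_mul, map_zero] at this
    rw [← this]
    exact congrArg₂ _ (congrArg (· * _) (rM_alg _).symm) (rM_alg _).symm

end Pool.Agent.Lib.MP_c0708e_al.Tits
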