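import Pool.Agent.Lib.MP_c0708e_al.TZar

/-! Valued fields: congruences of matrices, ultrapowers, characters. -/

set_option linter.style.haveILetI false

namespace Pool.Agent.Lib.MP_c0708e_al.Tits

section
variable {K Γ : Type} [Field K] [LinearOrderedCommGroupWithZero Γ] (v : Valuation K Γ)

lemma v_int (N : ℤ) : v N ≤ 1 := by
  induction N using Int.induction_on with
  | zero => simp
  | succ i ih => push_cast at ih ⊢; exact v.map_add_le ih (by simp)
  | pred i ih => push_cast at ih ⊢; exact v.map_sub_le ih (by simp)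

lemma v_int_eq_one {p : ℕ} (hp : p.Prime) (h : v p < 1) {N : ℤ} (hN : ¬ (p : ℤ) ∣ N) :
    v N = 1 := by
  refine le_antisymm (v_int v N) (not_lt.1 fun hlt => ?_)
  obtain ⟨a, b, hab⟩ := (Nat.prime_iff_prime_int.1 hp).irreducible.coprime_iff_not_dvd.2 hN
  have e : (a : K) * p + b * N = 1 := by exact_mod_cast congrArg (Int.cast : ℤ → K) hab
  have : v ((a : K) * p + b * N) < 1 := by
    refine v.map_add_lt ?_ ?_ <;> rw [map_mul]
    · exact mul_lt_one_of_nonneg_of_lt_one_right (v_int v a) zero_le h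
    · exact mul_lt_one_of_nonneg_of_lt_one_right (v_int v b) zero_le hlt
  rw [e, map_one] at this
  exact lt_irrefl _ this

lemma v_pow_sub_one {ζ : K} {ε : Γ} (hε : ε ≤ 1) (h : v (ζ - 1) ≤ ε) (k : ℕ) :
    v (ζ ^ k - 1) ≤ ε := by
  induction k with
  | zero => simp
  | succ k ih =>
    have e : ζ ^ (k + 1) - 1 = (ζ ^ k - 1) * (ζ - 1) + (ζ ^ k - 1) + (ζ - 1) := by ring
    rw [e]
    refine v.map_add_le (v.map_add_le ?_ ih) h
    rw [map_mul]
    exact (mul_le_mul' ih (h.trans hε)).trans (mul_one _).le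

lemma root_one {p : ℕ} (hp : p.Prime) (h : v p < 1) {ε : Γ} (hε : ε < 1)
    (hεp : (p : K) ≠ 0 → ε < v p) {N : ℕ} (hN : N ≠ 0) :
    ∀ ζ : K, v (ζ - 1) ≤ ε → ζ ^ N = 1 → ζ = 1 := by
  have prime : ∀ l : ℕ, l.Prime → ∀ ζ : K, v (ζ - 1) ≤ ε → ζ ^ l = 1 → ζ = 1 := by
    intro l hl ζ h1 h2
    by_contra hne
    have h3 : ∑ k ∈ Finset.range l, ζ ^ k = 0 := by
      have := mul_geom_sum ζ l
      rw [h2, sub_self] at this
      exact (mul_eq_zero.1 this).resolve_left (sub_ne_zero.2 hne)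
    have h4 : v l ≤ ε := by
      have : (l : K) = -∑ k ∈ Finset.range l, (ζ ^ k - 1) := by
        rw [Finset.sum_sub_distrib, h3]; simp
      rw [this, Valuation.map_neg]
      exact v.map_sum_le fun k _ => v_pow_sub_one v hε.le h1 k
    by_cases hlp : l = p
    · subst hlp
      by_cases h0 : (l : K) = 0
      · haveI : Fact l.Prime := ⟨hl⟩
        haveI : CharP K l := (CharP.charP_iff_prime_eq_zero hl).2 h0
        have := sub_pow_char (p := l) ζ 1
        rw [h2, one_pow, sub_self] at this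
        exact hne (sub_eq_zero.1 (pow_eq_zero_iff hl.ne_zero |>.1 this))
      · exact absurd (hεp h0) (not_lt.2 h4)
    · have := v_int_eq_one v hp h (N := l) (by
        rw [Int.natCast_dvd_natCast, Nat.prime_dvd_prime_iff_eq hp hl]; exact Ne.symm hlp)
      rw [Int.cast_natCast] at this
      exact absurd (this ▸ h4) (not_le.2 hε)
  induction N using induction_on_primes with
  | zero => exact absurd rfl hN
  | one => intro ζ _ h; simpa using h
  | prime_mul l a hl ih =>
    intro ζ h1 h2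
    refine ih (by rintro rfl; simp at hN) ζ h1 (prime l hl _ (v_pow_sub_one v hε.le h1 a) ?_)
    rw [← pow_mul, mul_comm, h2]

variable (n : Type)

/-- matrices with small entries -/
def vM (t : Γ) : AddSubgroup (Matrix n n K) where
  carrier := {x | ∀ i j, v (x i j) ≤ t}
  add_mem' hx hy i j := v.map_add_le (hx i j) (hy i j)
  zero_mem' i j := by simp
  neg_mem' hx i j := by simpa using hx i j

variable {v n}

lemma vM_mono {s t : Γ} (h : s ≤ t) : vM v n s ≤ vM v n t := fun _ hx i j => (hx i j).trans h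

lemma vM_smul {s t : Γ} {c : K} {x : Matrix n n K} (hc : v c ≤ s) (hx : x ∈ vM v n t) :
    c • x ∈ vM v n (s * t) := fun i j => by
  rw [Matrix.smul_apply, smul_eq_mul, map_mul]
  exact mul_le_mul' hc (hx i j)

variable [Fintype n]

lemma vM_mul {s t : Γ} {x y : Matrix n n K} (hx : x ∈ vM v n s) (hy : y ∈ vM v n t) :
    x * y ∈ vM v n (s * t) := fun i j => by
  rw [Matrix.mul_apply]
  exact v.map_sum_le fun k _ => by rw [map_mul]; exact mul_le_mul' (hx i k) (hy k j)

lemma vM_mul_left {t : Γ} {x y : Matrix n n K} (hx : x ∈ vM v n 1) (hy : y ∈ vM v n t) :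
    x * y ∈ vM v n t := by simpa using vM_mul hx hy

lemma vM_mul_right {t : Γ} {x y : Matrix n n K} (hx : x ∈ vM v n t) (hy : y ∈ vM v n 1) :
    x * y ∈ vM v n t := by simpa using vM_mul hx hy

lemma exists_max_entry [Nonempty n] (x : Matrix n n K) : ∃ i j, x ∈ vM v n (v (x i j)) := by
  obtain ⟨p, -, hp⟩ := Finset.univ.exists_max_image (fun p : n × n => v (x p.1 p.2))
    Finset.univ_nonempty
  exact ⟨p.1, p.2, fun i j => hp (i, j) (Finset.mem_univ _)⟩

variable [DecidableEq n]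

omit [Fintype n] in
lemma one_mem_vM : (1 : Matrix n n K) ∈ vM v n 1 := fun i j => by
  rw [Matrix.one_apply]; split_ifs <;> simp

omit [Fintype n] in
lemma vM_of_sub_one {t : Γ} {u : Matrix n n K} (h : u - 1 ∈ vM v n t) (ht : t ≤ 1) :
    u ∈ vM v n 1 := by
  simpa using add_mem (vM_mono ht h) one_mem_vM

lemma vM_inv {t : Γ} {u u' : Matrix n n K} (h : u - 1 ∈ vM v n t) (ht : t < 1)
    (hu : u * u' = 1) : u' - 1 ∈ vM v n t := by
  have e : u' - 1 = -((u - 1) * u') := by rw [sub_mul, hu, one_mul, neg_sub]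
  rcases isEmpty_or_nonempty n with hn | hn
  · exact fun i => hn.elim i
  obtain ⟨i, j, hij⟩ := exists_max_entry (v := v) u'
  have h1 : v (u' i j) ≤ 1 := by
    by_contra hlt
    push Not at hlt
    have h2 : u' - 1 ∈ vM v n (t * v (u' i j)) := e ▸ neg_mem (vM_mul h hij)
    have h3 : v ((u' - 1) i j + (1 : Matrix n n K) i j) < v (u' i j) :=
      v.map_add_lt ((h2 i j).trans_lt (mul_lt_of_lt_one_left (zero_lt_one.trans hlt) ht))
        ((one_mem_vM i j).trans_lt hlt)
    simp at h3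
  rw [e]
  exact neg_mem (vM_mul_right h (vM_mono h1 hij))

lemma vM_conj {s t : Γ} {a a' x : Matrix n n K} (ha : a - 1 ∈ vM v n s) (ha' : a' - 1 ∈ vM v n s)
    (hs : s ≤ 1) (hx : x ∈ vM v n t) : a * x * a' - x ∈ vM v n (t * s) := by
  have e : a * x * a' - x = (a - 1) * x * a' + x * (a' - 1) := by noncomm_ring
  rw [e]
  refine add_mem (vM_mul_right ?_ (vM_of_sub_one ha' hs)) (vM_mul hx ha')
  rw [mul_comm]; exact vM_mul ha hx

lemma vM_mul_sub_one {t : Γ} {a b : Matrix n n K} (ha : a - 1 ∈ vM v n t) (hb : b - 1 ∈ vM v n t)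
    (ht : t ≤ 1) : a * b - 1 ∈ vM v n t := by
  have e : a * b - 1 = (a - 1) * b + (b - 1) := by noncomm_ring
  rw [e]
  exact add_mem (vM_mul_right ha (vM_of_sub_one hb ht)) hb

lemma vM_pow_sub_one {t : Γ} {a : Matrix n n K} (ha : a - 1 ∈ vM v n t) (ht : t ≤ 1) (k : ℕ) :
    a ^ k - 1 ∈ vM v n t := by
  induction k with
  | zero => simp
  | succ k ih => rw [pow_succ]; exact vM_mul_sub_one ih ha ht

lemma vM_pow_p {p : ℕ} {s t : Γ} {a : Matrix n n K} (ha : a - 1 ∈ vM v n t) (hs : s ≤ 1)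
    (ht : t ≤ s) (hp : v p ≤ s) : a ^ p - 1 ∈ vM v n (t * s) := by
  rw [← mul_geom_sum]
  refine vM_mul ha ?_
  have : ∑ k ∈ Finset.range p, a ^ k = ∑ k ∈ Finset.range p, (a ^ k - 1) + (p : K) • 1 := by
    rw [Finset.sum_sub_distrib]; simp [Nat.cast_smul_eq_nsmul]
  rw [this]
  refine add_mem (sum_mem fun k _ => vM_mono ht (vM_pow_sub_one ha (ht.trans hs) k)) ?_
  simpa using vM_smul hp (one_mem_vM (n := n))

omit [LinearOrderedCommGroupWithZero Γ] in
lemma exists_eigvec {g : Matrix n n K} {μ : K} (h : g.charpoly.IsRoot μ) :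
    ∃ x : n → K, x ≠ 0 ∧ g.mulVec x = μ • x := by
  rw [Polynomial.IsRoot, Matrix.eval_charpoly, ← Matrix.exists_mulVec_eq_zero_iff] at h
  obtain ⟨x, hx, h⟩ := h
  refine ⟨x, hx, ?_⟩
  rw [Matrix.sub_mulVec, sub_eq_zero] at h
  rw [← h]
  ext i; simp

lemma eig_close {g : Matrix n n K} {μ : K} (h : g.charpoly.IsRoot μ) {t : Γ}
    (hg : g - 1 ∈ vM v n t) : v (μ - 1) ≤ t := by
  obtain ⟨x, hx, h⟩ := exists_eigvec h
  obtain ⟨i₀, hi₀⟩ := Function.ne_iff.1 hx
  obtain ⟨i, -, hi⟩ := Finset.univ.exists_max_image (fun i => v (x i)) ⟨i₀, Finset.mem_univ _⟩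
  have h0 : 0 < v (x i) := lt_of_lt_of_le ((Valuation.pos_iff v).2 hi₀) (hi _ (Finset.mem_univ _))
  have e : (μ - 1) * x i = ∑ k, (g - 1) i k * x k := by
    have := congrFun h i
    change _ = (g - 1).mulVec x i
    rw [Matrix.sub_mulVec, Pi.sub_apply, this]
    simp [sub_mul]
  refine le_of_mul_le_mul_right ?_ h0
  rw [← map_mul, e]
  exact v.map_sum_le fun k _ => by
    rw [map_mul]; exact mul_le_mul' (hg i k) (hi k (Finset.mem_univ _))

end

open Filter in
/-- The ultrapower with the valuation that identifies bounded ratios. -/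
lemma exists_ultra {K Γ : Type} [Field K] [LinearOrderedCommGroupWithZero Γ] (v : Valuation K Γ)
    {t : Γ} (ht0 : t ≠ 0) (ht1 : t ≤ 1) {ι : Type} (𝒰 : Ultrafilter ι) :
    ∃ (L : Type) (_ : Field L) (_ : Algebra K L) (Γ' : Type)
      (_ : LinearOrderedCommGroupWithZero Γ') (V : Valuation L Γ') (gm : (ι → K) →ₐ[K] L),
      Function.Surjective gm ∧ ∀ x y, V (gm x) ≤ V (gm y) ↔
        ∃ m : ℕ, ∀ᶠ i in 𝒰, v (x i) * t ^ m ≤ v (y i) := by
  let L : Type := Germ (𝒰 : Filter ι) K
  letI : Field L := inferInstanceAs (Field (Germ (𝒰 : Filter ι) K))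
  let g : (ι → K) →+* L := Germ.coeRingHom _
  letI : Algebra K L := (g.comp (algebraMap K (ι → K))).toAlgebra
  let gm : (ι → K) →ₐ[K] L := { g with commutes' := fun _ => rfl }
  have hs : Function.Surjective g := fun x => Germ.inductionOn x fun f => ⟨f, rfl⟩
  have he : ∀ x y, g x = g y ↔ ∀ᶠ i in 𝒰, x i = y i := fun x y => Germ.coe_eq
  have hinv : ∀ x, (g x)⁻¹ = g x⁻¹ := fun x => rfl
  have anti : ∀ {a b : ℕ}, a ≤ b → t ^ b ≤ t ^ a := fun h => pow_le_pow_of_le_one zero_le ht1 h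
  let B₀ : Subring (ι → K) :=
    { carrier := {x | ∃ m : ℕ, ∀ᶠ i in 𝒰, v (x i) * t ^ m ≤ 1}
      mul_mem' := by
        rintro x y ⟨a, ha⟩ ⟨b, hb⟩
        refine ⟨a + b, ?_⟩
        filter_upwards [ha, hb] with i h1 h2
        rw [Pi.mul_apply, map_mul, pow_add, mul_mul_mul_comm]
        exact mul_le_one' h1 h2
      one_mem' := ⟨0, by simp⟩
      add_mem' := by
        rintro x y ⟨a, ha⟩ ⟨b, hb⟩
        refine ⟨max a b, ?_⟩
        filter_upwards [ha, hb] with i h1 h2
        refine (mul_le_mul_left (v.map_add _ _) _).trans ?_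
        rw [max_mul]
        exact max_le ((mul_le_mul_right (anti (le_max_left _ _)) _).trans h1)
          ((mul_le_mul_right (anti (le_max_right _ _)) _).trans h2)
      zero_mem' := ⟨0, by simp⟩
      neg_mem' := by
        rintro x ⟨a, ha⟩
        exact ⟨a, by simpa using ha⟩ }
  have hB : ∀ x, g x ∈ B₀.map g ↔ x ∈ B₀ := by
    intro x
    refine ⟨?_, fun h => ⟨x, h, rfl⟩⟩
    rintro ⟨y, ⟨m, hm⟩, hy⟩
    refine ⟨m, ?_⟩
    filter_upwards [hm, (he _ _).1 hy] with i h1 h2
    rwa [← h2]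
  let B : ValuationSubring L :=
    { B₀.map g with
      mem_or_inv_mem' := by
        intro x
        obtain ⟨x, rfl⟩ := hs x
        rcases 𝒰.em (fun i => v (x i) ≤ 1) with h | h
        · exact Or.inl ⟨x, ⟨0, by simpa using h⟩, rfl⟩
        · refine Or.inr ⟨x⁻¹, ⟨0, ?_⟩, rfl⟩
          filter_upwards [h] with i hi
          rw [pow_zero, mul_one, Pi.inv_apply, map_inv₀]
          exact inv_le_one_of_one_le₀ (not_le.1 hi).le }
  refine ⟨L, inferInstance, inferInstance, B.ValueGroup, inferInstance, B.valuation, gm, hs,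
    fun x y => ?_⟩
  change B.valuation (g x) ≤ B.valuation (g y) ↔ _
  rw [B.valuation_le_iff]
  constructor
  · rintro ⟨⟨_, b, ⟨m, hm⟩, rfl⟩, h⟩
    refine ⟨m, ?_⟩
    filter_upwards [hm, (he (b * y) x).1 ((map_mul g b y).trans h)] with i h1 h2
    rw [← h2, Pi.mul_apply, map_mul, mul_right_comm]
    exact mul_le_of_le_one_left zero_le h1
  · rintro ⟨m, hm⟩
    refine ⟨⟨g (x * y⁻¹), x * y⁻¹, ⟨m, ?_⟩, rfl⟩, ?_⟩
    · filter_upwards [hm] with i hi
      rw [Pi.mul_apply, Pi.inv_apply, map_mul, map_inv₀, mul_right_comm]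
      exact mul_inv_le_one_of_le₀ hi zero_le
    · refine (map_mul g _ _).symm.trans ((he _ _).2 ?_)
      filter_upwards [hm] with i hi
      by_cases h : y i = 0
      · rw [h, map_zero, le_zero_iff, mul_eq_zero, map_eq_zero] at hi
        simp [h, hi.resolve_right (pow_ne_zero _ ht0)]
      · simp [h]

lemma descent {K Ω κ : Type} [Field K] [Field Ω] [Algebra K Ω] [Fintype κ] (s : Set (κ → K))
    (t : κ → Ω) (h : ∀ ℓ : κ → K, (∀ y ∈ s, ∑ i, ℓ i * y i = 0) →
      ∑ i, algebraMap K Ω (ℓ i) * t i = 0) :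
    t ∈ Submodule.span Ω ((fun y i => algebraMap K Ω (y i)) '' s) := by
  classical
  obtain ⟨W, hW⟩ := (Submodule.span K s).exists_isCompl
  let P := Submodule.projection _ _ hW
  have hP : ∀ y : κ → K, ∀ i, P y i = ∑ j, P (Pi.single j 1) i * y j := by
    intro y i
    conv_lhs => rw [pi_eq_sum_univ' y, map_sum, Finset.sum_apply]
    refine Finset.sum_congr rfl fun j _ => ?_
    rw [map_smul, Pi.smul_apply, smul_eq_mul, mul_comm]
  have e : t = ∑ j, t j • fun i => algebraMap K Ω (P (Pi.single j 1) i) := by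
    funext i
    have := h (Pi.single i 1 - fun j => P (Pi.single j 1) i) (fun y hy => by
      simp only [Pi.sub_apply, sub_mul, Finset.sum_sub_distrib, ← hP]
      rw [Submodule.projection_apply_left hW ⟨y, Submodule.subset_span hy⟩]
      simp [Pi.single_apply])
    simp only [Pi.sub_apply, map_sub, sub_mul, Finset.sum_sub_distrib, sub_eq_zero] at this
    simp only [Finset.sum_apply, Pi.smul_apply, smul_eq_mul, mul_comm (t _), ← this]
    simp [Pi.single_apply]
  rw [e]
  refine sum_mem fun j _ => Submodule.smul_mem _ _ ?_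
  have hj : P (Pi.single j 1) ∈ Submodule.span K s := Submodule.projection_apply_mem hW _
  generalize P (Pi.single j 1) = y at hj
  induction hj using Submodule.span_induction with
  | mem x hx => exact Submodule.subset_span ⟨x, hx, rfl⟩
  | zero => simp only [Pi.zero_apply, map_zero]; exact zero_mem _
  | add x y _ _ hx hy => simp only [Pi.add_apply, map_add]; exact add_mem hx hy
  | smul c x _ hx =>
    simp only [Pi.smul_apply, smul_eq_mul, map_mul]
    exact Submodule.smul_mem _ (algebraMap K Ω c) hx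

lemma exists_chi {K Λ : Type} [Field K] [Fintype Λ] (e : Λ → Kˣ) (u : Kˣ)
    (hu : ∀ N : ℕ, N ≠ 0 → u ^ N ≠ 1) : ∃ (χ : Kˣ → ℚ) (w : Λ → ℤ),
      (∀ u v, χ (u * v) = χ u + χ v) ∧ (∀ μ, χ (e μ) = w μ) ∧ 0 < χ u := by
  obtain ⟨h, hh⟩ := (Module.Baer.of_divisible ℚ).extension_property_addMonoidHom
    (zmultiplesHom (Additive Kˣ) (Additive.ofMul u)) (by
      rw [injective_iff_map_eq_zero]
      intro a ha
      by_contra h0
      have h1 : u ^ a = 1 := ha
      exact hu a.natAbs (by omega) (by rwa [pow_natAbs_eq_one])) (Int.castAddHom ℚ)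
  have h1 : h (Additive.ofMul u) = 1 := by simpa using DFunLike.congr_fun hh 1
  let D : ℕ := ∏ μ, (h (Additive.ofMul (e μ))).den
  have hD : 0 < D := Finset.prod_pos fun μ _ => Rat.den_pos _
  have : ∀ μ, ∃ w : ℤ, D * h (Additive.ofMul (e μ)) = w := by
    intro μ
    obtain ⟨c, hc⟩ : (h (Additive.ofMul (e μ))).den ∣ D := Finset.dvd_prod_of_mem _ (by simp)
    refine ⟨c * (h (Additive.ofMul (e μ))).num, ?_⟩
    rw [hc]; push_cast
    rw [mul_comm _ (c : ℚ), mul_assoc, Rat.den_mul_eq_num]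
  choose w hw using this
  refine ⟨fun u => D * h (Additive.ofMul u), w, fun u v => by simp only [ofMul_mul, map_add, mul_add],
    hw, ?_⟩
  simp only [h1, mul_one]; exact_mod_cast hD

section
variable {K n H : Type} [Field K] [Fintype n] [DecidableEq n] [Group H]

/-- extension of scalars -/
def ext (ρ : H →* Matrix n n K) (A : Type) [CommRing A] [Algebra K A] : H →* Matrix n n A :=
  (algebraMap K A).mapMatrix.toMonoidHom.comp ρ

lemma ext_apply (ρ : H →* Matrix n n K) (A : Type) [CommRing A] [Algebra K A] (h : H) :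
    ext ρ A h = (algebraMap K A).mapMatrix (ρ h) := rfl

lemma SB.ext {ρ : H →* Matrix n n K} (h : SB ρ) (Ω : Type) [Field Ω] [Algebra K Ω] :
    SB (ext ρ Ω) := by
  intro N hN
  have key : ∀ x : Matrix n n K,
      (algebraMap K Ω).mapMatrix x ∈ Submodule.span Ω (Tits.ext ρ Ω '' N) := by
    intro x
    have hx : x ∈ Submodule.span K (ρ '' N) := (h N hN).symm ▸ Submodule.mem_top
    induction hx using Submodule.span_induction with
    | mem x hx => obtain ⟨g, hg, rfl⟩ := hx; exact Submodule.subset_span ⟨g, hg, rfl⟩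
    | zero => simp
    | add x y _ _ hx hy => rw [map_add]; exact add_mem hx hy
    | smul c x _ hx =>
      have : (algebraMap K Ω).mapMatrix (c • x) =
          algebraMap K Ω c • (algebraMap K Ω).mapMatrix x := by ext; simp
      rw [this]; exact Submodule.smul_mem _ _ hx
  rw [eq_top_iff]
  intro x _
  rw [Matrix.matrix_eq_sum_single x]
  refine sum_mem fun i _ => sum_mem fun j _ => ?_
  have : Matrix.single i j (x i j) = x i j • (algebraMap K Ω).mapMatrix (Matrix.single i j 1) := by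
    rw [RingHom.mapMatrix_apply, Matrix.map_single, map_one, Matrix.smul_single]; simp
  rw [this]; exact Submodule.smul_mem _ _ (key _)

lemma cjRep_pow {Ω : Type} [Field Ω] [Algebra K Ω] (ρ : H →* Matrix n n Ω) (g : H)
    (x : Matrix n n Ω) (k m : ℕ) :
    ((shift K (Matrix n n Ω) - (1 : K) • (1 : Module.End K (ℕ → Matrix n n Ω))) ^ k)
      (fun m => ρ g ^ m * x * ρ g⁻¹ ^ m) m =
      ρ g ^ m * ((cjRep ρ g - 1) ^ k) x * ρ g⁻¹ ^ m := by
  induction k generalizing m with
  | zero => rfl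
  | succ k ih =>
    rw [pow_succ', pow_succ', Module.End.mul_apply, Module.End.mul_apply, LinearMap.sub_apply,
      Pi.sub_apply, shift_apply, ih, LinearMap.smul_apply, Module.End.one_apply, Pi.smul_apply,
      ih, one_smul, LinearMap.sub_apply, Module.End.one_apply, mul_sub, sub_mul, pow_succ, pow_succ']
    congr 1
    change _ = ρ g ^ m * (ρ g * _ * ρ g⁻¹) * _
    simp only [mul_assoc]

lemma unip_of_blocks {Λ : Type} [Fintype Λ] (ρ : H →* Matrix n n K) (g : H) (e : Λ → Kˣ)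
    (π : Λ → Matrix n n K) (hs : ∑ μ, π μ = 1)
    (hπ : ∀ μ, (fun m => ρ g ^ m * π μ) ∈ (shift K _).maxGenEigenspace (e μ : K) ∧
      (fun m => π μ * ρ g⁻¹ ^ m) ∈ (shift K _).maxGenEigenspace (((e μ)⁻¹ : Kˣ) : K))
    (Ω : Type) [Field Ω] [Algebra K Ω] (x : Matrix n n Ω)
    (hx : ∀ μ ν, μ ≠ ν → (algebraMap K Ω).mapMatrix (π μ) * x *
      (algebraMap K Ω).mapMatrix (π ν) = 0) :
    ∃ k : ℕ, ((cjRep (ext ρ Ω) g - 1) ^ k) x = 0 := by
  classical
  have h1 : (fun m => ext ρ Ω g ^ m * x * ext ρ Ω g⁻¹ ^ m) ∈ (shift K _).maxGenEigenspace 1 := by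
    have e1 : x = ∑ μ, (algebraMap K Ω).mapMatrix (π μ) * x * (algebraMap K Ω).mapMatrix (π μ) := by
      conv_lhs => rw [← one_mul x, ← mul_one (1 * x), ← map_one (algebraMap K Ω).mapMatrix, ← hs,
        map_sum, Finset.sum_mul, Finset.sum_mul]
      refine Finset.sum_congr rfl fun μ _ => ?_
      rw [Finset.mul_sum, Finset.sum_eq_single μ (fun ν _ h => hx μ ν h.symm) (by simp)]
    have e2 : (fun m => ext ρ Ω g ^ m * x * ext ρ Ω g⁻¹ ^ m) = ∑ μ,
        ((Algebra.ofId K Ω).mapMatrix.toLinearMap ∘ fun m => ρ g ^ m * π μ) * (fun _ => x) *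
        ((Algebra.ofId K Ω).mapMatrix.toLinearMap ∘ fun m => π μ * ρ g⁻¹ ^ m) := by
      funext m
      conv_lhs => rw [e1, Finset.mul_sum, Finset.sum_mul]
      rw [Finset.sum_apply]
      refine Finset.sum_congr rfl fun μ _ => ?_
      simp only [Pi.mul_apply, Function.comp_apply, AlgHom.toLinearMap_apply, map_mul, map_pow,
        mul_assoc]
      rfl
    rw [e2]
    refine sum_mem fun μ _ => ?_
    have := genEig_mul (A := Matrix n n Ω) (genEig_mul (A := Matrix n n Ω)
      (genEig_map (Algebra.ofId K Ω).mapMatrix.toLinearMap (hπ μ).1) (genEig_const x))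
      (genEig_map (Algebra.ofId K Ω).mapMatrix.toLinearMap (hπ μ).2)
    rwa [mul_one, Units.mul_inv] at this
  obtain ⟨k, hk⟩ := (Module.End.mem_maxGenEigenspace _ _ _).1 h1
  refine ⟨k, ?_⟩
  have := cjRep_pow (K := K) (ext ρ Ω) g x k 0
  rw [hk] at this
  simpa using this.symm

end

end Pool.Agent.Lib.MP_c0708e_al.Tits
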