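import Pool.Agent.Lib.MP_c0708e_al.TGrp

/-! Rank one valuations on Noetherian domains and the Noetherian case. -/

set_option linter.style.haveILetI false

namespace Pool.Agent.Lib.MP_c0708e_al.Tits

open Filter Topology

lemma exists_val (D : Type) [CommRing D] [IsDomain D] [IsNoetherianRing D] (𝔜 : Ideal D)
    (h1 : 𝔜 ≠ ⊤) (h0 : 𝔜 ≠ ⊥) : ∃ (K : Type) (_ : Field K) (_ : IsAlgClosed K) (φ : D →+* K)
      (Γ : Type) (_ : LinearOrderedCommGroupWithZero Γ) (v : Valuation K Γ) (t : Γ),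
      Function.Injective φ ∧ t ≠ 0 ∧ t < 1 ∧ (∀ x : K, x ≠ 0 → ∃ m : ℕ, t ^ m ≤ v x) ∧
      (∀ x, v (φ x) ≤ 1) ∧ ∀ x ∈ 𝔜, v (φ x) ≤ t := by
  classical
  let K := AlgebraicClosure (FractionRing D)
  let φ := algebraMap D K
  have hφ : Function.Injective φ := by
    rw [show φ = (algebraMap (FractionRing D) K).comp (algebraMap D _) from
      IsScalarTower.algebraMap_eq _ _ _]
    exact (algebraMap (FractionRing D) K).injective.comp (IsFractionRing.injective D _)
  haveI : Algebra.IsAlgebraic D K :=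
    (IsFractionRing.comap_isAlgebraic_iff (K := FractionRing D)).2 inferInstance
  obtain ⟨B₀, hB₀, hB₀'⟩ := Ideal.image_subset_nonunits_valuationSubring
    (𝔜.map φ.rangeRestrict) (by
      rw [Ne, Ideal.eq_top_iff_one, Ideal.mem_map_iff_of_surjective _ φ.rangeRestrict_surjective]
      rintro ⟨x, hx, hx1⟩
      have : x = 1 := hφ ((congrArg Subtype.val hx1).trans (map_one φ).symm)
      exact h1 ((Ideal.eq_top_iff_one _).2 (this ▸ hx)))
  obtain ⟨s, hs⟩ := IsNoetherian.noetherian 𝔜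
  obtain ⟨y₀, hy₀, hy₀0⟩ : ∃ y ∈ s, y ≠ 0 := by
    by_contra h
    push Not at h
    exact h0 (hs ▸ Submodule.span_eq_bot.2 h)
  obtain ⟨y, hy, hmax⟩ := s.exists_max_image (fun x => B₀.valuation (φ x)) ⟨y₀, hy₀⟩
  have hy0 : φ y ≠ 0 := by
    intro h
    have := hmax y₀ hy₀
    rw [h, map_zero, le_zero_iff, map_eq_zero, map_eq_zero_iff _ hφ] at this
    exact hy₀0 this
  let D' := Algebra.adjoin D ((fun x => φ x / φ y) '' s)
  have hD'B : ∀ x ∈ D', x ∈ B₀ := by
    intro x hx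
    induction hx using Algebra.adjoin_induction with
    | mem x hx =>
      obtain ⟨x, hx, rfl⟩ := hx
      rw [← B₀.valuation_le_one_iff, map_div₀]
      exact div_le_one_of_le₀ (hmax x hx) zero_le
    | algebraMap r => exact hB₀ ⟨r, rfl⟩
    | add x y _ _ hx hy => exact add_mem hx hy
    | mul x y _ _ hx hy => exact mul_mem hx hy
  haveI : IsNoetherianRing D'.toSubring := isNoetherianRing_of_fg (S := D')
    (Subalgebra.fg_def.2 ⟨_, s.finite_toSet.image _, rfl⟩)
  let y' : D'.toSubring := ⟨φ y, D'.algebraMap_mem y⟩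
  obtain ⟨𝔮, h𝔮⟩ := Ideal.nonempty_minimalPrimes (I := Ideal.span {y'}) (by
    rw [Ne, Ideal.span_singleton_eq_top, isUnit_iff_exists_inv]
    rintro ⟨z, hz⟩
    have h2 : B₀.valuation (φ y) < 1 := B₀.mem_nonunits_iff.1 (hB₀' ⟨_, Ideal.mem_map_of_mem _
      (hs ▸ Submodule.subset_span hy : y ∈ 𝔜), rfl⟩)
    have h3 := mul_lt_one_of_nonneg_of_lt_one_left zero_le h2
      ((B₀.valuation_le_one_iff _).2 (hD'B z z.2))
    rw [← map_mul, show φ y * z = 1 from congrArg Subtype.val hz, map_one] at h3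
    exact lt_irrefl _ h3)
  haveI := h𝔮.isPrime
  have hht := Ideal.height_le_one_of_isPrincipal_of_mem_minimalPrimes _ _ h𝔮
  obtain ⟨B, hB, hB'⟩ := Ideal.image_subset_nonunits_valuationSubring
    (IsLocalRing.maximalIdeal (LocalSubring.ofPrime D'.toSubring 𝔮).toSubring)
    (IsLocalRing.maximalIdeal.isMaximal _).ne_top
  have hle : ∀ x ∈ D', B.valuation x ≤ 1 := fun x hx =>
    (B.valuation_le_one_iff _).2 (hB (LocalSubring.le_ofPrime D'.toSubring 𝔮 hx))
  have hlt : ∀ x ∈ 𝔮, B.valuation x < 1 := fun x hx => B.mem_nonunits_iff.1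
    (hB' ⟨_, (IsLocalization.AtPrime.to_map_mem_maximal_iff _ 𝔮 x).2 hx, rfl⟩)
  have hge : ∀ x : D'.toSubring, B.valuation x < 1 → x ∈ 𝔮 := by
    intro x hx
    by_contra h
    obtain ⟨z, hz⟩ := isUnit_iff_exists_inv.1 ((IsLocalization.AtPrime.isUnit_to_map_iff
      (LocalSubring.ofPrime D'.toSubring 𝔮).toSubring 𝔮 x).2 h)
    have h3 := mul_lt_one_of_nonneg_of_lt_one_left zero_le hx
      ((B.valuation_le_one_iff _).2 (hB z.2))
    rw [← map_mul, show (x : K) * z = 1 from congrArg Subtype.val hz, map_one] at h3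
    exact lt_irrefl _ h3
  have ht0 : B.valuation (φ y) ≠ 0 := (Valuation.ne_zero_iff _).2 hy0
  let 𝔭 : Ideal D'.toSubring :=
    { carrier := {x | ∀ m : ℕ, B.valuation x < B.valuation (φ y) ^ m}
      add_mem' := fun hx hy m => B.valuation.map_add_lt (hx m) (hy m)
      zero_mem' := fun m => by simpa using pow_pos (zero_lt_iff.2 ht0) m
      smul_mem' := fun c x hx m => by
        change B.valuation (c * x) < _
        rw [map_mul]
        exact (mul_le_of_le_one_left zero_le (hle _ c.2)).trans_lt (hx m) }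
  haveI : 𝔭.IsPrime := ⟨fun h => by
      simpa using (h ▸ Submodule.mem_top : (1 : D'.toSubring) ∈ 𝔭) 0, fun {a b} hab => by
    by_contra h
    simp only [not_or] at h
    obtain ⟨m, hm⟩ := not_forall.1 h.1
    obtain ⟨m', hm'⟩ := not_forall.1 h.2
    have := hab (m + m')
    rw [Subring.coe_mul, map_mul, pow_add] at this
    exact absurd (mul_le_mul' (not_lt.1 hm) (not_lt.1 hm')) (not_le.2 this)⟩
  have hy𝔮 : y' ∈ 𝔮 := h𝔮.1.2 (Ideal.mem_span_singleton_self _)
  have h𝔭 : 𝔭 = ⊥ := by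
    have hlt' : 𝔭 < 𝔮 := lt_of_le_of_ne (fun x hx => hge x (by simpa using hx 0)) fun h => by
      simpa [y'] using (h ▸ hy𝔮 : y' ∈ 𝔭) 1
    have := (Ideal.height_add_one_le_of_lt_of_isPrime hlt').trans hht
    rw [← Ideal.height_eq_zero_iff_eq_bot]
    by_contra h
    have h2 := (add_le_add_left (Order.one_le_iff_ne_zero.2 h) 1).trans this
    exact absurd h2 (by decide)
  have hA : ∀ r : D, r ≠ 0 → ∃ m : ℕ, B.valuation (φ y) ^ m ≤ B.valuation (φ r) := by
    intro r hr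
    by_contra h
    push Not at h
    have : (⟨φ r, D'.algebraMap_mem r⟩ : D'.toSubring) ∈ 𝔭 := h
    rw [h𝔭, Ideal.mem_bot] at this
    exact hr (hφ ((congrArg Subtype.val this).trans (map_zero φ).symm))
  refine ⟨K, inferInstance, inferInstance, φ, _, inferInstance, B.valuation, B.valuation (φ y),
    hφ, ht0, hlt _ hy𝔮, fun x hx => ?_, fun x => hle _ (D'.algebraMap_mem x), fun x hx => ?_⟩
  · by_cases h : 1 ≤ B.valuation x
    · exact ⟨0, by simpa using h⟩
    obtain ⟨z, hz, r, hr, e⟩ := (Algebra.IsAlgebraic.isAlgebraic (R := D) x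
      ).exists_nonzero_eq_adjoin_mul (mem_nonZeroDivisors_of_ne_zero hx)
    obtain ⟨m, hm⟩ := hA r hr
    have hz1 : z ∈ B := by
      clear e
      induction hz using Algebra.adjoin_induction with
      | mem z hz => rw [hz, ← B.valuation_le_one_iff]; exact (not_le.1 h).le
      | algebraMap r => exact (B.valuation_le_one_iff _).1 (hle _ (D'.algebraMap_mem r))
      | add x y _ _ hx hy => exact add_mem hx hy
      | mul x y _ _ hx hy => exact mul_mem hx hy
    refine ⟨m, hm.trans ?_⟩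
    rw [← e, map_mul]
    exact mul_le_of_le_one_right zero_le ((B.valuation_le_one_iff _).2 hz1)
  · rw [← hs] at hx
    induction hx using Submodule.span_induction with
    | mem x hx =>
      have := hle _ (Algebra.subset_adjoin ⟨x, hx, rfl⟩)
      rwa [map_div₀, div_le_one₀ (zero_lt_iff.2 ht0)] at this
    | zero => simp
    | add a b _ _ ha hb => rw [map_add]; exact B.valuation.map_add_le ha hb
    | smul c a _ ha =>
      rw [smul_eq_mul, map_mul, map_mul]
      exact (mul_le_of_le_one_left zero_le (hle _ (D'.algebraMap_mem c))).trans ha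

/-- words that tend to the identity under all substitutions -/
def lawF (G : Type) [Group G] [TopologicalSpace G] : Filter (FreeGroup Bool) :=
  ⨅ ab : Bool → G, comap (FreeGroup.lift ab) (𝓝 1)

lemma lift_map {α H G : Type} [Group H] [Group G] (π : H →* G) (h : α → H) (w : FreeGroup α) :
    π (FreeGroup.lift h w) = FreeGroup.lift (fun β => π (h β)) w := by
  have : π.comp (FreeGroup.lift h) = FreeGroup.lift (fun β => π (h β)) := by ext; simp
  exact DFunLike.congr_fun this w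

lemma IsProP.pow_mem {p : ℕ} {G : ProfiniteGrp.{0}} (hG : IsProP p G) (U : OpenNormalSubgroup G)
    (g : G) : ∃ a : ℕ, g ^ p ^ a ∈ U.toSubgroup := by
  obtain ⟨a, ha⟩ := hG U g
  exact ⟨a, (QuotientGroup.eq_one_iff _).1 ha⟩

instance {G : ProfiniteGrp.{0}} (U : OpenNormalSubgroup G) : U.toSubgroup.FiniteIndex :=
  haveI := Subgroup.quotient_finite_of_isOpen U.toSubgroup U.isOpen'
  Subgroup.finiteIndex_of_finite_quotient

theorem final_domain {p : ℕ} [Fact p.Prime] (hp : p ≠ 2) {G : ProfiniteGrp.{0}} (hG : IsProP p G)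
    {D n H : Type} [CommRing D] [IsDomain D] [IsNoetherianRing D] [Fintype n] [DecidableEq n]
    [Group H] (𝔜 : Ideal D) (h1 : 𝔜 ≠ ⊤) (hpY : (p : D) ∈ 𝔜) (π : H →* G)
    (ρ : H →* Matrix n n D) (hNS : NS ρ)
    (hc : ∀ m : ℕ, ∃ U : OpenNormalSubgroup G, ∀ γ, π γ ∈ U.toSubgroup →
      ρ γ - 1 ∈ (𝔜 ^ m).matrix n) (k : ℕ) : ∀ᶠ w in lawF G, Good p k w := by
  have hfi : ∀ U : OpenNormalSubgroup G, (U.toSubgroup.comap π).FiniteIndex := fun U =>
    ⟨by rw [Subgroup.index_comap]; exact Subgroup.FiniteIndex.index_ne_zero⟩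
  obtain ⟨K, _, _, φ, Γ, _, v, t, hφ, ht0, ht1, hA, hv1, hvt⟩ := exists_val D 𝔜 h1 (by
    rintro rfl
    obtain ⟨U, hU⟩ := hc 1
    haveI := hfi U
    obtain ⟨g, -, hg⟩ := hNS.sub (U.toSubgroup.comap π) (fun g => by
      obtain ⟨a, ha⟩ := hG.pow_mem U (π g)
      exact ⟨a, by rwa [Subgroup.mem_comap, map_pow]⟩) 0
    exact hg (sub_eq_zero.1 (Matrix.ext fun i j => by simpa using hU g g.2 i j)))
  have hvm : ∀ m : ℕ, ∀ x ∈ 𝔜 ^ m, v (φ x) ≤ t ^ m := by
    intro m
    induction m with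
    | zero => intro x _; simpa using hv1 x
    | succ m ih =>
      intro x hx
      rw [pow_succ] at hx
      refine Submodule.mul_induction_on hx (fun a ha b hb => ?_) fun a b ha hb => ?_
      · rw [map_mul, map_mul, pow_succ]; exact mul_le_mul' (ih a ha) (hvt b hb)
      · rw [map_add]; exact v.map_add_le ha hb
  let ρ' : Representation K H (n → K) :=
    (Matrix.toLinAlgEquiv'.toRingEquiv.toRingHom.comp φ.mapMatrix).toMonoidHom.comp ρ
  have key : ∀ (m : ℕ) (ℓ : Module.Dual K (n → K)) (x : n → K), ∃ U : OpenNormalSubgroup G,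
      ∀ γ, π γ ∈ U.toSubgroup → v (ℓ (ρ' γ x - x)) ≤ t ^ m := by
    intro m ℓ x
    have : ∀ q : n × n, ∃ m' : ℕ, v (x q.2 * ℓ (Pi.single q.1 1)) * t ^ m' ≤ 1 := by
      intro q
      by_cases h : x q.2 * ℓ (Pi.single q.1 1) = 0
      · exact ⟨0, by simp [h]⟩
      obtain ⟨m', hm'⟩ := hA _ (inv_ne_zero h)
      refine ⟨m', (mul_le_mul_right hm' _).trans (le_of_eq ?_)⟩
      rw [← map_mul, mul_inv_cancel₀ h, map_one]
    choose m' hm' using this
    obtain ⟨U, hU⟩ := hc (m + Finset.univ.sup m')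
    refine ⟨U, fun γ hγ => ?_⟩
    have e : ℓ (ρ' γ x - x) = ∑ i, ∑ j, φ ((ρ γ - 1) i j) * (x j * ℓ (Pi.single i 1)) := by
      have : ρ' γ x - x = (φ.mapMatrix (ρ γ - 1)).mulVec x := by
        rw [map_sub, map_one, Matrix.sub_mulVec, Matrix.one_mulVec]; rfl
      rw [this, pi_eq_sum_univ' (Matrix.mulVec _ _), map_sum]
      refine Finset.sum_congr rfl fun i _ => ?_
      rw [map_smul, smul_eq_mul, Matrix.mulVec, dotProduct, Finset.sum_mul]
      simp only [mul_assoc]; rfl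
    rw [e]
    refine v.map_sum_le fun i _ => v.map_sum_le fun j _ => ?_
    rw [map_mul]
    refine (mul_le_mul_left (hvm _ _ (hU γ hγ i j)) _).trans ?_
    rw [pow_add, mul_assoc]
    refine mul_le_of_le_one_right zero_le (le_trans ?_ (hm' (i, j)))
    rw [mul_comm]
    exact mul_le_mul_right (pow_le_pow_of_le_one zero_le ht1.le
      (Finset.le_sup (Finset.mem_univ (i, j)))) _
  refine stageC p hp ht0 ht1 hA (by simpa using hvt _ hpY) (lawF G) k _ (n → K) rfl H ρ'
    (fun m ℓ x => ?_) (fun h m ℓ x => ?_) (fun j => ?_)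
  · obtain ⟨U, hU⟩ := key m ℓ x
    refine ⟨U.toSubgroup.comap π, hfi U, fun g => ?_, hU⟩
    obtain ⟨a, ha⟩ := hG.pow_mem U (π g)
    exact ⟨a, by rwa [Subgroup.mem_comap, map_pow]⟩
  · obtain ⟨U, hU⟩ := key m ℓ x
    have : ∀ᶠ w in comap (FreeGroup.lift fun β => π (h β)) (𝓝 (1 : G)),
        FreeGroup.lift (fun β => π (h β)) w ∈ U.toSubgroup :=
      preimage_mem_comap (U.toOpenSubgroup.mem_nhds_one)
    refine (this.filter_mono (iInf_le (fun ab : Bool → G =>
      comap (FreeGroup.lift ab) (𝓝 1)) _)).mono fun w hw => hU _ ?_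
    rwa [lift_map]
  · obtain ⟨g, hg, hg1⟩ := hNS j
    refine ⟨g, hg, fun h => hg1 (Matrix.map_injective hφ ?_)⟩
    have : φ.mapMatrix (ρ g) = φ.mapMatrix 1 :=
      Matrix.toLinAlgEquiv'.injective (h.trans (by simp))
    exact this

theorem final_noeth {p : ℕ} [Fact p.Prime] (hp : p ≠ 2) {G : ProfiniteGrp.{0}} (hG : IsProP p G)
    {A n H : Type} [CommRing A] [Fintype n] [DecidableEq n] [IsNoetherianRing A]
    [Group H] (𝔜 : Ideal A) (P : Ideal A) [P.IsPrime] (h1 : 𝔜 ⊔ P ≠ ⊤) (hpY : (p : A) ∈ 𝔜)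
    (π : H →* G) (ρ : H →* Matrix n n A)
    (hNS : NS ((Ideal.Quotient.mk P).mapMatrix.toMonoidHom.comp ρ))
    (hc : ∀ m : ℕ, ∃ U : OpenNormalSubgroup G, ∀ γ, π γ ∈ U.toSubgroup →
      ρ γ - 1 ∈ (𝔜 ^ m).matrix n) (k : ℕ) : ∀ᶠ w in lawF G, Good p k w := by
  refine final_domain hp hG (𝔜.map (Ideal.Quotient.mk P)) (fun h => h1 ?_)
    (by simpa using Ideal.mem_map_of_mem (Ideal.Quotient.mk P) hpY) π _ hNS (fun m => ?_) k
  · have := congrArg (Ideal.comap (Ideal.Quotient.mk P)) h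
    rwa [Ideal.comap_map_of_surjective' _ Ideal.Quotient.mk_surjective, Ideal.mk_ker,
      Ideal.comap_top] at this
  · obtain ⟨U, hU⟩ := hc m
    refine ⟨U, fun γ hγ i j => ?_⟩
    have := Ideal.mem_map_of_mem (Ideal.Quotient.mk P) (hU γ hγ i j)
    rw [Ideal.map_pow] at this
    rw [← map_one (Ideal.Quotient.mk P).mapMatrix]
    change ((Ideal.Quotient.mk P).mapMatrix _ - _) i j ∈ _
    rw [← map_sub]
    exact this

end Pool.Agent.Lib.MP_c0708e_al.Tits
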