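import Pool.Agent.Lib.MP_c0708e_al.TShift

/-! Weight systems on matrix algebras. -/

namespace Pool.Agent.Lib.MP_c0708e_al.Tits

/-- A complete family of orthogonal idempotents with integer weights. -/
structure WS (Λ n A : Type) [Fintype Λ] [Fintype n] [DecidableEq n] [CommRing A] where
  π : Λ → Matrix n n A
  w : Λ → ℤ
  sum : ∑ μ, π μ = 1
  orth : ∀ μ ν, μ ≠ ν → π μ * π ν = 0

namespace WS

variable {Λ n A : Type} [Fintype Λ] [Fintype n] [DecidableEq n] [CommRing A] (S : WS Λ n A)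

lemma idem (μ : Λ) : S.π μ * S.π μ = S.π μ := by
  classical
  conv_rhs => rw [← mul_one (S.π μ), ← S.sum, Finset.mul_sum]
  rw [Finset.sum_eq_single μ (fun ν _ h => S.orth μ ν h.symm) (by simp)]

/-- base change -/
def map {A' : Type} [CommRing A'] (f : A →+* A') : WS Λ n A' where
  π μ := f.mapMatrix (S.π μ)
  w := S.w
  sum := by rw [← map_sum, S.sum, map_one]
  orth μ ν h := by rw [← map_mul, S.orth μ ν h, map_zero]

/-- opposite weights -/
def neg : WS Λ n A where
  π := S.π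
  w μ := -S.w μ
  sum := S.sum
  orth := S.orth

/-- projection to weight `a` -/
def P (a : ℤ) : Matrix n n A →ₗ[A] Matrix n n A :=
  ∑ μ, ∑ ν, if S.w μ - S.w ν = a then
    (LinearMap.mulRight A (S.π ν)).comp (LinearMap.mulLeft A (S.π μ)) else 0

lemma P_apply (a : ℤ) (x : Matrix n n A) :
    S.P a x = ∑ μ, ∑ ν, if S.w μ - S.w ν = a then S.π μ * x * S.π ν else 0 := by
  simp only [P, LinearMap.sum_apply]
  refine Finset.sum_congr rfl fun μ _ => Finset.sum_congr rfl fun ν _ => ?_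
  split_ifs <;> rfl

lemma P_neg (a : ℤ) : S.neg.P a = S.P (-a) := by
  ext1 x
  simp only [P_apply, neg]
  refine Finset.sum_congr rfl fun μ _ => Finset.sum_congr rfl fun ν _ => ?_
  exact if_congr (by omega) rfl rfl

lemma P_map {A' : Type} [CommRing A'] (f : A →+* A') (a : ℤ) (x : Matrix n n A) :
    f.mapMatrix (S.P a x) = (S.map f).P a (f.mapMatrix x) := by
  simp only [P_apply, map_sum, map]
  refine Finset.sum_congr rfl fun μ _ => Finset.sum_congr rfl fun ν _ => ?_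
  split_ifs
  · rw [map_mul, map_mul]
  · rw [map_zero]

/-- homogeneous elements -/
def Wt (a : ℤ) : Submodule A (Matrix n n A) where
  carrier := {x | ∀ μ ν, S.w μ - S.w ν ≠ a → S.π μ * x * S.π ν = 0}
  add_mem' := fun hx hy μ ν h => by rw [mul_add, add_mul, hx μ ν h, hy μ ν h, add_zero]
  zero_mem' := fun μ ν _ => by simp
  smul_mem' := fun c x hx μ ν h => by
    rw [mul_smul_comm, smul_mul_assoc, hx μ ν h, smul_zero]

lemma block_P (a : ℤ) (x : Matrix n n A) (μ ν : Λ) :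
    S.π μ * S.P a x * S.π ν = if S.w μ - S.w ν = a then S.π μ * x * S.π ν else 0 := by
  classical
  rw [P_apply, Finset.mul_sum, Finset.sum_mul, Finset.sum_eq_single μ _ (by simp),
    Finset.mul_sum, Finset.sum_mul, Finset.sum_eq_single ν _ (by simp)]
  · split_ifs
    · rw [← mul_assoc, ← mul_assoc, S.idem, mul_assoc, S.idem]
    · simp
  · intro b _ hb
    split_ifs
    · simp only [mul_assoc, S.orth b ν hb, mul_zero]
    · simp
  · intro b _ hb
    rw [Finset.mul_sum, Finset.sum_mul]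
    refine Finset.sum_eq_zero fun c _ => ?_
    split_ifs
    · simp only [← mul_assoc, S.orth μ b hb.symm, zero_mul]
    · simp

lemma P_mem (a : ℤ) (x : Matrix n n A) : S.P a x ∈ S.Wt a := by
  intro μ ν h
  rw [block_P, if_neg h]

lemma eq_sum_blocks (x : Matrix n n A) : x = ∑ μ, ∑ ν, S.π μ * x * S.π ν := by
  simp only [← Finset.mul_sum, ← Finset.sum_mul, S.sum, mul_one, one_mul]

lemma P_of_mem {a : ℤ} {x : Matrix n n A} (hx : x ∈ S.Wt a) : S.P a x = x := by
  rw [P_apply]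
  conv_rhs => rw [S.eq_sum_blocks x]
  refine Finset.sum_congr rfl fun μ _ => Finset.sum_congr rfl fun ν _ => ?_
  split_ifs with h
  · rfl
  · exact (hx μ ν h).symm

lemma P_of_ne {a b : ℤ} {x : Matrix n n A} (hx : x ∈ S.Wt a) (h : b ≠ a) : S.P b x = 0 := by
  rw [P_apply]
  refine Finset.sum_eq_zero fun μ _ => Finset.sum_eq_zero fun ν _ => ?_
  split_ifs with h'
  · exact hx μ ν (h' ▸ h)
  · rfl

lemma mem_of_P {a : ℤ} {x : Matrix n n A} (h : ∀ b, b ≠ a → S.P b x = 0) : x ∈ S.Wt a := by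
  intro μ ν hne
  have := S.block_P (S.w μ - S.w ν) x μ ν
  rw [h _ hne, if_pos rfl] at this
  rw [← this]; simp

lemma Wt_mul {a b : ℤ} {x y : Matrix n n A} (hx : x ∈ S.Wt a) (hy : y ∈ S.Wt b) :
    x * y ∈ S.Wt (a + b) := by
  intro μ ν h
  have e : S.π μ * (x * y) * S.π ν = ∑ κ, (S.π μ * x * S.π κ) * (S.π κ * y * S.π ν) := by
    have : ∀ κ, (S.π μ * x * S.π κ) * (S.π κ * y * S.π ν) = S.π μ * x * S.π κ * (y * S.π ν) := by
      intro κ
      rw [mul_assoc (S.π μ * x), ← mul_assoc (S.π κ), ← mul_assoc (S.π κ), S.idem]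
      simp only [mul_assoc]
    simp only [this, ← Finset.sum_mul, ← Finset.mul_sum, S.sum, mul_one]
    simp only [mul_assoc]
  rw [e]
  refine Finset.sum_eq_zero fun κ _ => ?_
  by_cases h1 : S.w μ - S.w κ = a
  · rw [hy κ ν (by omega), mul_zero]
  · rw [hx μ κ h1, zero_mul]

lemma one_mem_Wt : (1 : Matrix n n A) ∈ S.Wt 0 := by
  intro μ ν h
  rw [mul_one, S.orth μ ν (by rintro rfl; simp at h)]

lemma eq_zero_of_Wt {a b : ℤ} {x : Matrix n n A} (hx : x ∈ S.Wt a) (hy : x ∈ S.Wt b)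
    (h : a ≠ b) : x = 0 := by
  rw [← S.P_of_mem hx, S.P_of_ne hy h]

/-- the finite set of weights -/
def wts : Finset ℤ := Finset.univ.image fun q : Λ × Λ => S.w q.1 - S.w q.2

lemma P_eq_zero {a : ℤ} (h : a ∉ S.wts) (x : Matrix n n A) : S.P a x = 0 := by
  rw [P_apply]
  refine Finset.sum_eq_zero fun μ _ => Finset.sum_eq_zero fun ν _ => if_neg fun h' => h ?_
  exact Finset.mem_image.2 ⟨(μ, ν), Finset.mem_univ _, h'⟩

lemma sum_P (x : Matrix n n A) : ∑ a ∈ S.wts, S.P a x = x := by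
  simp only [P_apply]
  rw [Finset.sum_comm]
  conv_rhs => rw [S.eq_sum_blocks x]
  refine Finset.sum_congr rfl fun μ _ => ?_
  rw [Finset.sum_comm]
  refine Finset.sum_congr rfl fun ν _ => ?_
  rw [Finset.sum_ite_eq, if_pos]
  exact Finset.mem_image.2 ⟨(μ, ν), Finset.mem_univ _, rfl⟩

lemma eq_zero_of_P {x : Matrix n n A} (h : ∀ a, S.P a x = 0) : x = 0 := by
  rw [← S.sum_P x]; simp [h]

/-- the one-parameter torus -/
def lam (s : Aˣ) : Matrix n n A := ∑ μ, ((s ^ S.w μ : Aˣ) : A) • S.π μ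

lemma lam_mul_π (s : Aˣ) (μ : Λ) : S.lam s * S.π μ = ((s ^ S.w μ : Aˣ) : A) • S.π μ := by
  classical
  rw [lam, Finset.sum_mul, Finset.sum_eq_single μ _ (by simp), smul_mul_assoc, S.idem]
  intro b _ hb
  rw [smul_mul_assoc, S.orth b μ hb, smul_zero]

lemma π_mul_lam (s : Aˣ) (μ : Λ) : S.π μ * S.lam s = ((s ^ S.w μ : Aˣ) : A) • S.π μ := by
  classical
  rw [lam, Finset.mul_sum, Finset.sum_eq_single μ _ (by simp), mul_smul_comm, S.idem]
  intro b _ hb
  rw [mul_smul_comm, S.orth μ b hb.symm, smul_zero]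

lemma lam_mul (s t : Aˣ) : S.lam s * S.lam t = S.lam (s * t) := by
  have e : S.lam t = ∑ μ, ((t ^ S.w μ : Aˣ) : A) • S.π μ := rfl
  rw [e, Finset.mul_sum]
  refine Finset.sum_congr rfl fun μ _ => ?_
  rw [mul_smul_comm, lam_mul_π, smul_smul, mul_zpow, Units.val_mul, mul_comm]

lemma lam_one : S.lam 1 = 1 := by simp [lam, S.sum]

lemma lam_neg (s : Aˣ) : S.neg.lam s = S.lam s⁻¹ := by simp [lam, neg]

lemma lam_map {A' : Type} [CommRing A'] (f : A →+* A') (s : Aˣ) :
    f.mapMatrix (S.lam s) = (S.map f).lam (Units.map f s) := by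
  simp only [lam, map_sum, map]
  refine Finset.sum_congr rfl fun μ _ => ?_
  ext i j
  simp [← map_zpow]

lemma lam_conj {a : ℤ} {x : Matrix n n A} (hx : x ∈ S.Wt a) (s : Aˣ) :
    S.lam s * x * S.lam s⁻¹ = ((s ^ a : Aˣ) : A) • x := by
  conv_lhs => rw [S.eq_sum_blocks x]
  conv_rhs => rw [S.eq_sum_blocks x]
  simp only [Finset.mul_sum, Finset.sum_mul, Finset.smul_sum]
  refine Finset.sum_congr rfl fun μ _ => Finset.sum_congr rfl fun ν _ => ?_
  by_cases h : S.w μ - S.w ν = a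
  · have e : S.lam s * (S.π μ * x * S.π ν) * S.lam s⁻¹ =
        (S.lam s * S.π μ) * x * (S.π ν * S.lam s⁻¹) := by simp only [mul_assoc]
    rw [e, lam_mul_π, π_mul_lam, smul_mul_assoc, smul_mul_assoc, mul_smul_comm, smul_smul,
      ← Units.val_mul, inv_zpow', ← zpow_add, ← h, sub_eq_add_neg]
  · rw [hx μ ν h]; simp

lemma lam_conj_eq_sum (x : Matrix n n A) (s : Aˣ) :
    S.lam s * x * S.lam s⁻¹ = ∑ a ∈ S.wts, ((s ^ a : Aˣ) : A) • S.P a x := by
  conv_lhs => rw [← S.sum_P x]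
  rw [Finset.mul_sum, Finset.sum_mul]
  exact Finset.sum_congr rfl fun a _ => S.lam_conj (S.P_mem a x) s

lemma P_lam_conj (x : Matrix n n A) (s : Aˣ) (b : ℤ) :
    S.P b (S.lam s * x * S.lam s⁻¹) = ((s ^ b : Aˣ) : A) • S.P b x := by
  rw [lam_conj_eq_sum, map_sum]
  by_cases hb : b ∈ S.wts
  · rw [Finset.sum_eq_single b _ (fun h => absurd hb h), map_smul, S.P_of_mem (S.P_mem b x)]
    intro a _ ha
    rw [map_smul, S.P_of_ne (S.P_mem a x) ha.symm, smul_zero]
  · simp [S.P_eq_zero hb]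

end WS

section
variable {K n : Type} [Field K] [Fintype n] [DecidableEq n]

lemma shift_pow_geom {A : Type} [Ring A] [Algebra K A] (g x y : A) (μ : K) (N m : ℕ) :
    ((shift K A - μ • 1) ^ N) (fun m => x * g ^ m * y) m = x * g ^ m * (g - μ • 1) ^ N * y := by
  induction N generalizing m with
  | zero => simp
  | succ N ih =>
    rw [pow_succ', Module.End.mul_apply, LinearMap.sub_apply, Pi.sub_apply, shift_apply, ih,
      LinearMap.smul_apply, Pi.smul_apply, Module.End.one_apply, ih, pow_succ' (g - μ • 1),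
      pow_succ g]
    simp only [mul_assoc, sub_mul, mul_sub, smul_mul_assoc, mul_smul_comm, one_mul]

open Polynomial in
/-- Generalized eigenprojections of an invertible matrix. -/
lemma exists_proj [IsAlgClosed K] (g g' : Matrix n n K) (hg : g * g' = 1) :
    ∃ (Λ : Finset Kˣ) (π : Λ → Matrix n n K), ∑ μ, π μ = 1 ∧ (∀ μ ν, μ ≠ ν → π μ * π ν = 0) ∧
      (∀ μ : Λ, g.charpoly.IsRoot ((μ : Kˣ) : K)) ∧
      ∀ μ : Λ, (fun m => g ^ m * π μ) ∈ (shift K _).maxGenEigenspace ((μ : Kˣ) : K) ∧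
        (fun m => π μ * g' ^ m) ∈ (shift K _).maxGenEigenspace (((μ : Kˣ)⁻¹ : Kˣ) : K) := by
  classical
  have hg' : g' * g = 1 := mul_eq_one_comm.1 hg
  have h0 : ∀ r ∈ g.charpoly.roots, r ≠ 0 := by
    rintro r hr rfl
    have h1 := (mem_roots g.charpoly_monic.ne_zero).1 hr
    have h2 := g.det_eq_sign_charpoly_coeff
    rw [coeff_zero_eq_eval_zero, h1.eq_zero, mul_zero] at h2
    have := congrArg Matrix.det hg
    rw [Matrix.det_mul, h2, zero_mul, Matrix.det_one] at this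
    exact zero_ne_one this
  let Λ : Finset Kˣ := g.charpoly.roots.toFinset.preimage (↑) Units.val_injective.injOn
  have hΛ : ∀ u : Kˣ, u ∈ Λ ↔ (u : K) ∈ g.charpoly.roots := by intro u; simp [Λ]
  let N := Fintype.card n
  let q : Λ → K[X] := fun μ => (X - C ((μ : Kˣ) : K)) ^ N
  have hdvd : g.charpoly ∣ ∏ μ, q μ := by
    have hs := (IsAlgClosed.splits g.charpoly).eq_prod_roots_of_monic g.charpoly_monic
    rw [hs, Finset.prod_multiset_map_count]
    have e : ∏ μ, q μ = ∏ r ∈ g.charpoly.roots.toFinset, (X - C r) ^ N := by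
      refine Finset.prod_bij (fun μ _ => ((μ : Kˣ) : K)) ?_ ?_ ?_ ?_
      · intro μ _; exact Multiset.mem_toFinset.2 ((hΛ _).1 μ.2)
      · intro a _ b _ h; exact Subtype.ext (Units.ext h)
      · intro r hr
        rw [Multiset.mem_toFinset] at hr
        exact ⟨⟨Units.mk0 r (h0 r hr), (hΛ _).2 hr⟩, Finset.mem_univ _, rfl⟩
      · intro μ _; rfl
    rw [e]
    refine Finset.prod_dvd_prod_of_dvd _ _ fun r _ => pow_dvd_pow _ ?_
    refine (Multiset.count_le_card _ _).trans ((card_roots' _).trans ?_)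
    rw [g.charpoly_natDegree_eq_dim]
  have hkill : aeval g (∏ μ, q μ) = 0 := by
    obtain ⟨c, hc⟩ := hdvd
    rw [hc, map_mul, g.aeval_self_charpoly, zero_mul]
  rcases isEmpty_or_nonempty Λ with hE | hE
  · have : (1 : Matrix n n K) = 0 := by simpa using hkill
    exact ⟨Λ, fun _ => 0, by simp [this], by simp, fun μ => hE.elim μ, fun μ => hE.elim μ⟩
  obtain ⟨c, hc⟩ := (exists_sum_eq_one_iff_pairwise_coprime' (s := q)).2 (by
    intro μ ν h
    exact (isCoprime_X_sub_C_of_isUnit_sub (sub_ne_zero.2 fun e =>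
      h (Subtype.ext (Units.ext e))).isUnit).pow)
  let r : Λ → K[X] := fun μ => c μ * ∏ j ∈ {μ}ᶜ, q j
  have hqr : ∀ μ, aeval g (q μ * r μ) = 0 := by
    intro μ
    have : q μ * r μ = c μ * ∏ j, q j := by
      rw [Fintype.prod_eq_mul_prod_compl μ]; ring
    rw [this, map_mul, hkill, mul_zero]
  refine ⟨Λ, fun μ => aeval g (r μ), by rw [← map_sum, hc, map_one], ?_, ?_, ?_⟩
  · intro μ ν h
    have : q ν ∣ r μ := Dvd.dvd.mul_left (Finset.dvd_prod_of_mem _ (by simpa using h.symm)) _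
    obtain ⟨d, hd⟩ := this
    rw [← map_mul, hd, mul_comm (q ν), mul_assoc, map_mul, hqr, mul_zero]
  · exact fun μ => (mem_roots g.charpoly_monic.ne_zero).1 ((hΛ _).1 μ.2)
  · intro μ
    have h1 : (g - ((μ : Kˣ) : K) • 1) ^ N * aeval g (r μ) = 0 := by
      have := hqr μ
      simpa [q, Algebra.algebraMap_eq_smul_one] using this
    have h2 : aeval g (r μ) * (g - ((μ : Kˣ) : K) • 1) ^ N = 0 := by
      have := hqr μ
      rw [mul_comm] at this
      simpa [q, Algebra.algebraMap_eq_smul_one] using this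
    constructor
    · rw [Module.End.mem_maxGenEigenspace]
      refine ⟨N, funext fun m => ?_⟩
      have := shift_pow_geom g 1 (aeval g (r μ)) ((μ : Kˣ) : K) N m
      simp only [one_mul] at this
      rw [this, mul_assoc, h1, mul_zero]; rfl
    · rw [Module.End.mem_maxGenEigenspace]
      refine ⟨N, funext fun m => ?_⟩
      have := shift_pow_geom g' (aeval g (r μ)) 1 (((μ : Kˣ)⁻¹ : Kˣ) : K) N m
      simp only [mul_one] at this
      rw [this]
      have cgg : Commute g g' := hg.trans hg'.symm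
      have e : g' - (((μ : Kˣ)⁻¹ : Kˣ) : K) • 1 =
          (g - ((μ : Kˣ) : K) • 1) * ((-(((μ : Kˣ)⁻¹ : Kˣ) : K)) • g') := by
        rw [mul_smul_comm, sub_mul, hg, smul_mul_assoc, one_mul, smul_sub, smul_smul]
        simp only [neg_smul, neg_mul, Units.inv_mul, one_smul]
        abel
      have c1 : Commute (g - ((μ : Kˣ) : K) • 1) g' :=
        cgg.sub_left ((Commute.one_left _).smul_left _)
      rw [e, (c1.smul_right _).mul_pow, ← mul_assoc, mul_assoc _ (g' ^ m),
        ← ((c1.pow_left N).pow_right m).eq, ← mul_assoc, h2]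
      simp

/-- The sequences `g ^ m * π μ` have the weight of `μ`. -/
def GData {Λ : Type} [Fintype Λ] (g g' : Matrix n n K) (χ : Kˣ → ℚ) (S : WS Λ n K) : Prop :=
  ∀ μ, ∃ u : Kˣ, χ u = S.w μ ∧
    (fun m => g ^ m * S.π μ) ∈ (shift K _).maxGenEigenspace (u : K) ∧
    (fun m => S.π μ * g' ^ m) ∈ (shift K _).maxGenEigenspace ((u⁻¹ : Kˣ) : K)

lemma gr_triple {χ : Kˣ → ℚ} (hχ : ∀ u v, χ (u * v) = χ u + χ v) {E E' : Type} [Ring E] [Ring E']
    [Algebra K E] [Algebra K E'] (φ : E →ₐ[K] E') (u v : Kˣ) {a b : ℤ} (hu : χ u = a)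
    (hv : χ v = b) {f g : ℕ → E} (hf : f ∈ (shift K E).maxGenEigenspace (u : K))
    (hg : g ∈ (shift K E).maxGenEigenspace ((v⁻¹ : Kˣ) : K)) (x : E') :
    (φ.toLinearMap ∘ f) * (fun _ => x) * (φ.toLinearMap ∘ g) ∈ Gr χ E' (a - b) := by
  have := Gr_mul hχ (Gr_mul hχ (mem_Gr χ u hu (genEig_map φ.toLinearMap hf)) (Gr_const hχ x))
    (mem_Gr χ (a := -b) v⁻¹ (by rw [chi_inv hχ, hv]; simp) (genEig_map φ.toLinearMap hg))
  rwa [add_zero, ← sub_eq_add_neg] at this

lemma GData.gr {Λ : Type} [Fintype Λ] {g g' : Matrix n n K} {χ : Kˣ → ℚ} {S : WS Λ n K}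
    (h : GData g g' χ S) (hχ : ∀ u v, χ (u * v) = χ u + χ v)
    (A : Type) [CommRing A] [Algebra K A] (x : Matrix n n A) (a : ℤ) :
    (fun m => (algebraMap K A).mapMatrix g ^ m * (S.map (algebraMap K A)).P a x *
      (algebraMap K A).mapMatrix g' ^ m) ∈ Gr χ (Matrix n n A) a := by
  have e : (fun m => (algebraMap K A).mapMatrix g ^ m * (S.map (algebraMap K A)).P a x *
      (algebraMap K A).mapMatrix g' ^ m) = ∑ μ, ∑ ν, if S.w μ - S.w ν = a then
        ((Algebra.ofId K A).mapMatrix.toLinearMap ∘ fun m => g ^ m * S.π μ) * (fun _ => x) *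
        ((Algebra.ofId K A).mapMatrix.toLinearMap ∘ fun m => S.π ν * g' ^ m) else 0 := by
    funext m
    simp only [WS.P_apply, Finset.sum_apply, Finset.mul_sum, Finset.sum_mul]
    refine Finset.sum_congr rfl fun μ _ => Finset.sum_congr rfl fun ν _ => ?_
    by_cases h' : S.w μ - S.w ν = a
    · rw [if_pos h', if_pos (by exact h')]
      simp only [Pi.mul_apply, Function.comp_apply, AlgHom.toLinearMap_apply, map_mul, map_pow,
        mul_assoc]
      rfl
    · rw [if_neg h', if_neg (by exact h')]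
      simp
  rw [e]
  refine Submodule.sum_mem _ fun μ _ => Submodule.sum_mem _ fun ν _ => ?_
  split_ifs with h'
  · obtain ⟨u, hu, hu1, -⟩ := h μ
    obtain ⟨v, hv, -, hv2⟩ := h ν
    have := gr_triple hχ (Algebra.ofId K A).mapMatrix u v hu hv hu1 hv2 x
    rwa [h'] at this
  · exact zero_mem _

end

end Pool.Agent.Lib.MP_c0708e_al.Tits
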