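import Pool.Agent.Lib.MP_c0708e_al.TMain

/-! From laws to varieties, and soluble closures. -/

set_option linter.style.haveILetI false

namespace Pool.Agent.Lib.MP_c0708e_al.Tits

open Filter Topology
open scoped PowerSeries.WithPiTopology MatrixGroups PowerSeries

theorem inVar_of_good {p : ℕ} [Fact p.Prime] {G : ProfiniteGrp.{0}}
    (h : ∀ k, ∀ᶠ w in lawF G, Good p k w) : InVar p G (Gamma p) := by
  intro V hV hG
  haveI := compactSpace_gammaSub p
  haveI := totallyDisconnectedSpace_gammaSub p
  have hle : (FreeGroup.lift (genUL p)).range = Subgroup.closure {genU p, genL p} := by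
    rw [FreeGroup.range_lift_eq_closure]
    congr 1
    ext x
    simp [genUL, or_comm]
  let gam : FreeGroup Bool →* gammaSub p := (FreeGroup.lift (genUL p)).codRestrict _ fun w =>
    Subgroup.le_topologicalClosure _ (hle ▸ ⟨w, rfl⟩)
  let ev : FreeGroup Bool →* ((Bool → G) → G) := MonoidHom.pi fun ab => FreeGroup.lift ab
  let Δ := (ev.prod gam).range.topologicalClosure
  have hΔ : IsCompact (Δ : Set (((Bool → G) → G) × gammaSub p)) :=
    (Subgroup.isClosed_topologicalClosure _).isCompact
  haveI : CompactSpace Δ := isCompact_iff_compactSpace.mp hΔ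
  let f₁ : ProfiniteGrp.of Δ →ₜ* ProfiniteGrp.pi (fun _ : Bool → G => G) :=
    ⟨(MonoidHom.fst _ _).comp Δ.subtype, continuous_fst.comp continuous_subtype_val⟩
  let f₂ : ProfiniteGrp.of Δ →ₜ* Gamma p :=
    ⟨(MonoidHom.snd _ _).comp Δ.subtype, continuous_snd.comp continuous_subtype_val⟩
  refine hV.quot _ _ (hV.sub _ _ (hV.prod _ _ fun _ => hG) f₁ ?_) f₂ ?_
  · refine (injective_iff_map_eq_one f₁).2 ?_
    rintro ⟨⟨x, y⟩, hxy⟩ (rfl : x = 1)
    haveI : (comap (ev.prod gam) (𝓝 (1, y))).NeBot := by
      rw [comap_neBot_iff]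
      intro t ht
      obtain ⟨_, h1, w, rfl⟩ := mem_closure_iff_nhds.1 hxy t ht
      exact ⟨w, h1⟩
    have h1 : comap (ev.prod gam) (𝓝 (1, y)) ≤ lawF G := le_iInf fun ab =>
      ((((continuous_apply ab).comp continuous_fst).tendsto (1, y)).comp tendsto_comap).le_comap
    have h2 : Tendsto gam (comap (ev.prod gam) (𝓝 (1, y))) (𝓝 y) :=
      (continuous_snd.tendsto (1, y)).comp tendsto_comap
    refine Subtype.ext (Prod.ext rfl (Subtype.ext (Subtype.ext (sub_eq_zero.1 ?_))))
    ext i j m
    have hc : Continuous fun z : gammaSub p => PowerSeries.coeff m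
        (((z.1 : Matrix (Fin 2) (Fin 2) (ZMod p)⟦X⟧) - 1) i j) :=
      (PowerSeries.WithPiTopology.continuous_coeff _ m).comp
        (((continuous_subtype_val.comp continuous_subtype_val).sub continuous_const).matrix_elem
          i j)
    exact tendsto_nhds_unique ((hc.tendsto y).comp h2) (tendsto_const_nhds.congr'
      (((h (m + 1)).filter_mono h1).mono fun w hw =>
        (PowerSeries.X_pow_dvd_iff.1 (hw i j) m (Nat.lt_succ_self m)).symm))
  · rintro ⟨y, hy⟩
    have hc : IsClosed ((Δ.map ((gammaSub p).subtype.comp (MonoidHom.snd _ _)) : Subgroup _) :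
        Set SL(2, (ZMod p)⟦X⟧)) :=
      (hΔ.image (continuous_subtype_val.comp continuous_snd)).isClosed
    obtain ⟨z, hz, rfl⟩ := Subgroup.topologicalClosure_minimal _ (by
        rw [← hle]
        rintro _ ⟨w, rfl⟩
        exact ⟨_, Subgroup.le_topologicalClosure _ ⟨w, rfl⟩, rfl⟩) hc hy
    exact ⟨⟨z, hz⟩, rfl⟩

lemma solvable_closure {G : Type} [Group G] [TopologicalSpace G] [IsTopologicalGroup G] [T2Space G]
    (S : Subgroup G) [h : Group.IsSolvable S] : Group.IsSolvable S.topologicalClosure := by
  have key : ∀ j, (derivedSeries S.topologicalClosure j).map S.topologicalClosure.subtype ≤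
      ((derivedSeries S j).map S.subtype).topologicalClosure := by
    intro j
    induction j with
    | zero => simp [← MonoidHom.range_eq_map]
    | succ j ih =>
      rw [derivedSeries_succ, derivedSeries_succ, Subgroup.map_commutator, Subgroup.map_commutator,
        Subgroup.commutator_le]
      intro a ha b hb
      exact map_mem_closure₂ (f := fun a b : G => a * b * a⁻¹ * b⁻¹) (by fun_prop) (ih ha) (ih hb)
        fun a ha b hb => Subgroup.commutator_mem_commutator ha hb
  obtain ⟨j, hj⟩ := h.solvable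
  refine ⟨⟨j, ?_⟩⟩
  have := key j
  rw [hj, Subgroup.map_bot] at this
  exact (Subgroup.map_eq_bot_iff_of_injective _ (Subgroup.subtype_injective _)).1
    (eq_bot_iff.2 (this.trans (Subgroup.topologicalClosure_minimal _ le_rfl isClosed_singleton)))

lemma NS_of_range {F G E : Type} [Group F] [Group G] [Monoid E] (π : F →* G) (ρ : G →* E)
    (hρ : Function.Injective ρ) (h : ¬ Group.IsSolvable π.range) : NS (ρ.comp π) := by
  intro j
  by_contra h1
  push Not at h1
  refine h ⟨⟨j, ?_⟩⟩
  rw [← map_derivedSeries_eq π.rangeRestrict_surjective, eq_bot_iff]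
  rintro _ ⟨g, hg, rfl⟩
  exact Subtype.ext (hρ ((h1 g hg).trans (map_one ρ).symm))

theorem tits {p : ℕ} [Fact p.Prime] (hp : p ≠ 2) {n : Type} [Fintype n] [DecidableEq n]
    {G : ProfiniteGrp.{0}} (hG : IsProP p G) {R : Type} [CommRing R] [TopologicalSpace R]
    [IsTopologicalRing R] [CompactSpace R] [T2Space R] [TotallyDisconnectedSpace R]
    (ρ : G →* Matrix n n R) (hρ : Continuous ρ) (hinj : Function.Injective ρ) :
    (∀ H : Subgroup G, (IsNoetherianRing R ∨
      ∃ S : Finset G, H = (Subgroup.closure (S : Set G)).topologicalClosure) →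
      Group.IsSolvable H) ∨ InVar p G (Gamma p) := by
  rw [or_iff_not_imp_left]
  intro h
  push Not at h
  obtain ⟨H, h | ⟨S, rfl⟩, hH⟩ := h
  · refine inVar_of_good (main_noeth hp hG hρ (NS_of_range (MonoidHom.id G) ρ hinj fun h1 => hH ?_))
    exact Group.isSolvable_of_isSolvable_injective
      (Subgroup.inclusion_injective (K := (MonoidHom.id G).range) fun x _ => ⟨x, rfl⟩)
  · refine inVar_of_good (main_fg hp hG hρ (FreeGroup.lift (Subtype.val : S → G))
      (NS_of_range _ ρ hinj fun h1 => hH ?_))
    rw [FreeGroup.range_lift_eq_closure, Subtype.range_coe_subtype] at h1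
    exact solvable_closure _ (h := h1)

end Pool.Agent.Lib.MP_c0708e_al.Tits
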