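import Pool.Agent.Lib.MP_c0708e_al.TJordan

/-! Zariski closure of a monoid of jets. -/

namespace Pool.Agent.Lib.MP_c0708e_al.Tits

open PowerSeries

section
variable {Ω : Type} [Field Ω] {n : Type} [Fintype n] [DecidableEq n]

/-- truncated geometric series -/
def geom {E : Type} [Ring E] (N : ℕ) (γ : E) : E := ∑ s ∈ Finset.range N, (1 - γ) ^ s

lemma mul_geom {E : Type} [Ring E] (N : ℕ) (γ : E) : γ * geom N γ = 1 - (1 - γ) ^ N := by
  have := mul_neg_geom_sum (1 - γ) N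
  rwa [sub_sub_cancel] at this

lemma geom_map {E E' : Type} [Ring E] [Ring E'] (φ : E →+* E') (N : ℕ) (γ : E) :
    φ (geom N γ) = geom N (φ γ) := by simp [geom]

lemma dvdM_pow {A : Type} [CommRing A] {t : A} {x : Matrix n n A} (hx : x ∈ dvdM n t 1) (m : ℕ) :
    x ^ m ∈ dvdM n t m := by
  induction m with
  | zero => exact dvdM_zero _
  | succ m ih => rw [pow_succ]; exact dvdM_mul ih hx

lemma lead_one {γ : Matrix n n Ω⟦X⟧} (h : co 0 γ = 1) : 1 - γ ∈ dvdM n (X : Ω⟦X⟧) 1 := by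
  refine mem_dvdM_X.2 fun r hr => ?_
  obtain rfl : r = 0 := by omega
  rw [map_sub, h, co_one, if_pos rfl, sub_self]

/-- inverse of a jet -/
noncomputable def invM (γ : Matrix n n Ω⟦X⟧) : Matrix n n Ω⟦X⟧ := mkM fun r => co r (geom (r + 1) γ)

lemma invM_sub {γ : Matrix n n Ω⟦X⟧} (h : co 0 γ = 1) (N : ℕ) :
    invM γ - geom N γ ∈ dvdM n (X : Ω⟦X⟧) N := by
  refine mem_dvdM_X.2 fun r hr => ?_
  rw [map_sub, invM, co_mkM, sub_eq_zero, geom, geom, ← Finset.sum_range_add_sum_Ico _ hr,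
    map_add, map_sum (co r) _ (Finset.Ico _ _), Finset.sum_eq_zero (s := Finset.Ico _ _), add_zero]
  intro s hs
  exact mem_dvdM_X.1 (dvdM_pow (lead_one h) s) r (Finset.mem_Ico.1 hs).1

lemma mul_invM {γ : Matrix n n Ω⟦X⟧} (h : co 0 γ = 1) : γ * invM γ = 1 := by
  rw [← sub_eq_zero]
  refine co_ext fun r => ?_
  have e : γ * invM γ - 1 = γ * (invM γ - geom (r + 1) γ) - (1 - γ) ^ (r + 1) := by
    rw [mul_sub, mul_geom]; abel
  rw [e, map_zero]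
  exact mem_dvdM_X.1 (sub_mem (dvdM_mul_left _ (invM_sub h _)) (dvdM_pow (lead_one h) _)) r
    (Nat.lt_succ_self r)

lemma eq_invM {γ γ' : Matrix n n Ω⟦X⟧} (h : co 0 γ = 1) (h' : γ * γ' = 1) : γ' = invM γ := by
  rw [← mul_one γ', ← mul_invM h, ← mul_assoc, mul_eq_one_comm.1 h', one_mul]

variable (n) in
/-- families whose coefficients lie in a given algebra of functions -/
def PM {Z : Type} (R₀ : Subalgebra Ω (Z → Ω)) : Subalgebra Ω (Z → Matrix n n Ω⟦X⟧) where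
  carrier := {Γ | ∀ r i j, (fun z => co r (Γ z) i j) ∈ R₀}
  mul_mem' := by
    intro Γ Γ' h h' r i j
    have : (fun z => co r ((Γ * Γ') z) i j) = ∑ p ∈ Finset.HasAntidiagonal.antidiagonal r, ∑ k,
        (fun z => co p.1 (Γ z) i k) * fun z => co p.2 (Γ' z) k j := by
      funext z
      simp [co_mul, Matrix.sum_apply, Matrix.mul_apply]
    rw [this]
    exact sum_mem fun p _ => sum_mem fun k _ => mul_mem (h _ _ _) (h' _ _ _)
  add_mem' := by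
    intro Γ Γ' h h' r i j
    have := add_mem (h r i j) (h' r i j)
    simp only [Pi.add_apply, map_add, Matrix.add_apply]
    exact this
  algebraMap_mem' c r i j := R₀.algebraMap_mem _

lemma const_mem_PM {Z : Type} (R₀ : Subalgebra Ω (Z → Ω)) (γ : Matrix n n Ω⟦X⟧) :
    (fun _ => γ) ∈ PM n R₀ := fun _ _ _ => R₀.algebraMap_mem _

lemma resc_mem_PM {Z : Type} {R₀ : Subalgebra Ω (Z → Ω)} {Γ : Z → Matrix n n Ω⟦X⟧}
    (h : Γ ∈ PM n R₀) (c : Ω) : (fun z => resc c (Γ z)) ∈ PM n R₀ := by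
  intro r i j
  simp only [co_resc]
  exact R₀.smul_mem (h r i j) (c ^ r)

lemma invM_mem_PM {Z : Type} {R₀ : Subalgebra Ω (Z → Ω)} {Γ : Z → Matrix n n Ω⟦X⟧}
    (h : Γ ∈ PM n R₀) : (fun z => invM (Γ z)) ∈ PM n R₀ := by
  intro r i j
  simp only [invM, co_mkM]
  have h1 : geom (r + 1) Γ ∈ PM n R₀ := sum_mem fun s _ => pow_mem (sub_mem (one_mem _) h) s
  have e : ∀ z, geom (r + 1) Γ z = geom (r + 1) (Γ z) :=
    fun z => geom_map (Pi.evalRingHom (fun _ => Matrix n n Ω⟦X⟧) z) _ _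
  have := h1 r i j
  simpa only [e] using this

lemma iterD_mem {E : Type} [Ring E] [Algebra Ω E] (A : Subalgebra Ω E) {a a' : Bool → E}
    (h : ∀ β, a β ∈ A) (h' : ∀ β, a' β ∈ A) (I : List Bool) {x : E} (hx : x ∈ A) :
    iterD a a' I x ∈ A := by
  induction I with
  | nil => exact hx
  | cons β I ih => exact sub_mem (mul_mem (mul_mem (h β) ih) (h' β)) ih

variable (n Ω) in
/-- polynomial functions on jets -/
noncomputable def PF : Subalgebra Ω (Matrix n n Ω⟦X⟧ → Ω) :=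
  Algebra.adjoin Ω {f | ∃ r i j, f = fun γ => co r γ i j}

lemma id_mem_PM : (fun γ => γ) ∈ PM n (PF Ω n) :=
  fun r i j => Algebra.subset_adjoin ⟨r, i, j, rfl⟩

lemma PF_comp {Z : Type} {R₀ : Subalgebra Ω (Z → Ω)} {Γ : Z → Matrix n n Ω⟦X⟧}
    (h : Γ ∈ PM n R₀) {f : Matrix n n Ω⟦X⟧ → Ω} (hf : f ∈ PF Ω n) : (fun z => f (Γ z)) ∈ R₀ := by
  induction hf using Algebra.adjoin_induction with
  | mem f hf => obtain ⟨r, i, j, rfl⟩ := hf; exact h r i j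
  | algebraMap c => exact R₀.algebraMap_mem c
  | add f g _ _ hf hg => exact add_mem hf hg
  | mul f g _ _ hf hg => exact mul_mem hf hg

/-- Zariski closure -/
def cl (A : Set (Matrix n n Ω⟦X⟧)) : Set (Matrix n n Ω⟦X⟧) :=
  {γ | ∀ f ∈ PF Ω n, (∀ a ∈ A, f a = 0) → f γ = 0}

omit [Fintype n] [DecidableEq n] in
lemma subset_cl {A : Set (Matrix n n Ω⟦X⟧)} {γ : Matrix n n Ω⟦X⟧} (h : γ ∈ A) : γ ∈ cl A :=
  fun _ _ hf => hf γ h

lemma cl_map {A B : Set (Matrix n n Ω⟦X⟧)} {Φ : Matrix n n Ω⟦X⟧ → Matrix n n Ω⟦X⟧}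
    (hΦ : Φ ∈ PM n (PF Ω n)) (h : ∀ a ∈ A, Φ a ∈ cl B) {γ : Matrix n n Ω⟦X⟧} (hγ : γ ∈ cl A) :
    Φ γ ∈ cl B :=
  fun f hf h0 => hγ _ (PF_comp hΦ hf) fun a ha => h a ha f hf h0

lemma cl_lin {A : Set (Matrix n n Ω⟦X⟧)} {Φ : Matrix n n Ω⟦X⟧ → Matrix n n Ω⟦X⟧}
    (hΦ : Φ ∈ PM n (PF Ω n)) (W : Submodule Ω (Matrix n n Ω)) (r : ℕ)
    (h : ∀ a ∈ A, co r (Φ a) ∈ W) {γ : Matrix n n Ω⟦X⟧} (hγ : γ ∈ cl A) : co r (Φ γ) ∈ W := by
  rw [← Subspace.forall_mem_dualAnnihilator_apply_eq_zero_iff]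
  intro ℓ hℓ
  refine hγ (fun γ => ℓ (co r (Φ γ))) ?_ fun a ha => (Submodule.mem_dualAnnihilator ℓ).1 hℓ _ (h a ha)
  have : (fun γ => ℓ (co r (Φ γ))) =
      ∑ i, ∑ j, ℓ (Matrix.single i j 1) • fun γ => co r (Φ γ) i j := by
    funext γ
    conv_lhs => rw [Matrix.matrix_eq_sum_single (co r (Φ γ))]
    simp only [map_sum, Finset.sum_apply, Pi.smul_apply, smul_eq_mul]
    refine Finset.sum_congr rfl fun i _ => Finset.sum_congr rfl fun j _ => ?_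
    rw [mul_comm, ← smul_eq_mul, ← map_smul, Matrix.smul_single, smul_eq_mul, mul_one]
  rw [this]
  exact sum_mem fun i _ => sum_mem fun j _ => Subalgebra.smul_mem _ (hΦ r i j) _

lemma cl_lim [Infinite Ω] {A : Set (Matrix n n Ω⟦X⟧)} {Γ : Ω → Matrix n n Ω⟦X⟧}
    (hΓ : Γ ∈ PM n (AlgHom.pi fun u : Ω => (Polynomial.aeval u : Polynomial Ω →ₐ[Ω] Ω)).range)
    (h : ∀ u ≠ 0, Γ u ∈ cl A) : Γ 0 ∈ cl A := by
  intro f hf h0
  obtain ⟨P, hP⟩ := PF_comp hΓ hf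
  have e : ∀ u, P.eval u = f (Γ u) := fun u => by simpa using congrFun hP u
  have : P = 0 := by
    apply Polynomial.eq_zero_of_infinite_isRoot
    refine (Set.finite_singleton (0 : Ω)).infinite_compl.mono fun u hu => ?_
    exact (e u).trans (h u hu f hf h0)
  rw [← e, this, Polynomial.eval_zero]

lemma resc_Cm (c : Ω) (x : Matrix n n Ω) : resc c (Cm x) = Cm x := by
  refine co_ext fun r => ?_
  rw [co_resc, co_Cm]
  split_ifs with h <;> simp [*]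

lemma resc_resc (c d : Ω) (γ : Matrix n n Ω⟦X⟧) : resc c (resc d γ) = resc (c * d) γ :=
  co_ext fun r => by rw [co_resc, co_resc, co_resc, smul_smul, mul_pow]

lemma resc_one (γ : Matrix n n Ω⟦X⟧) : resc 1 γ = γ :=
  co_ext fun r => by rw [co_resc, one_pow, one_smul]

variable {H : Type} [Group H] {Λ : Type} [Fintype Λ] {K : Type} [Field K] [Algebra K Ω]
  {χ : Kˣ → ℚ}

open LaurentPolynomial in
lemma cl_lam (hχ : ∀ u v, χ (u * v) = χ u + χ v) {S : WS Λ n Ω} {g g' : Matrix n n Ω}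
    (hgr : ∀ x a, (fun m : ℕ => g ^ m * S.P a x * g' ^ m) ∈ Gr χ (Matrix n n Ω) a)
    {A : Set (Matrix n n Ω⟦X⟧)} {γ : Matrix n n Ω⟦X⟧}
    (h : ∀ m : ℕ, Cm (g ^ m) * γ * Cm (g' ^ m) ∈ cl A) (s : Ωˣ) :
    Cm (S.lam s) * γ * Cm (S.lam s⁻¹) ∈ cl A := by
  intro f hf h0
  let Ev : (ℕ → Ω)[T;T⁻¹] →+* (ℕ × Ωˣ → Ω) := RingHom.pi fun z =>
    LaurentPolynomial.eval₂ ((AlgHom.id K Ω).toRingHom.comp
      (Pi.evalRingHom (fun _ : ℕ => Ω) z.1)) z.2
  let R₀ : Subalgebra Ω (ℕ × Ωˣ → Ω) :=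
    { (GrL hχ Ω).map Ev with
      algebraMap_mem' := fun c => ⟨_, C_const_mem_GrL hχ c, by funext z; simp [Ev]⟩ }
  obtain ⟨F, hF, hF'⟩ := PF_comp (R₀ := R₀) (Γ := fun z => Cm (g ^ z.1) *
      (Cm (S.lam z.2) * γ * Cm (S.lam z.2⁻¹)) * Cm (g' ^ z.1)) (by
    intro r i j
    refine ⟨∑ a ∈ S.wts, LaurentPolynomial.C
      (fun m : ℕ => (g ^ m * S.P a (co r γ) * g' ^ m) i j) * T a,
      sum_mem fun a _ => C_mul_T_mem_GrL hχ
        (Gr_map χ (Matrix.entryLinearMap K Ω i j) (hgr _ a)), ?_⟩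
    funext z
    simp only [co_mul_Cm, co_Cm_mul, S.lam_conj_eq_sum, Finset.mul_sum, Finset.sum_mul,
      Matrix.sum_apply, map_sum, Finset.sum_apply]
    refine Finset.sum_congr rfl fun a _ => ?_
    simp only [Ev, RingHom.pi_apply, eval₂_C_mul_T, mul_smul_comm, smul_mul_assoc,
      Matrix.smul_apply, smul_eq_mul]
    exact mul_comm _ _) hf
  have e : ∀ m s, LaurentPolynomial.eval₂ ((AlgHom.id K Ω).toRingHom.comp
      (Pi.evalRingHom (fun _ : ℕ => Ω) m)) s F = f (Cm (g ^ m) *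
      (Cm (S.lam s) * γ * Cm (S.lam s⁻¹)) * Cm (g' ^ m)) := fun m s => congrFun hF' (m, s)
  have h1 := GrL_extract hχ (AlgHom.id K Ω) 1 ⊥ hF (fun m => by
    rw [e, inv_one, S.lam_one, map_one, one_mul, mul_one]
    exact h m f hf h0)
  have h2 := e 0 s
  rw [pow_zero, pow_zero, map_one, one_mul, mul_one, eval₂_eq_sum] at h2
  rw [← h2]
  refine Finset.sum_eq_zero fun a _ => ?_
  have := h1 a
  simp only [one_zpow, Units.val_one, mul_one, Submodule.mem_bot] at this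
  exact mul_eq_zero_of_left this _

/-- the law satisfied by the jets -/
def Law (ν : ℕ → List Bool → Ω) (A : Set (Matrix n n Ω⟦X⟧)) : Prop :=
  ∀ (N : ℕ) (a a' : Bool → Matrix n n Ω⟦X⟧), (∀ β, a β ∈ A ∧ a β * a' β = 1) → ∀ x,
    ∑ I ∈ lists N, ν N I • iterD a a' I (Cm x) - Cm x ∈ dvdM n (X : Ω⟦X⟧) (N + 1)

lemma cl_co0 {A : Set (Matrix n n Ω⟦X⟧)} (h0 : ∀ γ ∈ A, co 0 γ = 1) :
    ∀ γ ∈ cl A, co 0 γ = 1 := by
  intro γ hγ
  have := cl_lin (sub_mem id_mem_PM (one_mem _)) ⊥ 0 (fun a ha => by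
    simp [h0 a ha, co_one]) hγ
  simpa [co_one, sub_eq_zero] using this

lemma Law.cl {ν : ℕ → List Bool → Ω} {A : Set (Matrix n n Ω⟦X⟧)} (h : Law ν A)
    (h0 : ∀ γ ∈ A, co 0 γ = 1) : Law ν (cl A) := by
  intro N a a' ha x
  let L : (Bool → Matrix n n Ω⟦X⟧) → Matrix n n Ω⟦X⟧ := fun a =>
    ∑ I ∈ lists N, ν N I • iterD a (fun β => invM (a β)) I (Cm x) - Cm x
  have hL : ∀ a : Bool → Matrix n n Ω⟦X⟧ → Matrix n n Ω⟦X⟧, (∀ β, a β ∈ PM n (PF Ω n)) →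
      (fun γ => L fun β => a β γ) ∈ PM n (PF Ω n) := by
    intro a ha
    have := sub_mem (sum_mem fun I (_ : I ∈ lists N) => Subalgebra.smul_mem _
      (iterD_mem (PM n (PF Ω n)) ha (fun β => invM_mem_PM (ha β)) I (const_mem_PM _ (Cm x)))
      (ν N I)) (const_mem_PM _ (Cm x))
    have e : ∀ I γ, iterD a (fun β γ => invM (a β γ)) I (fun _ => Cm x) γ =
        iterD (fun β => a β γ) (fun β => invM (a β γ)) I (Cm x) :=
      fun I γ => iterD_map (Pi.evalRingHom (fun _ => Matrix n n Ω⟦X⟧) γ) _ _ _ _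
    have e2 : (fun γ => L fun β => a β γ) = ∑ I ∈ lists N, ν N I •
        iterD a (fun β γ => invM (a β γ)) I (fun _ => Cm x) - fun _ => Cm x := by
      funext γ
      simp only [L, Pi.sub_apply, Finset.sum_apply, Pi.smul_apply, e]
    rwa [e2]
  have e1 : a' = fun β => invM (a β) := funext fun β => eq_invM (cl_co0 h0 _ (ha β).1) (ha β).2
  have e2 : a = fun β => cond β (a true) (a false) := funext fun β => by cases β <;> rfl
  rw [e1]
  change L a ∈ _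
  rw [e2]
  refine mem_dvdM_X.2 fun r hr => ?_
  refine cl_lin (hL (fun β γ => cond β γ (a false)) (fun β => ?_)) ⊥ r (fun u hu => ?_) (ha true).1
  · cases β
    · exact const_mem_PM _ _
    · exact id_mem_PM
  refine cl_lin (hL (fun β γ => cond β u γ) (fun β => ?_)) ⊥ r (fun v hv => ?_) (ha false).1
  · cases β
    · exact id_mem_PM
    · exact const_mem_PM _ _
  refine mem_dvdM_X.1 (h N _ _ (fun β => ?_) x) r hr
  cases β
  · exact ⟨hv, mul_invM (h0 v hv)⟩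
  · exact ⟨hu, mul_invM (h0 u hu)⟩

lemma Out.final {ν : ℕ → List Bool → Ω} {A : Set (Matrix n n Ω⟦X⟧)} (h : Out A) (hl : Law ν A)
    (k : ℕ) : ∃ N, k ≤ N + 1 ∧ ∀ β γ : Fin 3, ∀ d < k,
      ∑ I ∈ lists N, ν N I * ((mz I β γ).coeff d : Ω) =
        (((Pi.single β 1 : Fin 3 → Polynomial ℤ) γ).coeff d : Ω) := by
  obtain ⟨q, hq, a, a', e, h, f, h1, h2, h3⟩ := h
  refine ⟨q * k, Nat.le_succ_of_le (Nat.le_mul_of_pos_left _ (by omega)), fun β γ d hd => ?_⟩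
  let φ : Polynomial ℤ →+* Ω⟦X⟧ := Polynomial.coeToPowerSeries.ringHom.comp
    ((Polynomial.expand Ω q).toRingHom.comp (Polynomial.mapRingHom (Int.castRingHom Ω)))
  have hφ : ∀ P, coeff (q * d) (φ P) = ((P.coeff d : ℤ) : Ω) := by
    intro P
    simp [φ, Polynomial.coeff_expand_mul' (Nat.pos_of_ne_zero hq)]
  have hφX : φ Polynomial.X = X ^ q := by simp [φ]
  have hc : ∀ P (y : Matrix n n Ω), co (q * d) (φ P • Cm y) = ((P.coeff d : ℤ) : Ω) • y := by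
    intro P y
    ext i j
    simp [co_apply, Cm_apply, hφ]
  let x : Matrix n n Ω := ![e, h, f] β
  have hx : Cm x = φ ((Pi.single β 1 : Fin 3 → Polynomial ℤ) 0) • Cm e +
      φ ((Pi.single β 1 : Fin 3 → Polynomial ℤ) 1) • Cm h +
      φ ((Pi.single β 1 : Fin 3 → Polynomial ℤ) 2) • Cm f := by
    fin_cases β <;> simp [x]
  have e1 : ∀ I, iterD a a' I (Cm x) =
      φ (mz I β 0) • Cm e + φ (mz I β 1) • Cm h + φ (mz I β 2) • Cm f := by
    intro I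
    have := iterD_theta h2 I (fun i => φ ((Pi.single β 1 : Fin 3 → Polynomial ℤ) i))
    rw [← hx, ← hφX, ← iterM_map] at this
    exact this
  have key := mem_dvdM_X.1 (hl (q * k) a a' h1 x) (q * d)
    (Nat.lt_succ_of_le (Nat.mul_le_mul_left _ hd.le))
  simp only [e1] at key
  rw [hx] at key
  simp only [map_sub, map_sum, map_smul, map_add, hc] at key
  have := h3 _ _ _ (show (∑ I ∈ lists (q * k), ν (q * k) I * ((mz I β 0).coeff d : Ω) -
      (((Pi.single β 1 : Fin 3 → Polynomial ℤ) 0).coeff d : Ω)) • e +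
      (∑ I ∈ lists (q * k), ν (q * k) I * ((mz I β 1).coeff d : Ω) -
      (((Pi.single β 1 : Fin 3 → Polynomial ℤ) 1).coeff d : Ω)) • h +
      (∑ I ∈ lists (q * k), ν (q * k) I * ((mz I β 2).coeff d : Ω) -
      (((Pi.single β 1 : Fin 3 → Polynomial ℤ) 2).coeff d : Ω)) • f = 0 by
    rw [← key]
    simp only [smul_add, Finset.sum_add_distrib, sub_smul, Finset.sum_smul, smul_smul]
    abel)
  rw [← sub_eq_zero]
  fin_cases γ
  · exact this.1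
  · exact this.2.1
  · exact this.2.2

theorem stage2 [IsAlgClosed Ω] [Nonempty n] (h2 : (2 : Ω) ≠ 0) {ρ : H →* Matrix n n Ω}
    (hSB : SB ρ) (hχ : ∀ u v, χ (u * v) = χ u + χ v) {S : WS Λ n Ω} (g : H)
    (hgr : ∀ x a, (fun m : ℕ => ρ g ^ m * S.P a x * ρ g⁻¹ ^ m) ∈ Gr χ (Matrix n n Ω) a)
    {A : Set (Matrix n n Ω⟦X⟧)} (h0 : ∀ γ ∈ A, co 0 γ = 1) (h1 : 1 ∈ A)
    (hmul : ∀ γ ∈ A, ∀ γ' ∈ A, γ * γ' ∈ A)
    (hconj : ∀ h, ∀ γ ∈ A, Cm (ρ h) * γ * Cm (ρ h⁻¹) ∈ A)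
    (hpres : ∀ W, Inv ρ W → ∀ γ ∈ A, ∀ γ', γ * γ' = 1 → ∀ x ∈ W, ∀ r, co r (γ * Cm x * γ') ∈ W)
    {ν : ℕ → List Bool → Ω} (hlaw : Law ν A) {U : Matrix n n Ω⟦X⟧} (hU : U ∈ A) (hU1 : U ≠ 1)
    (hUw : ∀ r : ℕ, co r U ∈ S.Wt r) (k : ℕ) : ∃ N, k ≤ N + 1 ∧ ∀ β γ : Fin 3, ∀ d < k,
      ∑ I ∈ lists N, ν N I * ((mz I β γ).coeff d : Ω) =
        (((Pi.single β 1 : Fin 3 → Polynomial ℤ) γ).coeff d : Ω) := by
  have cconj : ∀ h, ∀ γ ∈ cl A, Cm (ρ h) * γ * Cm (ρ h⁻¹) ∈ cl A := fun h γ hγ =>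
    cl_map (mul_mem (mul_mem (const_mem_PM _ _) id_mem_PM) (const_mem_PM _ _))
      (fun a ha => subset_cl (hconj h a ha)) hγ
  have clam : ∀ s, ∀ γ ∈ cl A, Cm (S.lam s) * γ * Cm (S.lam s⁻¹) ∈ cl A := fun s γ hγ =>
    cl_lam hχ hgr (fun m => by
      have := cconj (g ^ m) γ hγ
      rwa [← inv_pow, map_pow ρ, map_pow ρ] at this) s
  let J : Set (Matrix n n Ω⟦X⟧) := {γ | ∀ c, resc c γ ∈ cl A}
  have hJA : ∀ γ ∈ J, γ ∈ cl A := fun γ hγ => resc_one γ ▸ hγ 1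
  have hJ : Jet ρ S J := by
    refine ⟨fun γ hγ => cl_co0 h0 γ (hJA γ hγ), fun c => ?_, fun γ hγ γ' hγ' c => ?_,
      fun h γ hγ c => ?_, fun s γ hγ c => ?_, fun d γ hγ c => ?_, fun Γ hΓ h c => ?_,
      fun W hW γ hγ γ' hγ' x hx r => ?_, fun γ hγ => ⟨_, mul_invM (cl_co0 h0 γ (hJA γ hγ))⟩,
      fun W hW a x hx => ?_⟩
    · rw [map_one]; exact subset_cl h1
    · rw [map_mul]
      refine cl_map (mul_mem id_mem_PM (const_mem_PM _ _)) (fun a ha => ?_) (hγ c)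
      exact cl_map (mul_mem (const_mem_PM _ _) id_mem_PM)
        (fun b hb => subset_cl (hmul a ha b hb)) (hγ' c)
    · rw [map_mul, map_mul, resc_Cm, resc_Cm]; exact cconj h _ (hγ c)
    · rw [map_mul, map_mul, resc_Cm, resc_Cm]; exact clam s _ (hγ c)
    · rw [resc_resc]; exact hγ _
    · refine cl_lim (Γ := fun u => resc c (Γ u)) (resc_mem_PM (fun r i j => ?_) c)
        fun u hu => h u hu c
      obtain ⟨P, hP⟩ := hΓ r i j
      exact ⟨P, funext fun u => by simp [hP]⟩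
    · rw [eq_invM (cl_co0 h0 γ (hJA γ hγ)) hγ']
      exact cl_lin (mul_mem (mul_mem id_mem_PM (const_mem_PM _ _)) (invM_mem_PM id_mem_PM)) W r
        (fun a ha => hpres W hW a ha _ (mul_invM (h0 a ha)) x hx r) (hJA γ hγ)
    · by_cases ha : a ∈ S.wts
      · have := Gr_extract χ (W.restrictScalars K) S.wts _ (fun a _ => hgr x a) (fun m => by
          rw [← Finset.sum_mul, ← Finset.mul_sum, S.sum_P, ← map_pow, ← map_pow, inv_pow]
          exact hW _ x hx) a ha 0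
        simpa using this
      · rw [S.P_eq_zero ha]; exact zero_mem _
  have hUJ : U ∈ J := by
    intro c
    by_cases hc : c = 0
    · have : resc c U = 1 := co_ext fun r => by
        rw [co_resc, co_one, hc]
        split_ifs with h
        · rw [h, h0 U hU]; simp
        · simp [h]
      rw [this]; exact subset_cl h1
    · have : resc c U = Cm (S.lam (Units.mk0 c hc)) * U * Cm (S.lam (Units.mk0 c hc)⁻¹) :=
        co_ext fun r => by rw [co_resc, co_mul_Cm, co_Cm_mul, S.lam_conj (hUw r)]; simp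
      rw [this]; exact clam _ _ (subset_cl hU)
  obtain ⟨r, hr, h3, h4⟩ := exists_lead (h0 U hU) hU1
  refine (hJ.core hSB h2 ⟨r, by omega, r, hr, _, ⟨U, hUJ, h3, rfl⟩, ?_⟩).final ?_ k
  · rwa [S.P_of_mem (hUw r)]
  · exact fun N a a' ha => hlaw.cl h0 N a a' fun β => ⟨hJA _ (ha β).1, (ha β).2⟩

end

end Pool.Agent.Lib.MP_c0708e_al.Tits
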