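import Pool.Agent.Lib.MP_c0708e_al.TValD

/-! Derived words on cosets, and a Baire category argument for the derived series. -/

set_option linter.style.haveILetI false

namespace Pool.Agent.Lib.MP_c0708e_al.Tits

open Filter Topology
open scoped commutatorElement

section
variable {G : Type} [Group G]

/-- the derived words -/
def dw : ℕ → (ℕ → G) → G
  | 0, x => x 0
  | j + 1, x => ⁅dw j fun i => x (2 * i), dw j fun i => x (2 * i + 1)⁆

lemma dw_mem (H : Subgroup G) (j : ℕ) (x : ℕ → G) (hx : ∀ i < 2 ^ j, x i ∈ H) :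
    dw j x ∈ (derivedSeries H j).map H.subtype := by
  induction j generalizing x with
  | zero => exact ⟨⟨x 0, hx 0 (by simp)⟩, trivial, rfl⟩
  | succ j ih =>
    rw [derivedSeries_succ, Subgroup.map_commutator]
    exact Subgroup.commutator_mem_commutator (ih _ fun i hi => hx _ (by rw [pow_succ]; omega))
      (ih _ fun i hi => hx _ (by rw [pow_succ]; omega))

lemma dw_map {G' : Type} [Group G'] (φ : G →* G') (j : ℕ) (x : ℕ → G) :
    φ (dw j x) = dw j fun i => φ (x i) := by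
  induction j generalizing x with
  | zero => rfl
  | succ j ih => rw [dw, dw, map_commutatorElement, ih, ih]

lemma dw_cont [TopologicalSpace G] [IsTopologicalGroup G] (j : ℕ) :
    Continuous (dw j : (ℕ → G) → G) := by
  induction j with
  | zero => exact continuous_apply 0
  | succ j ih =>
    have h1 : Continuous fun x : ℕ → G => dw j fun i => x (2 * i) := ih.comp (by fun_prop)
    have h2 : Continuous fun x : ℕ → G => dw j fun i => x (2 * i + 1) := ih.comp (by fun_prop)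
    exact ((h1.mul h2).mul h1.inv).mul h2.inv

/-- elements of `U` that commute with `T` modulo `V` -/
def cmod (U V : Subgroup G) (hV : ∀ u ∈ U, ∀ v ∈ V, u * v * u⁻¹ ∈ V) (T : Set G) :
    Subgroup G where
  carrier := {s | s ∈ U ∧ ∀ t ∈ T, ⁅s, t⁆ ∈ V}
  mul_mem' := by
    rintro a b ⟨ha, ha'⟩ ⟨hb, hb'⟩
    refine ⟨mul_mem ha hb, fun t ht => ?_⟩
    rw [show ⁅a * b, t⁆ = a * ⁅b, t⁆ * a⁻¹ * ⁅a, t⁆ by group]
    exact mul_mem (hV _ ha _ (hb' t ht)) (ha' t ht)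
  one_mem' := ⟨one_mem _, fun t _ => by simp⟩
  inv_mem' := by
    rintro a ⟨ha, ha'⟩
    refine ⟨inv_mem ha, fun t ht => ?_⟩
    rw [show ⁅a⁻¹, t⁆ = a⁻¹ * ⁅a, t⁆⁻¹ * a⁻¹⁻¹ by group]
    exact hV _ (inv_mem ha) _ (inv_mem (ha' t ht))

lemma cmod_conj {U V : Subgroup G} (hV : ∀ u ∈ U, ∀ v ∈ V, u * v * u⁻¹ ∈ V) {T : Set G}
    (hT : ∀ u ∈ U, ∀ t ∈ T, u * t * u⁻¹ ∈ T) :
    ∀ u ∈ U, ∀ v ∈ cmod U V hV T, u * v * u⁻¹ ∈ cmod U V hV T := by
  rintro u hu v ⟨hv, hv'⟩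
  refine ⟨mul_mem (mul_mem hu hv) (inv_mem hu), fun t ht => ?_⟩
  rw [show ⁅u * v * u⁻¹, t⁆ = u * ⁅v, u⁻¹ * t * u⁻¹⁻¹⁆ * u⁻¹ by group]
  exact hV _ hu _ (hv' _ (hT _ (inv_mem hu) t ht))

lemma dw_coset (U : Subgroup G) [hU : U.Normal] (j : ℕ) : ∀ (x : ℕ → G) (V : Subgroup G),
    (∀ u ∈ U, ∀ v ∈ V, u * v * u⁻¹ ∈ V) →
    (∀ y y' : ℕ → G, (∀ i, (x i)⁻¹ * y i ∈ U) → (∀ i, (x i)⁻¹ * y' i ∈ U) →
      (dw j y)⁻¹ * dw j y' ∈ V) → (derivedSeries U j).map U.subtype ≤ V := by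
  induction j with
  | zero =>
    rintro x V - h _ ⟨u, -, rfl⟩
    simpa [dw] using h x (fun i => x i * u) (by simp) (by simp)
  | succ j ih =>
  intro x V hV h
  have hq : ∀ x y : ℕ → G, (∀ i, (x i)⁻¹ * y i ∈ U) → (dw j x)⁻¹ * dw j y ∈ U := fun x y hy => by
    rw [← QuotientGroup.eq]
    change QuotientGroup.mk' U _ = QuotientGroup.mk' U _
    rw [dw_map, dw_map]
    congr 1
    exact funext fun i => QuotientGroup.eq.2 (hy i)
  have hq' : ∀ x y y' : ℕ → G, (∀ i, (x i)⁻¹ * y i ∈ U) → (∀ i, (x i)⁻¹ * y' i ∈ U) →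
      (dw j y)⁻¹ * dw j y' ∈ U := fun x y y' hy hy' => by
    rw [show (dw j y)⁻¹ * dw j y' = ((dw j x)⁻¹ * dw j y)⁻¹ * ((dw j x)⁻¹ * dw j y') by group]
    exact mul_mem (inv_mem (hq x y hy)) (hq x y' hy')
  let x₀ : ℕ → G := fun i => x (2 * i)
  let x₁ : ℕ → G := fun i => x (2 * i + 1)
  have h' : ∀ y y' z z' : ℕ → G, (∀ i, (x₀ i)⁻¹ * y i ∈ U) → (∀ i, (x₀ i)⁻¹ * y' i ∈ U) →
      (∀ i, (x₁ i)⁻¹ * z i ∈ U) → (∀ i, (x₁ i)⁻¹ * z' i ∈ U) →
      ⁅dw j y, dw j z⁆⁻¹ * ⁅dw j y', dw j z'⁆ ∈ V := by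
    intro y y' z z' hy hy' hz hz'
    let m : (ℕ → G) → (ℕ → G) → ℕ → G := fun y z i => if i % 2 = 0 then y (i / 2) else z (i / 2)
    have e : ∀ y z, dw (j + 1) (m y z) = ⁅dw j y, dw j z⁆ := fun y z => by
      rw [dw]
      congr 2 <;> funext i
      · simp [m]
      · simp only [m]
        rw [if_neg (by omega), show (2 * i + 1) / 2 = i by omega]
    have hm : ∀ y z, (∀ i, (x₀ i)⁻¹ * y i ∈ U) → (∀ i, (x₁ i)⁻¹ * z i ∈ U) →
        ∀ i, (x i)⁻¹ * m y z i ∈ U := fun y z hy hz i => by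
      simp only [m]
      split_ifs with hi
      · have := hy (i / 2)
        rwa [show x₀ (i / 2) = x i from congrArg x (by omega)] at this
      · have := hz (i / 2)
        rwa [show x₁ (i / 2) = x i from congrArg x (by omega)] at this
    rw [← e, ← e]
    exact h _ _ (hm _ _ hy hz) (hm _ _ hy' hz')
  let c := dw j x₁ * dw j x₀
  let V' := V.comap (MulAut.conj c).toMonoidHom
  have mV' : ∀ g, g ∈ V' ↔ c * g * c⁻¹ ∈ V := fun g => Iff.rfl
  have hV' : ∀ u ∈ U, ∀ v ∈ V', u * v * u⁻¹ ∈ V' := fun u hu v hv => by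
    rw [mV', show c * (u * v * u⁻¹) * c⁻¹ = (c * u * c⁻¹) * (c * v * c⁻¹) * (c * u * c⁻¹)⁻¹ by group]
    exact hV _ (hU.conj_mem u hu c) _ hv
  let T : Set G := {t | ∃ z z' : ℕ → G, (∀ i, (x₁ i)⁻¹ * z i ∈ U) ∧ (∀ i, (x₁ i)⁻¹ * z' i ∈ U) ∧
    t = (dw j z)⁻¹ * dw j z'}
  have hT : ∀ u ∈ U, ∀ t ∈ T, u * t * u⁻¹ ∈ T := by
    rintro u hu _ ⟨z, z', hz, hz', rfl⟩
    have e : ∀ z : ℕ → G, dw j (fun i => u * z i * u⁻¹) = u * dw j z * u⁻¹ := fun z =>
      (dw_map (MulAut.conj u).toMonoidHom j z).symm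
    have hc : ∀ z : ℕ → G, (∀ i, (x₁ i)⁻¹ * z i ∈ U) → ∀ i, (x₁ i)⁻¹ * (u * z i * u⁻¹) ∈ U :=
      fun z hz i => by
        rw [show (x₁ i)⁻¹ * (u * z i * u⁻¹) = (x₁ i)⁻¹ * u * (x₁ i)⁻¹⁻¹ * ((x₁ i)⁻¹ * z i) * u⁻¹ by
          group]
        exact mul_mem (mul_mem (hU.conj_mem u hu _) (hz i)) (inv_mem hu)
    exact ⟨_, _, hc z hz, hc z' hz', by rw [e, e]; group⟩
  have h1 := ih x₀ (cmod U V' hV' T) (cmod_conj hV' hT) fun y y' hy hy' =>
    ⟨hq' x₀ y y' hy hy', by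
      rintro _ ⟨z, z', hz, hz', rfl⟩
      have a1 := mul_mem (h' y' y' z z' hy' hy' hz hz') (inv_mem (h' y y z z' hy hy hz hz'))
      have a2 := hU.conj_mem _ (mul_mem (hU.conj_mem _ (hq x₁ z hz) (dw j x₀)⁻¹) (hq x₀ y hy)) c
      have a3 := hV _ (inv_mem a2) _ a1
      rw [mV']
      convert a3 using 1
      simp only [c]
      group⟩
  haveI : ((derivedSeries U j).map U.subtype).Normal := inferInstance
  have h2 := ih x₁ (cmod U V' hV' ((derivedSeries U j).map U.subtype))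
    (cmod_conj hV' fun u _ t ht => Subgroup.Normal.conj_mem inferInstance t ht u)
    fun z z' hz hz' => ⟨hq' x₁ z z' hz hz', fun s hs => by
      rw [← commutatorElement_inv]
      exact inv_mem ((h1 hs).2 _ ⟨z, z', hz, hz', rfl⟩)⟩
  have h3 : (derivedSeries U (j + 1)).map U.subtype ≤ V' := by
    rw [derivedSeries_succ, Subgroup.map_commutator, Subgroup.commutator_le]
    exact fun a ha b hb => (h2 ha).2 b hb
  intro g hg
  have := h3 (Subgroup.Normal.conj_mem inferInstance g hg c⁻¹)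
  rw [mV'] at this
  convert this using 1
  group

end

theorem baire_deriv {p : ℕ} [Fact p.Prime] {G : ProfiniteGrp.{0}} (hG : IsProP p G)
    (K : ℕ → Subgroup G) (hn : ∀ m, (K m).Normal) (hc : ∀ m, IsClosed (K m : Set G)) (f : ℕ)
    (h : ∀ x : ℕ → G, ∃ m, dw f x ∈ K m) : ∃ d m, derivedSeries G d ≤ K m := by
  obtain ⟨m, x, hx⟩ := nonempty_interior_of_iUnion_of_closed
    (f := fun m => (dw f : (ℕ → G) → G) ⁻¹' (K m)) (fun m => (hc m).preimage (dw_cont f))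
    (Set.eq_univ_of_forall fun x => Set.mem_iUnion.2 (h x))
  rw [mem_interior_iff_mem_nhds, nhds_pi, Filter.mem_pi] at hx
  obtain ⟨I, hI, t, ht, hsub⟩ := hx
  have h1 : (⋂ i ∈ I, (fun u => x i * u) ⁻¹' t i) ∈ 𝓝 (1 : G) :=
    (biInter_mem hI).2 fun i _ => (continuous_const.mul continuous_id).continuousAt.preimage_mem_nhds
      (by simpa using ht i)
  obtain ⟨O, hO, hO1, hO2⟩ := mem_nhds_iff.1 h1
  obtain ⟨U, hU⟩ := ProfiniteGrp.exist_openNormalSubgroup_sub_open_nhds_of_one hO1 hO2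
  have h2 : ∀ y : ℕ → G, (∀ i, (x i)⁻¹ * y i ∈ U.toSubgroup) → dw f y ∈ K m := fun y hy =>
    hsub fun i hi => by simpa using Set.mem_iInter₂.1 (hO (hU (hy i))) i hi
  have h3 := dw_coset U.toSubgroup f x (K m) (fun u _ v hv => (hn m).conj_mem v hv u)
    fun y y' hy hy' => mul_mem (inv_mem (h2 y hy)) (h2 y' hy')
  haveI := Subgroup.quotient_finite_of_isOpen U.toSubgroup U.isOpen'
  haveI := (hG U).isNilpotent
  obtain ⟨j, hj⟩ := exists_deriv_le U.toSubgroup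
  exact ⟨j + f, m, (deriv_le_map hj f).trans h3⟩

end Pool.Agent.Lib.MP_c0708e_al.Tits
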