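import Pool.Agent.Lib.MP_c0708e_al.XPol
import Pool.Agent.Lib.MP_c0708e_al.XBaire

/-! Zariski closures and tangent vectors of unipotent matrix groups over `ℚ`-algebras. -/

set_option linter.style.haveILetI false

namespace Pool.Agent.Lib.MP_c0708e_al.Tits

open Finset

variable {n S W : Type} [Fintype n] [DecidableEq n] [CommRing S]

/-- matrix valued functions with entries in `𝒜` -/
def MS (n : Type) [Fintype n] [DecidableEq n] (𝒜 : Subalgebra S (W → S)) :
    Subalgebra S (W → Matrix n n S) where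
  carrier := {γ | ∀ i j, (fun w => γ w i j) ∈ 𝒜}
  mul_mem' := fun {a b} ha hb i j => by
    have : (fun w => (a * b) w i j) = ∑ k, (fun w => a w i k) * fun w => b w k j := by
      funext w; simp [Matrix.mul_apply]
    rw [this]
    exact sum_mem fun k _ => mul_mem (ha i k) (hb k j)
  add_mem' := fun ha hb i j => add_mem (ha i j) (hb i j)
  algebraMap_mem' := fun r i j => 𝒜.algebraMap_mem (algebraMap S (Matrix n n S) r i j)

lemma MS_const (𝒜 : Subalgebra S (W → S)) (a : Matrix n n S) : (fun _ => a) ∈ MS n 𝒜 :=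
  fun i j => 𝒜.algebraMap_mem (a i j)

lemma MS_smul {𝒜 : Subalgebra S (W → S)} {f : W → S} (hf : f ∈ 𝒜) {γ : W → Matrix n n S}
    (hγ : γ ∈ MS n 𝒜) : (fun w => f w • γ w) ∈ MS n 𝒜 := fun i j => mul_mem hf (hγ i j)

lemma MS_sum {𝒜 : Subalgebra S (W → S)} {ι : Type} (s : Finset ι) {γ : ι → W → Matrix n n S}
    (hγ : ∀ i ∈ s, γ i ∈ MS n 𝒜) : (fun w => ∑ i ∈ s, γ i w) ∈ MS n 𝒜 := by
  rw [← Finset.sum_fn]; exact sum_mem hγ

/-- maps to `GL` that have entries in `𝒜`, together with their inverses -/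
def MG (n : Type) [Fintype n] [DecidableEq n] (𝒜 : Subalgebra S (W → S)) :
    Subgroup (W → GL n S) where
  carrier := {u | (fun w => (u w : Matrix n n S)) ∈ MS n 𝒜 ∧
    (fun w => ((u w)⁻¹ : GL n S).val) ∈ MS n 𝒜}
  mul_mem' := fun ha hb => ⟨mul_mem ha.1 hb.1, mul_mem hb.2 ha.2⟩
  one_mem' := ⟨one_mem _, one_mem _⟩
  inv_mem' := fun ha => ⟨ha.2, ha.1⟩

lemma MG_const (𝒜 : Subalgebra S (W → S)) (a : GL n S) : (fun _ => a) ∈ MG n 𝒜 :=
  ⟨MS_const _ _, MS_const _ _⟩

lemma MG_of_nil {𝒜 : Subalgebra S (W → S)} {u : W → GL n S} {M : ℕ}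
    (hu : (fun w => (u w : Matrix n n S)) ∈ MS n 𝒜)
    (h : ∀ w, (1 - (u w : Matrix n n S)) ^ M = 0) : u ∈ MG n 𝒜 := by
  refine ⟨hu, ?_⟩
  have : (fun w => ((u w)⁻¹ : GL n S).val) =
      fun w => ∑ i ∈ range M, (1 - (u w : Matrix n n S)) ^ i := by
    funext w
    refine Units.inv_eq_of_mul_eq_one_left ?_
    have := geom_sum_mul_neg (1 - (u w : Matrix n n S)) M
    rwa [sub_sub_cancel, h, sub_zero] at this
  rw [this]
  exact MS_sum _ fun i _ => pow_mem (sub_mem (one_mem _) hu) i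

/-- regular functions on `GL` -/
def reg (n S : Type) [Fintype n] [DecidableEq n] [CommRing S] : Subalgebra S (GL n S → S) :=
  Algebra.adjoin S ({f | ∃ i j, f = fun g => g.val i j} ∪ {f | ∃ i j, f = fun g => g⁻¹.val i j})

lemma id_mem_MG : (fun g => g) ∈ MG n (reg n S) :=
  ⟨fun i j => Algebra.subset_adjoin (Or.inl ⟨i, j, rfl⟩),
    fun i j => Algebra.subset_adjoin (Or.inr ⟨i, j, rfl⟩)⟩

lemma pull {𝒜 : Subalgebra S (W → S)} {u : W → GL n S} (hu : u ∈ MG n 𝒜) {φ : GL n S → S}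
    (hφ : φ ∈ reg n S) : (fun w => φ (u w)) ∈ 𝒜 := by
  induction hφ using Algebra.adjoin_induction with
  | mem f hf =>
    rcases hf with ⟨i, j, rfl⟩ | ⟨i, j, rfl⟩
    exacts [hu.1 i j, hu.2 i j]
  | algebraMap r => exact 𝒜.algebraMap_mem r
  | add f g _ _ hf hg => exact add_mem hf hg
  | mul f g _ _ hf hg => exact mul_mem hf hg

/-- the Zariski closure -/
def zs (D : Subgroup (GL n S)) : Set (GL n S) :=
  {g | ∀ φ ∈ reg n S, (∀ h ∈ D, φ h = 0) → φ g = 0}

lemma le_zs {D : Subgroup (GL n S)} {g : GL n S} (hg : g ∈ D) : g ∈ zs D := fun _ _ h => h g hg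

lemma zs_map {D D' : Subgroup (GL n S)} {u : GL n S → GL n S} (hu : u ∈ MG n (reg n S))
    (h : ∀ g ∈ D, u g ∈ zs D') {g : GL n S} (hg : g ∈ zs D) : u g ∈ zs D' :=
  fun φ hφ h0 => hg _ (pull hu hφ) fun k hk => h k hk φ hφ h0

/-- the Zariski closure as a subgroup -/
def zc (D : Subgroup (GL n S)) : Subgroup (GL n S) where
  carrier := zs D
  mul_mem' := fun {a _} ha hb => zs_map (mul_mem (MG_const _ a) id_mem_MG)
    (fun g hg => zs_map (mul_mem id_mem_MG (MG_const _ g))
      (fun _ hk => le_zs (mul_mem hk hg)) ha) hb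
  one_mem' := le_zs (one_mem D)
  inv_mem' := fun ha => zs_map (inv_mem id_mem_MG) (fun _ hg => le_zs (inv_mem hg)) ha

lemma lift_mem_MG {ι : Type} {𝒜 : Subalgebra S (W → S)} {v : ι → W → GL n S}
    (hv : ∀ a, v a ∈ MG n 𝒜) (w : FreeGroup ι) :
    (fun g => FreeGroup.lift (fun a => v a g) w) ∈ MG n 𝒜 := by
  have : (fun g => FreeGroup.lift (fun a => v a g) w) = FreeGroup.lift v w :=
    funext fun g => (lift_map (Pi.evalMonoidHom (fun _ => GL n S) g) v w).symm
  rw [this]
  exact FreeGroup.range_lift_le (by rintro _ ⟨a, rfl⟩; exact hv a) ⟨w, rfl⟩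

lemma law_zc {ι : Type} [Fintype ι] {D : Subgroup (GL n S)} {w : FreeGroup ι}
    (h : ∀ y : ι → GL n S, (∀ a, y a ∈ D) → FreeGroup.lift y w = 1) (y : ι → GL n S)
    (hy : ∀ a, y a ∈ zc D) : FreeGroup.lift y w = 1 := by
  classical
  have key : ∀ s : Finset ι, ∀ y : ι → GL n S, (∀ a, y a ∈ zc D) → (∀ a ∉ s, y a ∈ D) →
      FreeGroup.lift y w = 1 := by
    intro s
    induction s using Finset.induction_on with
    | empty => exact fun y _ h2 => h y fun a => h2 a (notMem_empty a)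
    | insert a s _ ih =>
      intro y h1 h2
      have hu := lift_mem_MG (𝒜 := reg n S) (v := fun b g => Function.update y a g b) (fun b => by
        by_cases hb : b = a
        · subst hb; simpa using id_mem_MG
        · simpa [hb] using MG_const _ (y b)) w
      refine Units.ext (sub_eq_zero.1 (Matrix.ext fun i j => ?_))
      have := h1 a _ (sub_mem hu.1 (one_mem _) i j) fun g hg => by
        have := ih (Function.update y a g) (fun b => by
          by_cases hb : b = a
          · subst hb; rw [Function.update_self]; exact le_zs hg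
          · simpa [hb] using h1 b) (fun b hb' => by
          by_cases hb : b = a
          · subst hb; simpa using hg
          · simpa [hb] using h2 b (by simp [hb, hb']))
        simp [this]
      simpa using this
  exact key univ y hy fun a ha => absurd (mem_univ a) ha

variable [Algebra ℚ S]

/-- polynomial functions of a rational parameter -/
def P1 (S : Type) [CommRing S] [Algebra ℚ S] : Subalgebra S (ℚ → S) :=
  Algebra.adjoin S {fun t => algebraMap ℚ S t}

lemma id_mem_P1 : (fun t => algebraMap ℚ S t) ∈ P1 S := Algebra.subset_adjoin rfl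

lemma P1_zero {f : ℚ → S} (hf : f ∈ P1 S) (h : {t | f t = 0}.Infinite) (t : ℚ) : f t = 0 := by
  rw [P1, Algebra.adjoin_singleton_eq_range_aeval] at hf
  obtain ⟨p, rfl⟩ := hf
  rw [← Module.forall_dual_apply_eq_zero_iff ℚ]
  intro φ
  let q : Polynomial ℚ := ∑ i ∈ range (p.natDegree + 1), Polynomial.monomial i (φ (p.coeff i))
  have hq : ∀ t, q.eval t = φ (Polynomial.aeval (fun t => algebraMap ℚ S t) p t) := fun t => by
    rw [Polynomial.aeval_eq_sum_range, Finset.sum_apply, map_sum, Polynomial.eval_finsetSum]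
    refine sum_congr rfl fun i _ => ?_
    rw [Polynomial.eval_monomial, mul_comm, ← smul_eq_mul, ← map_smul, Algebra.smul_def, map_pow,
      mul_comm]
    rfl
  have : q = 0 := Polynomial.eq_zero_of_infinite_isRoot q (h.mono fun t ht => by
    rw [Set.mem_ofPred_eq, Polynomial.IsRoot, hq]
    exact (congrArg φ ht).trans (map_zero φ))
  exact (hq t).symm.trans (by rw [this, Polynomial.eval_zero])

lemma P1_comp {f : ℚ → S} (hf : f ∈ P1 S) (c : ℚ) : (fun t => f (c * t)) ∈ P1 S := by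
  induction hf using Algebra.adjoin_induction with
  | mem f hf =>
    rw [hf]
    simp only [map_mul]
    exact mul_mem ((P1 S).algebraMap_mem _) id_mem_P1
  | algebraMap r => exact (P1 S).algebraMap_mem r
  | add f g _ _ hf hg => exact add_mem hf hg
  | mul f g _ _ hf hg => exact mul_mem hf hg

lemma curve {D : Subgroup (GL n S)} {u : ℚ → GL n S} (hu : u ∈ MG n (P1 S))
    (h : {t | u t ∈ zc D}.Infinite) (t : ℚ) : u t ∈ zc D :=
  fun φ hφ h0 => P1_zero (pull hu hφ) (h.mono fun s (hs : u s ∈ zs D) => hs φ hφ h0) t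

lemma MS_qsmul {𝒜 : Subalgebra S (W → S)} {f : W → ℚ} (hf : (fun w => algebraMap ℚ S (f w)) ∈ 𝒜)
    {γ : W → Matrix n n S} (hγ : γ ∈ MS n 𝒜) : (fun w => f w • γ w) ∈ MS n 𝒜 := by
  simpa using MS_smul hf hγ

lemma idM_qsmul {J : Ideal S} (q : ℚ) {x : Matrix n n S} (hx : x ∈ J.matrix n) :
    q • x ∈ J.matrix n := fun i j => by
  rw [Matrix.smul_apply, Algebra.smul_def]
  exact J.mul_mem_left _ (hx i j)

/-- tangent vectors of polynomial curves in the closure of `D` -/
def tang (D : Subgroup (GL n S)) (J : Ideal S) : Submodule ℚ (Matrix n n S) where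
  carrier := {X | ∃ B ∈ MS n (P1 S), B 0 = X ∧ (∀ t, B t ∈ J.matrix n) ∧
    ∀ t : ℚ, ∃ g ∈ zc D, g.val = 1 + t • B t}
  add_mem' := by
    rintro _ _ ⟨B, h1, rfl, h2, h3⟩ ⟨B', h1', rfl, h2', h3'⟩
    refine ⟨fun t => B t + B' t + t • (B t * B' t),
      add_mem (add_mem h1 h1') (MS_qsmul id_mem_P1 (mul_mem h1 h1')), by simp,
      fun t => add_mem (add_mem (h2 t) (h2' t)) (idM_qsmul _ (idM_mul_right (h2 t) _)),
      fun t => ?_⟩
    obtain ⟨g, hg, e⟩ := h3 t
    obtain ⟨g', hg', e'⟩ := h3' t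
    refine ⟨g * g', mul_mem hg hg', ?_⟩
    rw [Units.val_mul, e, e']
    simp only [mul_add, add_mul, smul_add, mul_one, one_mul, smul_mul_assoc, mul_smul_comm]
    abel
  zero_mem' := ⟨0, zero_mem _, rfl, fun _ => zero_mem _, fun _ => ⟨1, one_mem _, by simp⟩⟩
  smul_mem' := by
    rintro c _ ⟨B, h1, rfl, h2, h3⟩
    refine ⟨fun t => c • B (c * t), MS_qsmul ((P1 S).algebraMap_mem _)
      fun i j => P1_comp (h1 i j) c, by simp, fun t => idM_qsmul _ (h2 _), fun t => ?_⟩
    obtain ⟨g, hg, e⟩ := h3 (c * t)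
    exact ⟨g, hg, by rw [e, smul_smul, mul_comm]⟩

variable {J : Ideal S} {M : ℕ}

omit [Algebra ℚ S] in
lemma pow_eq_zero_idM (hJ : J ^ (M + 1) = ⊥) {x : Matrix n n S} (hx : x ∈ J.matrix n) :
    x ^ (M + 1) = 0 := Matrix.ext fun i j => by simpa [hJ] using idM_pow hx (M + 1) i j

lemma sum_sub_one {x : Matrix n n S} (hx : x ∈ J.matrix n) (c : ℕ → ℚ) (hc : c 0 = 1) (k : ℕ) :
    ∑ j ∈ range (k + 1), c j • x ^ j - 1 ∈ J.matrix n := by
  rw [sum_range_succ', hc, pow_zero, one_smul, add_sub_cancel_right]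
  exact sum_mem fun j _ => idM_qsmul _ (by rw [pow_succ']; exact idM_mul_right hx _)

omit [Algebra ℚ S] in
lemma exists_unit (hJ : J ^ (M + 1) = ⊥) {x : Matrix n n S} (hx : x - 1 ∈ J.matrix n) :
    ∃ g : GL n S, g.val = x := by
  have := IsNilpotent.isUnit_add_one ⟨_, pow_eq_zero_idM hJ hx⟩
  rwa [sub_add_cancel] at this

omit [Algebra ℚ S] in
lemma MG_of_idM (hJ : J ^ (M + 1) = ⊥) {𝒜 : Subalgebra S (W → S)} {u : W → GL n S}
    {γ : W → Matrix n n S} (e : ∀ w, (u w).val = γ w) (hγ : γ ∈ MS n 𝒜)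
    (h : ∀ w, γ w - 1 ∈ J.matrix n) : u ∈ MG n 𝒜 :=
  MG_of_nil (by rwa [funext e]) fun w =>
    pow_eq_zero_idM hJ (by rw [e, ← neg_sub]; exact neg_mem (h w))

lemma prod_choose (K j : ℕ) : ∏ i ∈ range j, ((K : ℚ) - i) = j.factorial * K.choose j := by
  induction j with
  | zero => simp
  | succ j ih =>
    rw [prod_range_succ, ih, Nat.factorial_succ]
    rcases le_or_gt j K with h | h
    · have := congrArg (Nat.cast (R := ℚ)) (Nat.choose_succ_right_eq K j)
      push_cast [h] at this ⊢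
      linear_combination (-(j.factorial : ℚ)) * this
    · simp [Nat.choose_eq_zero_of_lt h, Nat.choose_eq_zero_of_lt (h.trans j.lt_succ_self)]

lemma binom_trunc {A : Type} [Ring A] {U : A} {M : ℕ} (h : U ^ M = 0) (K : ℕ) :
    (1 + U) ^ K = ∑ j ∈ range M, K.choose j • U ^ j := by
  rw [add_comm, (Commute.one_right U).add_pow]
  simp only [one_pow, mul_one, ← nsmul_eq_mul']
  rw [sum_subset (s₂ := range (K + 1 + M)) (range_subset_range.2 (by omega)) fun j _ hj => by
      rw [Nat.choose_eq_zero_of_lt (by simpa using hj), zero_smul],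
    sum_subset (s₁ := range M) (s₂ := range (K + 1 + M)) (range_subset_range.2 (by omega))
      fun j _ hj => by rw [pow_eq_zero_of_le (by simpa using hj) h, smul_zero]]

lemma exp_mem_zc (hJ : J ^ (M + 1) = ⊥) {D : Subgroup (GL n S)} {X : Matrix n n S}
    (hX : X ∈ tang D J) {g : GL n S} (hg : g.val = IsNilpotent.exp X) : g ∈ zc D := by
  obtain ⟨B, h1, rfl, h2, h3⟩ := hX
  let Q : ℚ → ℚ → Matrix n n S := fun t s =>
    ∑ j ∈ range (M + 1), ((j.factorial : ℚ)⁻¹ * ∏ i ∈ range j, (s - i * t)) • B t ^ j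
  have hQ : ∀ t s, Q t s - 1 ∈ J.matrix n := fun t s => sum_sub_one (h2 t) _ (by simp) M
  choose q hq using fun t s => exists_unit hJ (hQ t s)
  have hp : ∀ (j : ℕ) (a b : ℚ → ℚ), (fun w => algebraMap ℚ S (a w)) ∈ P1 S →
      (fun w => algebraMap ℚ S (b w)) ∈ P1 S → (fun w => algebraMap ℚ S
        ((j.factorial : ℚ)⁻¹ * ∏ i ∈ range j, (b w - i * a w))) ∈ P1 S := by
    intro j a b ha hb
    simp only [map_mul, map_prod, map_sub]
    refine mul_mem ((P1 S).algebraMap_mem _) ?_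
    rw [← Finset.prod_fn]
    exact prod_mem fun i _ => sub_mem hb (mul_mem ((P1 S).algebraMap_mem _) ha)
  have a1 : ∀ t, t ≠ 0 → q t 1 ∈ zc D := fun t ht => by
    refine curve (MG_of_idM hJ (hq t) (MS_sum _ fun j _ => MS_qsmul
      (hp j (fun _ => t) id ((P1 S).algebraMap_mem _) id_mem_P1) (MS_const _ _)) (hQ t))
      (Set.infinite_of_injective_forall_mem (f := fun K : ℕ => (K : ℚ) * t)
        (fun a b hab => by simpa [ht] using hab) fun K => ?_) 1
    obtain ⟨k, hk, e⟩ := h3 t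
    have : q t (K * t) = k ^ K := Units.ext (by
      rw [hq, Units.val_pow_eq_pow_val, e, binom_trunc (pow_eq_zero_idM hJ (idM_qsmul t (h2 t)))]
      refine sum_congr rfl fun j _ => ?_
      simp only [← sub_mul]
      rw [prod_mul_distrib, prod_choose, prod_const, card_range, smul_pow,
        ← Nat.cast_smul_eq_nsmul ℚ, smul_smul]
      congr 1
      field_simp)
    rw [Set.mem_ofPred_eq, this]
    exact pow_mem hk K
  have a2 := curve (u := fun t => q t 1) (MG_of_idM hJ (fun t => hq t 1) (MS_sum _ fun j _ =>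
    MS_qsmul (hp j id (fun _ => 1) id_mem_P1 ((P1 S).algebraMap_mem _)) (pow_mem h1 j))
    fun t => hQ t 1) (((Set.finite_singleton 0).infinite_compl).mono a1) 0
  have : g = q 0 1 := Units.ext (by
    rw [hg, hq, IsNilpotent.exp_eq_sum (pow_eq_zero_idM hJ (h2 0))]
    simp [Q])
  rwa [this]

lemma exp_sub_one (hJ : J ^ (M + 1) = ⊥) {X : Matrix n n S} (hX : X ∈ J.matrix n) :
    IsNilpotent.exp X - 1 ∈ J.matrix n := by
  rw [IsNilpotent.exp_eq_sum (pow_eq_zero_idM hJ hX)]
  exact sum_sub_one hX _ (by simp) M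

lemma mem_tang (hJ : J ^ (M + 1) = ⊥) {D : Subgroup (GL n S)} {X : Matrix n n S}
    (hX : X ∈ J.matrix n) {z : GL n S} (hz : z ∈ D) (e : z.val = IsNilpotent.exp X) :
    X ∈ tang D J := by
  let B : ℚ → Matrix n n S := fun t =>
    ∑ j ∈ range (M + 1), (((j + 1).factorial : ℚ)⁻¹ * t ^ j) • X ^ (j + 1)
  have hB : B ∈ MS n (P1 S) := MS_sum _ fun j _ => MS_qsmul (by
    simp only [map_mul, map_pow]
    exact mul_mem ((P1 S).algebraMap_mem _) (pow_mem id_mem_P1 j)) (MS_const _ _)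
  have hn : ∀ t : ℚ, (t • X) ^ (M + 1) = 0 := fun t => pow_eq_zero_idM hJ (idM_qsmul t hX)
  have he : ∀ t : ℚ, IsNilpotent.exp (t • X) = 1 + t • B t := fun t => by
    rw [IsNilpotent.exp_eq_sum (pow_eq_zero_of_le (Nat.le_succ _) (hn t)), sum_range_succ',
      add_comm, smul_sum]
    congr 1
    · simp
    · refine sum_congr rfl fun j _ => ?_
      rw [smul_pow, smul_smul, smul_smul]
      congr 1
      ring
  choose u hu using fun t : ℚ => exists_unit hJ (exp_sub_one hJ (idM_qsmul t hX))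
  refine ⟨B, hB, by simp [B, sum_range_succ'], fun t => sum_mem fun j _ =>
    idM_qsmul _ (by rw [pow_succ']; exact idM_mul_right hX _),
    fun t => ⟨u t, ?_, (hu t).trans (he t)⟩⟩
  refine curve (MG_of_idM hJ (fun t => (hu t).trans (he t))
    (add_mem (one_mem _) (MS_qsmul id_mem_P1 hB))
    fun t => he t ▸ exp_sub_one hJ (idM_qsmul t hX))
    (Set.infinite_of_injective_forall_mem (f := fun K : ℕ => (K : ℚ)) Nat.cast_injective
      fun K => ?_) t
  have : u K = z ^ K := Units.ext (by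
    rw [hu, Units.val_pow_eq_pow_val, e]
    induction K with
    | zero => simp
    | succ K ih =>
      rw [Nat.cast_succ, add_smul, one_smul, IsNilpotent.exp_add_of_commute
        ((Commute.refl X).smul_left _) ⟨_, hn K⟩ ⟨_, pow_eq_zero_idM hJ hX⟩, ih, pow_succ])
  rw [Set.mem_ofPred_eq, this]
  exact le_zs (pow_mem hz K)

lemma exp_surj (hJ : J ^ (M + 1) = ⊥) {g : Matrix n n S} (hg : g - 1 ∈ J.matrix n) :
    ∃ X ∈ J.matrix n, g = IsNilpotent.exp X := by
  have nil : ∀ X ∈ J.matrix n, IsNilpotent X := fun X hX => ⟨_, pow_eq_zero_idM hJ hX⟩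
  have com : ∀ a, ∀ X ∈ J.matrix n, Commute a X → Commute a (IsNilpotent.exp X) :=
    fun a X hX h => by
      rw [IsNilpotent.exp_eq_sum (pow_eq_zero_idM hJ hX)]
      exact Commute.sum_right _ _ _ fun j _ => (h.pow_right j).smul_right _
  have key : ∀ k, ∃ X ∈ J.matrix n, Commute g X ∧
      g * IsNilpotent.exp (-X) - 1 ∈ (J ^ (k + 1)).matrix n := by
    intro k
    induction k with
    | zero => exact ⟨0, zero_mem _, Commute.zero_right g, by simpa using hg⟩
    | succ k ih =>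
      obtain ⟨X, hX, hc, hU⟩ := ih
      set U := g * IsNilpotent.exp (-X) - 1 with hUdef
      have hUJ : U ∈ J.matrix n := fun i j => Ideal.pow_le_self k.succ_ne_zero (hU i j)
      have c1 : Commute g U :=
        ((Commute.refl g).mul_right (com _ _ (neg_mem hX) hc.neg_right)).sub_right
          (Commute.one_right g)
      have c2 : Commute X U :=
        (hc.symm.mul_right (com _ _ (neg_mem hX) (Commute.refl X).neg_right)).sub_right
          (Commute.one_right X)
      refine ⟨X + U, add_mem hX hUJ, hc.add_right c1, ?_⟩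
      rw [neg_add, IsNilpotent.exp_add_of_commute c2.neg_left.neg_right (nil _ (neg_mem hX))
        (nil _ (neg_mem hUJ)), ← mul_assoc, eq_add_of_sub_eq hUdef.symm]
      have h1 : IsNilpotent.exp (-U) - 1 + U ∈ (J ^ (k + 1 + 1)).matrix n := by
        rw [IsNilpotent.exp_eq_sum (pow_eq_zero_of_le (Nat.le_succ _)
          (pow_eq_zero_idM hJ (neg_mem hUJ))), sum_range_succ', sum_range_succ']
        simp only [zero_add, Nat.factorial_one, Nat.factorial_zero, Nat.cast_one, inv_one,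
          one_smul, pow_one, pow_zero, add_sub_cancel_right, neg_add_cancel_right]
        refine sum_mem fun j _ => idM_qsmul _ ?_
        rw [pow_succ J, pow_succ' (-U), pow_succ' (-U), ← mul_assoc]
        exact idM_mul_right (idM_mul (neg_mem hU) (neg_mem hUJ)) _
      have h2 : U * (IsNilpotent.exp (-U) - 1) ∈ (J ^ (k + 1 + 1)).matrix n := by
        rw [pow_succ J]
        exact idM_mul hU (exp_sub_one hJ (neg_mem hUJ))
      convert add_mem h1 h2 using 1
      noncomm_ring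
  obtain ⟨X, hX, -, h⟩ := key M
  have h1 : g * IsNilpotent.exp (-X) = 1 :=
    sub_eq_zero.1 (Matrix.ext fun i j => by simpa [hJ] using h i j)
  refine ⟨X, hX, ?_⟩
  rw [← mul_one g, ← IsNilpotent.exp_neg_mul_exp_self (nil X hX), ← mul_assoc, h1, one_mul]

lemma dw_congr {G : Type} [Group G] (j : ℕ) {x y : ℕ → G} (h : ∀ i < 2 ^ j, x i = y i) :
    dw j x = dw j y := by
  induction j generalizing x y with
  | zero => exact h 0 (by simp)
  | succ j ih =>
    rw [dw, dw, ih (y := fun i => y (2 * i)) fun i hi => h _ (by rw [pow_succ]; omega),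
      ih (y := fun i => y (2 * i + 1)) fun i hi => h _ (by rw [pow_succ]; omega)]

lemma law_polar {D : Subgroup (GL n S)} (hN : ∀ g ∈ D, ∀ i j, IsNilpotent ((g.val - 1) i j))
    {d : ℕ} (hd : ∀ y : n × n → GL n S, (∀ a, y a ∈ D) →
      ∀ w ∈ derivedSeries (FreeGroup (n × n)) d, FreeGroup.lift y w = 1)
    {μ : Type} [Fintype μ] {w : FreeGroup μ} (hw : w ∈ derivedSeries (FreeGroup μ) d)
    (x : μ → GL n S) (hx : ∀ a, x a ∈ D) : FreeGroup.lift x w = 1 := by
  let J : Ideal S := Ideal.span (Set.range fun t : μ × n × n => ((x t.1).val - 1) t.2.1 t.2.2)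
  obtain ⟨M, hM⟩ : IsNilpotent J := by
    rw [Ideal.FG.isNilpotent_iff_le_nilradical (Submodule.fg_span (Set.finite_range _)),
      Ideal.span_le]
    rintro _ ⟨t, rfl⟩
    exact hN _ (hx _) _ _
  have hJ : J ^ (M + 1) = ⊥ := pow_eq_zero_of_le (Nat.le_succ M) hM
  choose X hX hXe using fun a => exp_surj hJ (g := (x a).val)
    fun i j => Ideal.subset_span ⟨(a, i, j), rfl⟩
  let W := {Y : μ → Matrix n n S // ∀ a, Y a ∈ J.matrix n}
  let ev := MvPolynomial.aeval (R := S) fun (t : μ × n × n) (Y : W) => Y.1 t.1 t.2.1 t.2.2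
  choose u hu using fun (a : μ) (Y : W) => exists_unit hJ (exp_sub_one hJ (Y.2 a))
  have h1 : ∀ a, u a ∈ MG n ev.range := fun a =>
    MG_of_idM hJ (γ := fun Y => ∑ j ∈ range (M + 1), (j.factorial : ℚ)⁻¹ • Y.1 a ^ j)
      (fun Y => (hu a Y).trans (IsNilpotent.exp_eq_sum (pow_eq_zero_idM hJ (Y.2 a))))
      (MS_sum _ fun j _ => MS_qsmul (ev.range.algebraMap_mem _) (pow_mem
        (show (fun Y : W => Y.1 a) ∈ MS n ev.range from
          fun i k => ⟨MvPolynomial.X (a, i, k), MvPolynomial.aeval_X _ _⟩) j))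
      fun Y => sum_sub_one (Y.2 a) _ (by simp) M
  have h2 : x = fun a => u a ⟨X, hX⟩ :=
    funext fun a => Units.ext ((hXe a).trans (hu a ⟨X, hX⟩).symm)
  refine Units.ext (sub_eq_zero.1 (Matrix.ext fun i j => ?_))
  obtain ⟨F, hF⟩ := sub_mem (lift_mem_MG h1 w).1 (one_mem _) i j
  have hF' : ∀ Y : W, MvPolynomial.eval (fun t : μ × n × n => Y.1 t.1 t.2.1 t.2.2) F =
      ((FreeGroup.lift (fun a => u a Y) w).val - 1) i j := fun Y => by
    have : (Pi.evalRingHom (fun _ : W => S) Y).comp ev.toRingHom =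
        MvPolynomial.eval fun t : μ × n × n => Y.1 t.1 t.2.1 t.2.2 := by
      ext <;> simp [ev]
    exact (DFunLike.congr_fun this F).symm.trans (congrFun hF Y)
  rw [h2]
  refine (hF' ⟨X, hX⟩).symm.trans (polar F (fun a c => X a c.1 c.2) fun c b => ?_)
  let Z : n × n → Matrix n n S := fun k => ∑ a, b k a • X a
  have hZ : ∀ k, Z k ∈ J.matrix n := fun k => sum_mem fun a _ => idM_qsmul _ (hX a)
  choose z hz using fun k => exists_unit hJ (exp_sub_one hJ (hZ k))
  have hzD : ∀ k, z k ∈ zc D := fun k => exp_mem_zc hJ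
    (sum_mem fun a _ => Submodule.smul_mem _ _ (mem_tang hJ (hX a) (hx a) (hXe a))) (hz k)
  let Y : W := ⟨fun a => ∑ k, c a k • Z k, fun a => sum_mem fun k _ => idM_qsmul _ (hZ k)⟩
  have h3 : FreeGroup.lift (fun a => u a Y) w = 1 := by
    refine law_zc (D := (FreeGroup.lift z).range) (fun y hy => ?_) _ fun a => exp_mem_zc hJ
      (sum_mem fun k _ => Submodule.smul_mem _ _ (mem_tang hJ (hZ k)
        (MonoidHom.mem_range.2 ⟨FreeGroup.of k, FreeGroup.lift_apply_of⟩) (hz k))) (hu a Y)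
    choose v hv using hy
    rw [← funext hv, ← lift_map]
    have h4 := map_derivedSeries_le_derivedSeries (FreeGroup.lift v) d ⟨w, hw, rfl⟩
    exact law_zc (fun y hy => hd y hy _ h4) z hzD
  have h5 := hF' Y
  rw [h3, Units.val_one, sub_self] at h5
  refine Eq.trans ?_ h5
  congr 2
  funext t
  simp [Y, Z, Matrix.sum_apply]

/-- Over a `ℚ`-algebra, a unipotent group whose `n ^ 2`-generated subgroups have bounded derived
length is soluble. -/
theorem solv_of_law {D : Subgroup (GL n S)} (hN : ∀ g ∈ D, ∀ i j, IsNilpotent ((g.val - 1) i j))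
    {d : ℕ} (hd : ∀ y : n × n → GL n S, (∀ a, y a ∈ D) →
      ∀ w ∈ derivedSeries (FreeGroup (n × n)) d, FreeGroup.lift y w = 1) :
    derivedSeries D d = ⊥ := by
  rw [← Subgroup.map_eq_bot_iff_of_injective _ D.subtype_injective, eq_bot_iff]
  have key : ∀ x : ℕ → D, dw d x = 1 := fun x => by
    let v : ℕ → FreeGroup (Fin (2 ^ d)) := fun i =>
      if h : i < 2 ^ d then FreeGroup.of ⟨i, h⟩ else 1
    have h1 : dw d v ∈ derivedSeries _ d :=
      map_derivedSeries_le_derivedSeries _ d (dw_mem ⊤ d v fun _ _ => trivial)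
    have h2 := law_polar hN hd h1 (fun a => x a) fun a => (x a).2
    rw [dw_map] at h2
    refine Subtype.ext ((dw_map D.subtype d x).trans (Eq.trans (dw_congr d fun i hi => ?_) h2))
    simp [v, hi]
  have h := dw_coset (⊤ : Subgroup D) d 1 ⊥ (by simp) fun y y' _ _ => by simp [key]
  rw [map_derivedSeries_eq (fun g => ⟨⟨g, trivial⟩, rfl⟩)] at h
  rw [le_bot_iff.1 h, Subgroup.map_bot]

end Pool.Agent.Lib.MP_c0708e_al.Tits
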