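import Pool.Agent.Lib.MP_c0708e_al.TWrap
import Pool.Agent.Lib.MP_c0708e_al.Algebra

/-! No derived subgroup of `Γ_p` has finite exponent, and this passes to varieties. -/

set_option linter.style.haveILetI false

namespace Pool.Agent.Lib.MP_c0708e_al.Tits

open Filter Topology
open scoped PowerSeries.WithPiTopology MatrixGroups PowerSeries commutatorElement

lemma isProP_iff {p : ℕ} {G : ProfiniteGrp.{0}} :
    IsProP p G ↔ ∀ g : G, Tendsto (fun a : ℕ => g ^ p ^ a) atTop (𝓝 1) := by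
  refine ⟨fun hG g t ht => ?_, fun h N q => ?_⟩
  · obtain ⟨O, hO, hO1, hO2⟩ := mem_nhds_iff.1 ht
    obtain ⟨U, hU⟩ := ProfiniteGrp.exist_openNormalSubgroup_sub_open_nhds_of_one hO1 hO2
    obtain ⟨a, ha⟩ := hG.pow_mem U g
    refine mem_map.2 (mem_of_superset (eventually_ge_atTop a) fun b hb => hO (hU ?_))
    obtain ⟨c, rfl⟩ := Nat.exists_eq_add_of_le hb
    change g ^ p ^ (a + c) ∈ U.toSubgroup
    rw [pow_add, pow_mul]
    exact pow_mem ha _
  · obtain ⟨g, rfl⟩ := QuotientGroup.mk_surjective q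
    obtain ⟨e, he⟩ := ((h g).eventually (N.toOpenSubgroup.mem_nhds_one)).exists
    exact ⟨e, (QuotientGroup.mk_pow N.toSubgroup _ _).symm.trans
      ((QuotientGroup.eq_one_iff _).mpr he)⟩

lemma isProP_pi {p : ℕ} {ι : Type} {G : ι → ProfiniteGrp.{0}} (h : ∀ i, IsProP p (G i)) :
    IsProP p (ProfiniteGrp.pi G) :=
  isProP_iff.2 fun g => tendsto_pi_nhds.2 fun i => isProP_iff.1 (h i) (g i)

lemma isVariety_exp (p d e : ℕ) : IsVariety p fun G : ProfiniteGrp.{0} =>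
    IsProP p G ∧ ∀ g ∈ derivedSeries G d, g ^ p ^ e = 1 where
  proP _ hG := hG.1
  sub G H hG f hf := ⟨isProP_iff.2 fun h => by
      rw [(f.continuous.isClosedEmbedding hf).isInducing.tendsto_nhds_iff]
      simpa [Function.comp_def] using isProP_iff.1 hG.1 (f h),
    fun h hh => hf (by
      rw [map_pow, map_one]
      exact hG.2 _ (map_derivedSeries_le_derivedSeries f.toMonoidHom d ⟨h, hh, rfl⟩))⟩
  quot G H hG f hf := ⟨isProP_iff.2 fun h => by
      obtain ⟨g, rfl⟩ := hf h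
      simpa [Function.comp_def] using (f.continuous.tendsto 1).comp (isProP_iff.1 hG.1 g),
    fun h hh => by
      obtain ⟨g, hg, rfl⟩ := derivedSeries_le_map_derivedSeries (f := f.toMonoidHom) hf d hh
      exact (map_pow f g _).symm.trans (by rw [hG.2 g hg, map_one])⟩
  prod ι G hG := ⟨isProP_pi fun i => (hG i).1, fun g hg => funext fun i => (hG i).2 (g i)
    (map_derivedSeries_le_derivedSeries (Pi.evalMonoidHom (fun i => G i) i) d ⟨g, hg, rfl⟩)⟩

section
variable {F : Type} [Field F]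

/-- `g = 1 + t ^ k Y + …` -/
def Lead (k : ℕ) (Y : Matrix (Fin 2) (Fin 2) F) (g : SL(2, F⟦X⟧)) : Prop :=
  ∃ A : Matrix (Fin 2) (Fin 2) F⟦X⟧, g.1 = 1 + (PowerSeries.X : F⟦X⟧) ^ k • A ∧
    (PowerSeries.constantCoeff (R := F)).mapMatrix A = Y

lemma Lead.inv {k : ℕ} {Y : Matrix (Fin 2) (Fin 2) F} {g : SL(2, F⟦X⟧)} (h : Lead (k + 1) Y g) :
    (PowerSeries.constantCoeff (R := F)).mapMatrix (g⁻¹).1 = 1 := by
  obtain ⟨A, hA, -⟩ := h
  have h1 : (PowerSeries.constantCoeff (R := F)).mapMatrix g.1 = 1 := by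
    rw [hA, map_add, map_one, add_eq_left]
    ext i j
    simp
  have h2 : g.1 * (g⁻¹).1 = 1 := congrArg Subtype.val (mul_inv_cancel g)
  have := congrArg (PowerSeries.constantCoeff (R := F)).mapMatrix h2
  rwa [map_mul, h1, one_mul, map_one] at this

lemma Lead.comm {k l : ℕ} {Y Z : Matrix (Fin 2) (Fin 2) F} {a b : SL(2, F⟦X⟧)}
    (ha : Lead (k + 1) Y a) (hb : Lead (l + 1) Z b) :
    Lead (k + 1 + l + 1) (Y * Z - Z * Y) ⁅a, b⁆ := by
  have h1 := ha.inv
  have h2 := hb.inv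
  obtain ⟨A, hA, rfl⟩ := ha
  obtain ⟨B, hB, rfl⟩ := hb
  refine ⟨(A * B - B * A) * (a⁻¹).1 * (b⁻¹).1, ?_, by
    rw [map_mul, map_mul, h1, h2, mul_one, mul_one, map_sub, map_mul, map_mul]⟩
  have h3 : b.1 * a.1 * (a⁻¹).1 * (b⁻¹).1 = 1 :=
    congrArg Subtype.val (show b * a * a⁻¹ * b⁻¹ = 1 by group)
  have h4 : a.1 * b.1 = b.1 * a.1 +
      (PowerSeries.X : F⟦X⟧) ^ (k + 1 + l + 1) • (A * B - B * A) := by
    rw [hA, hB, add_assoc (k + 1), pow_add _ (k + 1)]
    simp only [mul_add, add_mul, mul_one, one_mul, smul_mul_assoc, mul_smul_comm, smul_add,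
      smul_sub, smul_smul, mul_comm ((PowerSeries.X : F⟦X⟧) ^ (l + 1))]
    abel
  change a.1 * b.1 * (a⁻¹).1 * (b⁻¹).1 = _
  rw [h4, add_mul, add_mul, h3, smul_mul_assoc, smul_mul_assoc]

end

lemma gamma_deriv (p : ℕ) [Fact p.Prime] (hp : p ≠ 2) (d e : ℕ) :
    ∃ g ∈ derivedSeries (gammaSub p) d, g ^ p ^ e ≠ 1 := by
  have h2 : (2 : ZMod p) ≠ 0 := fun h => hp ((Nat.prime_dvd_prime_iff_eq Fact.out
    Nat.prime_two).1 ((ZMod.natCast_eq_zero_iff 2 p).1 h))
  have key : ∀ d, ∃ (k : ℕ) (c c' : ZMod p) (a b : gammaSub p), c ≠ 0 ∧ c' ≠ 0 ∧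
      a ∈ derivedSeries (gammaSub p) d ∧ b ∈ derivedSeries (gammaSub p) d ∧
      Lead (k + 1) !![0, c; 0, 0] a.1 ∧ Lead (k + 1) !![0, 0; c', 0] b.1 := by
    intro d
    induction d with
    | zero =>
      refine ⟨0, 1, 1, ⟨genU p, Subgroup.le_topologicalClosure _
        (Subgroup.subset_closure (by simp))⟩, ⟨genL p, Subgroup.le_topologicalClosure _
        (Subgroup.subset_closure (by simp))⟩, one_ne_zero, one_ne_zero, trivial, trivial,
        ⟨!![0, 1; 0, 0], ?_, ?_⟩, ⟨!![0, 0; 1, 0], ?_, ?_⟩⟩ <;>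
      · ext1 i j
        fin_cases i <;> fin_cases j <;> simp [genU, genL]
    | succ d ih =>
      obtain ⟨k, c, c', a, b, hc, hc', ha, hb, la, lb⟩ := ih
      have hh : ⁅a, b⁆ ∈ derivedSeries (gammaSub p) (d + 1) :=
        Subgroup.commutator_mem_commutator ha hb
      have hm : ∀ x, ⁅⁅a, b⁆, x⁆ ∈ derivedSeries (gammaSub p) (d + 1) := fun x =>
        Subgroup.commutator_le_left _ ⊤ (Subgroup.commutator_mem_commutator hh trivial)
      refine ⟨k + 1 + k + 1 + k, 2 * (c * c' * c), -(2 * (c * c' * c')), _, _, by simp [*], by simp [*],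
        hm a, hm b, ?_, ?_⟩
      · convert (la.comm lb).comm la using 1
        · ext i j
          fin_cases i <;> fin_cases j <;> simp
          ring
        · rfl
      · convert (la.comm lb).comm lb using 1
        · ext i j
          fin_cases i <;> fin_cases j <;> simp
          ring
        · rfl
  obtain ⟨k, c, c', a, b, hc, hc', ha, hb, la, lb⟩ := key d
  refine ⟨⁅a, b⁆, derivedSeries_antitone _ (Nat.le_succ d)
    (Subgroup.commutator_mem_commutator ha hb), fun h => ?_⟩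
  obtain ⟨A, hA, hA'⟩ := la.comm lb
  have h1 : ⁅a.1, b.1⁆ ^ p ^ e = 1 := congrArg Subtype.val h
  have h3 : (1 + (PowerSeries.X : (ZMod p)⟦X⟧) ^ (k + 1 + k + 1) • A) ^ p ^ e = 1 := by
    rw [← hA]
    exact (Matrix.SpecialLinearGroup.coe_pow _ _).symm.trans (congrArg Subtype.val h1)
  haveI : CharP (ZMod p)⟦X⟧ p :=
    charP_of_injective_algebraMap (R := ZMod p) (PowerSeries.C_injective) p
  rw [one_add_pow_pow p, add_eq_left] at h3
  have h4 := congrArg Matrix.det h3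
  rw [Matrix.det_pow, Matrix.det_zero] at h4
  have h5 := pow_eq_zero_iff (pow_ne_zero e (Fact.out : p.Prime).ne_zero) |>.mp h4
  rw [Matrix.det_smul, mul_eq_zero] at h5
  have h6 := congrArg (PowerSeries.constantCoeff (R := ZMod p))
    (h5.resolve_left (by simp [PowerSeries.X_ne_zero]))
  rw [RingHom.map_det, hA', Matrix.det_fin_two] at h6
  simp [hc, hc'] at h6

theorem not_inVar {p : ℕ} [Fact p.Prime] (hp : p ≠ 2) {G : ProfiniteGrp.{0}} (hG : IsProP p G)
    {d e : ℕ} (h : ∀ g ∈ derivedSeries G d, g ^ p ^ e = 1) : ¬ InVar p G (Gamma p) := fun hV => by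
  obtain ⟨g, hg, hg1⟩ := gamma_deriv p hp d e
  exact hg1 ((hV _ (isVariety_exp p d e) ⟨hG, h⟩).2 g hg)

end Pool.Agent.Lib.MP_c0708e_al.Tits
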