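import Pool.Agent.Lib.MP_c0708e_al.XZas
import Pool.Agent.Lib.MP_c0708e_al.XExp
import Pool.Agent.Lib.MP_c0708e_al.XGam

/-! The exact form of the alternative. -/

set_option linter.style.haveILetI false

namespace Pool.Agent.Lib.MP_c0708e_al.Tits

open Filter Topology
open scoped TensorProduct commutatorElement

lemma deriv_le_of_dw {G : Type} [Group G] (V : Subgroup G) [hV : V.Normal] {j : ℕ}
    (h : ∀ x, dw j x ∈ V) : derivedSeries G j ≤ V := by
  have := dw_coset (⊤ : Subgroup G) j 1 V (fun u _ v hv => hV.conj_mem v hv u)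
    fun y y' _ _ => mul_mem (inv_mem (h y)) (h y')
  rwa [map_derivedSeries_eq (fun g => ⟨⟨g, trivial⟩, rfl⟩)] at this

lemma span_pow_le {T : Type} [CommRing T] [DecidableEq T] {P : Ideal T} {q : ℕ} (s : Finset T)
    (h : ∀ a ∈ s, a ^ q ∈ P) : Ideal.span (s : Set T) ^ (s.card * q + 1) ≤ P := by
  induction s using Finset.induction_on with
  | empty => simp
  | insert a s ha ih =>
    rw [Finset.coe_insert, Ideal.span_insert, Finset.card_insert_of_notMem ha,
      show (s.card + 1) * q + 1 = q + (s.card * q + 1) by ring]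
    refine Ideal.sup_pow_add_le_pow_sup_pow.trans
      (sup_le ?_ (ih fun b hb => h b (Finset.mem_insert_of_mem hb)))
    rw [Ideal.span_singleton_pow, Ideal.span_singleton_le_iff_mem]
    exact h a (Finset.mem_insert_self a s)

open Polynomial in
lemma one_add_pow_eq_one {E : Type} [Ring E] {A : E} {p m L : ℕ} (h1 : (p : E) ^ m * A = 0)
    (h2 : A ^ L = 0) : (1 + A) ^ p ^ (m + L) = 1 := by
  let q : Ideal ℤ[X] := Ideal.span {(p : ℤ[X])} ⊔ Ideal.span {X}
  have key : ∀ j, (1 + X : ℤ[X]) ^ p ^ j - 1 ∈ q ^ j * Ideal.span {X} := by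
    intro j
    induction j with
    | zero => simp
    | succ j ih =>
      rw [pow_succ p, pow_mul, ← geom_sum_mul, pow_succ' q, mul_assoc]
      refine Ideal.mul_mem_mul ?_ ih
      have : ∑ i ∈ Finset.range p, ((1 + X : ℤ[X]) ^ p ^ j) ^ i =
          p + ∑ i ∈ Finset.range p, (((1 + X : ℤ[X]) ^ p ^ j) ^ i - 1) := by simp
      rw [this]
      refine add_mem (Ideal.mem_sup_left (Ideal.mem_span_singleton_self _))
        (sum_mem fun i _ => Ideal.mem_sup_right ?_)
      exact Ideal.mem_of_dvd _ (sub_one_dvd_pow_sub_one _ i) (Ideal.mul_le_right ih)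
  have h3 : q ^ (m + L) * Ideal.span {X} ≤ RingHom.ker (aeval (R := ℤ) A) := by
    refine (Ideal.mul_mono_left Ideal.sup_pow_add_le_pow_sup_pow).trans ?_
    rw [Ideal.sup_mul, Ideal.span_singleton_pow, Ideal.span_singleton_pow,
      Ideal.span_singleton_mul_span_singleton, Ideal.span_singleton_mul_span_singleton,
      sup_le_iff, Ideal.span_singleton_le_iff_mem, Ideal.span_singleton_le_iff_mem]
    simp [RingHom.mem_ker, h1, h2]
  simpa [RingHom.mem_ker, sub_eq_zero] using h3 (key _)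

lemma exp_unif (n : Type) [Fintype n] [DecidableEq n] (p m : ℕ) : ∃ e : ℕ,
    ∀ (T : Type) [CommRing T] (A : Matrix n n T), (∀ i j, (p : T) ^ m * A i j = 0) →
      (∀ i j, A i j ^ p ^ m ∈ Ideal.span {(p : T)}) → (1 + A) ^ p ^ e = 1 := by
  classical
  let L := Fintype.card (n × n) * p ^ m + 1
  refine ⟨m + (L * m + 1), fun T _ A h1 h2 => ?_⟩
  have h0 : (p : T) ^ m • A = 0 := Matrix.ext h1
  let s : Finset T := Finset.univ.image fun t : n × n => A t.1 t.2
  have h3 : A ^ L ∈ (Ideal.span {(p : T)}).matrix n := by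
    refine Ideal.matrix_monotone n
      ((Ideal.pow_le_pow_right ?_).trans (span_pow_le (q := p ^ m) s ?_))
      (idM_pow (I := Ideal.span (s : Set T)) (fun i j => Ideal.subset_span ?_) L)
    · exact Nat.succ_le_succ (Nat.mul_le_mul_right _ Finset.card_image_le)
    · intro a ha
      obtain ⟨t, -, rfl⟩ := Finset.mem_image.1 ha
      exact h2 _ _
    · exact Finset.mem_image_of_mem (fun t : n × n => A t.1 t.2) (Finset.mem_univ (i, j))
  choose B hB using fun i j => Ideal.mem_span_singleton'.1 (h3 i j)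
  have h4 : A ^ L = (p : T) • Matrix.of B := Matrix.ext fun i j => by
    rw [← hB, mul_comm]; rfl
  refine one_add_pow_eq_one ?_ ?_
  · rw [← map_natCast (algebraMap T (Matrix n n T)), ← map_pow, ← Algebra.smul_def, h0]
  · rw [pow_succ, pow_mul, h4, smul_pow, smul_mul_assoc, ← mul_smul_comm, h0, mul_zero]

lemma deriv_nil {H A n : Type} [Group H] [CommRing A] [Fintype n] [DecidableEq n]
    (ρ : H →* Matrix n n A) {I : Ideal A} {d : ℕ}
    (h : ∀ g ∈ derivedSeries H d, ρ g - 1 ∈ I.matrix n) (k : ℕ) :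
    ∀ g ∈ derivedSeries H (d + k), ρ g - 1 ∈ (I ^ (k + 1)).matrix n := by
  induction k with
  | zero => simpa using h
  | succ k ih =>
    have hle : I ^ (k + 1) * I ^ (k + 1) ≤ I ^ (k + 1 + 1) := by
      rw [← pow_add]; exact Ideal.pow_le_pow_right (by omega)
    intro g hg
    rw [← mk_eq_one_iff]
    refine deriv_succ_of_comm ((Ideal.Quotient.mk _).mapMatrix.toMonoidHom.comp ρ)
      (fun g hg g' hg' => ?_) g hg
    have h4 := Ideal.matrix_monotone n hle
      (sub_mem (idM_mul (ih g hg) (ih g' hg')) (idM_mul (ih g' hg') (ih g hg)))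
    have e : (ρ g - 1) * (ρ g' - 1) - (ρ g' - 1) * (ρ g - 1) = ρ g * ρ g' - ρ g' * ρ g := by
      noncomm_ring
    rw [e] at h4
    change (Ideal.Quotient.mk _).mapMatrix _ * (Ideal.Quotient.mk _).mapMatrix _ =
      (Ideal.Quotient.mk _).mapMatrix _ * (Ideal.Quotient.mk _).mapMatrix _
    rw [← map_mul (Ideal.Quotient.mk _).mapMatrix, ← map_mul (Ideal.Quotient.mk _).mapMatrix,
      ← sub_eq_zero, ← map_sub]
    exact Matrix.ext fun i j => Ideal.Quotient.eq_zero_iff_mem.2 (h4 i j)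

section
variable {p : ℕ} [Fact p.Prime] {n : ℕ} {G : ProfiniteGrp.{0}} {R : Type} [CommRing R]
  [TopologicalSpace R] [IsTopologicalRing R] [CompactSpace R] [T2Space R]
  [TotallyDisconnectedSpace R] {ρ : G →* Matrix (Fin n) (Fin n) R}

lemma unif_law (hp : p ≠ 2) (hG : IsProP p G) (hρ : Continuous ρ) (hinj : Function.Injective ρ)
    (h : ¬ InVar p G (Gamma p)) (α : Type) [Finite α] : ∃ j, ∀ ξ : α → G,
      ∀ w ∈ derivedSeries (FreeGroup α) j, FreeGroup.lift ξ w = 1 := by
  let G' := ProfiniteGrp.pi fun _ : α → G => G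
  let ρ' : G' →* Matrix (Fin n) (Fin n) ((α → G) → R) :=
    { toFun := fun g => Matrix.of fun i j ξ => ρ (g ξ) i j
      map_one' := by
        ext i j ξ
        change ρ 1 i j = _
        rw [map_one, Matrix.one_apply, Matrix.one_apply]
        split_ifs <;> rfl
      map_mul' := fun a b => by
        ext i j ξ
        change ρ (a ξ * b ξ) i j = _
        simp [Matrix.mul_apply] }
  have hρ' : Continuous ρ' := continuous_matrix fun i j => continuous_pi fun ξ =>
    (hρ.comp (continuous_apply ξ)).matrix_elem i j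
  by_contra hcon
  push Not at hcon
  have := inVar_of_good (main_fg hp (isProP_pi fun _ => hG) hρ'
    (FreeGroup.lift fun a => (fun ξ => ξ a : G')) fun j => by
      obtain ⟨ξ, w, hw, h1⟩ := hcon j
      refine ⟨w, hw, fun h2 => h1 (hinj ?_)⟩
      have h3 := lift_map (Pi.evalMonoidHom (fun _ : α → G => G) ξ) (fun a ξ => ξ a) w
      rw [map_one]
      refine (congrArg ρ h3).symm.trans (Matrix.ext fun i j => ?_)
      refine (congrFun (congrFun (congrFun h2 i) j) ξ).trans ?_
      rw [Matrix.one_apply, Matrix.one_apply]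
      split_ifs <;> rfl)
  exact h fun V hV hVG => this V hV (hV.prod _ _ fun _ => hVG)

lemma nil_tors (hp : p ≠ 2) (hG : IsProP p G) (hρ : Continuous ρ) (hinj : Function.Injective ρ)
    (h : ¬ InVar p G (Gamma p)) : ∃ d, ∀ g ∈ derivedSeries G d, ∀ i j,
      IsNilpotent ((ρ g - 1) i j) ∧ ∃ c : ℕ, c ≠ 0 ∧ c * (ρ g - 1) i j = 0 := by
  obtain ⟨f, hf⟩ := zassenhaus_nil n
  have h1 : ∀ g ∈ derivedSeries G f, ρ g - 1 ∈ (nilradical R).matrix (Fin n) := by
    intro g hg
    rw [← mk_eq_one_iff]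
    refine deriv_le_of_dw ((Ideal.Quotient.mk (nilradical R)).mapMatrix.toMonoidHom.comp ρ).ker
      (fun x => (mk_eq_one_iff _ _).2 ?_) hg
    obtain ⟨j, hj⟩ := unif_law hp hG hρ hinj h (Fin (2 ^ f))
    let π := FreeGroup.lift fun a : Fin (2 ^ f) => x a
    haveI : Group.IsSolvable π.range := ⟨⟨j, by
      rw [← map_derivedSeries_eq π.rangeRestrict_surjective, eq_bot_iff]
      rintro _ ⟨w, hw, rfl⟩
      exact Subtype.ext (hj _ w hw)⟩⟩
    obtain ⟨y, hy, e⟩ := dw_mem π.range f x fun i hi =>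
      ⟨FreeGroup.of ⟨i, hi⟩, FreeGroup.lift_apply_of⟩
    rw [← e]
    exact hf R π.range (ρ.comp π.range.subtype) y hy
  obtain ⟨d, hd⟩ := unif_law hp hG hρ hinj h (Fin n × Fin n)
  let ψ : R →+* ℚ ⊗[ℤ] R := Algebra.TensorProduct.includeRight.toRingHom
  let τ : G →* GL (Fin n) (ℚ ⊗[ℤ] R) := (ψ.mapMatrix.toMonoidHom.comp ρ).toHomUnits
  have e : ∀ g i j, ((τ g).val - 1) i j = ψ ((ρ g - 1) i j) := fun g i j => by
    rw [← map_one ψ.mapMatrix]
    change (ψ.mapMatrix _ - _) i j = _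
    rw [← map_sub]
    rfl
  have h2 := solv_of_law (D := (derivedSeries G f).map τ) (d := d) (by
    rintro _ ⟨g, hg, rfl⟩ i j
    rw [e]
    exact IsNilpotent.map (h1 g hg i j) ψ) fun y hy w hw => by
      choose ξ _ hξ using hy
      rw [← funext hξ, ← lift_map, hd ξ w hw, map_one]
  refine ⟨f + d, fun g hg i j =>
    ⟨h1 g (derivedSeries_antitone _ (Nat.le_add_right f d) hg) i j, ?_⟩⟩
  obtain ⟨g, hg', rfl⟩ := deriv_le_map le_rfl d hg
  have h3 := map_derivedSeries_le_derivedSeries (τ.subgroupMap (derivedSeries G f)) d ⟨g, hg', rfl⟩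
  rw [h2, Subgroup.mem_bot] at h3
  have h4 : τ g = 1 := congrArg Subtype.val h3
  have h5 := e g i j
  rw [h4, Units.val_one, sub_self] at h5
  obtain ⟨c, hc⟩ := (IsLocalizedModule.eq_zero_iff (nonZeroDivisors ℤ)
    (TensorProduct.mk ℤ ℚ R 1)).1 h5.symm
  refine ⟨c.1.natAbs, Int.natAbs_ne_zero.2 (nonZeroDivisors.ne_zero c.2), ?_⟩
  rw [Submonoid.smul_def, zsmul_eq_mul] at hc
  rw [← Int.cast_natCast]
  rcases Int.natAbs_eq c.1 with h | h
  · rw [← h]; exact hc
  · rw [← neg_eq_iff_eq_neg] at h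
    rw [← h, Int.cast_neg, neg_mul, neg_eq_zero]; exact hc

omit [TotallyDisconnectedSpace R] in
lemma isClosed_span (a : R) : IsClosed (Ideal.span {a} : Set R) := by
  have : (Ideal.span {a} : Set R) = Set.range fun r => r * a :=
    Set.ext fun _ => Ideal.mem_span_singleton'
  rw [this]
  exact (isCompact_range (continuous_id.mul continuous_const)).isClosed

theorem fin_exp (hp : p ≠ 2) (hG : IsProP p G) (hρ : Continuous ρ) (hinj : Function.Injective ρ)
    (h : ¬ InVar p G (Gamma p)) : ∃ d e, ∀ g ∈ derivedSeries G d, g ^ p ^ e = 1 := by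
  have pp : p.Prime := Fact.out
  obtain ⟨f, hf⟩ := nil_tors hp hG hρ hinj h
  let P : Ideal R := ⨅ N : ℕ, Ideal.span {(p : R) ^ N}
  let I : ℕ → Ideal R := fun m =>
    { carrier := {y | (p : R) ^ m * y ∈ P ∧ y ^ p ^ m ∈ Ideal.span {(p : R)}}
      add_mem' := fun {a b} ha hb => ⟨by rw [mul_add]; exact add_mem ha.1 hb.1, by
        obtain ⟨r, hr⟩ := exists_add_pow_prime_pow_eq pp a b m
        rw [hr, mul_assoc, mul_assoc]
        exact add_mem (add_mem ha.2 hb.2)
          (Ideal.mul_mem_right _ _ (Ideal.mem_span_singleton_self _))⟩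
      zero_mem' := ⟨by simp, by simp [pp.ne_zero]⟩
      smul_mem' := fun c y hy => ⟨by
        rw [smul_eq_mul, mul_left_comm]; exact P.mul_mem_left _ hy.1, by
        rw [smul_eq_mul, mul_pow]; exact Ideal.mul_mem_left _ _ hy.2⟩ }
  have hI : ∀ m, IsClosed (I m : Set R) := fun m => by
    have hP : IsClosed (P : Set R) := by
      rw [Submodule.coe_iInf]
      exact isClosed_iInter fun N => isClosed_span _
    exact (hP.preimage (continuous_const_mul ((p : R) ^ m))).inter
      ((isClosed_span (p : R)).preimage (continuous_pow (p ^ m)))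
  have hev : ∀ y : R, IsNilpotent y → (∃ c : ℕ, c ≠ 0 ∧ c * y = 0) → ∀ᶠ m in atTop, y ∈ I m := by
    rintro y ⟨k, hk⟩ ⟨c, hc, hcy⟩
    obtain ⟨a, u, hu, rfl⟩ := Nat.exists_eq_pow_mul_and_not_dvd hc p pp.ne_one
    filter_upwards [eventually_ge_atTop a, eventually_ge_atTop k] with m h1 h2
    refine ⟨?_, by
      rw [pow_eq_zero_of_le (h2.trans (Nat.lt_pow_self pp.one_lt).le) hk]; exact zero_mem _⟩
    obtain ⟨b, rfl⟩ := Nat.exists_eq_add_of_le' h1
    rw [pow_add, mul_assoc]
    refine P.mul_mem_left _ (Ideal.mem_iInf.2 fun N => ?_)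
    obtain ⟨r, s, hrs⟩ := ((pp.coprime_iff_not_dvd.2 hu).pow_left N).cast (R := R)
    push_cast at hrs hcy
    exact Ideal.mem_span_singleton'.2 ⟨r * ((p : R) ^ a * y), by
      linear_combination ((p : R) ^ a * y) * hrs - s * hcy⟩
  obtain ⟨d, m, hd⟩ := baire_deriv hG
    (fun m => ((Ideal.Quotient.mk (I m)).mapMatrix.toMonoidHom.comp ρ).ker)
    (fun m => inferInstance) (fun m => by
      have : ((((Ideal.Quotient.mk (I m)).mapMatrix.toMonoidHom.comp ρ).ker : Subgroup G) :
          Set G) = ⋂ i, ⋂ j, (fun g => (ρ g - 1) i j) ⁻¹' I m := by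
        ext g
        simp only [Set.mem_iInter, Set.mem_preimage]
        exact mk_eq_one_iff (I m) (ρ g)
      rw [this]
      exact isClosed_iInter fun i => isClosed_iInter fun j =>
        (hI m).preimage ((hρ.sub continuous_const).matrix_elem i j)) f fun x => by
      have h1 := hf _ (map_derivedSeries_le_derivedSeries _ f (dw_mem ⊤ f x fun _ _ => trivial))
      obtain ⟨m, hm⟩ := (eventually_all.2 fun i => eventually_all.2 fun j =>
        hev _ (h1 i j).1 (h1 i j).2).exists
      exact ⟨m, (mk_eq_one_iff _ _).2 hm⟩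
  obtain ⟨e, he⟩ := exp_unif (Fin n) p m
  refine ⟨max d (Fintype.card (Fin n)), e, fun g hg => hinj ?_⟩
  have h1 : ρ g - 1 ∈ (I m).matrix (Fin n) :=
    (mk_eq_one_iff _ _).1 (hd (derivedSeries_antitone _ (le_max_left _ _) hg))
  have h2 := he (R ⧸ P) ((Ideal.Quotient.mk P).mapMatrix (ρ g - 1))
    (fun i j => by simpa using Ideal.Quotient.eq_zero_iff_mem.2 (h1 i j).1) fun i j => by
      have := Ideal.mem_map_of_mem (Ideal.Quotient.mk P) (h1 i j).2
      rw [Ideal.map_span] at this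
      simpa using this
  rw [map_sub, map_one, add_sub_cancel, ← map_pow, ← map_pow, mk_eq_one_iff] at h2
  rw [map_one]
  refine sub_eq_zero.1 (Matrix.ext fun a b => eq_zero_of_open _ fun J hJ => ?_)
  exact split_open hG hρ hJ (pow_mem (derivedSeries_antitone _ (le_max_right _ _) hg) _)
    (fun N i j => Ideal.mem_sup_right (Ideal.mem_iInf.1 (h2 i j) N)) a b

theorem solv_of_nil (hp : p ≠ 2) (hG : IsProP p G) (hρ : Continuous ρ)
    (hinj : Function.Injective ρ) (h : ¬ InVar p G (Gamma p)) {I : Ideal R} (hI : IsNilpotent I)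
    (hR : ∀ (y : R) (a : ℕ), IsNilpotent y → (p : R) ^ a * y = 0 → y ∈ I) :
    Group.IsSolvable G := by
  classical
  obtain ⟨f, hf⟩ := nil_tors hp hG hρ hinj h
  obtain ⟨d, e, hd⟩ := fin_exp hp hG hρ hinj h
  obtain ⟨k, hk⟩ := hI
  have h1 := deriv_nil ρ (I := I) (d := max f d) (fun g hg i j => by
    have h2 := hf g (derivedSeries_antitone _ (le_max_left _ _) hg)
    obtain ⟨M, hM⟩ : IsNilpotent (Ideal.span
        (Set.range fun t : Fin n × Fin n => (ρ g - 1) t.1 t.2)) := by
      rw [Ideal.FG.isNilpotent_iff_le_nilradical (Submodule.fg_span (Set.finite_range _)),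
        Ideal.span_le]
      rintro _ ⟨t, rfl⟩
      exact (h2 _ _).1
    have h3 := nil_smul (u := ρ g) (q := p ^ e) (by
      rw [← map_pow, hd g (derivedSeries_antitone _ (le_max_right _ _) hg), map_one])
      (pow_eq_zero_idM (pow_eq_zero_of_le (Nat.le_succ M) hM)
        fun i j => Ideal.subset_span ⟨(i, j), rfl⟩)
    refine hR _ (e * M) (h2 i j).1 ?_
    rw [pow_mul, ← Nat.cast_pow]
    exact congrFun (congrFun h3 i) j) k
  refine ⟨⟨max f d + k, eq_bot_iff.2 fun g hg => hinj ?_⟩⟩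
  have h4 := h1 g hg
  rw [pow_succ, hk, zero_mul] at h4
  rw [map_one]
  exact sub_eq_zero.1 (Matrix.ext h4)

end

end Pool.Agent.Lib.MP_c0708e_al.Tits
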