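import Mathlib

/-! Weyl polarisation through the apolar form. -/

set_option linter.style.haveILetI false

namespace Pool.Agent.Lib.MP_c0708e_al.Tits

open MvPolynomial

section
variable {σ τ S : Type} [CommRing S]

/-- product of the factorials of the exponents -/
def wt (α : σ →₀ ℕ) : ℕ := α.prod fun _ k => k.factorial

lemma wt_pos (α : σ →₀ ℕ) : 0 < wt α := Finset.prod_pos fun _ _ => Nat.factorial_pos _

lemma wt_add (α : σ →₀ ℕ) (s : σ) : wt (α + Finsupp.single s 1) = wt α * (α s + 1) := by
  classical
  have h : ∀ β : σ →₀ ℕ, wt β = (β s).factorial * wt (β.erase s) := fun β =>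
    (Finsupp.mul_prod_erase' β s (fun _ k => k.factorial) fun _ => rfl).symm
  rw [h α, h (α + _), Finsupp.erase_add, Finsupp.erase_single, add_zero, Finsupp.add_apply,
    Finsupp.single_eq_same, Nat.factorial_succ]
  ring

/-- the apolar form -/
noncomputable def ap (Q : MvPolynomial σ S) : MvPolynomial σ S →ₗ[S] S :=
  (basisMonomials σ S).constr S fun α => wt α * coeff α Q

lemma ap_monomial (Q : MvPolynomial σ S) (α : σ →₀ ℕ) (a : S) :
    ap Q (monomial α a) = a * (wt α * coeff α Q) := by
  rw [show monomial α a = a • basisMonomials σ S α by simp [smul_monomial], map_smul, ap,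
    Module.Basis.constr_basis, smul_eq_mul]

lemma ap_mul_X (Q P : MvPolynomial σ S) (s : σ) : ap Q (P * X s) = ap (pderiv s Q) P := by
  induction P using MvPolynomial.induction_on' with
  | monomial α a =>
    rw [X, monomial_mul, ap_monomial, ap_monomial, coeff_pderiv, wt_add]
    push_cast
    ring
  | add p q hp hq => rw [add_mul, map_add, map_add, hp, hq]

lemma ap_sum {ι : Type} (s : Finset ι) (c : ι → S) (Q : ι → MvPolynomial σ S)
    (P : MvPolynomial σ S) : ap (∑ i ∈ s, C (c i) * Q i) P = ∑ i ∈ s, c i * ap (Q i) P := by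
  induction P using MvPolynomial.induction_on' with
  | monomial α a =>
    simp only [ap_monomial, coeff_sum, coeff_C_mul, Finset.mul_sum]
    exact Finset.sum_congr rfl fun i _ => by ring
  | add p q hp hq => simp only [map_add, hp, hq, mul_add, Finset.sum_add_distrib]

/-- linear substitution -/
noncomputable def lsub [Fintype σ] (A : τ → σ → S) : MvPolynomial τ S →ₐ[S] MvPolynomial σ S :=
  aeval fun t => ∑ s, C (A t s) * X s

lemma pderiv_lsub [Fintype σ] [Fintype τ] (A : τ → σ → S) (s : σ) (Q : MvPolynomial τ S) :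
    pderiv s (lsub A Q) = ∑ t, C (A t s) * lsub A (pderiv t Q) := by
  classical
  induction Q using MvPolynomial.induction_on with
  | C a => simp [lsub]
  | add p q hp hq => simp only [map_add, hp, hq, mul_add, Finset.sum_add_distrib]
  | mul_X p t hp =>
    have h1 : pderiv s (lsub A (X t)) = C (A t s) := by
      simp [lsub, pderiv_X, Pi.single_apply]
    have h2 : ∀ t', lsub A (pderiv t' (X t)) = if t = t' then 1 else 0 := fun t' => by
      rw [pderiv_X, Pi.single_apply]
      split_ifs <;> simp
    simp only [map_mul, pderiv_mul, map_add, hp, h1, h2, mul_add, Finset.sum_add_distrib,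
      Finset.sum_mul, mul_ite, mul_one, mul_zero, Finset.sum_ite_eq, Finset.mem_univ, if_true,
      mul_assoc, mul_comm (lsub A p) (C _)]

lemma ap_lsub [Fintype σ] [Fintype τ] (A : τ → σ → S) (P : MvPolynomial τ S)
    (Q : MvPolynomial σ S) : ap Q (lsub A P) = ap (lsub (fun s t => A t s) Q) P := by
  induction P using MvPolynomial.induction_on generalizing Q with
  | C a =>
    have h : constantCoeff (lsub (fun s t => A t s) Q) = constantCoeff Q := by
      induction Q using MvPolynomial.induction_on with
      | C a => simp [lsub]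
      | add p q hp hq => rw [map_add, map_add, map_add, hp, hq]
      | mul_X p t _ => simp [lsub]
    rw [show lsub A (C a) = C a by simp [lsub], C_apply, C_apply, ap_monomial, ap_monomial,
      ← constantCoeff_eq, ← constantCoeff_eq, h]
    rfl
  | add p q hp hq => rw [map_add, map_add, map_add, hp, hq]
  | mul_X p t hp =>
    rw [ap_mul_X, pderiv_lsub, ap_sum, map_mul, show lsub A (X t) = ∑ s, C (A t s) * X s by
      simp [lsub], Finset.mul_sum, map_sum]
    refine Finset.sum_congr rfl fun s _ => ?_
    rw [← hp, ← ap_mul_X, mul_left_comm, ← smul_eq_C_mul, map_smul, smul_eq_mul]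

end

/-- If `F (T x) = 0` for all rational matrices `T` that factor through `ε`, then `F x = 0`. -/
theorem polar {μ ε S : Type} [Fintype μ] [Fintype ε] [CommRing S] [Algebra ℚ S]
    (F : MvPolynomial (μ × ε) S) (x : μ → ε → S)
    (h : ∀ (c : μ → ε → ℚ) (b : ε → μ → ℚ),
      eval (fun t : μ × ε => ∑ k, c t.1 k • ∑ j, b k j • x j t.2) F = 0) :
    eval (fun t : μ × ε => x t.1 t.2) F = 0 := by
  classical
  let A : μ × ε → μ × μ → S := fun t s => if t.1 = s.1 then x s.2 t.2 else 0
  let P := lsub A F
  have hP : ∀ T : μ × μ → S, eval T P = eval (fun t : μ × ε => ∑ j, x j t.2 * T (t.1, j)) F := by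
    intro T
    have : (eval T).comp (lsub A).toRingHom = eval fun t : μ × ε => ∑ j, x j t.2 * T (t.1, j) := by
      ext t
      · simp [lsub]
      · simp [lsub, A, Fintype.sum_prod_type, apply_ite, ite_mul]
    exact DFunLike.congr_fun this F
  suffices h0 : P = 0 by
    have := hP fun s => if s.1 = s.2 then 1 else 0
    rw [h0, map_zero] at this
    simpa using this.symm
  ext α
  rw [coeff_zero, ← Module.forall_dual_apply_eq_zero_iff ℚ]
  intro φ
  let G : MvPolynomial (μ × μ) ℚ := ∑ α ∈ P.support, monomial α (φ (coeff α P))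
  have hG : ∀ α, coeff α G = φ (coeff α P) := fun α => by
    simp only [G, coeff_sum, coeff_monomial, Finset.sum_ite_eq']
    split_ifs with h
    · rfl
    · rw [notMem_support_iff.1 h, map_zero]
  have hev : ∀ T : μ × μ → ℚ, eval T G = φ (eval (fun s => algebraMap ℚ S (T s)) P) := fun T => by
    conv_rhs => rw [P.as_sum]
    simp only [G, map_sum, eval_monomial]
    refine Finset.sum_congr rfl fun α _ => ?_
    rw [mul_comm, ← smul_eq_mul, ← map_smul, Algebra.smul_def, mul_comm, Finsupp.prod,
      Finsupp.prod, map_prod]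
    simp
  let u : μ × μ → MvPolynomial ((μ × ε) ⊕ (μ × ε)) ℚ :=
    fun s => ∑ k, X (Sum.inl (s.1, k)) * X (Sum.inr (s.2, k))
  have h1 : aeval u G = 0 := by
    refine MvPolynomial.funext fun y => ?_
    have e : (eval y).comp (aeval u).toRingHom = eval fun s => eval y (u s) := by
      ext <;> simp
    refine (DFunLike.congr_fun e G).trans ?_
    rw [hev, hP, map_zero, ← map_zero φ,
      ← h (fun i k => y (Sum.inl (i, k))) fun k j => y (Sum.inr (j, k))]
    congr 3
    funext t
    simp only [u, map_sum, map_mul, eval_X, Finset.mul_sum, Algebra.smul_def]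
    rw [Finset.sum_comm]
    exact Finset.sum_congr rfl fun _ _ => Finset.sum_congr rfl fun _ _ => by ring
  have h2 : lsub (fun s t => A t s) (map (algebraMap ℚ S) G) = 0 := by
    let v : (μ × ε) ⊕ (μ × ε) → MvPolynomial (μ × ε) S := Sum.elim X fun t => C (x t.1 t.2)
    have e : (lsub fun s t => A t s).toRingHom.comp (map (algebraMap ℚ S)) =
        ((aeval v).comp (aeval u)).toRingHom := by
      ext1
      · exact Subsingleton.elim _ _
      · simp [lsub, A, u, v, Fintype.sum_prod_type, apply_ite, mul_comm]
    refine (DFunLike.congr_fun e G).trans ?_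
    change aeval v (aeval u G) = 0
    rw [h1, map_zero]
  have h3 := ap_lsub A F (map (algebraMap ℚ S) G)
  have h4 : ap (0 : MvPolynomial (μ × ε) S) F = 0 := by
    simpa using ap_sum (∅ : Finset Unit) (fun _ => (0 : S)) (fun _ => 0) F
  rw [h2, h4] at h3
  have h5 : ∑ α ∈ P.support, (wt α : ℚ) * φ (coeff α P) ^ 2 = 0 := by
    rw [← map_zero φ, ← h3]
    change _ = φ (ap _ P)
    conv_rhs => rw [P.as_sum]
    simp only [map_sum, ap_monomial, coeff_map, hG]
    refine Finset.sum_congr rfl fun α _ => ?_
    rw [← map_natCast (algebraMap ℚ S), ← map_mul, mul_comm (coeff α P), ← Algebra.smul_def,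
      map_smul, smul_eq_mul]
    ring
  by_cases hα : α ∈ P.support
  · have := (Finset.sum_eq_zero_iff_of_nonneg fun α _ => by positivity).1 h5 α hα
    have h6 : (wt α : ℚ) ≠ 0 := Nat.cast_ne_zero.2 (wt_pos α).ne'
    simpa [h6] using this
  · rw [notMem_support_iff.1 hα, map_zero]

end Pool.Agent.Lib.MP_c0708e_al.Tits
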