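import Pool.Agent.Lib.MP_c0708e_al.TInd

/-! Zassenhaus: the derived length of a soluble linear group is bounded in terms of the degree. -/

set_option linter.style.haveILetI false

namespace Pool.Agent.Lib.MP_c0708e_al.Tits

open Module
open scoped commutatorElement

lemma deriv_eq_bot_of_card {Q : Type} [Group Q] [Finite Q] [Group.IsSolvable Q] {c : ℕ}
    (hc : Nat.card Q ≤ c) : derivedSeries Q c = ⊥ := by
  have key : ∀ j, derivedSeries Q j = ⊥ ∨ Nat.card (derivedSeries Q j) + j ≤ Nat.card Q := by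
    intro j
    induction j with
    | zero => right; simp
    | succ j ih =>
      by_cases h : derivedSeries Q j = ⊥
      · left; rw [derivedSeries_succ, h]; simp
      right
      have h1 := Group.IsSolvable.commutator_lt_of_ne_bot h
      rw [← derivedSeries_succ] at h1
      have h2 : Nat.card (derivedSeries Q (j + 1)) < Nat.card (derivedSeries Q j) := by
        refine lt_of_le_of_ne (Subgroup.card_le_of_le h1.le) fun e => h1.ne ?_
        exact Subgroup.eq_of_le_of_card_ge h1.le e.ge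
      have := ih.resolve_left h
      omega
  refine (key c).resolve_right fun h => ?_
  have : 0 < Nat.card (derivedSeries Q c) := Nat.card_pos
  omega

/-- A deep derived subgroup preserves every joint eigenspace of a normal subgroup. -/
lemma deriv_pres {K M H : Type} [Field K] [AddCommGroup M] [Module K M] [FiniteDimensional K M]
    [Group H] [Group.IsSolvable H] (σ : Representation K H M) (A : Subgroup H) [hA : A.Normal]
    {c : ℕ} (hc : (finrank K M).factorial ≤ c) {h : H} (hh : h ∈ derivedSeries H c)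
    (χ : A → K) {x : M} (hx : ∀ a : A, σ a x = χ a • x) (a : A) :
    σ a (σ h x) = χ a • σ h x := by
  classical
  by_cases hx0 : x = 0
  · simp [hx0]
  let E : (A → K) → Submodule K M := fun χ => ⨅ a : A, Module.End.eigenspace (σ a) (χ a)
  have hE : ∀ χ y, y ∈ E χ ↔ ∀ a : A, σ a y = χ a • y := fun χ y => by
    simp only [E, Submodule.mem_iInf, Module.End.mem_eigenspace_iff]
  have hind : iSupIndep E := iSupIndep.iInf (fun (a : A) (t : K) => Module.End.eigenspace (σ a) t)
    fun a => Module.End.eigenspaces_iSupIndep _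
  letI := hind.fintypeNeBotOfFiniteDimensional
  have hcard := hind.subtype_ne_bot_le_finrank
  have hmem : ∀ (g : H) (a : A), g⁻¹ * a * g ∈ A := fun g a => by
    simpa using hA.conj_mem _ a.2 g⁻¹
  have hact : ∀ (g : H) (χ : A → K) (y : M), y ∈ E χ →
      σ g y ∈ E fun a => χ ⟨_, hmem g a⟩ := fun g χ y hy => by
    rw [hE] at hy ⊢
    intro a
    rw [← map_smul, ← hy, ← Module.End.mul_apply, ← Module.End.mul_apply, ← map_mul, ← map_mul]
    congr 2
    group
  have hne : ∀ (g : H) (y : M), y ≠ 0 → σ g y ≠ 0 := fun g y hy h0 => hy (by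
    have := congrArg (σ g⁻¹) h0
    rwa [← Module.End.mul_apply, ← map_mul, inv_mul_cancel, map_one, map_zero] at this)
  letI : MulAction H {χ : A → K // E χ ≠ ⊥} :=
    { smul := fun g χ => ⟨fun a => χ.1 ⟨_, hmem g a⟩, by
        obtain ⟨y, hy, hy0⟩ := (Submodule.ne_bot_iff _).1 χ.2
        exact (Submodule.ne_bot_iff _).2 ⟨_, hact g _ y hy, hne g y hy0⟩⟩
      one_smul := fun χ => Subtype.ext (funext fun a => congrArg χ.1 (Subtype.ext (by simp)))
      mul_smul := fun g g' χ => Subtype.ext (funext fun a => congrArg χ.1 (Subtype.ext (by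
        simp [mul_assoc]))) }
  let φ := MulAction.toPermHom H {χ : A → K // E χ ≠ ⊥}
  haveI : Group.IsSolvable φ.range := Group.isSolvable_of_surjective φ.rangeRestrict_surjective
  have h1 : Nat.card φ.range ≤ c := by
    refine (Subgroup.card_le_card_group _).trans (le_trans ?_ hc)
    rw [Nat.card_eq_fintype_card, Fintype.card_perm]
    exact Nat.factorial_le hcard
  have h2 := map_derivedSeries_le_derivedSeries φ.rangeRestrict c ⟨h, hh, rfl⟩
  rw [deriv_eq_bot_of_card h1, Subgroup.mem_bot] at h2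
  have hxE : x ∈ E χ := (hE χ x).2 hx
  have h3 : φ h = 1 := congrArg Subtype.val h2
  have h4 := congrArg Subtype.val (DFunLike.congr_fun h3
    ⟨χ, (Submodule.ne_bot_iff _).2 ⟨x, hxE, hx0⟩⟩)
  have h5 : (fun a : A => χ ⟨_, hmem h a⟩) = χ := h4
  have h6 := hact h χ x hxE
  rw [h5] at h6
  exact (hE χ _).1 h6 a

lemma zas_faith {K V H : Type} [Field K] [IsAlgClosed K] [AddCommGroup V] [Module K V]
    [FiniteDimensional K V] [Nontrivial V] [Group H] [Group.IsSolvable H]
    (ρ : Representation K H V) (hρ : Function.Injective ρ) {c : ℕ}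
    (hc : (finrank K V * finrank K V).factorial ≤ c)
    (hirr : ∀ W : Submodule K V, W ≠ ⊥ → (∀ g ∈ derivedSeries H c, ∀ x ∈ W, ρ g x ∈ W) → W = ⊤) :
    derivedSeries H (c + 2) = ⊥ := by
  have hc' : (finrank K V).factorial ≤ c :=
    (Nat.factorial_le (Nat.le_mul_self _)).trans hc
  have step1 : ∀ A : Subgroup H, A.Normal → (∀ a ∈ A, ∀ b ∈ A, a * b = b * a) →
      ∀ a ∈ A, ∃ t : K, ρ a = t • 1 := by
    intro A hA hcomm
    obtain ⟨χ, hχ⟩ := exists_common_eigenvector (fun a : A => ρ a)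
      fun a b => by rw [Commute, SemiconjBy, ← map_mul, ← map_mul, hcomm a a.2 b b.2]
    have := hirr _ hχ (fun g hg x hx => by
      simp only [Submodule.mem_iInf, Module.End.mem_eigenspace_iff] at hx ⊢
      exact deriv_pres ρ A hc' hg χ hx)
    intro a ha
    refine ⟨χ ⟨a, ha⟩, LinearMap.ext fun x => ?_⟩
    have hx : x ∈ ⨅ a : A, Module.End.eigenspace (ρ a) (χ a) := this ▸ Submodule.mem_top
    simp only [Submodule.mem_iInf, Module.End.mem_eigenspace_iff] at hx
    simpa using hx ⟨a, ha⟩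
  have hZ1 : ∀ a ∈ Subgroup.center H, ∃ t : K, ρ a = t • 1 :=
    step1 _ inferInstance fun a _ b hb => Subgroup.mem_center_iff.1 hb a
  have step1' : ∀ A : Subgroup H, A.Normal → (∀ a ∈ A, ∀ b ∈ A, a * b = b * a) →
      A ≤ Subgroup.center H := fun A hA h a ha => by
    obtain ⟨t, ht⟩ := step1 A hA h a ha
    refine Subgroup.mem_center_iff.2 fun g => hρ ?_
    rw [map_mul, map_mul, ht, mul_smul_comm, smul_mul_assoc, mul_one, one_mul]
  have step2 : ∀ B : Subgroup H, B.Normal → ⁅B, B⁆ ≤ Subgroup.center H →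
      ⁅derivedSeries H c, B⁆ ≤ Subgroup.center H := by
    intro B hB hBB
    refine le_trans ?_ (step1' (B ⊓ Subgroup.centralizer B) inferInstance
      fun a ha b hb => hb.2 a ha.1)
    rw [Subgroup.commutator_le]
    intro h hh b hb
    refine ⟨Subgroup.commutator_le_right ⊤ B
      (Subgroup.commutator_mem_commutator (Subgroup.mem_top h) hb), fun a ha => hρ ?_⟩
    choose t ht using fun a : B => hZ1 _ (hBB (Subgroup.commutator_mem_commutator a.2 hb))
    have e : ∀ g x : H, ρ.linHom ρ g (ρ x) = ρ (g * x * g⁻¹) := fun g x => by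
      rw [map_mul, map_mul]; rfl
    have h0 : ∀ a : B, ρ.linHom ρ a (ρ b) = t a • ρ b := fun a => by
      rw [e, show (a : H) * b * (a : H)⁻¹ = ⁅(a : H), b⁆ * b by group, map_mul, ht,
        smul_mul_assoc, one_mul]
    have h1 := deriv_pres (ρ.linHom ρ) B (by rwa [Module.finrank_linearMap]) hh t h0 ⟨a, ha⟩
    have h2 := h0 ⟨a, ha⟩
    simp only [e] at h1 h2
    have h3 : ρ b⁻¹ = t ⟨a, ha⟩ • ρ (a * b⁻¹ * a⁻¹) := by
      rw [show b⁻¹ = b⁻¹ * (a * b * a⁻¹) * (a * b⁻¹ * a⁻¹) by group]
      conv_lhs => rw [map_mul, map_mul, h2, mul_smul_comm, ← map_mul, inv_mul_cancel, map_one,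
        smul_mul_assoc, one_mul]
      congr 2
      group
    have h4 : ρ (a * ⁅h, b⁆ * a⁻¹) = ρ ⁅h, b⁆ := by
      rw [show a * ⁅h, b⁆ * a⁻¹ = a * (h * b * h⁻¹) * a⁻¹ * (a * b⁻¹ * a⁻¹) by group, map_mul, h1,
        smul_mul_assoc, ← mul_smul_comm, ← h3, ← map_mul]
      rfl
    rw [map_mul ρ ⁅h, b⁆, ← h4, ← map_mul]
    congr 1
    group
  have hcen : ∀ A B : Subgroup H, A ≤ Subgroup.center H → ⁅A, B⁆ = ⊥ := fun A B h =>
    Subgroup.commutator_eq_bot_iff_le_centralizer.2 (h.trans (Subgroup.center_le_centralizer _))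
  have step3 : ∀ j, derivedSeries H (c + 1 + j) ≤ Subgroup.center H →
      derivedSeries H (c + 1) ≤ Subgroup.center H := by
    intro j
    induction j with
    | zero => exact id
    | succ j ih =>
      intro h
      have h1 := step2 _ inferInstance h
      have h2 : ⁅derivedSeries H (c + 1), derivedSeries H (c + 1 + j)⁆ = ⊥ :=
        Subgroup.commutator_commutator_eq_bot_of_rotate (hcen _ _ h1)
          (hcen _ _ (by rwa [Subgroup.commutator_comm]))
      refine ih (step1' _ inferInstance fun a ha b hb => ?_)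
      exact (Subgroup.commutator_eq_bot_iff_le_centralizer.1 h2
        (derivedSeries_antitone H (Nat.le_add_right _ _) hb) a ha)
  obtain ⟨j, hj⟩ := Group.IsSolvable.solvable (G := H)
  exact hcen _ _ (step3 j ((derivedSeries_antitone H (Nat.le_add_left _ _)).trans
    (hj.le.trans bot_le)))

theorem zassenhaus (d : ℕ) : ∃ f : ℕ, ∀ (K V H : Type) [Field K] [IsAlgClosed K] [AddCommGroup V]
    [Module K V] [FiniteDimensional K V] [Group H] [Group.IsSolvable H]
    (ρ : Representation K H V), finrank K V ≤ d → ∀ g ∈ derivedSeries H f, ρ g = 1 := by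
  induction d with
  | zero =>
    refine ⟨0, fun K V H _ _ _ _ _ _ _ ρ hd g _ => ?_⟩
    haveI := Module.finrank_zero_iff.1 (Nat.le_zero.1 hd)
    exact Subsingleton.elim _ _
  | succ d ih =>
  obtain ⟨f, ih⟩ := ih
  let c := ((d + 1) * (d + 1)).factorial
  refine ⟨c + (f + 2), fun K V H _ _ _ _ _ _ _ ρ hd g hg => ?_⟩
  rcases subsingleton_or_nontrivial V with _ | _
  · exact Subsingleton.elim _ _
  by_cases hirr : ∀ W : Submodule K V, W ≠ ⊥ →
      (∀ g ∈ derivedSeries H c, ∀ x ∈ W, ρ g x ∈ W) → W = ⊤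
  · let ρ' : Representation K (H ⧸ ρ.ker) V := QuotientGroup.lift ρ.ker ρ fun _ h => h
    have h1 := zas_faith ρ' ((injective_iff_map_eq_one ρ').2 fun q hq => by
      obtain ⟨q, rfl⟩ := QuotientGroup.mk_surjective q
      exact (QuotientGroup.eq_one_iff q).2 hq) (c := c)
      (Nat.factorial_le (Nat.mul_le_mul hd hd)) fun W hW h => hirr W hW fun g hg =>
        h _ (map_derivedSeries_le_derivedSeries (QuotientGroup.mk' ρ.ker) c ⟨g, hg, rfl⟩)
    have h2 := map_derivedSeries_le_derivedSeries (QuotientGroup.mk' ρ.ker) (c + 2)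
      ⟨g, derivedSeries_antitone H (by omega) hg, rfl⟩
    rw [h1, Subgroup.mem_bot] at h2
    exact (QuotientGroup.eq_one_iff g).1 h2
  push Not at hirr
  obtain ⟨W, hW0, hW, hW1⟩ := hirr
  let N := derivedSeries H c
  obtain ⟨g, hg', rfl⟩ := deriv_le_map (N := N) le_rfl (f + 2) hg
  let ρ' : Representation K N V := ρ.comp N.subtype
  have hW' : ∀ g, W ≤ W.comap (ρ' g) := fun g x hx => hW g g.2 x hx
  have h1 := ih K W N (ρ'.subrepresentation W hW')
    (Nat.le_of_lt_succ ((Submodule.finrank_lt hW1).trans_le hd))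
  have h2 := ih K (V ⧸ W) N (ρ'.quotient W hW') (by
    have := Submodule.finrank_quotient_add_finrank W
    have h3 : finrank K W ≠ 0 := fun h => hW0 (Submodule.finrank_eq_zero.1 h)
    omega)
  refine deriv_succ_of_comm ρ' (j := f) (fun g hg g' hg' => ?_) g
    (derivedSeries_antitone N (by omega) hg')
  have a1 : ∀ g ∈ derivedSeries N f, ∀ x ∈ W, ρ' g x = x := fun g hg x hx =>
    congrArg Subtype.val (LinearMap.congr_fun (h1 g hg) ⟨x, hx⟩)
  have a2 : ∀ g ∈ derivedSeries N f, ∀ x, ρ' g x - x ∈ W := fun g hg x =>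
    (Submodule.Quotient.eq W).1 (LinearMap.congr_fun (h2 g hg) (W.mkQ x))
  ext x
  have b1 := a1 g hg _ (a2 g' hg' x)
  have b2 := a1 g' hg' _ (a2 g hg x)
  rw [map_sub] at b1 b2
  change ρ' g (ρ' g' x) = ρ' g' (ρ' g x)
  rw [eq_add_of_sub_eq b1, eq_add_of_sub_eq b2]
  abel

/-- Matrix form over a commutative ring: a deep derived subgroup is trivial modulo the
nilradical. -/
theorem zassenhaus_nil (n : ℕ) : ∃ f : ℕ, ∀ (R H : Type) [CommRing R] [Group H]
    [Group.IsSolvable H] (ρ : H →* Matrix (Fin n) (Fin n) R), ∀ g ∈ derivedSeries H f, ∀ i j,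
      IsNilpotent ((ρ g - 1) i j) := by
  obtain ⟨f, hf⟩ := zassenhaus n
  refine ⟨f, fun R H _ _ _ ρ g hg i j => ?_⟩
  rw [nilpotent_iff_mem_prime]
  intro P hP
  let K := AlgebraicClosure (FractionRing (R ⧸ P))
  let ψ : R ⧸ P →+* K := (algebraMap (FractionRing (R ⧸ P)) K).comp (algebraMap _ _)
  have hψ : Function.Injective ψ :=
    (algebraMap (FractionRing (R ⧸ P)) K).injective.comp (IsFractionRing.injective _ _)
  let φ : R →+* K := ψ.comp (Ideal.Quotient.mk P)
  let ρ' : Representation K H (Fin n → K) :=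
    (Matrix.toLinAlgEquiv'.toRingEquiv.toRingHom.comp φ.mapMatrix).toMonoidHom.comp ρ
  have h := hf K (Fin n → K) H ρ' (by simp) g hg
  have h1 : φ.mapMatrix (ρ g) = φ.mapMatrix 1 :=
    Matrix.toLinAlgEquiv'.injective (h.trans (by simp))
  rw [← sub_eq_zero, ← map_sub] at h1
  have h2 : ψ (Ideal.Quotient.mk P ((ρ g - 1) i j)) = 0 := congrFun (congrFun h1 i) j
  exact Ideal.Quotient.eq_zero_iff_mem.1 (hψ (h2.trans (map_zero ψ).symm))

end Pool.Agent.Lib.MP_c0708e_al.Tits
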